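import Pool.Agent.MP_f3836a_nt.RG.SpecA
import Pool.Agent.MP_f3836a_nt.GV.ABc
import Pool.Agent.MP_f3836a_nt.GV.RApi

/-! Rows BCH and IRR: charts over small discs, and irreducibility. -/

set_option autoImplicit false

namespace Pool.Agent.MP_f3836a_nt.GV.A.U

open Polynomial NumberField Filter Topology Metric PK VE.Z GP GV.T RG TensorProduct

namespace ABch

theorem hom_sum {R 𝒜 C : Type} [CommRing R] [CommRing 𝒜] [CommRing C] [Algebra R 𝒜] {n : ℕ}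
    (η : Module.Basis (Fin n) R 𝒜) (ψ : 𝒜 →+* C) (τ : R →+* C)
    (h : ∀ r, ψ (algebraMap R 𝒜 r) = τ r) (a : 𝒜) : ψ a = ∑ i, τ (η.repr a i) * ψ (η i) := by
  conv_lhs => rw [← η.sum_repr a, map_sum]
  exact Finset.sum_congr rfl fun i _ => by rw [Algebra.smul_def, map_mul, h]

theorem hom_base {R 𝒜 C : Type} [CommRing R] [CommRing 𝒜] [CommRing C] [Algebra R 𝒜] {n : ℕ}
    [NeZero n] (η : Module.Basis (Fin n) R 𝒜) (h0 : η 0 = 1) (ψ : 𝒜 →+* C) (τ : R →+* C)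
    {u : Fin n → C} (hu : u 0 = 1) (h : ∀ a, ψ a = ∑ i, τ (η.repr a i) * u i) (r : R) :
    ψ (algebraMap R 𝒜 r) = τ r := by
  rw [h, Algebra.algebraMap_eq_smul_one, ← h0, map_smul, η.repr_self,
    Finset.sum_eq_single 0 (fun i _ hi => by simp [hi.symm]) (by simp)]
  simp [hu]

theorem hm_of_hom {R 𝒜 C : Type} [CommRing R] [CommRing 𝒜] [CommRing C] [Algebra R 𝒜] {n : ℕ}
    [NeZero n] (η : Module.Basis (Fin n) R 𝒜) (h0 : η 0 = 1) (ψ : 𝒜 →+* C) (τ : R →+* C)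
    (h : ∀ r, ψ (algebraMap R 𝒜 r) = τ r) :
    Hm (fun i => (Algebra.leftMulMatrix η (η i)).map τ) fun i => ψ (η i) :=
  ⟨by simp only [h0, map_one], fun i j => by
    rw [← map_mul, hom_sum η ψ τ h]
    simp only [Matrix.map_apply, Algebra.leftMulMatrix_eq_repr_mul]⟩

theorem poly_hom {A 𝒜 : Type} [CommRing A] [CommRing 𝒜] [Algebra A 𝒜] [Algebra A[X] 𝒜]
    [IsScalarTower A A[X] 𝒜] (ψ : 𝒜 →+* ℂ) (σ : A →+* ℂ) {t : ℂ}
    (hx : ψ (algebraMap A[X] 𝒜 X) = t) (hc : ∀ a, ψ (algebraMap A 𝒜 a) = σ a) (r : A[X]) :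
    ψ (algebraMap A[X] 𝒜 r) = eval₂RingHom σ t r := by
  refine RingHom.congr_fun (f := ψ.comp (algebraMap A[X] 𝒜))
    (Polynomial.ringHom_ext (fun a => ?_) (by simpa using hx)) r
  rw [RingHom.comp_apply, coe_eval₂RingHom, eval₂_C, ← Polynomial.algebraMap_eq,
    ← IsScalarTower.algebraMap_apply, hc]

end ABch

open ABch

theorem aBch : OfBch := by
  intro hF hA hS hH hB K 𝒜 _ _ _ _ S μ N x hμ hx
  let _ : Algebra (𝓞 K)[X] 𝒜 := (aeval x).toRingHom.toAlgebra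
  have hv : algebraMap (𝓞 K)[X] 𝒜 X = x := aeval_X _
  have : IsScalarTower (𝓞 K) (𝓞 K)[X] 𝒜 :=
    IsScalarTower.of_algebraMap_eq fun o => (aeval_C _ o).symm
  have : IsDomain 𝒜 := (hF _ _ S μ hμ).dom inferInstance
  obtain ⟨η, h0, -⟩ := hA (𝓞 K) 𝒜 S μ (N + 1) hμ (hv.symm ▸ hx)
  have hΔ := hS (𝓞 K)[X] 𝒜 (N + 1) η
  obtain ⟨p0, hp0, q, hq⟩ := Polynomial.exists_dvd_map_of_isAlgebraic (R := ℤ) hΔ
  refine ⟨p0, hp0, fun σ t0 ht0 => ?_⟩
  set σ' := σ.comp (algebraMap (𝓞 K) K) with hσ'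
  have r0 : Rng fun i => Algebra.leftMulMatrix η (η i) :=
    ⟨𝒜, inferInstance, inferInstance, η, h0, fun _ => rfl⟩
  have eT : ∀ s, tA (fun i => (Algebra.leftMulMatrix η (η i)).map (mapRingHom σ')) s =
      fun i => (Algebra.leftMulMatrix η (η i)).map (eval₂RingHom σ' s) := fun s => by
    funext i
    ext l j
    simp only [tA, Matrix.map_apply, coe_mapRingHom, coe_eval₂RingHom, eval_map]
  have hd : disc (fun i => (Algebra.leftMulMatrix η (η i)).map (eval₂RingHom σ' t0)) ≠ 0 := by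
    rw [← disc_map]
    intro h
    apply ht0
    have e := congrArg (eval₂RingHom σ' t0) hq
    rw [map_mul, h, zero_mul, coe_eval₂RingHom, eval₂_map] at e
    rw [aeval_def, ← e]
    congr 1
    exact Subsingleton.elim _ _
  obtain ⟨P, hP, hb, -⟩ := hH (N + 1) _ (r0.map _) hd
  obtain ⟨Y, hY, ev⟩ := hB (N + 1) _ t0 P (fun k => by rw [eT]; exact hP k) hb
  have ea : ∀ᶠ s in 𝓝 t0, ∀ k, AnalyticAt ℂ (Y k) s :=
    eventually_all.2 fun k => (hY k).2.eventually_analyticAt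
  obtain ⟨ρ, hρ, hball⟩ := Metric.eventually_nhds_iff_ball.1 (ev.and ea)
  have key : ∀ t ∈ ball t0 ρ, (∀ k, Hm (fun i => (Algebra.leftMulMatrix η (η i)).map
      (eval₂RingHom σ' t)) (Y k t)) ∧ ∀ u, Hm (fun i => (Algebra.leftMulMatrix η (η i)).map
      (eval₂RingHom σ' t)) u → ∃ k, u = Y k t := fun t ht => by
    have := (hball t ht).1.2
    rw [eT] at this
    exact this (r0.map _)
  have ex : ∀ k t, ∃ Ψ : 𝒜 →+* ℂ, (∀ a, Ψ (algebraMap (𝓞 K) 𝒜 a) = σ' a) ∧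
      (t ∈ ball t0 ρ → Ψ x = t ∧ ∀ a, Ψ a = ∑ i, eval₂RingHom σ' t (η.repr a i) * Y k t i) := by
    have e1 : ∀ k, ∀ t ∈ ball t0 ρ, ∃ Ψ : 𝒜 →+* ℂ, (∀ a, Ψ (algebraMap (𝓞 K) 𝒜 a) = σ' a) ∧
        Ψ x = t ∧ ∀ a, Ψ a = ∑ i, eval₂RingHom σ' t (η.repr a i) * Y k t i := fun k t ht => by
      obtain ⟨Ψ, hΨ⟩ := exists_hom η h0 _ ((key t ht).1 k)
      have e2 := hom_base η h0 Ψ _ ((key t ht).1 k).1 hΨ
      refine ⟨Ψ, fun a => ?_, ?_, hΨ⟩
      · rw [IsScalarTower.algebraMap_apply (𝓞 K) (𝓞 K)[X] 𝒜, e2, Polynomial.algebraMap_eq,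
          coe_eval₂RingHom, eval₂_C]
      · rw [← hv, e2, coe_eval₂RingHom, eval₂_X]
    intro k t
    by_cases ht : t ∈ ball t0 ρ
    · exact (e1 k t ht).imp fun _ h => ⟨h.1, fun _ => h.2⟩
    · exact (e1 k t0 (mem_ball_self hρ)).imp fun _ h => ⟨h.1, fun h' => absurd h' ht⟩
  choose φ h1 h2 using ex
  refine ⟨ρ, φ, hρ, h1, fun k u => ?_, fun k t ht => (h2 k t ht).1, fun t ht ψ e1 e2 => ?_⟩
  · refine DifferentiableOn.congr (f := fun t => ∑ i, ((η.repr u i).map σ').eval t * Y k t i)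
      (DifferentiableOn.fun_sum fun i _ => (Polynomial.differentiable _).differentiableOn.mul
        fun t ht => ?_) fun t ht => ?_
    · exact (differentiableAt_pi.1 ((hball t ht).2 k).differentiableAt i).differentiableWithinAt
    · rw [(h2 k t ht).2]
      simp only [coe_eval₂RingHom, eval_map]
  · have e3 := poly_hom ψ σ' (hv.symm ▸ e1) e2
    obtain ⟨k, hk⟩ := (key t ht).2 _ (hm_of_hom η h0 ψ _ e3)
    refine ⟨k, RingHom.ext fun a => ?_⟩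
    rw [(h2 k t ht).2, ← hk]
    exact hom_sum η ψ _ e3 a

theorem aIrr : OfIrr := by
  intro hF hA hN A 𝒜 _ _ _ _ S μ N D x σ a r hμ hx h0 hinf d
  have : NeZero N := ⟨h0.ne'⟩
  let _ : Algebra A ℂ := σ.toAlgebra
  let φ : 𝒜 →+* ℂ ⊗[A] 𝒜 := (Algebra.TensorProduct.includeRight : 𝒜 →ₐ[A] ℂ ⊗[A] 𝒜).toRingHom
  let ν := Algebra.TensorProduct.basis ℂ μ
  let _ : Algebra ℂ[X] (ℂ ⊗[A] 𝒜) := (aeval (φ x)).toRingHom.toAlgebra
  have hv : φ x = algebraMap ℂ[X] (ℂ ⊗[A] 𝒜) X := (aeval_X _).symm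
  have : IsScalarTower ℂ ℂ[X] (ℂ ⊗[A] 𝒜) :=
    IsScalarTower.of_algebraMap_eq fun o => (aeval_C _ o).symm
  have hb : ∀ d, ν d = φ (μ d) := fun d => Algebra.TensorProduct.basis_apply μ d
  have hr : ∀ g d, ν.repr (φ g) d = algebraMap A ℂ (μ.repr g d) := fun g d => by
    change ν.repr (1 ⊗ₜ g) d = _
    rw [Algebra.TensorProduct.basis_repr_tmul, one_smul, Finsupp.mapRange_apply]
  have hν : FM ν := ⟨hμ.cof, by rw [hb, hμ.one, map_one],
    fun d d' => by rw [hb, hb, ← map_mul, hr, hμ.top, map_one],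
    fun d d' c h => by rw [hb, hb, ← map_mul, hr, hμ.low d d' c h, map_zero]⟩
  have : IsDomain (ℂ ⊗[A] 𝒜) := (hF _ _ S ν hν).dom inferInstance
  obtain ⟨η, -, -⟩ := hA ℂ (ℂ ⊗[A] 𝒜) S ν N hν (hv ▸ ABc.mo hr hx)
  have hz : ∑ k, r k • φ (a k) = 0 := by
    rw [← Algebra.norm_eq_zero_iff_of_basis η]
    refine eq_zero_of_infinite_isRoot _ (hinf.mono ?_)
    rintro t ⟨ψ, e1, e2, e3⟩
    let Ψ : ℂ ⊗[A] 𝒜 →ₐ[ℂ] ℂ :=
      Algebra.TensorProduct.lift (AlgHom.id ℂ ℂ) ⟨ψ, e2⟩ fun _ _ => Commute.all _ _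
    have hΨ : ∀ g, Ψ (φ g) = ψ g := fun g => by
      change Algebra.TensorProduct.lift _ _ _ (1 ⊗ₜ g) = _
      rw [Algebra.TensorProduct.lift_tmul, map_one, one_mul]
      rfl
    have e4 : Ψ (∑ k, r k • φ (a k)) = 0 := by
      rw [map_sum, ← e3]
      exact Finset.sum_congr rfl fun k _ => by rw [map_smul, hΨ, smul_eq_mul]
    obtain ⟨c, hc⟩ := (hN ℂ[X] (ℂ ⊗[A] 𝒜) (Fin N) η).2.1 (∑ k, r k • φ (a k))
    have e5 := poly_hom Ψ.toRingHom (RingHom.id ℂ) (t := t) (by rw [← hv]; exact (hΨ x).trans e1)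
      (fun o => Ψ.commutes o) (Algebra.norm ℂ[X] (∑ k, r k • φ (a k)))
    rw [hc, map_mul] at e5
    have e6 : Ψ.toRingHom (∑ k, r k • φ (a k)) = 0 := e4
    rw [e6, zero_mul] at e5
    exact e5.symm
  have := congrArg (fun b => ν.repr b d) hz
  simp only [map_sum, map_smul, Finsupp.finsetSum_apply, Finsupp.smul_apply, hr, smul_eq_mul,
    map_zero, Finsupp.zero_apply] at this
  exact this

end Pool.Agent.MP_f3836a_nt.GV.A.U
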