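import Pool.Agent.MP_f3836a_nt.RG.SpecA
import Pool.Agent.MP_f3836a_nt.GP.TFin

/-! Part A: differentials at a place. -/

set_option autoImplicit false

namespace Pool.Agent.MP_f3836a_nt.GV.A.U

open Polynomial NumberField Filter Topology Metric PK VE.Z GP GV.T RG IntermediateField

namespace ADv

variable {F : Type} [Field F]

theorem dzero : dd (0 : F) = 0 := map_zero _

theorem dadd (a b : F) : dd (a + b) = dd a + dd b := map_add _ a b

theorem dneg (a : F) : dd (-a) = -dd a := map_neg _ a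

theorem dmul (a b : F) : dd (a * b) = a • dd b + b • dd a := Derivation.leibniz _ a b

theorem dinv (a : F) : dd a⁻¹ = -a⁻¹ ^ 2 • dd a := Derivation.leibniz_inv _ a

theorem dzp (a : F) (n : ℤ) : dd (a ^ n) = n • a ^ (n - 1) • dd a := Derivation.leibniz_zpow _ a n

theorem dae (a : F) (q : ℤ[X]) : dd (aeval a q) = aeval a (derivative q) • dd a :=
  Derivation.comp_aeval_eq a _ q

/-- elements whose differential lies in a given subspace -/
def sub (M : Submodule F (Om F)) : Subfield F where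
  carrier := {a | dd a ∈ M}
  zero_mem' := by simp
  one_mem' := by simp
  add_mem' := fun {a b} h k => by
    simp only [Set.mem_ofPred_eq, map_add] at *
    exact M.add_mem h k
  neg_mem' := fun {a} h => by
    simp only [Set.mem_ofPred_eq, map_neg] at *
    exact M.neg_mem h
  mul_mem' := fun {a b} h k => by
    simp only [Set.mem_ofPred_eq, Derivation.leibniz] at *
    exact M.add_mem (M.smul_mem _ k) (M.smul_mem _ h)
  inv_mem' := fun a h => by
    simp only [Set.mem_ofPred_eq, Derivation.leibniz_inv] at *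
    exact M.smul_mem _ h

theorem aev {K : Type} [CommRing K] [Algebra K F] (M : Submodule F (Om F))
    (h : ∀ c, dd (algebraMap K F c) ∈ M) (a : F) (q : K[X]) :
    dd (aeval a q) - aeval a (derivative q) • dd a ∈ M := by
  induction q using Polynomial.induction_on' with
  | add p q hp hq =>
    convert M.add_mem hp hq using 1
    simp only [map_add, add_smul]
    abel
  | monomial n c =>
    convert M.smul_mem (a ^ n) (h c) using 1
    simp only [derivative_monomial, aeval_monomial, Derivation.leibniz, Derivation.leibniz_pow,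
      map_mul, map_natCast, ← Nat.cast_smul_eq_nsmul F, smul_smul, mul_assoc]
    abel

theorem ddq [CharZero F] (q : ℚ) : dd (q : F) = 0 := by
  have : (q : F) ∈ sub (⊥ : Submodule F (Om F)) := SubfieldClass.ratCast_mem _ q
  exact this

theorem tru [CharZero F] {P : Subring F} (hP : Pl P) {π : F} (h : ordR P π = 1) :
    π ≠ 0 ∧ Nu P π ∧ Transcendental ℤ π := by
  have k := dvA hP.1
  have p0 : π ≠ 0 := by
    rintro rfl
    simp [ordR] at h
  have nu : Nu P π := (k.nu π).2 (.inr (by omega))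
  refine ⟨p0, nu, fun c => nu.not ⟨p0, nu.1, ?_⟩⟩
  have hz : IsIntegral ℚ π⁻¹ := ((IsFractionRing.isAlgebraic_iff ℤ ℚ F).1 c).inv.isIntegral
  let V : ValuationSubring F := ⟨P, k.val⟩
  let := ((algebraMap ℚ F).codRestrict V (TFin.rat hP.2)).toAlgebra
  have : IsScalarTower ℚ V F := .of_algebraMap_eq fun _ => rfl
  obtain ⟨y, hy⟩ := (IsIntegrallyClosed.isIntegral_iff (R := V)).1 (IsIntegral.tower_top hz)
  exact Set.mem_of_eq_of_mem hy.symm y.2

/-- elements of `P` whose derivative has a bounded denominator -/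
def bd (P : Subring F) (π : F) (c : ℕ) : Subring F where
  carrier := {a | a ∈ P ∧ ∃ a', dd a = a' • dd π ∧ π ^ c * a' ∈ P}
  zero_mem' := ⟨P.zero_mem, 0, by simp, by simp⟩
  one_mem' := ⟨P.one_mem, 0, by simp, by simp⟩
  add_mem' := by
    rintro a b ⟨h, a', h1, h2⟩ ⟨k, b', k1, k2⟩
    exact ⟨P.add_mem h k, a' + b', by rw [dadd, h1, k1, add_smul],
      mul_add (π ^ c) a' b' ▸ P.add_mem h2 k2⟩
  neg_mem' := by
    rintro a ⟨h, a', h1, h2⟩
    exact ⟨P.neg_mem h, -a', by rw [dneg, h1, neg_smul], mul_neg (π ^ c) a' ▸ P.neg_mem h2⟩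
  mul_mem' := by
    rintro a b ⟨h, a', h1, h2⟩ ⟨k, b', k1, k2⟩
    refine ⟨P.mul_mem h k, a * b' + b * a',
      by rw [dmul, h1, k1, add_smul, smul_smul, smul_smul], ?_⟩
    convert P.add_mem (P.mul_mem h k2) (P.mul_mem k h2) using 1
    ring

theorem bdi {P : Subring F} {π a : F} {c : ℕ} (h : a ∈ bd P π c) (k : a⁻¹ ∈ P) :
    a⁻¹ ∈ bd P π c := by
  obtain ⟨-, a', h1, h2⟩ := h
  refine ⟨k, -a⁻¹ ^ 2 * a', by rw [dinv, h1, smul_smul], ?_⟩
  convert P.mul_mem (P.neg_mem (P.pow_mem k 2)) h2 using 1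
  ring

theorem uti [CharZero F] {P : Subring F} (hP : Ho P) {n : ℤ} (h : n ≠ 0) : Ut P (n : F) := by
  refine ⟨Int.cast_ne_zero.2 h, intCast_mem P n, ?_⟩
  obtain ⟨m, rfl | rfl⟩ := n.eq_nat_or_neg
  · simpa using hP m (by simpa using h)
  · simpa using hP m (by simpa using h)

theorem sep [CharZero F] (fi : Fi F) {P : Subring F} (hP : Pl P) {a : F} (ha : a ∈ P) :
    ∃ q : ℤ[X], Nu P (aeval a q) ∧ Ut P (aeval a (derivative q)) := by
  have := (dvA hP.1).loc
  have mem : ∀ q : ℤ[X], aeval a q = ((aeval (⟨a, ha⟩ : P) q : P) : F) := fun q =>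
    aeval_algHom_apply P.subtype.toIntAlgHom (⟨a, ha⟩ : P) q
  have ex : ∃ q : ℤ[X], q ≠ 0 ∧ Nu P (aeval a q) := by
    let := ((IsLocalRing.residue P).comp
      ((algebraMap ℚ F).codRestrict P (TFin.rat hP.2))).toAlgebra
    have := fi.fd P hP
    have := IsScalarTower.of_algebraMap_eq' (R := ℤ) (S := ℚ) (A := IsLocalRing.ResidueField P)
      (RingHom.ext_int _ _)
    obtain ⟨q, q0, hq⟩ := (IsFractionRing.isAlgebraic_iff ℤ ℚ _).2
      (IsAlgebraic.of_finite ℚ (IsLocalRing.residue P ⟨a, ha⟩))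
    refine ⟨q, q0, ?_⟩
    rw [mem, nu_iff, ← mem_nonunits_iff, ← IsLocalRing.mem_maximalIdeal,
      ← IsLocalRing.residue_eq_zero_iff, ← hq]
    exact (aeval_algHom_apply (IsLocalRing.residue P).toIntAlgHom (⟨a, ha⟩ : P) q).symm
  obtain ⟨q, q0, hq⟩ := ex
  induction hn : q.natDegree using Nat.strong_induction_on generalizing q with
  | _ n ih =>
    have d0 : q.natDegree ≠ 0 := fun e => by
      rw [eq_C_of_natDegree_eq_zero e] at hq q0
      rw [aeval_C, eq_intCast] at hq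
      exact hq.not (uti hP.2 (C_ne_zero.1 q0))
    rcases nu_or (D := P) (a := aeval a (derivative q)) (by rw [mem]; exact Subtype.prop _) with
      k | k
    · exact ih _ (hn ▸ natDegree_derivative_lt d0) _
        (fun e => d0 (derivative_eq_zero.1 e)) k rfl
    · exact ⟨q, hq, k⟩

end ADv

open ADv

theorem aSpan : OfSpan := by
  intro hFf F _ _ x fg tr ω
  have fd := ((hFf F).2.1 fg).1 x tr
  let M : Submodule F (Om F) := .span F {dd x}
  have le : ∀ c : ℚ⟮x⟯, dd (algebraMap ℚ⟮x⟯ F c) ∈ M := fun c =>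
    (adjoin_simple_le_iff (K := (sub M).toIntermediateField fun q =>
      SubfieldClass.ratCast_mem _ q)).2 (Submodule.mem_span_singleton_self _) c.2
  have all : ∀ a : F, dd a ∈ M := fun a => by
    have k := aev M le a (minpoly ℚ⟮x⟯ a)
    rw [minpoly.aeval, dzero, zero_sub, neg_mem_iff] at k
    exact (M.smul_mem_iff ((Algebra.IsSeparable.isSeparable ℚ⟮x⟯ a).aeval_derivative_ne_zero
      (minpoly.aeval _ _))).1 k
  have top : ⊤ ≤ M := by
    rw [← KaehlerDifferential.span_range_derivation, Submodule.span_le]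
    rintro _ ⟨a, rfl⟩
    exact all a
  obtain ⟨h, e⟩ := Submodule.mem_span_singleton.1 (top (Submodule.mem_top (x := ω)))
  exact ⟨h, e.symm⟩

theorem aBdd : OfBdd := by
  intro hFf _ hS F _ _ P π fg hP h1 d0
  obtain ⟨p0, nu, tr⟩ := tru hP h1
  have k := dvA hP.1
  obtain ⟨S, _, _, _, _, _, ⟨s, hs⟩, ch⟩ := TFin.chart tr (((hFf F).2.1 fg).1 π tr)
  obtain ⟨v, hv⟩ := ch P k.val k.ne hP.2 nu.1
  have inP : ∀ r : S, algebraMap S F r ∈ P := fun r => hv ▸ ⟨r, 1, v.asIdeal.primeCompl.one_mem, by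
    simp⟩
  have one : ∀ r : S, ∃ c, ∀ c', c ≤ c' → algebraMap S F r ∈ bd P π c' := fun r => by
    obtain ⟨a', e⟩ := hS F π fg tr (dd (algebraMap S F r))
    refine ⟨(-ordR P a').toNat, fun c' hc => ⟨inP r, a', e, ?_⟩⟩
    rcases eq_or_ne a' 0 with rfl | a0
    · simp
    · refine (k.mem _ (mul_ne_zero (pow_ne_zero _ p0) a0)).2 ?_
      rw [k.mul _ _ (pow_ne_zero _ p0) a0, ← zpow_natCast, k.zpow _ _ p0, h1]
      omega
  choose c hc using one
  have all : ∀ r : S, algebraMap S F r ∈ bd P π (s.sup c) := fun r => by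
    have hr : r ∈ Algebra.adjoin ℚ (s : Set S) := hs ▸ Algebra.mem_top
    induction hr using Algebra.adjoin_induction with
    | mem g hg => exact hc g _ (Finset.le_sup hg)
    | algebraMap q =>
      refine ⟨inP _, 0, ?_, by simp⟩
      rw [zero_smul, ← ddq (F := F) q]
      exact congrArg _ (eq_ratCast ((algebraMap S F).comp (algebraMap ℚ S)) q)
    | add a b _ _ h h' => rw [map_add]; exact add_mem h h'
    | mul a b _ _ h h' => rw [map_mul]; exact mul_mem h h'
  refine ⟨s.sup c, fun a ha a' e => ?_⟩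
  have : a ∈ bd P π (s.sup c) := by
    rw [← hv] at ha
    obtain ⟨r, t, ht, rfl⟩ := ha
    exact mul_mem (all r) (bdi (all t) (hv ▸ ⟨1, t, ht, by simp⟩))
  obtain ⟨-, b, e', hb⟩ := this
  rwa [smul_left_injective F d0 (e.symm.trans e')]

theorem aDvs : OfDvs := by
  intro hFin hS hB F _ _ P z ω fg hP z0 hz hω
  have k := dvA hP.1
  have := k.loc
  obtain ⟨π, -, h1⟩ := k.uni
  obtain ⟨p0, nu, tr⟩ := tru hP h1
  have sp := hS F π fg tr
  rcases eq_or_ne (dd π) 0 with d0 | d0
  · obtain ⟨h, e⟩ := sp ω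
    exact ⟨0, by rw [e, d0, smul_zero, zero_smul], by simpa using nu_zero⟩
  obtain ⟨c, hc⟩ := hB F P π fg hP h1 d0
  have reg : ∀ a ∈ P, ∀ a' : F, dd a = a' • dd π → a' ∈ P := by
    induction c with
    | zero => simpa using hc
    | succ c ih =>
      refine ih fun a ha a' e => ?_
      obtain ⟨q, q1, q2⟩ := sep (hFin F fg) hP ha
      obtain ⟨b, hb, eb⟩ : ∃ b ∈ P, aeval a q = π * b := by
        refine ⟨aeval a q * π⁻¹, ?_, by field_simp⟩
        rcases eq_or_ne (aeval a q) 0 with e | n0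
        · simp [e]
        · refine (k.mem _ (mul_ne_zero n0 (inv_ne_zero p0))).2 ?_
          have := ((k.nu _).1 q1).resolve_left n0
          rw [k.mul _ _ n0 (inv_ne_zero p0), ← zpow_neg_one, k.zpow _ _ p0, h1]
          omega
      obtain ⟨b', e'⟩ := sp (dd b)
      have e2 : (aeval a (derivative q) * a') • dd π = (π * b' + b) • dd π := by
        rw [← smul_smul, ← e, ← dae, eb, dmul, e', add_smul, smul_smul]
      have e3 := smul_left_injective F d0 e2
      convert P.mul_mem q2.2.2 (P.add_mem (hc b hb b' e') (P.mul_mem (P.pow_mem nu.1 c) hb))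
        using 1
      rw [eq_inv_mul_iff_mul_eq₀ q2.1]
      linear_combination π ^ c * e3
  obtain ⟨g, hg, rfl⟩ : ∃ g ∈ P, ω = g • dd π := by
    induction hω using AddSubgroup.closure_induction with
    | mem w hw =>
      obtain ⟨a, ha, b, hb, rfl⟩ := hw
      obtain ⟨b', e⟩ := sp (dd b)
      exact ⟨a * b', P.mul_mem ha (reg b hb b' e), by rw [← smul_smul, ← e]⟩
    | zero => exact ⟨0, P.zero_mem, by simp⟩
    | add _ _ _ _ h h' =>
      obtain ⟨g, hg, rfl⟩ := h
      obtain ⟨g', hg', rfl⟩ := h'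
      exact ⟨g + g', P.add_mem hg hg', (add_smul _ _ _).symm⟩
    | neg _ _ h =>
      obtain ⟨g, hg, rfl⟩ := h
      exact ⟨-g, P.neg_mem hg, (neg_smul _ _).symm⟩
  obtain ⟨e, u, e0, hu, rfl⟩ : ∃ (e : ℤ) (u : F), e ≠ 0 ∧ Ut P u ∧ z = π ^ e * u := by
    have n0 := zpow_ne_zero (-ordR P z) p0
    refine ⟨_, π ^ (-ordR P z) * z, hz, (k.ut _).2 ⟨mul_ne_zero n0 z0, ?_⟩, ?_⟩
    · rw [k.mul _ _ n0 z0, k.zpow _ _ p0, h1]
      ring
    · rw [← mul_assoc, ← zpow_add₀ p0, add_neg_cancel, zpow_zero, one_mul]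
  obtain ⟨u', e'⟩ := sp (dd u)
  have w := (uti hP.2 e0).add (nu.mul (P.mul_mem (reg u hu.2.1 u' e') hu.2.2))
  have w0 := w.1
  have u0 := hu.1
  have n0 := zpow_ne_zero e p0
  refine ⟨g * ((e : F) + u' * u⁻¹ * π)⁻¹ * π / (π ^ e * u), ?_, ?_⟩
  · rw [dmul, dzp, e', ← Int.cast_smul_eq_zsmul F]
    simp only [smul_smul, ← add_smul]
    congr 1
    rw [zpow_sub_one₀ p0, div_mul_eq_mul_div, eq_div_iff z0, mul_assoc g, mul_assoc g]
    congr 1
    rw [mul_assoc, eq_inv_mul_iff_mul_eq₀ w0]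
    field_simp
    ring
  · rw [div_mul_cancel₀ _ z0]
    exact nu.mul (P.mul_mem hg w.2.2)

theorem aInt : OfInt := by
  intro _ hFin F _ _ u y fg _ h
  by_contra hy
  let A := Algebra.adjoin ℚ {u}
  obtain ⟨V, h1, h2⟩ := Subring.exists_le_valuationSubring_of_isIntegrallyClosedIn
    (R := (integralClosure A F).toSubring) (x := y) hy
  have e : ∀ a ∈ A, a ∈ V.toSubring := fun a ha =>
    h1 ((integralClosure A F).algebraMap_mem ⟨a, ha⟩)
  have k : Ho V.toSubring := fun n _ => e _ (by simpa using A.algebraMap_mem (n : ℚ)⁻¹)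
  exact h2 (h _ ⟨(hFin F fg).dvr _ V.mem_or_inv_mem' (fun c => h2 (c.ge trivial)) k, k⟩
    (e u (Algebra.self_mem_adjoin_singleton ℚ u)))

end Pool.Agent.MP_f3836a_nt.GV.A.U
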