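import Pool.Agent.MP_f3836a_nt.RG.SpecA

/-! The global argument, and the periods span. -/

set_option autoImplicit false

namespace Pool.Agent.MP_f3836a_nt.GV.A.U

open Polynomial NumberField Filter Topology Metric PK VE.Z GP GV.T RG

/-- the largest imaginary part -/
noncomputable def mxI {N : ℕ} (G : Fin (N + 1) → ℂ → ℂ) (t : ℂ) : ℝ :=
  Finset.univ.sup' Finset.univ_nonempty fun k => (G k t).im

theorem mxI_le {N : ℕ} (G : Fin (N + 1) → ℂ → ℂ) (t : ℂ) (k : Fin (N + 1)) :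
    (G k t).im ≤ mxI G t :=
  Finset.le_sup' (fun k => (G k t).im) (Finset.mem_univ k)

theorem mxI_ex {N : ℕ} (G : Fin (N + 1) → ℂ → ℂ) (t : ℂ) : ∃ k, mxI G t = (G k t).im := by
  obtain ⟨k, -, hk⟩ := Finset.exists_mem_eq_sup' Finset.univ_nonempty fun k => (G k t).im
  exact ⟨k, hk⟩

theorem mxI_cont {N : ℕ} {G : Fin (N + 1) → ℂ → ℂ} {t : ℂ} (h : ∀ k, ContinuousAt (G k) t) :
    ContinuousAt (mxI G) t :=
  ContinuousAt.finset_sup'_apply Finset.univ_nonempty fun k _ =>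
    Complex.continuous_im.continuousAt.comp (h k)

theorem der_zero {G : ℂ → ℂ} {a w : ℂ} (hd : ∀ᶠ z in 𝓝 a, DifferentiableAt ℂ G z)
    (hw : HasDerivAt G w a) (hm : ∀ᶠ z in 𝓝 a, (G z).im ≤ (G a).im) : w = 0 := by
  have h1 : ∀ᶠ z in 𝓝 a, Complex.exp (-Complex.I * G z) = Complex.exp (-Complex.I * G a) := by
    refine Complex.eventually_eq_of_isLocalMax_norm
      (f := fun z => Complex.exp (-Complex.I * G z)) ?_ ?_
    · filter_upwards [hd] with z hz
      exact (hz.const_mul _).cexp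
    · filter_upwards [hm] with z hz
      simp only [Function.comp, Complex.norm_exp]
      refine Real.exp_le_exp.2 ?_
      simpa using hz
  have h2 := (hw.const_mul (-Complex.I)).cexp
  have h3 : HasDerivAt (fun z => Complex.exp (-Complex.I * G z)) 0 a :=
    (hasDerivAt_const a (Complex.exp (-Complex.I * G a))).congr_of_eventuallyEq h1
  have h4 := h2.unique h3
  simpa [Complex.exp_ne_zero] using h4

theorem aGlb : OfGlb := by
  intro hM H π β U T p N hT hsep hloc h0 hinf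
  have hp : p ≠ 0 := hsep.ne_zero
  have hS : ∀ t, t ∉ p.roots.toFinset ↔ p.eval t ≠ 0 := fun t => by
    simp [hp]
  have hne : Nonempty H := by
    obtain ⟨t, ht⟩ := Infinite.exists_notMem_finset p.roots.toFinset
    obtain ⟨-, φ, -, -⟩ := hloc t ((hS t).1 ht)
    exact ⟨φ 0 t⟩
  choose! ρ φ G hρ hd using hloc
  have hop : ∀ t0, p.eval t0 ≠ 0 → ∀ᶠ t in 𝓝 t0, p.eval t ≠ 0 := fun t0 h =>
    p.continuous.continuousAt.eventually_ne h
  have hle : ∀ t0 t1 z, p.eval t0 ≠ 0 → p.eval t1 ≠ 0 → z ∈ ball t0 (ρ t0) → z ∈ ball t1 (ρ t1) →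
      z ∈ T → mxI (G t0) z ≤ mxI (G t1) z := by
    intro t0 t1 z e0 e1 b0 b1 hz
    obtain ⟨k, hk⟩ := mxI_ex (G t0) z
    obtain ⟨k', hk'⟩ := (hd t1 e1 z b1).2 _ ((hd t0 e0 z b0).1 k).1
    rw [hk, ← ((hd t0 e0 z b0).1 k).2.2 hz, hk', ((hd t1 e1 z b1).1 k').2.2 hz]
    exact mxI_le _ _ _
  have hag : ∀ t0 t, p.eval t0 ≠ 0 → p.eval t ≠ 0 → t ∈ ball t0 (ρ t0) →
      mxI (G t) t = mxI (G t0) t := by
    intro t0 t e0 e b0
    have b : t ∈ ball t (ρ t) := mem_ball_self (hρ t e)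
    refine tendsto_nhds_unique_of_frequently_eq
      (mxI_cont fun k => ((hd t e t b).1 k).2.1.continuousAt)
      (mxI_cont fun k => ((hd t0 e0 t b0).1 k).2.1.continuousAt) ?_
    refine (mem_closure_iff_frequently.1 (hT t)).mp ?_
    filter_upwards [isOpen_ball.mem_nhds b, isOpen_ball.mem_nhds b0] with z z1 z0 hz
    exact le_antisymm (hle t t0 z e e0 z1 z0 hz) (hle t0 t z e0 e z0 z1 hz)
  have hev : ∀ t0, p.eval t0 ≠ 0 → ∀ᶠ t in 𝓝 t0, mxI (G t) t = mxI (G t0) t := by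
    intro t0 e0
    filter_upwards [hop t0 e0, ball_mem_nhds t0 (hρ t0 e0)] with t e b using hag t0 t e0 e b
  choose k0 hk0 using fun t => mxI_ex (G t) t
  have hs : ∀ t, p.eval t ≠ 0 → π (φ t (k0 t) t) = t ∧
      HasDerivAt (G t (k0 t)) (β (φ t (k0 t) t)) t := fun t e =>
    ⟨((hd t e t (mem_ball_self (hρ t e))).1 _).1, ((hd t e t (mem_ball_self (hρ t e))).1 _).2.1⟩
  have hdf : ∀ t k, p.eval t ≠ 0 → ∀ᶠ z in 𝓝 t, DifferentiableAt ℂ (G t k) z := by
    intro t k e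
    filter_upwards [ball_mem_nhds t (hρ t e)] with z hz
    exact ((hd t e z hz).1 k).2.1.differentiableAt
  have hlo : ∀ t0 k, p.eval t0 ≠ 0 → ∀ᶠ t in 𝓝 t0, (G t0 k t).im ≤ mxI (G t) t := by
    intro t0 k e0
    filter_upwards [hev t0 e0] with t ht
    rw [ht]
    exact mxI_le _ _ _
  have key := hM p.roots.toFinset (fun t => mxI (G t) t) (fun t => ‖β (φ t (k0 t) t)‖) ?_ ?_ ?_ ?_
  · refine (p.roots.toFinset.finite_toSet.infinite_compl).mono fun a ha => ?_
    have e : p.eval a ≠ 0 := (hS a).1 ha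
    refine ⟨e, φ a (k0 a) a, (hs a e).1, der_zero (hdf a _ e) (hs a e).2 ?_⟩
    filter_upwards [hlo a (k0 a) e, hop a e] with t ht et
    exact ht.trans ((key a t ha ((hS t).2 et)).trans (hk0 a).le)
  · intro t0 ht0
    have e0 : p.eval t0 ≠ 0 := (hS t0).1 ht0
    refine ContinuousAt.continuousWithinAt ?_
    refine (mxI_cont (G := G t0) fun k => ?_).congr ((hev t0 e0).mono fun t ht => ht.symm)
    exact (hdf t0 k e0).self_of_nhds.continuousAt
  · intro t0 ht0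
    have e0 : p.eval t0 ≠ 0 := (hS t0).1 ht0
    refine ⟨G t0 (k0 t0), Complex.analyticAt_iff_eventually_differentiableAt.2 (hdf t0 _ e0),
      (hk0 t0).symm, hlo t0 _ e0, ?_⟩
    rw [(hs t0 e0).2.deriv]
  · intro b hb
    have eb : p.IsRoot b := by simpa [hp] using hb
    obtain ⟨q, hq⟩ := dvd_iff_isRoot.2 eb
    have hqb : q.eval b ≠ 0 := by
      intro h
      have h1 := hsep.aeval_derivative_ne_zero (x := b) (by simpa using eb)
      apply h1
      rw [hq]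
      simp [h]
    have hnz : ∀ᶠ t in 𝓝[≠] b, p.eval t ≠ 0 ∧ q.eval t ≠ 0 := by
      filter_upwards [self_mem_nhdsWithin,
        nhdsWithin_le_nhds (q.continuous.continuousAt.eventually_ne hqb)] with t h1 h2
      refine ⟨?_, h2⟩
      rw [hq]
      simpa [sub_eq_zero] using And.intro h1 h2
    have h1 : Tendsto (fun t => ‖β (φ t (k0 t) t) * p.eval t‖) (𝓝[≠] b) (𝓝 0) := by
      refine (NormedAddGroup.tendsto_nhds_zero.2 fun ε hε => ?_)
      obtain ⟨δ, hδ, h⟩ := h0 (ε / 2) (half_pos hε)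
      have h2 : ∀ᶠ t in 𝓝 b, ‖p.eval t‖ < δ :=
        p.continuous.norm.continuousAt.eventually_lt continuousAt_const
          (by rw [eb.eq_zero]; simpa using hδ)
      filter_upwards [hnz, nhdsWithin_le_nhds h2] with t ht h3
      have h4 := h (φ t (k0 t) t) (by rw [(hs t ht.1).1]; exact h3)
      rw [(hs t ht.1).1] at h4
      rw [norm_norm]
      linarith
    have h5 : Tendsto (fun t => ‖q.eval t‖) (𝓝[≠] b) (𝓝 ‖q.eval b‖) :=
      q.continuous.norm.continuousAt.tendsto.mono_left nhdsWithin_le_nhds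
    have h6 := h1.div h5 (norm_ne_zero_iff.2 hqb)
    rw [zero_div] at h6
    refine h6.congr' ?_
    filter_upwards [hnz] with t ht
    have h7 : ‖q.eval t‖ ≠ 0 := norm_ne_zero_iff.2 ht.2
    have h8 : p.eval t = (t - b) * q.eval t := by rw [hq]; simp
    simp only [Pi.div_apply, h8, norm_mul]
    field_simp
  · refine (NormedAddGroup.tendsto_nhds_zero.2 fun ε hε => ?_)
    obtain ⟨R, h⟩ := hinf (ε / 2) (half_pos hε)
    have h2 : ∀ᶠ t in Bornology.cobounded ℂ, t ∉ p.roots.toFinset :=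
      p.roots.toFinset.finite_toSet.isBounded
    filter_upwards [h2, (tendsto_norm_cobounded_atTop (E := ℂ)).eventually (eventually_gt_atTop R)]
      with t ht h3
    have e := (hS t).1 ht
    have h4 := h (φ t (k0 t) t) (by rw [(hs t e).1]; exact h3)
    rw [(hs t e).1, norm_mul] at h4
    rw [Real.norm_of_nonneg (by positivity)]
    linarith

theorem sum_bd {D : ℕ} (r : Fin D → ℝ) (w : Fin D → ℂ) {ε : ℝ} (hε : 0 < ε)
    (h : ∀ k, ‖w k‖ ≤ ε / (∑ k, |r k| + 1)) : ‖∑ k, r k * w k‖ ≤ ε := by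
  have h0 : 0 ≤ ∑ k, |r k| := Finset.sum_nonneg fun k _ => abs_nonneg _
  calc ‖∑ k, r k * w k‖ ≤ ∑ k, |r k| * (ε / (∑ k, |r k| + 1)) := by
        refine (norm_sum_le _ _).trans (Finset.sum_le_sum fun k _ => ?_)
        rw [norm_mul, Complex.norm_real, Real.norm_eq_abs]
        exact mul_le_mul_of_nonneg_left (h k) (abs_nonneg _)
    _ = (∑ k, |r k|) * (ε / (∑ k, |r k| + 1)) := (Finset.sum_mul _ _ _).symm
    _ ≤ (∑ k, |r k| + 1) * (ε / (∑ k, |r k| + 1)) :=
        mul_le_mul_of_nonneg_right (by linarith) (by positivity)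
    _ = ε := by field_simp

theorem div_bd {w P : ℂ} {n : ℕ} {e : ℝ} (hn : n ≠ 0) (he : 0 ≤ e) (h : ‖w‖ ≤ e * ‖P‖) :
    ‖w / (n * P)‖ ≤ e := by
  have h1 : (1 : ℝ) ≤ n := by exact_mod_cast Nat.one_le_iff_ne_zero.2 hn
  rw [norm_div, norm_mul, Complex.norm_natCast]
  refine div_le_of_le_mul₀ (by positivity) he (h.trans ?_)
  refine mul_le_mul_of_nonneg_left ?_ he
  nlinarith [norm_nonneg P]

theorem aAP : OfAP := by
  intro hFm hA1 hV0 hV1 hTrs hExf hLoc hBch hIrr hTrc hGlb K F _ _ _ _ _ O O' h2 D ω r hInd hRw hr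
  obtain ⟨𝒜, S, μ, x, N, fm, mo, -, hN, ord, -, inf, mem⟩ := hFm K F O O' ∅ 1 0 h2.fg h2.cl h2.rat
    h2.rat' h2.ne Set.finite_empty (by simp) one_ne_zero
  have fx : Fx O O' 𝒜 μ x N := ⟨h2.rat, h2.rat', h2.ne, fm, mo, hN, ord, inf, mem⟩
  obtain ⟨N, rfl⟩ : ∃ N', N = N' + 1 := ⟨N - 1, by omega⟩
  obtain ⟨p0, hp0, hch⟩ := hBch K 𝒜 S μ N x fm mo
  obtain ⟨p, n, a, hsep, hdeg, hn, hroot, ha⟩ := hV0 K F O O' 𝒜 S μ x _ h2.fg fx D ω p0 hp0 hRw
  have asy : ∀ k, Asy x p (a k) := fun k =>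
    hV1 K F O O' 𝒜 S μ x _ h2.fg fx p (a k) hdeg (ha k).2.1 (ha k).2.2
  obtain ⟨U, hU⟩ := hA1 F (fun q => ∑ k, r k * (q.pe (ω k)).im) fun γ hγ => by
    rw [← hr γ hγ]
    simp only [IP, Finsupp.sum, Finset.mul_sum]
    rw [Finset.sum_comm]
    exact Finset.sum_congr rfl fun k _ => Finset.sum_congr rfl fun q _ => by ring
  obtain ⟨htx, ef⟩ := hExf K F O O' 𝒜 S μ x _ h2.fg fx
  have hp : p ≠ 0 := fun h => by simp [h] at hdeg
  have hs : ∀ (L : Type) [Field L] (ψ : 𝒜 →+* L),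
      ψ ((n : 𝒜) * aeval x p) = n * aeval (ψ x) p := fun L _ ψ => by
    rw [map_mul, map_natCast]
    congr 1
    exact (aeval_algHom_apply ψ.toIntAlgHom x p).symm
  have hsF : (n : F) * aeval (x : F) p ≠ 0 :=
    mul_ne_zero (Nat.cast_ne_zero.2 hn) fun h => htx ⟨p, hp, h⟩
  have hjs : (𝒜.val.toRingHom : 𝒜 →+* F) ((n : 𝒜) * aeval x p) = n * aeval (x : F) p :=
    hs F _
  have hP : ∀ t : ℂ, (p.map (Int.castRingHom ℂ)).eval t = aeval t p := fun t => by
    rw [eval_map, aeval_def]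
    rfl
  have hσ : ∀ (σ : K →+* ℂ) d, ∑ k, (r k : ℂ) * σ (μ.repr (a k) d : K) = 0 := by
    intro σ
    classical
    refine hIrr (𝓞 K) 𝒜 S μ (N + 1) D x (σ.comp (algebraMap (𝓞 K) K)) a (fun k => (r k : ℂ)) fm mo
      hN (Set.Infinite.mono ?_ (hGlb {ψ : 𝒜 →+* ℂ // ∀ c, ψ (algebraMap (𝓞 K) 𝒜 c) =
        σ.comp (algebraMap (𝓞 K) K) c} (fun ψ => ψ.1 x)
        (fun ψ => ∑ k, r k * (ψ.1 (a k) / ψ.1 ((n : 𝒜) * aeval x p)))
        (fun ψ => if h : Transcendental ℤ (ψ.1 x) then U (ef.ex ψ.1 h).choose else 0)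
        {t | Transcendental ℤ t} (p.map (Int.castRingHom ℂ)) N hTrs.2.2 hsep ?_ ?_ ?_))
    · rintro t ⟨ht, ψ, rfl, hβ⟩
      refine ⟨ψ.1, rfl, ψ.2, ?_⟩
      have h1 : ψ.1 ((n : 𝒜) * aeval x p) ≠ 0 := by
        rw [hs, ← hP]
        exact mul_ne_zero (Nat.cast_ne_zero.2 hn) ht
      simp only [← mul_div_assoc, ← Finset.sum_div] at hβ
      exact (div_eq_zero_iff.1 hβ).resolve_right h1
    · intro t0 ht0
      obtain ⟨ρ, φ, ch⟩ := hch σ t0 fun h => ht0 (by rw [hP]; exact hroot t0 h)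
      obtain ⟨ρ', hρ', hb⟩ := Metric.mem_nhds_iff.1 (inter_mem (ball_mem_nhds t0 ch.pos)
        ((p.map (Int.castRingHom ℂ)).continuous.continuousAt.eventually_ne ht0))
      have hG := fun k => hLoc 𝒜 F 𝒜.val.toRingHom x ((n : 𝒜) * aeval x p) D a ω r U (φ k) t0 ρ'
        ef hρ' (by rw [hjs]; exact hsF) (fun i => by rw [hjs]; exact (ha i).1) hU
        (fun z hz => ⟨ch.val k z (hb hz).1, by
          rw [hs, ch.val k z (hb hz).1, ← hP]
          exact mul_ne_zero (Nat.cast_ne_zero.2 hn) (hb hz).2⟩)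
        fun u => (ch.ana k u).mono fun z hz => (hb hz).1
      choose G hG using hG
      refine ⟨ρ' / 2, fun k t => ⟨φ k t, ch.con k t⟩, G, half_pos hρ', fun t ht => ?_⟩
      have ht' := (hb (ball_subset_ball (half_le_self hρ'.le) ht)).1
      refine ⟨fun k => ⟨ch.val k t ht', (hG k t ht).1, fun hT => ?_⟩, fun ψ hψ => ?_⟩
      · have h1 : Transcendental ℤ (φ k t x) := by rw [ch.val k t ht']; exact hT
        simp only [dif_pos h1]
        exact (hG k t ht).2 hT _ (ef.ex _ h1).choose_spec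
      · obtain ⟨k, hk⟩ := ch.all t ht' ψ.1 hψ ψ.2
        exact ⟨k, Subtype.ext hk⟩
    · intro ε hε
      have he : 0 < ε / (∑ k, |r k| + 1) := by positivity
      choose δ hδ h using fun k => (asy k).fin _ he
      have h1 : ∀ᶠ e in 𝓝[>] (0 : ℝ), ∀ k, e ≤ δ k := eventually_all.2 fun k =>
        nhdsWithin_le_nhds (eventually_le_nhds (hδ k))
      obtain ⟨e, h2, h3⟩ := (h1.and self_mem_nhdsWithin).exists
      refine ⟨e, h3, fun ψ hψ => ?_⟩
      rw [hP] at hψ ⊢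
      simp only [Finset.sum_mul, mul_assoc, hs, div_mul_eq_mul_div]
      refine sum_bd r _ hε fun k => div_bd hn he.le ?_
      rw [norm_mul]
      exact mul_le_mul_of_nonneg_right (h k _ (hψ.trans_le (h2 k))) (norm_nonneg _)
    · intro ε hε
      have he : 0 < ε / (∑ k, |r k| + 1) := by positivity
      choose R h using fun k => (asy k).inf _ he
      obtain ⟨R0, hR⟩ := Finite.bddAbove_range R
      refine ⟨R0, fun ψ hψ => ?_⟩
      simp only [Finset.sum_mul, mul_assoc, hs, div_mul_eq_mul_div]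
      exact sum_bd r _ hε fun k => div_bd hn he.le (h k _ ((hR ⟨k, rfl⟩).trans_lt hψ))
  funext k1
  refine (Module.forall_dual_apply_eq_zero_iff ℚ (r k1)).1 fun ψ => ?_
  obtain ⟨b, hb⟩ := IsLocalization.exist_integer_multiples_of_finite (nonZeroDivisors ℤ)
    fun k => (ψ (r k) : ℚ)
  choose z hz using hb
  have hz' : ∀ k, (z k : ℚ) = (b : ℤ) * ψ (r k) := fun k => by simpa using hz k
  have h1 : ∑ k, z k • a k = 0 := by
    refine μ.ext_elem fun d => ?_
    have h3 := hTrc K D (fun k => (μ.repr (a k) d : K)) r (fun σ => hσ σ d) ψ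
    apply FaithfulSMul.algebraMap_injective (𝓞 K) K
    have h4 : ∀ k, (z k : K) = ((b : ℤ) : K) * (ψ (r k) : K) := fun k => by
      exact_mod_cast congrArg (fun q : ℚ => (q : K)) (hz' k)
    simp only [map_sum, map_zsmul, Finsupp.coe_finsetSum, Finset.sum_apply, Finsupp.smul_apply,
      map_zero, Finsupp.zero_apply]
    simp only [zsmul_eq_mul, h4, mul_assoc, ← Finset.mul_sum]
    exact mul_eq_zero_of_right _ h3
  have h2' : ∑ k, (z k : F) * (a k : F) = 0 := by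
    have := congrArg (𝒜.val) h1
    simpa using this
  have h5 : ∑ k, (z k : F) • ω k = 0 := by
    refine (smul_eq_zero (R := F).1 ?_).resolve_left hsF
    rw [Finset.smul_sum]
    simp only [smul_comm ((n : F) * aeval (x : F) p), (ha _).1]
    simp only [smul_smul, ← Finset.sum_smul, h2', zero_smul]
  have h6 := hz' k1
  rw [hInd z h5] at h6
  have hb0 : ((b : ℤ) : ℚ) ≠ 0 := Int.cast_ne_zero.2 (nonZeroDivisors.coe_ne_zero b)
  exact (mul_eq_zero.1 (by simpa using h6.symm)).resolve_left hb0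

end Pool.Agent.MP_f3836a_nt.GV.A.U
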