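import Pool.Agent.MP_f3836a_nt.RG.SpecA
import Pool.Agent.MP_f3836a_nt.GV.APg

/-! Generic points, segments as paths, and the potential on a branch. -/

set_option autoImplicit false

namespace Pool.Agent.MP_f3836a_nt.GV.A.U

open Polynomial NumberField Filter Topology Metric PK VE.Z GP GV.T RG IntermediateField

namespace ALoc

/-- a nonzero element divides a nonzero polynomial in `x` -/
theorem dvd {𝒜 F : Type} [CommRing 𝒜] [Field F] [CharZero F] (j : 𝒜 →+* F)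
    (hj : Function.Injective j) (x : 𝒜) (hf : FiniteDimensional ℚ⟮j x⟯ F) {u : 𝒜} (hu : u ≠ 0) :
    ∃ r : ℤ[X], r ≠ 0 ∧ u ∣ aeval x r := by
  have := hj.isDomain j
  let g : ℚ⟮j x⟯ := AdjoinSimple.gen ℚ (j x)
  let _ : Algebra ℤ[X] 𝒜 := (aeval x).toRingHom.toAlgebra
  let _ : Algebra ℤ[X] F := (aeval (j x)).toRingHom.toAlgebra
  let _ : Algebra ℤ[X] ℚ⟮j x⟯ := (aeval g).toRingHom.toAlgebra
  have : IsScalarTower ℤ[X] ℚ⟮j x⟯ F := .of_algebraMap_eq fun r =>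
    aeval_algebraMap_apply F g r
  have h1 : ∀ z ∈ ℚ⟮j x⟯, IsAlgebraic ℤ[X] z := fun z hz => by
    induction hz using adjoin_induction with
    | mem y hy =>
      have e : algebraMap ℤ[X] F X = y := (aeval_X (j x)).trans hy.symm
      exact e ▸ isAlgebraic_algebraMap _
    | algebraMap q =>
      exact ((IsFractionRing.isAlgebraic_iff ℤ ℚ F).2 (isAlgebraic_algebraMap q)).extendScalars
        C_injective
    | add y z _ _ hy hz => exact hy.add hz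
    | inv y _ hy => exact hy.inv
    | mul y z _ _ hy hz => exact hy.mul hz
  have : Algebra.IsAlgebraic ℤ[X] ℚ⟮j x⟯ := ⟨fun z =>
    (isAlgebraic_algebraMap_iff (A := F) Subtype.val_injective).1 (h1 z z.2)⟩
  have h2 : IsAlgebraic ℤ[X] (j u) :=
    (Algebra.IsAlgebraic.isAlgebraic (R := ℚ⟮j x⟯) (j u)).restrictScalars ℤ[X]
  let J : 𝒜 →ₐ[ℤ[X]] F := ⟨j, fun r => (aeval_algHom_apply j.toIntAlgHom x r).symm⟩
  exact ((isAlgebraic_algHom_iff J hj).1 h2).exists_nonzero_dvd (mem_nonZeroDivisors_of_ne_zero hu)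

variable {𝒜 F : Type} [CommRing 𝒜] [Field F] {j : 𝒜 →+* F} {x : 𝒜}

theorem uniq (h : Ef j x) {e e' : F →+* ℂ} (he : ∀ u, e (j u) = e' (j u)) : e = e' := by
  ext z
  obtain ⟨b, c, hc, hz⟩ := h.fr z
  apply mul_right_cancel₀ ((map_ne_zero e).2 hc)
  rw [← map_mul, hz, he, he, ← map_mul, hz]

theorem seg_tr (hT : TRS) {t t' : ℂ} (h : t.re = t'.re ∧ Transcendental ℤ t.re ∨
    t.im = t'.im ∧ Transcendental ℤ t.im) : ∀ z ∈ segment ℝ t t', Transcendental ℤ z := by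
  rintro z ⟨a, b, -, -, hab, rfl⟩
  refine (hT.1 _).2 (h.imp (fun h => ?_) fun h => ?_)
  · have : (a • t + b • t').re = t.re := by
      rw [Complex.add_re, Complex.smul_re, Complex.smul_re, ← h.1, ← add_smul, hab, one_smul]
    exact this ▸ h.2
  · have : (a • t + b • t').im = t.im := by
      rw [Complex.add_im, Complex.smul_im, Complex.smul_im, ← h.1, ← add_smul, hab, one_smul]
    exact this ▸ h.2

theorem mem_sq {t0 z : ℂ} {ρ : ℝ} (h1 : |z.re - t0.re| < ρ / 2) (h2 : |z.im - t0.im| < ρ / 2) :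
    z ∈ ball t0 ρ := by
  have := Complex.norm_le_abs_re_add_abs_im (z - t0)
  rw [Complex.sub_re, Complex.sub_im] at this
  rw [mem_ball, dist_eq_norm]
  linarith

end ALoc

open ALoc

theorem aExf : OfExf := by
  intro hFf hFin hNb hFr K F _ _ _ _ _ O O' 𝒜 S0 μ x N fg fx
  have fi := hFin F fg
  have o' := fx.rat'.1
  have tr : Transcendental ℤ (x : F) := fun h => fx.inf (APg.int (dvA o'.1).val (TFin.rat o'.2)
    ((IsFractionRing.isAlgebraic_iff ℤ ℚ F).1 h).isIntegral)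
  have al : Al K := fun c =>
    (IsFractionRing.isAlgebraic_iff ℤ ℚ K).2 (Algebra.IsAlgebraic.isAlgebraic c)
  have fr : ∀ z : F, ∃ b c : 𝒜, (c : F) ≠ 0 ∧ z * c = b := fun z => by
    obtain ⟨b, b0, h1, h2⟩ := (hFr K F O' x fi (hNb K F al fi) o'
      ((fx.mem x).2 ⟨1, one_ne_zero, by simp⟩) fx.inf).1 z
    obtain ⟨n, n0, hn⟩ := (fx.mem b).1 h1
    obtain ⟨m, m0, hm⟩ := (fx.mem _).1 h2
    refine ⟨⟨_, 𝒜.mul_mem (natCast_mem 𝒜 n) hm⟩, ⟨_, 𝒜.mul_mem (natCast_mem 𝒜 m) hn⟩,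
      mul_ne_zero (Nat.cast_ne_zero.2 m0) (mul_ne_zero (Nat.cast_ne_zero.2 n0) b0), ?_⟩
    change z * (m * (n * b)) = n * (m * (z * b))
    ring
  refine ⟨tr, fr, fun ψ hψ => ?_⟩
  have inj : Function.Injective ψ := (injective_iff_map_eq_zero ψ).2 fun u hu => by
    by_contra h0
    obtain ⟨r, r0, c, hc⟩ := ALoc.dvd (𝒜.val.toRingHom : 𝒜 →+* F) Subtype.val_injective x
      (((hFf F).2.1 fg).1 _ tr) h0
    refine hψ ⟨r, r0, ?_⟩
    have := aeval_algHom_apply ψ.toIntAlgHom x r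
    rw [hc, map_mul] at this
    exact this.trans (by rw [show ψ.toIntAlgHom u = 0 from hu, zero_mul])
  have : IsFractionRing 𝒜 F := IsFractionRing.of_field 𝒜 F fun z => by
    obtain ⟨b, c, hc, h⟩ := fr z
    exact ⟨b, c, (eq_div_iff hc).2 h⟩
  exact ⟨IsFractionRing.lift inj, fun u => IsFractionRing.lift_algebraMap inj u⟩

theorem aSeg : OfSeg := by
  intro hW 𝒜 F _ _ j x φ B t t' ef hB hs htr hx hd
  let z : ℝ → ℂ := fun θ => t + ((Real.sin (Real.pi * θ / 2) ^ 2 : ℝ) : ℂ) * (t' - t)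
  have z0 : z 0 = t := by simp [z]
  have z1 : z 1 = t' := by simp [z]
  have zs : ∀ θ, z θ ∈ segment ℝ t t' := fun θ => by
    rw [segment_eq_image']
    exact ⟨_, ⟨sq_nonneg _, Real.sin_sq_le_one (Real.pi * θ / 2)⟩, rfl⟩
  have sc : ContDiff ℝ 1 fun θ : ℝ => Real.sin (Real.pi * θ / 2) ^ 2 := by fun_prop
  have zc : ContDiff ℝ 1 z := contDiff_const.add
    ((Complex.ofRealCLM.contDiff.comp sc).mul contDiff_const)
  have c1 : ∀ u, ContDiff ℝ 1 fun θ => φ (z θ) u := fun u =>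
    (((hd u).contDiffOn hB).restrict_scalars ℝ).comp_contDiff zc fun θ => hs (zs θ)
  choose e he using fun θ => ef.ex (φ (z θ)) (by rw [hx _ (hs (zs θ))]; exact htr _ (zs θ))
  have ne : ∀ θ u, j u ≠ 0 → φ (z θ) u ≠ 0 := fun θ u hu => he θ u ▸ (map_ne_zero (e θ)).2 hu
  let p : Pa F := ⟨e, fun f => by
    obtain ⟨b, c, hc, h⟩ := ef.fr f
    have : (fun θ => e θ f) = fun θ => φ (z θ) b * (φ (z θ) c)⁻¹ := funext fun θ => by
      rw [← div_eq_mul_inv, eq_div_iff (ne θ c hc), ← he, ← he, ← map_mul, h]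
    rw [this]
    exact (c1 b).mul ((c1 c).inv fun θ => ne θ c hc)⟩
  have pa := (hW F).1 p
  refine ⟨p, fun u => z0 ▸ he 0 u, fun u => z1 ▸ he 1 u, fun s a ω G hs0 hω hG => ?_⟩
  have hz : ∀ θ, HasDerivAt z (p.d θ (j x)) θ := fun θ => by
    have h := pa.der (j x) θ
    have e1 : (fun θ => p.e θ (j x)) = z := funext fun θ => (he θ x).trans (hx _ (hs (zs θ)))
    rwa [e1] at h
  have hw : ∀ θ, φ (z θ) a / φ (z θ) s * p.d θ (j x) = p.w θ ω := fun θ => by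
    have h := pa.ws θ (j s) ω
    rw [hω, pa.wd] at h
    change e θ _ * _ = e θ _ * _ at h
    rw [he, he] at h
    rw [div_mul_eq_mul_div, div_eq_iff (ne θ s hs0), h, mul_comm]
  rw [← z0, ← z1]
  exact intervalIntegral.integral_eq_sub_of_hasDerivAt (f := fun θ => G (z θ))
    (fun θ _ => hw θ ▸ (hG _ (hs (zs θ))).comp θ (hz θ)) ((pa.cw ω).intervalIntegrable _ _)

theorem aLoc : OfLoc := by
  intro hT hS 𝒜 F _ _ j x s D a ω r U φ t0 ρ ef hρ hs hω hU hφ hd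
  choose g hg using fun k => ((hd (a k)).fun_div (hd s) fun z hz => (hφ z hz).2).isExactOn_ball
  let G : ℂ → ℂ := fun z => ∑ k, r k * g k z
  have step : ∀ t t' : ℂ, t ∈ ball t0 ρ → t' ∈ ball t0 ρ →
      (t.re = t'.re ∧ Transcendental ℤ t.re ∨ t.im = t'.im ∧ Transcendental ℤ t.im) →
      ∃ e e' : F →+* ℂ, (∀ u, e (j u) = φ t u) ∧ (∀ u, e' (j u) = φ t' u) ∧
        U e' - U e = (G t').im - (G t).im := fun t t' h h' ht => by
    obtain ⟨p, h0, h1, h2⟩ := hS 𝒜 F j x φ (ball t0 ρ) t t' ef isOpen_ball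
      ((convex_ball t0 ρ).segment_subset h h') (seg_tr hT ht) (fun z hz => (hφ z hz).1) hd
    refine ⟨p.e 0, p.e 1, h0, h1, ?_⟩
    rw [← hU p]
    simp only [G, Complex.im_sum, Complex.im_ofReal_mul, ← Finset.sum_sub_distrib]
    refine Finset.sum_congr rfl fun k _ => ?_
    rw [h2 s (a k) (ω k) (g k) hs (hω k) (hg k), Complex.sub_im, mul_sub]
  obtain ⟨α, a1, a2⟩ := hT.2.1.exists_dist_lt t0.re (half_pos hρ)
  obtain ⟨β, b1, b2⟩ := hT.2.1.exists_dist_lt t0.im (half_pos hρ)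
  rw [dist_comm, Real.dist_eq] at a2 b2
  have w0 : (⟨α, β⟩ : ℂ) ∈ ball t0 ρ := mem_sq a2 b2
  obtain ⟨e0, -, h0, -⟩ := step _ _ w0 w0 (Or.inl ⟨rfl, a1⟩)
  refine ⟨fun z => G z + ((U e0 - (G ⟨α, β⟩).im : ℝ) : ℂ) * Complex.I, fun z hz => ?_⟩
  have hz' : z ∈ ball t0 ρ := ball_subset_ball (half_le_self hρ.le) hz
  refine ⟨(HasDerivAt.fun_sum fun k _ => (hg k z hz').const_mul _).add_const _, fun ht e he => ?_⟩
  rw [mem_ball, dist_eq_norm] at hz
  have r1 : |z.re - t0.re| < ρ / 2 := (Complex.abs_re_le_norm (z - t0)).trans_lt hz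
  have r2 : |z.im - t0.im| < ρ / 2 := (Complex.abs_im_le_norm (z - t0)).trans_lt hz
  obtain ⟨c, hc, k1, k2⟩ : ∃ c ∈ ball t0 ρ,
      (α = c.re ∧ Transcendental ℤ α ∨ β = c.im ∧ Transcendental ℤ β) ∧
      (c.re = z.re ∧ Transcendental ℤ c.re ∨ c.im = z.im ∧ Transcendental ℤ c.im) := by
    rcases (hT.1 z).1 ht with h | h
    · exact ⟨⟨z.re, β⟩, mem_sq r1 b2, Or.inr ⟨rfl, b1⟩, Or.inl ⟨rfl, h⟩⟩
    · exact ⟨⟨α, z.im⟩, mem_sq a2 r2, Or.inl ⟨rfl, a1⟩, Or.inr ⟨rfl, h⟩⟩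
  obtain ⟨e1, e2, h1, h2, h3⟩ := step _ c w0 hc k1
  obtain ⟨e3, e4, h4, h5, h6⟩ := step c z hc hz' k2
  obtain rfl : e0 = e1 := uniq ef fun u => (h0 u).trans (h1 u).symm
  obtain rfl : e2 = e3 := uniq ef fun u => (h2 u).trans (h4 u).symm
  obtain rfl : e = e4 := uniq ef fun u => (he u).trans (h5 u).symm
  simp only [Complex.add_im, Complex.im_ofReal_mul, Complex.I_im, mul_one]
  linarith

end Pool.Agent.MP_f3836a_nt.GV.A.U
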