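import Pool.Agent.MP_f3836a_nt.RG.SpecA

/-! The maximum principle with a barrier. -/

set_option autoImplicit false

namespace Pool.Agent.MP_f3836a_nt.GV.A.U

open Filter Topology Metric

namespace AMax

theorem lg (b t0 : ℂ) (h : t0 ≠ b) :
    AnalyticAt ℂ (fun t => Complex.log ((t - b) / (t0 - b))) t0 ∧
    HasDerivAt (fun t => Complex.log ((t - b) / (t0 - b))) (t0 - b)⁻¹ t0 ∧
    ∀ᶠ t in 𝓝 t0, (Complex.log ((t - b) / (t0 - b))).re = Real.log ‖t - b‖ - Real.log ‖t0 - b‖ := by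
  have h0 : t0 - b ≠ 0 := sub_ne_zero.2 h
  have h1 : (t0 - b) / (t0 - b) ∈ Complex.slitPlane := by
    rw [div_self h0]; exact Complex.one_mem_slitPlane
  refine ⟨AnalyticAt.clog (f := fun t => (t - b) / (t0 - b)) (by fun_prop) h1, ?_, ?_⟩
  · have h2 := HasDerivAt.clog (f := fun t => (t - b) / (t0 - b))
      (((hasDerivAt_id t0).sub_const b).div_const (t0 - b)) h1
    convert h2 using 1
    field_simp
  · filter_upwards [eventually_ne_nhds h] with t ht
    rw [Complex.log_re, norm_div,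
      Real.log_div (norm_ne_zero_iff.2 (sub_ne_zero.2 ht)) (norm_ne_zero_iff.2 h0)]

theorem exH (S : Finset ℂ) (a t0 : ℂ) (G : ℂ → ℂ) (ε : ℝ) (h1 : t0 ∉ S) (h2 : t0 ≠ a)
    (hG : AnalyticAt ℂ G t0) : ∃ H : ℂ → ℂ, AnalyticAt ℂ H t0 ∧
      HasDerivAt H (-Complex.I * deriv G t0 +
        ε * (∑ b ∈ S, (t0 - b)⁻¹ - ((S.card : ℝ) + 1 : ℝ) * (t0 - a)⁻¹)) t0 ∧
      ∀ᶠ t in 𝓝 t0, (H t).re = (G t).im + ε * bar S a t - ε * bar S a t0 := by
  have h3 : ∀ b ∈ S, t0 ≠ b := fun b hb e => h1 (e ▸ hb)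
  refine ⟨fun t => -Complex.I * G t + ε * (∑ b ∈ S, Complex.log ((t - b) / (t0 - b)) -
    ((S.card : ℝ) + 1 : ℝ) * Complex.log ((t - a) / (t0 - a))), ?_, ?_, ?_⟩
  · exact (analyticAt_const.mul hG).add (analyticAt_const.mul
      ((Finset.analyticAt_fun_sum S fun b hb => (lg b t0 (h3 b hb)).1).sub
        (analyticAt_const.mul (lg a t0 h2).1)))
  · exact (hG.differentiableAt.hasDerivAt.const_mul _).add
      (((HasDerivAt.fun_sum fun b hb => (lg b t0 (h3 b hb)).2.1).sub
        ((lg a t0 h2).2.1.const_mul _)).const_mul _)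
  · filter_upwards [(eventually_all_finset S).2 fun b hb => (lg b t0 (h3 b hb)).2.2,
      (lg a t0 h2).2.2] with t e1 e2
    rw [Complex.add_re, Complex.re_ofReal_mul, Complex.sub_re, Complex.re_ofReal_mul, e2,
      Complex.re_sum, Finset.sum_congr rfl e1, Finset.sum_sub_distrib]
    simp only [bar, Complex.mul_re, Complex.neg_re, Complex.I_re, Complex.neg_im, Complex.I_im]
    ring

theorem ray (t0 v : ℂ) : Tendsto (fun s : ℝ => t0 + s * v) (𝓝[>] 0) (𝓝 t0) := by
  have h : Continuous fun s : ℝ => t0 + s * v := by fun_prop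
  have h1 := h.tendsto 0
  simp only [Complex.ofReal_zero, zero_mul, add_zero] at h1
  exact h1.mono_left nhdsWithin_le_nhds

theorem barC (S : Finset ℂ) (a : ℂ) : ContinuousOn (bar S a) {z | z ∉ S ∧ z ≠ a} := by
  refine (continuousOn_finsetSum S fun b hb => ContinuousOn.log (by fun_prop) fun z hz => ?_).sub
    (continuousOn_const.mul (ContinuousOn.log (by fun_prop) fun z hz => ?_))
  · exact norm_ne_zero_iff.2 (sub_ne_zero.2 fun e => hz.1 (e ▸ hb))
  · exact norm_ne_zero_iff.2 (sub_ne_zero.2 hz.2)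

theorem quo (a b : ℂ) :
    Tendsto (fun z => (a - z) / (z - b)) (Bornology.cobounded ℂ) (𝓝 (-1)) := by
  have h1 : Tendsto (fun z : ℂ => -1 + (a - b) * (z - b)⁻¹) (Bornology.cobounded ℂ)
      (𝓝 (-1 + (a - b) * 0)) :=
    ((tendsto_inv₀_cobounded.comp (tendsto_sub_const_cobounded b)).const_mul _).const_add _
  rw [mul_zero, add_zero] at h1
  refine h1.congr' ?_
  filter_upwards [Bornology.eventually_ne_cobounded b] with z hz
  have h2 : z - b ≠ 0 := sub_ne_zero.2 hz
  field_simp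
  ring

theorem far (S : Finset ℂ) (E : ℂ → ℝ) (a : ℂ) {ε : ℝ} (hε : 0 < ε)
    (hE : Tendsto (fun t => E t * ‖t‖) (Bornology.cobounded ℂ) (𝓝 0)) :
    ∃ R0 : ℝ, ∀ z, R0 < ‖z - a‖ → E z * ‖a - z‖ <
      ε * (∑ b ∈ S, ((a - z) / (z - b)).re - (S.card + 1) * ((a - z) / (z - a)).re) := by
  have h0 : ∀ b, Tendsto (fun z => ((a - z) / (z - b)).re) (Bornology.cobounded ℂ) (𝓝 (-1)) :=
    fun b => by simpa [Function.comp_def] using (Complex.continuous_re.tendsto _).comp (quo a b)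
  have h1 : Tendsto (fun z => E z * ‖a - z‖) (Bornology.cobounded ℂ) (𝓝 0) := by
    have h2 := hE.mul (quo a 0).norm
    rw [zero_mul] at h2
    refine h2.congr' ?_
    filter_upwards [Bornology.eventually_ne_cobounded 0] with z hz
    have h3 : ‖z‖ ≠ 0 := norm_ne_zero_iff.2 hz
    rw [sub_zero, norm_div]
    field_simp
  have h2 := ((tendsto_finsetSum S fun b _ => h0 b).sub
    ((h0 a).const_mul ((S.card : ℝ) + 1))).const_mul ε
  have h3 : (0 : ℝ) < ε * (∑ _b ∈ S, (-1 : ℝ) - ((S.card : ℝ) + 1) * -1) := by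
    rw [Finset.sum_const, nsmul_eq_mul]
    nlinarith
  obtain ⟨R0, -, h4⟩ := (hasBasis_cobounded_compl_closedBall a).eventually_iff.1
    (h1.eventually_lt h2 h3)
  exact ⟨R0, fun z hz => h4 (by simpa [dist_eq_norm] using hz)⟩

theorem near (S : Finset ℂ) (E : ℂ → ℝ) (a b : ℂ) {ε : ℝ} (hε : 0 < ε) (hb : b ∈ S) (ha : a ∉ S)
    (hE : Tendsto (fun t => E t * ‖t - b‖) (𝓝[≠] b) (𝓝 0)) :
    ∀ᶠ δ : ℝ in 𝓝[>] 0, ∀ z, ‖z - b‖ = δ → E z * ‖z - b‖ <
      ε * (∑ c ∈ S, ((z - b) / (z - c)).re - (S.card + 1) * ((z - b) / (z - a)).re) := by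
  classical
  have h0 : ∀ c, Tendsto (fun z => ((z - b) / (z - c)).re) (𝓝[≠] b)
      (𝓝 (if c = b then 1 else 0)) := by
    intro c
    split_ifs with h
    · refine tendsto_const_nhds.congr' ?_
      filter_upwards [self_mem_nhdsWithin] with z hz
      rw [h, div_self (sub_ne_zero.2 hz), Complex.one_re]
    · have h1 : ContinuousAt (fun z => ((z - b) / (z - c)).re) b :=
        Complex.continuous_re.continuousAt.comp
          (ContinuousAt.div (by fun_prop) (by fun_prop) (sub_ne_zero.2 (Ne.symm h)))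
      have h2 := h1.tendsto
      simp only [sub_self, zero_div, Complex.zero_re] at h2
      exact h2.mono_left nhdsWithin_le_nhds
  have h2 := ((tendsto_finsetSum S fun c _ => h0 c).sub
    ((h0 a).const_mul ((S.card : ℝ) + 1))).const_mul ε
  have hab : a ≠ b := fun e => ha (e ▸ hb)
  rw [Finset.sum_ite_eq', if_pos hb, if_neg hab, mul_zero, sub_zero, mul_one] at h2
  obtain ⟨d, d0, h4⟩ := Metric.eventually_nhds_iff.1
    (eventually_nhdsWithin_iff.1 (hE.eventually_lt h2 hε))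
  filter_upwards [Ioo_mem_nhdsGT d0] with δ hδ z hz
  refine h4 (by rw [dist_eq_norm, hz]; exact hδ.2) fun e => ?_
  rw [Set.mem_singleton_iff.1 e, sub_self, norm_zero] at hz
  exact hδ.1.ne hz

theorem nray (z c : ℂ) (s : ℝ) : ‖z + s * (z - c) - c‖ = |1 + s| * ‖z - c‖ := by
  rw [← Real.norm_eq_abs, ← Complex.norm_real, ← norm_mul]
  congr 1
  push_cast
  ring

end AMax

open AMax

theorem aMaxI : MAXI := by
  intro S a t0 G ε h1 h2 hG hm
  obtain ⟨H, hH, -, e⟩ := exH S a t0 G ε h1 h2 hG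
  have e0 := e.self_of_nhds
  have h3 : IsLocalMax (norm ∘ fun t => Complex.exp (H t)) t0 := by
    filter_upwards [e, hm] with t e1 e2
    simp only [Function.comp, Complex.norm_exp]
    exact Real.exp_le_exp.2 (by linarith)
  have h4 := Complex.norm_eventually_eq_of_isLocalMax
    (hH.eventually_analyticAt.mono fun z hz => hz.differentiableAt.cexp) h3
  filter_upwards [e, h4] with t e1 e2
  rw [Complex.norm_exp, Complex.norm_exp, Real.exp_eq_exp] at e2
  linarith

theorem aMaxD : MAXD := by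
  intro S a t0 v G ε h1 h2 hG hv
  obtain ⟨H, -, hH, e⟩ := exH S a t0 G ε h1 h2 hG
  have e0 := e.self_of_nhds
  have h3 : HasDerivAt (fun z : ℂ => t0 + z * v) v ((0 : ℝ) : ℂ) := by
    simpa using ((hasDerivAt_id ((0 : ℝ) : ℂ)).mul_const v).const_add t0
  have h4 := (HasDerivAt.comp_of_eq _ hH h3 (by simp)).real_of_complex.tendsto_slope_zero_right
  have h5 : 0 < ((-Complex.I * deriv G t0 +
      ε * (∑ b ∈ S, (t0 - b)⁻¹ - ((S.card : ℝ) + 1 : ℝ) * (t0 - a)⁻¹)) * v).re := by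
    have h6 : (-Complex.I * deriv G t0 +
        ε * (∑ b ∈ S, (t0 - b)⁻¹ - ((S.card : ℝ) + 1 : ℝ) * (t0 - a)⁻¹)) * v =
        -Complex.I * deriv G t0 * v +
        ε * (∑ b ∈ S, v / (t0 - b) - ((S.card : ℝ) + 1 : ℝ) * (v / (t0 - a))) := by
      have h7 : ∑ b ∈ S, v / (t0 - b) = (∑ b ∈ S, (t0 - b)⁻¹) * v := by
        rw [Finset.sum_mul]
        exact Finset.sum_congr rfl fun b _ => by rw [div_eq_mul_inv, mul_comm]
      rw [h7, div_eq_mul_inv]
      ring
    have h8 := Complex.abs_re_le_norm (-Complex.I * deriv G t0 * v)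
    rw [norm_mul, norm_mul, norm_neg, Complex.norm_I, one_mul] at h8
    rw [h6, Complex.add_re, Complex.re_ofReal_mul, Complex.sub_re, Complex.re_ofReal_mul,
      Complex.re_sum]
    linarith [neg_abs_le (-Complex.I * deriv G t0 * v).re]
  filter_upwards [h4.eventually_const_lt h5, (ray t0 v).eventually e, self_mem_nhdsWithin]
    with s e1 e2 e3
  simp only [Function.comp, zero_add, Complex.ofReal_zero, zero_mul, add_zero, smul_eq_mul] at e1
  have e4 := (mul_pos_iff_of_pos_left (inv_pos.2 (Set.mem_Ioi.1 e3))).1 e1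
  linarith

theorem aMax : OfMax := by
  intro hI hD S V E hV hG hb hi a t ha ht
  rcases eq_or_ne t a with rfl | hta
  · exact le_rfl
  refine le_of_forall_pos_le_add fun η η0 => ?_
  have hSo : IsOpen (S : Set ℂ)ᶜ := S.finite_toSet.isClosed.isOpen_compl
  have hVa : ContinuousAt V a := hV.continuousAt (hSo.mem_nhds ha)
  obtain ⟨ρ, ρ0, hρ⟩ := Metric.eventually_nhds_iff.1
    ((hVa.eventually_lt_const (lt_add_of_pos_right _ η0)).and (hSo.mem_nhds ha))
  have ta0 : 0 < ‖t - a‖ := norm_pos_iff.2 (sub_ne_zero.2 hta)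
  obtain ⟨r, r0, r1⟩ := exists_between (lt_min ρ0 ta0)
  have r2 := (lt_min_iff.1 r1).1
  have r3 := (lt_min_iff.1 r1).2
  have r4 : ∀ b ∈ S, r < ‖b - a‖ := fun b hb' => by
    by_contra h
    exact (hρ (y := b) (by rw [dist_eq_norm]; linarith [not_lt.1 h])).2 hb'
  obtain ⟨M, hM⟩ := (isCompact_sphere a r).bddAbove_image ((barC S a).mono fun z hz => by
    have h := mem_sphere_iff_norm.1 hz
    refine ⟨fun h' => (r4 z h').ne' h, fun e => ?_⟩
    rw [e, sub_self, norm_zero] at h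
    exact r0.ne h)
  have key : ∀ ε : ℝ, 0 < ε → V t + ε * bar S a t ≤ V a + η + ε * M := by
    intro ε hε
    obtain ⟨R0, hR0⟩ := far S E a hε hi
    have hδ : ∀ᶠ δ : ℝ in 𝓝[>] 0, ∀ b ∈ S, (∀ z, ‖z - b‖ = δ → E z * ‖z - b‖ <
        ε * (∑ c ∈ S, ((z - b) / (z - c)).re - (S.card + 1) * ((z - b) / (z - a)).re)) ∧
        δ < ‖t - b‖ ∧ δ < ‖b - a‖ - r ∧ ∀ c ∈ S, c ≠ b → δ < ‖b - c‖ / 2 := by
      refine (eventually_all_finset S).2 fun b hb' => (near S E a b hε hb' ha (hb b hb')).and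
        (Eventually.filter_mono nhdsWithin_le_nhds (Eventually.and (eventually_lt_nhds ?_)
          (Eventually.and (eventually_lt_nhds ?_) ((eventually_all_finset S).2 fun c _ => ?_))))
      · exact norm_pos_iff.2 (sub_ne_zero.2 fun e => ht (e ▸ hb'))
      · linarith [r4 b hb']
      · by_cases h : c = b
        · exact Eventually.of_forall fun _ h' => absurd h h'
        · exact (eventually_lt_nhds (half_pos (norm_pos_iff.2 (sub_ne_zero.2 (Ne.symm h))))).mono
            fun _ h1 _ => h1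
    obtain ⟨δ, hδ, δ0⟩ := (hδ.and self_mem_nhdsWithin).exists
    have δ1 : 0 < δ := δ0
    have hR : ∀ᶠ R : ℝ in atTop, R0 < R ∧ ‖t - a‖ < R ∧ ∀ b ∈ S, ‖b - a‖ + δ < R :=
      (eventually_gt_atTop _).and ((eventually_gt_atTop _).and
        ((eventually_all_finset S).2 fun b _ => eventually_gt_atTop _))
    obtain ⟨R, R1, R2, R3⟩ := hR.exists
    let K : Set ℂ := {z | r ≤ ‖z - a‖ ∧ ‖z - a‖ ≤ R ∧ ∀ b ∈ S, δ ≤ ‖z - b‖}
    have Kc : IsClosed K := by
      have h : K = {z | r ≤ ‖z - a‖} ∩ ({z | ‖z - a‖ ≤ R} ∩ ⋂ b ∈ S, {z | δ ≤ ‖z - b‖}) := by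
        ext z
        simp [K]
      rw [h]
      exact (isClosed_le (by fun_prop) (by fun_prop)).inter
        ((isClosed_le (by fun_prop) (by fun_prop)).inter
          (isClosed_biInter fun b _ => isClosed_le (by fun_prop) (by fun_prop)))
    have KK : IsCompact K := (isCompact_closedBall a R).of_isClosed_subset Kc fun z hz =>
      mem_closedBall_iff_norm.2 hz.2.1
    have Ks : ∀ z ∈ K, z ∉ S ∧ z ≠ a := fun z hz =>
      ⟨fun h => by simpa [δ1.not_ge] using hz.2.2 z h, fun e => by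
        simpa [e, r0.not_ge] using hz.1⟩
    have tK : t ∈ K := ⟨r3.le, R2.le, fun b hb' => (hδ b hb').2.1.le⟩
    have Wc : ContinuousOn (fun z => V z + ε * bar S a z) K :=
      (hV.mono fun z hz => (Ks z hz).1).add (continuousOn_const.mul ((barC S a).mono Ks))
    obtain ⟨z1, z1K, hz1⟩ := KK.exists_isMaxOn ⟨t, tK⟩ Wc
    obtain ⟨z, ⟨zK, zW⟩, hz⟩ := (KK.of_isClosed_subset
      (Wc.preimage_isClosed_of_isClosed Kc (isClosed_singleton (x := V z1 + ε * bar S a z1)))
      Set.inter_subset_left).exists_isMaxOn ⟨z1, z1K, rfl⟩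
      (f := fun z => ‖z - a‖) (by fun_prop)
    have zW' : V z + ε * bar S a z = V z1 + ε * bar S a z1 := zW
    have top : ∀ w ∈ K, V w + ε * bar S a w ≤ V z + ε * bar S a z := fun w hw => by
      rw [zW']; exact hz1 hw
    obtain ⟨G, G1, G2, G3, G4⟩ := hG z (Ks z zK).1
    have push : ∀ v : ℂ, E z * ‖v‖ <
        ε * (∑ b ∈ S, (v / (z - b)).re - (S.card + 1) * (v / (z - a)).re) →
        (∀ᶠ s : ℝ in 𝓝[>] 0, z + s * v ∈ K) → False := by
      intro v h1 h2
      obtain ⟨s, s1, s2, s3⟩ := ((hD S a z v G ε (Ks z zK).1 (Ks z zK).2 G1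
        ((mul_le_mul_of_nonneg_right G4 (norm_nonneg v)).trans_lt h1)).and
        (h2.and ((ray z v).eventually G3))).exists
      linarith [top _ s2]
    have op1 : ∀ {c : ℂ} {x : ℝ}, x < ‖z - c‖ → ∀ᶠ w in 𝓝 z, x ≤ ‖w - c‖ := fun {c x} h =>
      ((by fun_prop : ContinuousAt (fun w => ‖w - c‖) z).eventually_const_lt h).mono
        fun _ h => h.le
    have op2 : ‖z - a‖ < R → ∀ᶠ w in 𝓝 z, ‖w - a‖ ≤ R := fun h =>
      ((by fun_prop : ContinuousAt (fun w => ‖w - a‖) z).eventually_lt_const h).mono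
        fun _ h => h.le
    rcases zK.1.eq_or_lt with h | hr
    · have h1 := (hρ (y := z) (by rw [dist_eq_norm]; linarith)).1
      have h2 : bar S a z ≤ M := hM ⟨z, mem_sphere_iff_norm.2 h.symm, rfl⟩
      linarith [top t tK, mul_le_mul_of_nonneg_left h2 hε.le]
    exfalso
    by_cases hB : ∃ b ∈ S, ‖z - b‖ = δ
    · obtain ⟨b, hb', e⟩ := hB
      refine push (z - b) ((hδ b hb').1 z e) ?_
      have h1 : ‖z - a‖ < R := by
        have h2 := norm_sub_le_norm_sub_add_norm_sub z b a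
        linarith [R3 b hb']
      refine ((ray z _).eventually (op1 hr)).and (((ray z _).eventually (op2 h1)).and
        ((eventually_all_finset S).2 fun c hc => ?_))
      by_cases h : c = b
      · filter_upwards [self_mem_nhdsWithin] with s hs
        have s0 : 0 < s := hs
        rw [h, nray, e, abs_of_pos (by linarith)]
        nlinarith
      · refine (ray z _).eventually (op1 ?_)
        have h2 := norm_sub_le_norm_sub_add_norm_sub b z c
        rw [norm_sub_rev b z] at h2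
        linarith [(hδ b hb').2.2.2 c hc h]
    have hB' : ∀ᶠ w in 𝓝 z, ∀ b ∈ S, δ ≤ ‖w - b‖ :=
      (eventually_all_finset S).2 fun b hb' =>
        op1 (lt_of_le_of_ne (zK.2.2 b hb') fun e => hB ⟨b, hb', e.symm⟩)
    rcases zK.2.1.eq_or_lt with h | hR'
    · refine push (a - z) (hR0 z (by linarith)) ?_
      refine ((ray z _).eventually (op1 hr)).and (Eventually.and ?_ ((ray z _).eventually hB'))
      filter_upwards [Ioo_mem_nhdsGT one_pos] with s hs
      have h1 := nray z a (-s)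
      rw [show z + ((-s : ℝ) : ℂ) * (z - a) = z + s * (a - z) by push_cast; ring, h,
        abs_of_pos (by linarith [hs.2])] at h1
      rw [h1]
      nlinarith [hs.1]
    have Kn : ∀ᶠ w in 𝓝 z, w ∈ K := (op1 hr).and ((op2 hR').and hB')
    have h1 := hI S a z G ε (Ks z zK).1 (Ks z zK).2 G1 (by
      filter_upwards [Kn, G3] with w w1 w2
      linarith [top w w1])
    obtain ⟨s, ⟨s1, s2, s3⟩, s4⟩ := (((ray z (z - a)).eventually (Kn.and (G3.and h1))).and
      self_mem_nhdsWithin).exists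
    have s0 : 0 < s := s4
    have h2 : ‖z + s * (z - a) - a‖ ≤ ‖z - a‖ := hz ⟨s1, by
      show V _ + ε * bar S a _ = V z1 + ε * bar S a z1
      linarith [top _ s1]⟩
    rw [nray, abs_of_pos (by linarith)] at h2
    nlinarith
  have h1 : Tendsto (fun ε : ℝ => V a + η + ε * (M - bar S a t)) (𝓝[>] 0) (𝓝 (V a + η)) := by
    have h : Continuous fun ε : ℝ => V a + η + ε * (M - bar S a t) := by fun_prop
    have h2 := h.tendsto 0
    rw [zero_mul, add_zero] at h2
    exact h2.mono_left nhdsWithin_le_nhds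
  refine ge_of_tendsto h1 ?_
  filter_upwards [self_mem_nhdsWithin] with ε hε
  linarith [key ε hε]

end Pool.Agent.MP_f3836a_nt.GV.A.U
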