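import Pool.Agent.MP_f3836a_nt.RG.SpecA

/-! Part A: four small facts. -/

set_option autoImplicit false

namespace Pool.Agent.MP_f3836a_nt.GV.A.U

open Polynomial RG

theorem aOne : A1 := by
  intro F _ c h
  let b : Ch F →ₗ[ℝ] ((F →+* ℂ) →₀ ℝ) := Finsupp.linearCombination ℝ
    fun p : Pa F => Finsupp.single (p.e 1) (1 : ℝ) - Finsupp.single (p.e 0) 1
  obtain ⟨L, hL⟩ : Finsupp.linearCombination ℝ c ∈ LinearMap.range b.dualMap := by
    rw [LinearMap.range_dualMap_eq_dualAnnihilator_ker, Submodule.mem_dualAnnihilator]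
    intro γ hγ
    refine h γ fun Φ => ?_
    have e := Finsupp.apply_linearCombination ℝ (Finsupp.linearCombination ℝ Φ)
      (fun p : Pa F => Finsupp.single (p.e 1) (1 : ℝ) - Finsupp.single (p.e 0) 1) γ
    rw [LinearMap.mem_ker.1 hγ, map_zero, Finsupp.linearCombination_apply] at e
    simpa using e.symm
  refine ⟨fun e => L (Finsupp.single e 1), fun p => ?_⟩
  have e := LinearMap.congr_fun hL (Finsupp.single p 1)
  simpa [b] using e.symm

theorem aTrs : TRS := by
  refine ⟨fun t => ?_, (Algebraic.countable ℤ ℝ).dense_compl ℝ,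
    (Algebraic.countable ℤ ℂ).dense_compl ℝ⟩
  have hr : ∀ x : ℝ, IsAlgebraic ℤ (x : ℂ) ↔ IsAlgebraic ℤ x := fun x =>
    isAlgebraic_algHom_iff Complex.ofRealHom.toIntAlgHom Complex.ofReal_injective
  have hI : IsAlgebraic ℤ Complex.I := IsAlgebraic.of_pow two_pos (by
    rw [Complex.I_sq]; exact isAlgebraic_one.neg)
  have h2 : (2 : ℤ) ∈ nonZeroDivisors ℤ := mem_nonZeroDivisors_of_ne_zero two_ne_zero
  simp only [Transcendental, ← not_and_or, not_iff_not]
  constructor
  · intro h
    have hc : IsAlgebraic ℤ ((starRingEnd ℂ) t) := h.algHom (starRingEnd ℂ).toIntAlgHom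
    refine ⟨(hr _).1 (IsAlgebraic.of_smul h2 ?_), (hr _).1 (IsAlgebraic.of_smul h2 ?_)⟩
    · have := h.add hc
      rw [Complex.add_conj] at this
      simpa using this
    · have := (hc.sub h).mul hI
      rw [← neg_sub, Complex.sub_conj, neg_mul, mul_assoc, Complex.I_mul_I] at this
      simpa using this
  · rintro ⟨h, h'⟩
    rw [← Complex.re_add_im t]
    exact ((hr _).2 h).add (((hr _).2 h').mul hI)

theorem aTrc' : TRC := by
  intro K _ _ D c r h ψ
  refine (traceForm_nondegenerate ℚ K).1 _ fun l => ?_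
  have e1 : ∑ k, Algebra.trace ℚ K (c k * l) • r k = 0 := by
    apply Complex.ofReal_injective
    have e2 : ∀ k, ((Algebra.trace ℚ K (c k * l) • r k : ℝ) : ℂ) =
        ∑ σ : K →ₐ[ℚ] ℂ, r k * σ (c k) * σ l := fun k => by
      have := trace_eq_sum_embeddings ℂ (K := ℚ) (x := c k * l)
      rw [Rat.smul_def, Complex.ofReal_mul, Complex.ofReal_ratCast, ← eq_ratCast (algebraMap ℚ ℂ),
        this, Finset.sum_mul]
      exact Finset.sum_congr rfl fun σ _ => by rw [map_mul]; ring
    rw [Complex.ofReal_sum, Finset.sum_congr rfl fun k _ => e2 k, Finset.sum_comm]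
    refine Finset.sum_eq_zero fun σ _ => ?_
    rw [← Finset.sum_mul]
    exact mul_eq_zero_of_left (h σ.toRingHom) _
  have e3 := congrArg ψ e1
  rw [map_sum, map_zero] at e3
  rw [Algebra.traceForm_apply, Finset.sum_mul, map_sum, ← e3]
  refine Finset.sum_congr rfl fun k _ => ?_
  rw [mul_assoc, ← Rat.smul_def, map_smul, map_smul, smul_eq_mul, smul_eq_mul, mul_comm]

theorem aRad : RAD := by
  intro q hq
  have inj : Function.Injective (algebraMap ℤ ℚ) := (algebraMap ℤ ℚ).injective_int
  obtain ⟨y, n, sq, -, g, hg⟩ :=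
    exists_squarefree_dvd_pow_of_ne_zero ((Polynomial.map_ne_zero_iff inj).2 hq)
  obtain ⟨b, hb, e⟩ := IsLocalization.integerNormalization_spec (nonZeroDivisors ℤ) y
  obtain ⟨c, hc, e'⟩ := IsLocalization.integerNormalization_spec (nonZeroDivisors ℤ) (b ^ n • g)
  refine ⟨IsLocalization.integerNormalization (nonZeroDivisors ℤ) y, n, c, ?_,
    nonZeroDivisors.ne_zero hc,
    IsLocalization.integerNormalization (nonZeroDivisors ℤ) (b ^ n • g), ?_⟩
  · have h1 : (b • y).Separable := by
      have hb' : (b : ℚ) ≠ 0 := Int.cast_ne_zero.2 (nonZeroDivisors.ne_zero hb)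
      rw [← Int.cast_smul_eq_zsmul ℚ, smul_eq_C_mul, mul_comm]
      exact (PerfectField.separable_iff_squarefree.2 sq).mul_unit (isUnit_C.2 hb'.isUnit)
    rw [← e] at h1
    have h2 := h1.map (f := algebraMap ℚ ℂ)
    rwa [Polynomial.map_map, RingHom.ext_int ((algebraMap ℚ ℂ).comp _) (Int.castRingHom ℂ)] at h2
  · apply Polynomial.map_injective _ inj
    rw [Polynomial.map_mul, Polynomial.map_mul, Polynomial.map_pow, e, e', _root_.smul_pow, hg,
      map_C]
    simp only [zsmul_eq_mul, eq_intCast, map_intCast]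
    ring

end Pool.Agent.MP_f3836a_nt.GV.A.U
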