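import Pool.Agent.MP_f3836a_nt.RG.SpecA
import Pool.Agent.MP_f3836a_nt.VE.ZDv

/-! Part A: valuations of the coefficients, and their behaviour at the bad points. -/

set_option autoImplicit false

namespace Pool.Agent.MP_f3836a_nt.GV.A.U

open Polynomial NumberField Filter Topology Metric PK VE.Z GP GV.T RG

namespace Val

theorem aev_mem {F : Type} [Field F] {P : Subring F} {x : F} (hx : x ∈ P) (q : ℤ[X]) :
    aeval x q ∈ P := by
  rw [aeval_eq_sum_range]
  exact P.sum_mem fun i _ => zsmul_mem (P.pow_mem hx i) _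

theorem map_aev {A B : Type} [CommRing A] [CommRing B] (f : A →+* B) (x : A) (p : ℤ[X]) :
    f (aeval x p) = aeval (f x) p := (aeval_algHom_apply f.toIntAlgHom x p).symm

section
variable {𝒜 F : Type} [CommRing 𝒜] [Field F] {j : 𝒜 →+* F} {ψ : 𝒜 →+* ℂ} {z z' : F} {w w' : ℂ}

theorem vl_j (b : 𝒜) : Vl j ψ (j b) (ψ b) := ⟨1, b, by simp, by simp, by simp⟩

theorem vl_mul (h : Vl j ψ z w) (h' : Vl j ψ z' w') : Vl j ψ (z * z') (w * w') := by
  obtain ⟨t, b, h1, h2, h3⟩ := h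
  obtain ⟨t', b', h1', h2', h3'⟩ := h'
  refine ⟨t * t', b * b', by simp [h1, h1'], ?_, ?_⟩
  · rw [map_mul, map_mul, ← h2, ← h2']; ring
  · rw [map_mul, map_mul, h3, h3']; ring

theorem vl_add (h : Vl j ψ z w) (h' : Vl j ψ z' w') : Vl j ψ (z + z') (w + w') := by
  obtain ⟨t, b, h1, h2, h3⟩ := h
  obtain ⟨t', b', h1', h2', h3'⟩ := h'
  refine ⟨t * t', b * t' + t * b', by simp [h1, h1'], ?_, ?_⟩
  · simp only [map_mul, map_add]; rw [← h2, ← h2']; ring
  · simp only [map_mul, map_add]; rw [h3, h3']; ring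

theorem vl_inv {t : 𝒜} (h : ψ t ≠ 0) (h' : j t ≠ 0) : Vl j ψ (j t)⁻¹ (ψ t)⁻¹ :=
  ⟨t, 1, h, by simp [h'], by simp [h]⟩

theorem vl_pow (h : Vl j ψ z w) (n : ℕ) : Vl j ψ (z ^ n) (w ^ n) := by
  induction n with
  | zero => simpa using vl_j (j := j) (ψ := ψ) 1
  | succ n ih => rw [pow_succ, pow_succ]; exact vl_mul ih h

theorem vl_rat [CharZero F] (q : ℚ) : Vl j ψ (algebraMap ℚ F q) (algebraMap ℚ ℂ q) := by
  refine ⟨q.den, q.num, by simp, ?_, ?_⟩
  · rw [map_natCast, map_intCast, eq_ratCast, mul_comm]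
    exact_mod_cast congrArg (fun r : ℚ => (r : F)) q.mul_den_eq_num
  · rw [map_natCast, map_intCast, eq_ratCast, mul_comm]
    exact_mod_cast congrArg (fun r : ℚ => (r : ℂ)) q.mul_den_eq_num.symm

theorem vl_aev [CharZero F] (h : Vl j ψ z w) (g : ℚ[X]) : Vl j ψ (aeval z g) (aeval w g) := by
  induction g using Polynomial.induction_on' with
  | add p q hp hq => rw [map_add, map_add]; exact vl_add hp hq
  | monomial n a => rw [aeval_monomial, aeval_monomial]; exact vl_mul (vl_rat a) (vl_pow h n)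

theorem vl_sum {s : Finset ℕ} {f : ℕ → F} {g : ℕ → ℂ} (h : ∀ i, Vl j ψ (f i) (g i)) :
    Vl j ψ (∑ i ∈ s, f i) (∑ i ∈ s, g i) := by
  induction s using Finset.induction_on with
  | empty => simpa using vl_j (j := j) (ψ := ψ) 0
  | insert a s ha ih => rw [Finset.sum_insert ha, Finset.sum_insert ha]; exact vl_add (h a) ih

theorem vl_zero (hj : Function.Injective j) (h : Vl j ψ 0 w) : w = 0 := by
  obtain ⟨t, b, h1, h2, h3⟩ := h
  have hb : b = 0 := hj (by rw [← h2, mul_zero, map_zero])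
  rw [hb, map_zero] at h3
  exact (mul_eq_zero.1 h3.symm).resolve_left h1

end

theorem cauchy {d : ℕ} {w : ℂ} {c : ℕ → ℂ} {B : ℕ → ℝ} (hB : ∀ i, ‖c i‖ ≤ B i)
    (h : w ^ d + ∑ i ∈ Finset.range d, c i * w ^ i = 0) :
    ‖w‖ ≤ max 1 (∑ i ∈ Finset.range d, B i) := by
  by_cases h1 : ‖w‖ ≤ 1
  · exact le_max_of_le_left h1
  have h1 : 1 < ‖w‖ := not_le.1 h1
  have hp : 0 < ‖w‖ ^ d := pow_pos (by linarith) d
  refine le_max_of_le_right (le_of_mul_le_mul_right ?_ hp)
  have e : w * w ^ d = -∑ i ∈ Finset.range d, c i * w ^ (i + 1) := by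
    rw [eq_neg_of_add_eq_zero_left h, mul_neg, Finset.mul_sum]
    exact congrArg _ (Finset.sum_congr rfl fun i _ => by ring)
  rw [← norm_pow, ← norm_mul, e, norm_neg, Finset.sum_mul]
  refine norm_sum_le_of_le _ fun i hi => ?_
  rw [norm_mul, norm_pow, norm_pow]
  exact mul_le_mul (hB i) (pow_le_pow_right₀ h1.le (Finset.mem_range.1 hi)) (by positivity)
    ((norm_nonneg _).trans (hB i))

/-- a polynomial of positive degree is large far away -/
theorem big {p : ℤ[X]} (hp : 0 < p.natDegree) :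
    ∃ R : ℝ, ∀ t : ℂ, R < ‖t‖ → 1 ≤ ‖aeval t p‖ := by
  have hd : 0 < (p.map (Int.castRingHom ℂ)).degree := by
    rw [degree_map_eq_of_injective (Int.castRingHom ℂ).injective_int]
    exact natDegree_pos_iff_degree_pos.1 hp
  have h := (tendsto_norm_atTop _ hd (l := comap (fun t : ℂ => ‖t‖) atTop) (z := fun t => t)
    tendsto_comap).eventually_ge_atTop 1
  rw [eventually_comap, eventually_atTop] at h
  obtain ⟨R, hR⟩ := h
  refine ⟨R, fun t ht => ?_⟩
  have := hR _ ht.le t rfl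
  rwa [eval_map, ← algebraMap_int_eq, ← aeval_def] at this

/-- one integer polynomial which vanishes at finitely many places -/
theorem van {F : Type} [Field F] [CharZero F] (hN : Nb ℚ F) (x : F) {T : Set (Subring F)}
    (hT : T.Finite) (h : ∀ P ∈ T, Pl P ∧ x ∈ P) :
    ∃ q : ℤ[X], q ≠ 0 ∧ ∀ P ∈ T, Nu P (aeval x q) := by
  induction T, hT using Set.Finite.induction_on with
  | empty => exact ⟨1, one_ne_zero, fun _ h => h.elim⟩
  | @insert P T _ _ ih =>
    obtain ⟨q, hq, h1⟩ := ih fun P hP => h P (.inr hP)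
    obtain ⟨hP, hx⟩ := h P (.inl rfl)
    obtain ⟨n, hn, r, hr, h2⟩ := hN.alg P x hP hx
    have hr' : r.comp (C (n : ℤ) * X) ≠ 0 := by
      rw [Ne, comp_C_mul_X_eq_zero_iff (mem_nonZeroDivisors_of_ne_zero (by exact_mod_cast hn))]
      exact hr.ne_zero
    have e : aeval x (r.comp (C (n : ℤ) * X)) = aeval ((n : F) * x) r := by
      rw [aeval_comp]; simp
    refine ⟨q * r.comp (C (n : ℤ) * X), mul_ne_zero hq hr', fun P' hP' => ?_⟩
    rw [map_mul]
    rcases hP' with rfl | hP'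
    · rw [e]; exact h2.mul (aev_mem hx q)
    · rw [mul_comm]; exact (h1 P' hP').mul (aev_mem (h P' (.inr hP')).2 _)

theorem int_ut {F : Type} [Field F] [CharZero F] {P : Subring F} (h : Ho P) {c : ℤ} (hc : c ≠ 0) :
    Ut P (c : F) := by
  have h1 := ho_ut h (Int.natAbs_ne_zero.2 hc)
  refine ⟨by exact_mod_cast hc, intCast_mem P c, ?_⟩
  rcases Int.natAbs_eq c with e | e
  · rw [e, Int.cast_natCast]; exact h1.2.2
  · rw [e, Int.cast_neg, Int.cast_natCast, inv_neg]; exact P.neg_mem h1.2.2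

end Val

open Val

theorem aBnd : BND := by
  intro 𝒜 F _ _ _ j u y ρ hj ⟨q, hq, he⟩
  have hc : ∀ i, ∃ g : ℚ[X], aeval u g = (q.coeff i : F) := fun i => by
    have h := (Algebra.adjoin_singleton_eq_range_aeval ℚ u).le (q.coeff i).2
    exact h
  choose g hg using hc
  have hb : ∀ i, ∃ B : ℝ, ∀ v ∈ closedBall (0 : ℂ) ρ, ‖aeval v (g i)‖ ≤ B := fun i =>
    (isCompact_closedBall 0 ρ).exists_bound_of_continuousOn
      (Polynomial.continuous_aeval (g i)).continuousOn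
  choose B hB using hb
  refine ⟨max 1 (∑ i ∈ Finset.range q.natDegree, B i), fun ψ v w hv hw hρ => ?_⟩
  refine cauchy (c := fun i => aeval v (g i)) (fun i => hB i v (by simpa using hρ)) ?_
  refine vl_zero (ψ := ψ) hj ?_
  have e : y ^ q.natDegree + ∑ i ∈ Finset.range q.natDegree, aeval u (g i) * y ^ i = 0 := by
    rw [← aeval_def, hq.as_sum] at he
    simp only [map_add, map_pow, aeval_X, map_sum, map_mul, aeval_C] at he
    simp only [hg]
    exact he
  rw [← e]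
  exact vl_add (vl_pow hw _) (vl_sum fun i => vl_mul (vl_aev hv _) (vl_pow hw i))

theorem aVal0 : OfVal0 := by
  intro hFi hNb hSp hDv hRad hEx K F _ _ _ _ _ O O' 𝒜 S μ x N hF hx D ω p0 hp0 hω
  have ht := (hEx K F O O' 𝒜 S μ x N hF hx).1
  have hI := hFi F hF
  have hN := hNb ℚ F (fun c => (IsLocalization.isAlgebraic ℚ (nonZeroDivisors ℤ)).isAlgebraic c) hI
  have hxm : ∀ P, Pl P → P ≠ O' → (x : F) ∈ P := (hx.mem x).2 ⟨1, one_ne_zero, by simp⟩
  have hh : ∀ k, ∃ h : F, ω k = h • dd (x : F) ∧ ∀ c : F, ω k = c • dd (x : F) → h = c ∨ h = 0 := by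
    intro k
    obtain ⟨h, e⟩ := hSp F x hF ht (ω k)
    by_cases h0 : dd (x : F) = 0
    · exact ⟨0, by rw [e, h0, smul_zero, smul_zero], fun _ _ => .inr rfl⟩
    · exact ⟨h, e, fun c e' => .inl (smul_left_injective F h0 (e.symm.trans e'))⟩
  choose h h1 h2 using hh
  have hT : {P : Subring F | (Pl P ∧ P ≠ O') ∧ ∃ k, ordR P (h k) ≠ 0}.Finite :=
    (Set.finite_iUnion fun k => hI.fin (h k)).subset fun P ⟨hP, k, e⟩ =>
      Set.mem_iUnion.2 ⟨k, hP.1, e⟩
  obtain ⟨q, hq, hq'⟩ := van hN (x : F) hT fun P hP => ⟨hP.1.1, hxm P hP.1.1 hP.1.2⟩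
  obtain ⟨p, m, c, hs, hc, r, hr⟩ := hRad (X * p0 * q) (mul_ne_zero (mul_ne_zero X_ne_zero hp0) hq)
  have hp : p ≠ 0 := fun e => hs.ne_zero (by rw [e, Polynomial.map_zero])
  have hrt : ∀ b : ℂ, b * aeval b p0 = 0 → aeval b p = 0 := fun b hb => by
    have e := congrArg (aeval b) hr
    simp only [map_mul, aeval_X, aeval_C, map_pow, hb, zero_mul] at e
    exact eq_zero_of_pow_eq_zero ((mul_eq_zero.1 e).resolve_left (by simpa using hc))
  have hz : aeval (x : F) p ≠ 0 := fun e => ht ⟨p, hp, e⟩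
  have hnu : ∀ k P, Pl P → P ≠ O' → Nu P (aeval (x : F) p) → Nu P (aeval (x : F) p * h k) := by
    intro k P hP hO hn
    have ho := (((zDv F P hP.1).nu _).1 hn).resolve_left hz
    obtain ⟨h', e, hn'⟩ := hDv F P _ (ω k) hF hP hz ho.ne' (hω k P hP)
    rw [dd, Derivation.comp_aeval_eq, smul_smul] at e
    rcases h2 k _ e with e' | e'
    · rw [e']
      convert hn'.mul (aev_mem (hxm P hP hO) (derivative p)) using 1
      ring
    · rw [e', mul_zero]; exact nu_zero
  have hme : ∀ k P, Pl P → P ≠ O' → aeval (x : F) p * h k ∈ P := by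
    intro k P hP hO
    have hm := aev_mem (hxm P hP hO) p
    rcases nu_or hm with hn | hu
    · exact (hnu k P hP hO hn).1
    refine P.mul_mem hm ?_
    by_cases h0 : h k = 0
    · rw [h0]; exact P.zero_mem
    refine ((zDv F P hP.1).mem _ h0).2 (Eq.ge ?_)
    by_contra ho
    have hn := (hq' P ⟨⟨hP, hO⟩, k, ho⟩).mul (aev_mem (hxm P hP hO) (X * p0 * r))
    refine hn.not ?_
    have e := congrArg (aeval (x : F)) hr
    have e' : aeval (x : F) (X * p0 * r) * aeval (x : F) q = (c : F) * aeval (x : F) p ^ m := by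
      rw [← map_mul, show X * p0 * r * q = X * p0 * q * r by ring, ← e]
      simp
    rw [e']
    exact (int_ut hP.2 hc).mul (hu.pow m)
  choose n hn hn' using fun k => (hx.mem (aeval (x : F) p * h k)).1 (hme k)
  have hA : ∀ k, ((∏ k, n k : ℕ) : F) * (aeval (x : F) p * h k) ∈ 𝒜 := fun k => by
    obtain ⟨l, e⟩ := Finset.dvd_prod_of_mem n (Finset.mem_univ k)
    rw [e, Nat.cast_mul, mul_comm (n k : F), mul_assoc]
    exact mul_mem (natCast_mem 𝒜 l) (hn' k)
  refine ⟨p, ∏ k, n k, fun k => ⟨_, hA k⟩, hs, ?_, Finset.prod_ne_zero_iff.2 fun k _ => hn k,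
    fun b hb => hrt b (by rw [hb, mul_zero]), fun k => ⟨?_, fun P hP hO hn => ?_, ?_⟩⟩
  · exact natDegree_pos_of_aeval_root hp (hrt 0 (zero_mul _)) fun a ha => by simpa using ha
  · rw [h1 k, smul_smul, mul_assoc]
  · exact (hnu k P hP hO hn).mul (natCast_mem P _)
  · have hP := hx.rat'.1
    have hx0 : (x : F) ≠ 0 := fun e => hx.inf (e ▸ O'.zero_mem)
    have ho : ordR O' (x : F) ≠ 0 := fun e => hx.inf (((zDv F O' hP.1).mem _ hx0).2 e.ge)
    obtain ⟨h', e, hn'⟩ := hDv F O' _ (ω k) hF hP hx0 ho (hω k O' hP)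
    have e1 : ((∏ k, n k : ℕ) : F) * (aeval (x : F) p * h k) * x / aeval (x : F) p =
        ((∏ k, n k : ℕ) : F) * (h k * x) := by field_simp
    change Nu O' (((∏ k, n k : ℕ) : F) * (aeval (x : F) p * h k) * x / aeval (x : F) p)
    rw [e1]
    refine Nu.mul ?_ (natCast_mem O' _)
    rcases h2 k _ e with e' | e'
    · rwa [e']
    · rw [e', zero_mul]; exact nu_zero

theorem aVal1 : OfVal1 := by
  intro hFi hInt hB hEx K F _ _ _ _ _ O O' 𝒜 S μ x N hF hx p a hp hfin hinf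
  have ht := (hEx K F O O' 𝒜 S μ x N hF hx).1
  have hI := hFi F hF
  have hm : ∀ b : 𝒜, ∀ P, Pl P → P ≠ O' → (b : F) ∈ P := fun b =>
    (hx.mem b).2 ⟨1, one_ne_zero, by simp⟩
  have hp0 : p ≠ 0 := fun e => by simp [e] at hp
  have hz : aeval (x : F) p ≠ 0 := fun e => ht ⟨p, hp0, e⟩
  obtain ⟨R0, hR0⟩ := big hp
  set j : 𝒜 →+* F := 𝒜.val.toRingHom with hj
  have hj' : Function.Injective j := Subtype.val_injective
  have jz : j (aeval x p) = aeval (x : F) p := map_aev j x p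
  constructor
  · intro ε hε
    obtain ⟨L0, hL0⟩ :=
      ((hI.fin (aeval (x : F) p)).image fun P => ordR P (aeval (x : F) p)).bddAbove
    have hL : ∀ P, Pl P → P ≠ O' → (a : F) ^ (L0.toNat + 1) / aeval (x : F) p ∈ P := by
      intro P hP hO
      have hV := zDv F P hP.1
      rcases nu_or (aev_mem (hm x P hP hO) p) with hn | hu
      · by_cases ha : (a : F) = 0
        · rw [ha, zero_pow (Nat.succ_ne_zero _), zero_div]; exact P.zero_mem
        have o1 := ((hV.nu _).1 hn).resolve_left hz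
        have o2 := ((hV.nu _).1 (hfin P hP hO hn)).resolve_left ha
        have o3 : ordR P (aeval (x : F) p) ≤ L0 := hL0 ⟨P, ⟨hP, o1.ne'⟩, rfl⟩
        rw [hV.mem _ (div_ne_zero (pow_ne_zero _ ha) hz), div_eq_mul_inv,
          hV.mul _ _ (pow_ne_zero _ ha) (inv_ne_zero hz), ← zpow_natCast, ← zpow_neg_one,
          hV.zpow _ _ ha, hV.zpow _ _ hz]
        have o4 := Int.self_le_toNat L0
        push_cast
        nlinarith [Int.natCast_nonneg L0.toNat]
      · rw [div_eq_mul_inv]; exact P.mul_mem (P.pow_mem (hm a P hP hO) _) hu.2.2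
    obtain ⟨n, hn, hc⟩ := (hx.mem _).1 hL
    set L := L0.toNat + 1
    set c : 𝒜 := ⟨_, hc⟩ with hcd
    have e : (n : 𝒜) * a ^ L = aeval x p * c := hj' (by
      rw [map_mul, map_mul, jz, map_natCast, map_pow]
      change (n : F) * (a : F) ^ L = aeval (x : F) p * ((n : F) * ((a : F) ^ L / aeval (x : F) p))
      field_simp)
    obtain ⟨C, hC⟩ := hB 𝒜 F j x c R0 hj' (hInt F x c hF ht fun P hP hxP =>
      hm c P hP fun e => hx.inf (e ▸ hxP))
    refine ⟨min 1 (ε ^ L / (|C| + 1)), lt_min one_pos (by positivity), fun ψ hψ => ?_⟩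
    have h1 : ‖ψ x‖ ≤ R0 := not_lt.1 fun h => (hR0 _ h).not_gt (hψ.trans_le (min_le_left _ _))
    have h2 := hC ψ _ _ (vl_j x) (vl_j c) h1
    have h3 := congrArg (fun b => ‖ψ b‖) e
    simp only [map_mul, map_natCast, map_pow, norm_mul, norm_pow, map_aev, Complex.norm_natCast]
      at h3
    refine le_of_pow_le_pow_left₀ (Nat.succ_ne_zero L0.toNat) hε.le ?_
    have h4 : (1 : ℝ) ≤ n := by exact_mod_cast Nat.one_le_iff_ne_zero.2 hn
    have h5 := (lt_div_iff₀ (by positivity)).1 (hψ.trans_le (min_le_right _ _))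
    have h6 : ‖ψ c‖ ≤ |C| + 1 := h2.trans ((le_abs_self C).trans (by linarith))
    have h7 := mul_le_mul_of_nonneg_left h6 (norm_nonneg (aeval (ψ x) p))
    have h8 := mul_le_mul_of_nonneg_right h4 (pow_nonneg (norm_nonneg (ψ a)) L)
    change ‖ψ a‖ ^ L ≤ ε ^ L
    linarith
  · intro ε hε
    have hP' := hx.rat'.1
    have hV := zDv F O' hP'.1
    have hx0 : (x : F) ≠ 0 := fun e => hx.inf (e ▸ O'.zero_mem)
    have ho : ordR O' (x : F) < 0 := not_le.1 fun e => hx.inf ((hV.mem _ hx0).2 e)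
    obtain ⟨ν, hν⟩ : ∃ ν : ℕ, ordR O' (x : F) = -(ν + 1 : ℕ) :=
      ⟨(-ordR O' (x : F) - 1).toNat, by push_cast; omega⟩
    have hu : Transcendental ℤ (aeval (x : F) p)⁻¹ := fun h =>
      ht.aeval p hp.ne' (mem_nonZeroDivisors_of_ne_zero (leadingCoeff_ne_zero.2 hp0))
        (IsAlgebraic.inv_iff.1 h)
    obtain ⟨C, hC⟩ := hB 𝒜 F j _ (((a : F) * x * (aeval (x : F) p)⁻¹) ^ (ν + 1) * x) 1 hj'
      (hInt F _ _ hF hu fun P hP hzP => by
        by_cases hO : P = O'
        · subst hO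
          rw [← div_eq_mul_inv]
          by_cases h0 : (a : F) * x / aeval (x : F) p = 0
          · rw [h0, zero_pow (Nat.succ_ne_zero _), zero_mul]; exact P.zero_mem
          have o1 := ((hV.nu _).1 hinf).resolve_left h0
          rw [hV.mem _ (mul_ne_zero (pow_ne_zero _ h0) hx0), hV.mul _ _ (pow_ne_zero _ h0) hx0,
            ← zpow_natCast, hV.zpow _ _ h0, hν]
          nlinarith [Int.natCast_nonneg (ν + 1)]
        · exact P.mul_mem (P.pow_mem (P.mul_mem (P.mul_mem (hm a P hP hO) (hm x P hP hO)) hzP) _)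
            (hm x P hP hO))
    refine ⟨max R0 (|C| / ε ^ (ν + 1)), fun ψ hψ => ?_⟩
    have h1 := hR0 _ ((le_max_left _ _).trans_lt hψ)
    have h2 := (div_lt_iff₀ (by positivity)).1 ((le_max_right _ _).trans_lt hψ)
    have h0 : aeval (ψ x) p ≠ 0 := norm_pos_iff.1 (by linarith)
    have hv : Vl j ψ (aeval (x : F) p)⁻¹ (aeval (ψ x) p)⁻¹ := by
      have := vl_inv (j := j) (ψ := ψ) (t := aeval x p) (by rwa [map_aev]) (by rwa [jz])
      rwa [jz, map_aev] at this
    have h3 := hC ψ _ _ hv (vl_mul (vl_pow (vl_mul (vl_mul (vl_j a) (vl_j x)) hv) _) (vl_j x))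
      (by rw [norm_inv]; exact inv_le_one_of_one_le₀ h1)
    rw [norm_mul, norm_pow] at h3
    have hxp : 0 < ‖ψ x‖ := (by positivity : 0 ≤ |C| / ε ^ (ν + 1)).trans_lt
      ((le_max_right _ _).trans_lt hψ)
    have h4 : ‖ψ a * ψ x * (aeval (ψ x) p)⁻¹‖ ≤ ε := by
      refine le_of_pow_le_pow_left₀ (Nat.succ_ne_zero ν) hε.le (le_of_mul_le_mul_right ?_ hxp)
      have := le_abs_self C
      change _ ^ (ν + 1) * _ ≤ ε ^ (ν + 1) * _
      linarith
    rwa [norm_mul _ _⁻¹, norm_inv, ← div_eq_mul_inv, div_le_iff₀ (by linarith)] at h4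

end Pool.Agent.MP_f3836a_nt.GV.A.U
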