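import Pool.Agent.MP_f3836a_nt.RG.SpecE
import Pool.Agent.MP_f3836a_nt.GV.GXTopA
import Pool.Agent.MP_f3836a_nt.GV.GXCore

/-! The construction at one level and the order of the constants for the twisted core. -/

set_option autoImplicit false

namespace Pool.Agent.MP_f3836a_nt.GV.T

open Polynomial Finset VE

open XTopL GXTopA in
theorem eTop : OfTopT := by
  classical
  intro hDel hH hFam hBox hPrj hPw hHt hSc hMert n r m _ G p0 m1 J G1 ψ c φ cθ VS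
    AF N M0 M1 a0 k1 kM W κ0 J0 Cb1 Cb Λ3 Λa ε0 di l Cx hG hp hpW hG1 hm h5 hrad hId hVS hSp ct
  obtain ⟨⟨w1, w2, -⟩, ⟨b1, b2, b5, b6, b7, hCb, b9, b10, b11⟩, ⟨l1, l2, l4⟩, lv,
    ⟨d1, d2, d3, d4, d5⟩, har, q0, Ye, hEta⟩ := ct
  obtain ⟨⟨v1, v2, v3⟩, ⟨c1, c2, c3, c4, c5, c6, c7⟩, ⟨t1, t2, t3⟩, ⟨e1, e2, e3⟩, ⟨x1, -⟩,
    ⟨g1, g2, g3, g4, g5⟩, ⟨y1, y2, y3⟩, ⟨z1, z2, z3, z4, z5⟩⟩ := lv
  obtain ⟨k, hκ⟩ : ∃ k, l.κ = k + 2 := ⟨l.κ - 2, by omega⟩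
  have hk1 : 10000 ≤ k := by omega
  have hk2 : k1 ≤ k + 2 := by omega
  rw [hκ] at v1 v2 v3 l4 x1
  have hk0 : (0 : ℝ) ≤ k := Nat.cast_nonneg _
  have v4 : Cb * ((k : ℝ) + 2) ≤ l.Λ := by exact_mod_cast v3
  have hΛ : 2 * Cb ≤ l.Λ := by nlinarith only [hCb, hk0, v4]
  have hkΛ : 10 * ((k : ℝ) + 2) ≤ l.Λ := by nlinarith only [hCb, hk0, v4]
  have hK : 0 < l.K := by
    rcases Nat.eq_zero_or_pos l.K with h | h
    · rw [h] at c3; norm_num at c3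
    · exact h
  have hn : 0 < n := Nat.pos_of_ne_zero (NeZero.ne n)
  have hm0 : 0 < m := by have := h5 0; omega
  have hW : 0 < W := by omega
  have hW' : 0 < p0 ^ J * W := Nat.mul_pos (pow_pos hp.pos _) hW
  have hθ2 : l.θ ^ 2 ≤ 1 := pow_le_one₀ t1.le (by linarith only [t2])
  have hJ : (0 : ℝ) ≤ l.J1 := Nat.cast_nonneg _
  have hCe : 80 * Cb * l.e ≤ l.θ ^ 2 := by
    refine le_trans ?_ g5
    have : 0 ≤ Cb * l.e := mul_nonneg (by linarith only [hCb]) g1.le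
    linarith only [mul_nonneg this hJ, this]
  have hΛ0 : 0 ≤ l.Λ := by linarith only [hΛ, hCb]
  have hΛ1 : 1 ≤ l.Λ := by linarith only [hΛ, hCb]
  have hCΛ : 2 ≤ Cb * l.Λ := by nlinarith only [hCb, hΛ]
  have hε1 : Cb1 * l.ε ≤ l.θ ^ 2 / 40 := (mul_le_mul_of_nonneg_right b2 e1.le).trans e3
  have hK1 : Cb1 * l.Λ ≤ Cb * l.Λ := mul_le_mul_of_nonneg_right b2 hΛ0
  have hdi : di ^ 2 ≤ 1 := pow_le_one₀ d1.le d2
  have h2e : 2 * l.e ≤ l.θ ^ 2 := by nlinarith only [hCe, hCb, g1]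
  have hmis : 2 * (M0 : ℝ) ^ 3 * l.d' + ε0 ≤ l.e ^ 3 / 8 := by
    have := mul_le_mul_of_nonneg_right b5 y1.le
    linarith only [this, y3, d4, z2]
  have hη1 : 2 * l.η * l.Λ ^ AF ≤ 1 := by
    refine le_trans ?_ c2
    have := mul_le_mul_of_nonneg_left (show 2 ≤ l.Λ by linarith only [hΛ, hCb])
      (mul_nonneg c1.le (pow_nonneg hΛ0 AF))
    rw [pow_succ]
    linarith only [this]
  have hη2 : l.θ * l.M ^ 3 * l.Λ ^ AF ≤ (2 * l.η) ^ 2 := by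
    have h1 : l.θ * l.M ^ 3 * l.Λ ^ AF ≤ l.θ * l.M ^ 3 * l.Λ ^ (AF + 1) :=
      mul_le_mul_of_nonneg_left (pow_le_pow_right₀ hΛ1 (Nat.le_succ _))
        (mul_nonneg t1.le (pow_nonneg (by linarith only [hJ, c7]) _))
    nlinarith only [h1, t3, sq_nonneg l.η]
  have hεb : 0 < min (l.η / 2) (1 / 4) := lt_min (half_pos c1) (by norm_num)
  have hη3 : 2 * min (l.η / 2) (1 / 4) + 1 / ((l.J1 : ℝ) + 1) ≤ 2 * l.η := by
    have h1 : 1 / ((l.J1 : ℝ) + 1) ≤ l.η := by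
      rw [div_le_iff₀ (by linarith only [hJ])]; exact c4
    linarith only [h1, min_le_left (l.η / 2) (1 / 4)]
  have hcp : 0 ≤ Real.log ((G.t1 : ℝ) - G.B.t0) := by
    have h1 : ((G.B.t0 + 1 + 2 * n : ℤ) : ℝ) ≤ G.t1 := Int.cast_le.2 hG.br.far
    push_cast at h1
    exact Real.log_nonneg (by linarith only [h1, (Nat.cast_nonneg n : (0 : ℝ) ≤ n)])
  have hAs : G.T.Mon m (pwr G.T.M G1 N) := by
    rw [hm]; exact ((hPw n).2 G.T m1 G1 N hG.tb hG1).1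
  obtain ⟨Cn, hCn⟩ := GXTopA.box hBox hG hVS hSp (pwr G.T.M G1 N) hεb
  obtain ⟨Yt, hHt⟩ := hHt n r G hG
  obtain ⟨Ym1, hmer⟩ := mer hMert
  obtain ⟨Yd, hDel⟩ := hDel n G.T G.t1 G.P hG.alg hG.win l.Km l.K (l.J1 + 1) l.e Λ3 g2 hK
    (Nat.succ_pos _) g1 (by linarith only [h2e, hθ2, g1]) (by linarith only [b6])
    (by linarith only [mul_le_mul_of_nonneg_right b7 g1.le, hCe, hθ2,
      mul_nonneg (zero_le_one.trans (b1.trans b2)) g1.le])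
  obtain ⟨Yh, hH⟩ := hH n m (p0 ^ J * W) a0 (k + 2) (Real.log ((G.t1 : ℝ) - G.B.t0))
    (max Cn (Cx (min (l.η / 2) (1 / 4)))) (81000 * n ^ 2 * m * W * 40 / l.θ ^ 2) hn hW' hcp
    (l1.trans v2)
  obtain ⟨B, hB⟩ := exl [Yd, Yh, Ye, Ym1, q0, Yt, (W : ℝ) * (p0 ^ J * W : ℕ), l.Λ,
    4 * (l.K : ℝ), (l.J1 : ℝ) + 1, 5, (kM : ℝ), 900 * (n : ℝ) * 40 / l.θ ^ 2, l.Λ / l.θ ^ 2]
  simp only [List.forall_mem_cons, List.not_mem_nil, false_imp_iff, implies_true, and_true] at hB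
  obtain ⟨B1, B2, B3, B4, B5, B6, B8, B9, B10, B11, B15, B16, B17, B18⟩ := hB
  refine ⟨B, ?_⟩
  intro k0 Y Ym d i o H2 hYm ⟨sc, _, ⟨s0, s1, s3, s4⟩, s5, hr⟩ hd1 hd2 hH2 hL hMO
  have hY : B ≤ Y := hYm.trans s3
  have hY5 : 5 ≤ Y := B15.trans hY
  have hY2 : 2 ≤ Y := by linarith only [hY5]
  have hY1 : 1 ≤ Y := one_le_two.trans hY2
  have hY0 : 0 ≤ Y := zero_le_one.trans hY1
  obtain ⟨s, r1, r2, r3, r4⟩ := hr l.K (84 * m + 702 + a0) hK (by omega) (B10.trans hY)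
  rw [show 84 * m + 702 + a0 + 1 = 84 * m + 703 + a0 by ring] at r4
  have hYU : Y ≤ (l.K * s : ℕ) := (le_self_pow₀ hY1 (by omega)).trans r3
  obtain ⟨HH, P1, hF⟩ := hDel G.B.t0 W k0 (l.K * s) Y (fun a => (o a).G) H2 sc (B1.trans hY)
    hYU hH2 hL fun a ha => by
      have := (hMO a ha).2.1.mis
      rw [(hMO a ha).2.2, hd2] at this
      exact this.trans hmis
  have hHH : HH ⊆ HH0 G.B.t0 W k0 := hF.hh.1.trans hH2
  obtain ⟨H, H1, v, V, X, ⟨a1, a2, a3⟩, a4, ⟨a8, a9⟩, a10, a15⟩ :=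
    hH Y (l.K * s) (B2.trans hY) r3
  have a3n : Cn * H1 ≤ H :=
    (mul_le_mul_of_nonneg_right (le_max_left _ _) (Nat.cast_nonneg _)).trans a3
  have a3x : Cx (min (l.η / 2) (1 / 4)) * H1 ≤ H :=
    (mul_le_mul_of_nonneg_right (le_max_right _ _) (Nat.cast_nonneg _)).trans a3
  have hV : 0 ≤ V := le_trans (pow_nonneg hY0 _) a10.1
  have hQ := qm (W := W) (W' := (p0 ^ J * W : ℕ)) (Y := Y) hY2 (B8.trans hY)
  have hΛε : l.Λ * ε0 ≤ 1 := le_trans (mul_le_mul_of_nonneg_left d4 hΛ0) z4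
  let D : Dat G m := ⟨W, p0 ^ J * W, k0, pwr G.T.M G1 N, H, H1, 0, 0, ψ, c, φ, cθ, Y, HH, P1,
    fun a => (o a).G, fun a => (o a).ρ, fun a => (o a).LL, k, l.K, s, l.J1, M1, N, v, X, l.Λ,
    2 * Λ3, l.M, Ym, l.θ, 2 * l.η, min (l.η / 2) (1 / 4), Cb * l.Λ, V, l.e⟩
  have hmain : ∀ a ∈ HH, _ := fun a ha => (hMO a (hF.hh.1 ha)).2.1.main (D.Z a) (l.K * s) l.Km
    (2 * l.e) (fun z hz => by
      unfold Dat.Z at hz
      unfold Ps.pon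
      rw [mem_filter] at hz ⊢
      exact ⟨⟨hF.p1.1 hz.1, hz.2.1⟩, hz.2.2⟩) (hF.cur a ha).2.1 (hF.cur a ha).1
    (by rw [(hMO a (hF.hh.1 ha)).2.2, hd1]; linarith only [g4]) hYU r4 g2
    (le_trans (mul_le_mul_of_nonneg_left d4 (Nat.cast_nonneg _)) z5)
  refine ⟨D, rfl, rfl, rfl, rfl, rfl, hη1, hη2, hεb, a3x, fun vs hvs => ?_⟩
  obtain ⟨f0, hf0⟩ := hPrj n m G.B.t0 G.t1 (NR G.T (vP vs)) (Nat.mul_pos hn hm0) HH D.t
    (D.re vs 0).d0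
  have gok : (D.re vs f0).Γ.Ok := by
    refine ⟨hG.tb, hG.alg, h5, hAs, ⟨hW, hW', (hSc W k0 Y sc).2.1, a2⟩, fun q hq h => ?_⟩
    rcases h with h | h | h
    · rcases (Nat.Prime.dvd_mul hq).1 h with h | h
      · exact ((Nat.prime_dvd_prime_iff_eq hq hp).1 (hq.dvd_of_dvd_pow h)).symm ▸ hpW
      · exact h
    · exact sc.rad q hq h
    · exact w2 q hq h
  have ngr : Nr (D.re vs f0).Γ G.B vs (((p0 ^ J * W : ℕ) : ℝ) * H) (min (l.η / 2) (1 / 4)) :=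
    hCn vs hvs W (p0 ^ J * W) k0 H H1 hW' a2 a3n
  have pre : (D.re vs f0).Pre := by
    refine ⟨hG, gok, sc, hSp vs hvs, ⟨ngr, a1, min_le_right _ _⟩, fun a ha => ?_,
      ⟨m1, p0, G1, Dvd.intro_left _ rfl, hpW, hG1, hm, rfl, hrad⟩, hF.p1.1,
      fun a ha => ⟨(hMO a (hF.hh.1 ha)).2.1.gd, (hMO a (hF.hh.1 ha)).2.1.rho,
        (hMO a (hF.hh.1 ha)).2.1.ll.2⟩, fun a ha T j β hj hT => ?_,
      ⟨Nat.mul_pos hK (two_pos.trans_le r1), r2, hk1, ?_, hkΛ, a9⟩, fun a ha had => ?_, a4,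
      ⟨hV, hΛ1, s1.le, hY5, t1, t2, hCΛ⟩, deg t1 (B17.trans hYm) s1 s0 s4 hΛ0 (B9.trans hYm),
      bdy t1 (by positivity) (Nat.cast_nonneg _) s1 s0 hΛ0 (B9.trans hYm) hV
        (pow_nonneg (pow_nonneg hY0 _) _)
        (pow_nonneg (mul_nonneg zero_le_two (pow_nonneg hY0 _)) _) a15⟩
    · have h1 := (hMO a (hF.hh.1 ha)).1
      obtain ⟨h2, h3, h4, h6⟩ := hHt W k0 Y a (B6.trans hY) sc h1.mem
      exact ⟨h1, ⟨h2, h3, h4⟩, h6⟩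
    · exact ((hmain a ha).1 T j β (le_trans hj l4) hT).trans
        (mul_le_mul_of_nonneg_right (s5 ε0 d5) (hMO a (hF.hh.1 ha)).2.1.rho.le)
    · have : ((k + 2 : ℕ) : ℝ) ≤ (l.K * s : ℕ) := by
        have : ((k + 2 : ℕ) : ℝ) ≤ kM := by exact_mod_cast l4
        exact this.trans (B16.trans (hY.trans hYU))
      exact_mod_cast this
    · refine (hmain a ha).2 k v X V _ l.ε l.Λ _ _ ⟨⟨d4.trans z3, e2, hΛε, hΛ1⟩,
        ⟨hQ, a10⟩, ⟨hε1, hK1⟩⟩ v1 l4 hk2 ?_ ?_ ?_ had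
      · rw [(hMO a (hF.hh.1 ha)).2.2, hd1]
        exact (dec b1 b2 (sq_nonneg _) hdi hΛ0 le_rfl).trans (x1 (k + 2) (by omega))
      · refine le_trans ?_ g3
        have : (k : ℝ) + 2 ≤ l.Λ := by linarith only [hkΛ, hk0]
        have h0 : 0 ≤ 2 * l.e + 1 / (l.Km : ℝ) :=
          add_nonneg (mul_nonneg zero_le_two g1.le) (div_nonneg zero_le_one (Nat.cast_nonneg _))
        exact mul_le_mul_of_nonneg_right (mul_le_mul hK1 this (by linarith only [hk0])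
          (zero_le_two.trans hCΛ)) h0
      · rwa [Nat.cast_add, Nat.cast_ofNat] at a8
  obtain ⟨fam, mdl⟩ := hFam n r m G _ pre
  refine ⟨f0, hG, gok, sc, hSp vs hvs, ngr, hId, fun a ha => (hMO a (hF.hh.1 ha)).1, hf0, fam,
    ⟨by show 100 ≤ l.Λ; linarith only [hΛ, hCb], B9.trans hYm, t1,
      by show l.θ ≤ 1; linarith only [t2], by show 0 < 2 * l.η; linarith only [c1],
      by show 1 ≤ 2 * Λ3; linarith only [b6],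
      by show 2 * (2 * Λ3) ≤ l.Λ; linarith only [b7, hΛ, hCb],
      by show 2 * G.P.K ≤ l.Λ; linarith only [b9, hΛ],
      by show 2 * (n : ℝ) ^ 2 * m ≤ l.Λ; linarith only [b10, hΛ]⟩,
    ⟨le_trans (by norm_num) hk1, by show (k : ℝ) + 2 ≤ l.Λ; linarith only [hkΛ, hk0]⟩,
    ⟨r1, by show 2 ≤ 2 * l.η * l.K; linarith only [c3], c6, c7, B11.trans hY⟩,
    ⟨a1, hεb.le, min_le_right _ _, hη3⟩, win t1 (B18.trans hYm) s1 s0, ⟨hHH, hF.hh.2⟩, hF.p1,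
    fun a ha => (hF.cur a ha).2.2, ⟨g1.le, ?_⟩, hF.del, hF.shg, hF.r0.trans h2e, mdl,
    fun a ha => (hMO a (hF.hh.1 ha)).2.1.ll.1, ?_, ?_, hmer Y (B4.trans hY)⟩
  · refine le_trans ?_ g5
    show 2 * Λ3 * (2 * ((l.J1 : ℝ) + 1) + 80) * l.e ≤ _
    exact mul_le_mul_of_nonneg_right (mul_le_mul_of_nonneg_right (by linarith only [b6, b7])
      (by linarith only [hJ])) g1.le
  · intro a1 b1 T S h1 h2 h3 h4
    exact hEta k0 Y (B3.trans hY) sc a1 b1 T S h1 h2 h3 fun z hz =>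
      ⟨(h4 z hz).1, (h4 z hz).2.1, (B5.trans hY).trans (h4 z hz).2.2⟩
  · have hΛa : Λa ≤ l.Λ := by linarith only [b11, hΛ, hCb]
    have h1 := arC_mono (har (l.J1 + 1) c5).1 hΛa
    have h2 := arE_mono (har (l.J1 + 1) c5).2 hΛa
    rw [show 4 * Λ3 = 2 * (2 * Λ3) by ring] at h1 h2
    exact ⟨h1, h2⟩

/-- one ratio of the sides for finitely many shapes -/
theorem cx {s : ℕ} {β : Type} {P : ℝ → Fin s → ℕ → ℕ → ℕ → ℕ → ℤ → β → Prop}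
    (h : ∀ k, ∀ ε : ℝ, 0 < ε → ∃ Cx : ℝ, ∀ (W' k0 H H1 : ℕ) (a : ℤ) (x : β), 0 < W' → 0 < H1 →
      Cx * H1 ≤ H → P ε k W' k0 H H1 a x) :
    ∃ Cx : ℝ → ℝ, ∀ ε : ℝ, 0 < ε → ∀ k, ∀ (W' k0 H H1 : ℕ) (a : ℤ) (x : β), 0 < W' → 0 < H1 →
      Cx ε * H1 ≤ H → P ε k W' k0 H H1 a x := by
  choose! Cx hCx using h
  refine ⟨fun ε => ∑ k, |Cx k ε|, fun ε hε k W' k0 H H1 a x h1 h2 h3 =>
    hCx k ε hε W' k0 H H1 a x h1 h2 (le_trans ?_ h3)⟩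
  exact mul_le_mul_of_nonneg_right ((le_abs_self _).trans
    (single_le_sum (f := fun k => |Cx k ε|) (fun _ _ => abs_nonneg _) (mem_univ k)))
    (Nat.cast_nonneg _)

open VE.XCore GXCore Classical in
theorem eCore : OfCoreT := by
  rintro ⟨AF, hAF⟩ hTop hCls hMain hCv hLv hW hScl hPw hSp hEta hAr hArG hPrj n r _ G hG h0 p0 m1
    G1 hp hm1 hG1 hpr Wt τ hIt hTw ⟨m0, hq⟩
  obtain ⟨N, M0, M1, a0, d0, hN, hd0, hM⟩ := hMain n r G hG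
  obtain ⟨u, hu⟩ : ∃ u, u = m0 + ∑ i, G.T.e i + 5 := ⟨_, rfl⟩
  obtain ⟨m, hm⟩ : ∃ m, m = N * (u * m1) := ⟨_, rfl⟩
  have um : u ≤ m := by
    rw [hm]
    exact (Nat.le_mul_of_pos_right u hm1).trans (Nat.le_mul_of_pos_left _ hN)
  have five : ∀ i, G.T.e i + 5 ≤ m := fun i => by
    have := single_le_sum (f := G.T.e) (fun _ _ => Nat.zero_le _) (mem_univ i)
    omega
  have n0 : 0 < n := Nat.pos_of_ne_zero (NeZero.ne n)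
  obtain ⟨p3, -⟩ := (hPw n).1 _ G.T.M G1 u u hG.tb.rng
  have hG2 := ((hPw n).2 G.T m1 G1 u hG.tb hG1).1
  have hpr2 : ∀ q : ℕ, q.Prime → (q : ℤ) ∣ (G.T.N (pwr G.T.M G1 u)).eval G.t1 → q = p0 := by
    intro q hq1 hq2
    rw [Tb.N, p3, eval_pow] at hq2
    exact hpr q hq1 (Int.Prime.dvd_pow' hq1 hq2)
  have hId : G.Ids (fun _ _ _ => 0) (fun _ _ => 0) (fun _ _ => 0) (fun _ _ => 0) :=
    ⟨fun _ _ _ _ _ _ _ _ => by simp, fun _ _ _ => h0, fun _ _ _ => by simp,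
      fun _ _ _ _ _ _ _ _ _ _ => by simp [ug]⟩
  obtain ⟨εs, hεs, hSp'⟩ := hSp n r G.T G.B G.t1 m hG.tb hG.br (by omega)
  obtain ⟨ε1, hε1, hTw⟩ := hTw m (by omega)
  obtain ⟨s, v, hv1, hq⟩ := hq m (by omega) (min εs ε1) (lt_min hεs hε1)
  have hCl : ∀ k, Cls G Wt.tw (pwr G.T.M (pwr G.T.M G1 u) N) (v k) (τ m (v k)) := fun k =>
    hTw _ (fun j => (hv1 k j).trans (min_le_right _ _)) _
  obtain ⟨Cx, hCx⟩ := cx fun k => (hCl k).2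
  obtain ⟨ρ0, ρ1⟩ := hG.br.rho
  obtain ⟨Λ3, hΛ3⟩ : ∃ Λ3 : ℝ, Λ3 = 4 * (M0 + 1) / G.B.ρ := ⟨_, rfl⟩
  have L3 : 1 ≤ Λ3 := by
    have : (0 : ℝ) ≤ M0 := M0.cast_nonneg
    rw [hΛ3, le_div_iff₀ ρ0]
    linarith
  obtain ⟨k1, Cb1, hCb1, hM⟩ := hM (84 * m + 703 + a0)
  obtain ⟨Ja, Λa, hΛa, hA⟩ := hAr (n * m) (4 * Λ3)
  obtain ⟨Jb, Λb, hΛb, hB⟩ := hArG (n * m) (4 * Λ3)
  obtain ⟨Jr, Λr, hΛr, hR⟩ := hq (4 * Λ3)
  obtain ⟨Cb, hCb⟩ : ∃ Cb : ℝ, Cb = Cb1 + 2 * (M0 : ℝ) ^ 3 + 4 * Λ3 + 100 + |G.P.K|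
    + (n : ℝ) ^ 2 * m + (Λa + Λb) + Λr * s := ⟨_, rfl⟩
  have c1 : (0 : ℝ) ≤ 2 * (M0 : ℝ) ^ 3 := by positivity
  have c2 : (0 : ℝ) ≤ (n : ℝ) ^ 2 * m := by positivity
  have c3 : (0 : ℝ) ≤ Λr * s := by positivity
  have c4 := abs_nonneg G.P.K
  have c5 := le_abs_self G.P.K
  have C1 : 1 ≤ Cb := by linarith
  obtain ⟨κ0, hκ0⟩ : ∃ κ0, κ0 = n * (28 * m + 510 + a0) + (k1 + 10002) := ⟨_, rfl⟩
  obtain ⟨d, l, hd, hd1, hl⟩ := levels (LvOk Cb (AF + 1) N κ0 (Ja + Jb + Jr) 1 0 k1) d0 hd0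
    fun x h0 h1 => by
      obtain ⟨l, h⟩ := hLv Cb (AF + 1) N κ0 (Ja + Jb + Jr) 1 0 k1 x C1 hN one_pos h0 h1
      exact ⟨l, h, h.nxt.1, h.nxt.2.1⟩
  obtain ⟨ε0, he0, he1, he2⟩ := lb M0 (fun i => (l i).e0) 10 (by norm_num)
    fun i => (hl i).2.2.1.e0.1
  obtain ⟨kM, hkM⟩ := ubN M0 fun i => (l i).κ
  have hΛ : ∀ i, Cb ≤ (l i).Λ := fun i => by
    have h := (hl i).2.2.1
    have k0 : 1 ≤ (l i).κ := le_trans (by omega) h.len.2.1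
    have k1 : (1 : ℝ) ≤ (l i).κ := by exact_mod_cast k0
    exact le_trans (by nlinarith) h.len.2.2
  obtain ⟨w1, Yc, hc⟩ := hCv n r G hG
  have hE : ∀ i, ∃ (w0 : ℕ) (q0 Y1 : ℝ), ∀ (W k0 : ℕ) (Y : ℝ), Y1 ≤ Y → Sc W k0 Y →
      (∀ l : ℕ, l.Prime → l ≤ w0 → l ∣ W) →
      EtaG G.B.t0 W k0 Y ((l i).θ ^ 2 / (2 * Λ3)) (Cb * (l i).Λ) q0 M1 8 (3 * n) := by
    intro i
    have t1 := (hl i).2.2.1.th.1
    have k2 := hΛ i
    obtain ⟨w0, q0, Y1, h'⟩ := hEta ((l i).θ ^ 2 / (2 * Λ3)) (Cb * (l i).Λ) M1 (3 * n) 8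
      (by positivity) (by nlinarith)
    exact ⟨w0, q0, Y1, fun W k0 Y h1 h2 h3 a1 b1 T S g1 g2 g3 g4 g5 g6 g7 =>
      (h' G.B.t0 W k0 Y h1 h2 h3 a1 b1 T S g1 g2 g3 g4 g5 g6 g7).2⟩
  choose w q0 Ye hE using hE
  obtain ⟨w2, hw2⟩ := ubN M0 w
  obtain ⟨W, hW1, hW2, hWw⟩ := hW n N (G.W0 * p0) (w1 + w2) hN (Nat.mul_pos hG.w0 hp.pos)
  have W5 : 5 ≤ W := hW1.1
  have W2 : 2 ∣ W := hW1.2.1 2 Nat.prime_two (by omega)
  obtain ⟨Y1, hM⟩ := hM d kM ε0 hd (fun i => (hl i).1) hd1 he0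
  have hVS : ∀ vs ∈ insert oneX (Set.range v), Sp G.T G.B vs := by
    rintro vs (rfl | ⟨k, rfl⟩)
    · exact hSp' _ fun j => by simpa using hεs.le
    · exact hSp' _ fun j => (hv1 k j).trans (min_le_left _ _)
  have hT : ∀ i, ∃ Yl : ℝ, i ≤ M0 → ∀ (k0 : ℕ) (Y Ym : ℝ) (o : ℤ → MO) (H2 : Finset ℤ), Yl ≤ Ym →
      Scl W G.Nx k0 Y Ym → H2 ⊆ HH0 G.B.t0 W k0 → Lc W k0 ≤ Λ3 * H2.card →
      (∀ a ∈ H2, G.Adm a k0 ∧
        MOk G W k0 Y N M0 M1 a0 (84 * m + 703 + a0) k1 kM Cb1 ε0 d a (o a) ∧ (o a).i = i) →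
      False := by
    intro i
    by_cases hi : i ≤ M0
    swap
    · exact ⟨0, fun h => absurd h hi⟩
    obtain ⟨Yl, h⟩ := hTop n r m G p0 (u * m1) 0 (pwr G.T.M G1 u) _ _ _ _
      (insert oneX (Set.range v)) AF N M0 M1 a0 k1 kM W κ0 (Ja + Jb + Jr) Cb1 Cb Λ3 (Λa + Λb) ε0
      (d i) (l i) Cx hG hp ((Dvd.intro_left _ rfl).trans hW2) hG2 hm five hpr2 hId
      ((Set.finite_range v).insert _) hVS
      { w := hW1
        cb := ⟨hCb1, by linarith, by linarith, L3, by linarith, by linarith, by linarith,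
          by linarith, by linarith⟩
        len := ⟨by omega, by omega, hkM i hi⟩
        lv := (hl i).2.2.1
        d := ⟨(hl i).1, (hl i).2.1, he0, he2 i hi, he1⟩
        ar := fun J hJ => ⟨arC (by linarith)
            fun t0 H s N c => hA J t0 H s N c (by omega), arE (by linarith) (hB J (by omega))⟩
        eta := ⟨q0 i, Ye i, fun k0 Y h1 h2 => hE i W k0 Y h1 h2 fun l hl hl' =>
          hWw l hl (by have := hw2 i hi; omega)⟩ }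
    refine ⟨Yl, fun _ k0 Y Ym o H2 g1 g2 g3 g4 g5 => ?_⟩
    obtain ⟨D, -, e2, e4, e5, e6, e7, e8, eb, ex, e9⟩ :=
      h k0 Y Ym d i o H2 g1 g2 rfl (hl i).2.2.2 g3 g4 g5
    obtain ⟨f0, hraw⟩ := e9 oneX (Set.mem_insert _ _)
    have hRq : RqT G.T G.B G.t1 G.C0 v (fun k => τ m (v k)) (D.J1 + 1) (2 * D.Λ1) Λr := by
      rw [e4, e5, show 2 * (2 * Λ3) = 4 * Λ3 by ring]
      exact hR _ (le_trans (by omega) (hl i).2.2.1.cel.2.2.2.2.1)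
    refine hCls AF hAF n r m G (D.re oneX f0) hraw Wt s v (fun k => τ m (v k)) Λr hIt
      (fun k => ?_) e7 e8 hRq hΛr (show Λr * s ≤ D.Λ by rw [e6]; linarith [hΛ i])
    obtain ⟨fk, hk⟩ := e9 (v k) (Set.mem_insert_of_mem _ ⟨k, rfl⟩)
    obtain ⟨f, hf⟩ := hPrj n m G.B.t0 G.t1 (NR G.T (vP (v k))) (Nat.mul_pos n0 (by omega))
      D.HH D.t (d1 (D.re (v k) fk) Wt (τ m (v k)))
    refine ⟨fk, f, hk, hIt, hf, fun a ha => (hCl k).1 _ (hk.adm a ha).mem, fun x hx a ha => ?_⟩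
    have := hCx D.εb eb k D.W' D.k0 D.H D.H1 a x hk.gok.pos.2.1 hk.gok.pos.2.2.2 ex hx
      (hk.adm a ha)
    rw [← e2] at this
    exact this
  choose Yl hT using hT
  obtain ⟨Y3, hY3⟩ := ub M0 Yl
  obtain ⟨k0, Y, Ym, big, sc⟩ := hScl W G.Nx (max Y1 (max Y3 Yc)) (by omega) W2 hG.nx
  simp only [max_le_iff] at big
  obtain ⟨b1, b2, b3⟩ := big
  have m3 := sc.le.2.2.1
  have g1 := hc W k0 Y (b3.trans m3) sc.sc (fun l hl hl' => hWw l hl (by omega))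
    ((Dvd.intro _ rfl).trans hW2) W2 sc.nx
  have ho : ∀ a, ∃ o : MO, G.Cv W k0 Y a →
      MOk G W k0 Y N M0 M1 a0 (84 * m + 703 + a0) k1 kM Cb1 ε0 d a o := by
    intro a
    by_cases ha : G.Cv W k0 Y a
    swap
    · exact ⟨⟨0, fun _ => True, ∅, 1⟩, fun h => absurd h ha⟩
    obtain ⟨o, h⟩ := hM W k0 Y a (b1.trans m3) hW1 sc.sc ha
    exact ⟨o, fun _ => h⟩
  choose o ho using ho
  obtain ⟨i, hi, u1⟩ := pig _ (fun a => (o a).i) M0 _ _ ρ0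
    (fun a ha => (ho a (mem_filter.1 ha).2).lev) g1
  refine hT i hi k0 Y Ym o _ ((hY3 i hi).trans b2) sc
    ((filter_subset _ _).trans (filter_subset _ _)) (by rw [hΛ3]; exact u1) fun a ha => ?_
  obtain ⟨h1, h2⟩ := mem_filter.1 ha
  exact ⟨(mem_filter.1 h1).2.adm, ho a (mem_filter.1 h1).2, h2⟩

end Pool.Agent.MP_f3836a_nt.GV.T
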