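import Pool.Agent.MP_f3836a_nt.RG.SpecE
import Pool.Agent.MP_f3836a_nt.GV.GSXAr
import Pool.Agent.MP_f3836a_nt.GV.GSXLs
import Pool.Agent.MP_f3836a_nt.GV.GSRig

/-! Part E, twisted: the fields of the additional data, rigidity, the contradiction. -/

set_option autoImplicit false

namespace Pool.Agent.MP_f3836a_nt.GV.T

open Polynomial Finset VE

theorem eXId : OfXIdT := by
  intro hA hB n r m _ G D W τ f hT
  have hR := hT.raw
  obtain ⟨-, -, -, -, -, -, -, hPW, hV, -, hw, hZ, -⟩ := hB n r m G D hR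
  obtain ⟨-, -, hMon, -, hnm, hz, -⟩ := hA n D.Γ hR.gok
  have hzr : ∀ (g : D.Γ.I) (h : D.HH) (M : Multiset Pt), D.sys.Ev g (some h) M → ∀ z ∈ M,
      z ∈ G.P.pts D.Y (D.Y ^ 2) → D.Γ.on h z → D.Γ.zr g z := fun g h M hE z hM ok on =>
    ((hz h z (hV z ok).1 on).2.2.1 g).1 (hE.2.1 z hM)
  have hZ' : ∀ (h : D.HH) z, D.sys.wz h z ≠ 0 →
      z ∈ G.P.pts D.Y (D.Y ^ 2) ∧ On h ((D.k0 : ℤ) ^ 2) z := fun h z e => by
    have := hZ h z e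
    simp only [Dat.Z, mem_filter] at this
    exact ⟨hR.p1.1 this.1, this.2.1⟩
  refine ⟨fun h z h1 z' h2 e1 e2 => ?_, fun h z h1 h2 => ?_, fun g _ h M hE hM => ?_⟩
  · rw [hw h z h1, hw h z' h2]
    classical exact if_congr (by rw [On, On, e1, e2]) (by rw [Ps.nu, Ps.nu, e1]) rfl
  · obtain ⟨z1, z2⟩ := hZ' h z h2
    have z3 := Ps.mem_pts G.P |>.1 z1
    rw [← hT.ids.fz h D.k0 z.p z.t z3.1.1 (hR.adm h h.2) z2 (hV z z1).2.1]
    simp only [ind, ite_mul, one_mul, zero_mul]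
    rw [← sum_filter]
    refine sum_nbij' Pt.y (fun y => ⟨z.p, z.t, y⟩) (fun a ha => ?_) (fun y hy => ?_)
      (fun a ha => ?_) (fun _ _ => rfl) fun a ha => ?_
    · rw [mem_filter] at ha
      exact ha.2.1 ▸ ((Ps.mem_pts G.P).1 (hR.p1.1 ha.1)).1.2
    · exact mem_filter.2 ⟨hR.p1.2.1 z h1 _ ((Ps.mem_pts G.P).2 ⟨⟨z3.1.1, hy⟩, z3.2⟩) rfl rfl,
        rfl, rfl⟩
    · rw [mem_filter] at ha
      rw [← ha.2.1, ← ha.2.2]
    · rw [mem_filter] at ha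
      rw [← ha.2.1, ← ha.2.2]
      rfl
  · have := hT.ids.idh m (D.Γ.gA g) h D.k0 M (hMon g) (hR.adm h h.2) hE.1 (fun z hz => by
      obtain ⟨z1, z2⟩ := hZ' h z (hM z hz)
      exact ⟨(hV z z1).1.1, z2, hzr g h M hE z hz z1 z2, (hV z z1).2.1⟩) (hE.2.2.trans (hnm h g))
    simp only [exT, dq, d1, Dat.t, mul_sub, sum_sub_distrib]
    linarith

namespace EXs

theorem half {n r m : ℕ} [NeZero n] {G : Geo n r} {D : Dat G m} (R : D.Raw) :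
    (r : ℝ) ≤ D.Λ / 2 := by
  have hn := R.num.2.2.2.2.2.2.2.2
  have e1 : (5 : ℝ) ≤ m := by exact_mod_cast le_of_add_le_right (R.gok.five 0)
  have e2 : (n : ℝ) = 2 * r := by exact_mod_cast R.geo.two
  have e3 : (1 : ℝ) ≤ n := by exact_mod_cast NeZero.one_le
  nlinarith [mul_nonneg (sq_nonneg (n : ℝ)) (sub_nonneg.2 e1)]

theorem cs1 {r : ℕ} (c l : Fin r → ℝ) (u L : ℝ) (hl : ∀ w, |l w| ≤ 1 / 4) (hu : |u| ≤ 1 / 4)
    (hr : (r : ℝ) ≤ L / 2) (hL : 1 ≤ L) : (∑ w, c w * l w + u) ^ 2 ≤ L * (∑ w, c w ^ 2 + 1) := by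
  have h1 := GSXAr.cs c l (L / 2) hl hr
  have h2 : u ^ 2 ≤ 1 / 16 := by
    rw [← sq_abs]
    nlinarith [abs_nonneg u]
  nlinarith [sq_nonneg (∑ w, c w * l w - u)]

theorem sq_le {r : ℕ} (c : Fin r → ℝ) (Λ C : ℝ) (hC : 0 ≤ C) :
    (∑ w, |c w| + 1 + Λ * √C) ^ 2 ≤ 2 * (r + 1) * (∑ w, c w ^ 2 + 1) + 2 * Λ ^ 2 * C := by
  have h1 : (∑ w, |c w|) ^ 2 ≤ r * ∑ w, c w ^ 2 := by
    simpa using sq_sum_le_card_mul_sum_sq (s := univ) (f := fun w => |c w|)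
  have h2 : (Λ * √C) ^ 2 = Λ ^ 2 * C := by rw [mul_pow, Real.sq_sqrt hC]
  have h3 : ∑ w, 2 * |c w| ≤ ∑ w, (c w ^ 2 + 1) := sum_le_sum fun w _ => by
    rw [← sq_abs]
    nlinarith [sq_nonneg (|c w| - 1)]
  rw [← mul_sum, sum_add_distrib, sum_const, card_univ, Fintype.card_fin, nsmul_eq_mul,
    mul_one] at h3
  nlinarith [sq_nonneg (∑ w, |c w| + 1 - Λ * √C)]

theorem c1_nonneg {n r m : ℕ} {G : Geo n r} (D : Dat G m) (W : Tw n r) : 0 ≤ C1 D W :=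
  div_nonneg (sum_nonneg fun _ _ => sum_nonneg fun _ _ => sq_nonneg _) (Nat.cast_nonneg _)

theorem c1_sum {n r m : ℕ} {G : Geo n r} (D : Dat G m) (W : Tw n r) (hc : (0 : ℝ) < D.HH.card) :
    ∑ a ∈ D.HH, (∑ w, W.c a D.k0 w ^ 2 + 1) = D.HH.card * (C1 D W + 1) := by
  rw [sum_add_distrib, sum_const, nsmul_eq_mul, mul_add, C1, mul_div_cancel₀ _ hc.ne']

theorem c1_re {n r m : ℕ} {G : Geo n r} (D : Dat G m) (W : Tw n r) (v : Ix G.T.e m → ℝ)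
    (f0 : ℝ → ℝ) : C1 (D.re v f0) W = C1 D W := by
  simp only [C1, Dat.re]

end EXs

open GSXAr in
theorem eXAr : OfXArT := by
  intro api nrm n0 cel bas n r m _ G D W τ f0 hT x hx s
  have h := hT.raw
  obtain ⟨-, -, -, -, C0, -, -, -, -, ce, -, -, mc⟩ := bas n r m G D h
  obtain ⟨hm, hd, nm0, -, lg⟩ := nrm n r m G D h x hx
  obtain ⟨⟨H0, H1, H2⟩, -, lv⟩ := n0 n r G.T G.B G.t1 m D.vs h.geo.two h.geo.br.far h.sp
  have mon := (api n D.Γ h.gok).2.2.1 x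
  obtain ⟨-, c2⟩ := cel G.B.t0 D.W D.k0 (D.J1 + 1) h.gok.pos.1 h.sc.dvd D.J1.succ_pos
  have W0 : (0 : ℝ) < D.W' := Nat.cast_pos.2 h.gok.pos.2.1
  have Hp : (0 : ℝ) < D.H := Nat.cast_pos.2 h.eb.1
  obtain ⟨⟨P0, p1, p2⟩, or1, or2, or3⟩ := hT.prj
  obtain ⟨nr1, nr2⟩ := h.nr x hx
  have ev : ∀ t : ℝ, (N0 G.T G.t1 D.vs).eval t
      = (t - G.t1) ^ n * (NR G.T (vP D.vs)).eval t := fun t => by simp [N0]
  obtain ⟨S, S0, f, P1, s0, s1, q1, lip, var, -⟩ := h.ar.2 G.B.t0 H0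
    (((D.W' : ℝ) * D.H) ^ n) D.εb s _ (W.cθ (D.Γ.gA x)) (N0 G.T G.t1 D.vs) P0 f0 hm hd nm0
    (hT.ids.sum m _ mon) H1 (by positivity) h.eb.2.1 (by linarith [h.eb.2.2.1]) p1
    fun t ht => ⟨(H2 t ht).1, by linarith [(H2 t ht).2], nr1 t ht, ev t ▸ p2 t ht⟩
  have J0 : (0 : ℝ) < (D.J1 + 1 : ℕ) := by positivity
  have mem : ∀ a : Fin (D.J1 + 1), (G.B.t0 : ℝ) + (a : ℕ) / (D.J1 + 1 : ℕ) ∈
      Set.Icc (G.B.t0 : ℝ) (G.B.t0 + 1) := fun a =>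
    ⟨le_add_of_nonneg_right (by positivity),
      add_le_add_right ((div_le_one J0).2 (Nat.cast_le.2 a.2.le)) _⟩
  have inc : ∀ a ∈ D.HH, (G.B.t0 : ℝ) + (D.cell a : ℕ) / (D.J1 + 1 : ℕ) ≤ D.t a ∧
      D.t a ≤ G.B.t0 + ((D.cell a : ℕ) + 1) / (D.J1 + 1 : ℕ) := fun a ha => by
    rw [ce a ha]
    exact (c2 a (h.hh.1 ha)).2
  have lft : ∀ a : Fin (D.J1 + 1), (G.B.t0 : ℝ) + (a : ℕ) / (D.J1 + 1 : ℕ)
      ≤ G.B.t0 + ((a : ℕ) + 1) / (D.J1 + 1 : ℕ) := fun a => by gcongr; linarith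
  have one : ∑ c, D.sys.mc c = 1 := by
    simp only [Dat.sys]
    rw [← sum_div, ← Nat.cast_sum, ← card_eq_sum_card_fiberwise fun _ _ => mem_univ _,
      div_self C0.ne']
  have L0 : 0 ≤ D.Λ := by linarith [h.num.1]
  have hS0 : S0 ≤ D.Λ * √(C1 D W + 1) := by
    obtain ⟨tc, t1, t2⟩ := pick D.HH D.cell D.t _ _ (fun u => f0 u ^ 2) lft inc
    have v := (var D.sys.mc tc 0 mc one t1).2
    have v2 : ∑ a, D.sys.mc a * (f0 (tc a) - 0) ^ 2 ≤ D.Λ * (C1 D W + 1) := by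
      simp only [Dat.sys, sub_zero, div_mul_eq_mul_div, ← sum_div]
      rw [div_le_iff₀ C0, mul_assoc, mul_comm (C1 D W + 1), ← EXs.c1_sum D W C0, mul_sum]
      exact t2.trans (or3.trans (sum_le_sum fun a ha => EXs.cs1 _ _ _ _
        (fun w => lv w _ (h.adm a ha).mem) (hT.bd a ha) (EXs.half h) (by linarith [h.num.1])))
    have c0 : 0 ≤ C1 D W + 1 := by linarith [EXs.c1_nonneg D W]
    refine le_of_sq_le_sq ?_ (by positivity)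
    rw [mul_pow, Real.sq_sqrt c0, sq D.Λ, mul_assoc]
    exact v.trans (mul_le_mul_of_nonneg_left v2 L0)
  have jj : 2 * D.εb + 1 / ((D.J1 + 1 : ℕ) : ℝ) ≤ D.η := by
    push_cast
    exact h.eb.2.2.2
  have lp : ∀ a ∈ D.HH, |f (D.t a) - f (G.B.t0 + (D.cell a : ℕ) / (D.J1 + 1 : ℕ))|
      ≤ S * (1 / ((D.J1 + 1 : ℕ) : ℝ)) := fun a ha => by
    refine ((lip _ (lg a ha).1).2.2 _ (mem _)).trans (mul_le_mul_of_nonneg_left ?_ s0)
    obtain ⟨a1, a2⟩ := inc a ha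
    rw [add_div] at a2
    rw [abs_of_nonneg (by linarith)]
    linarith
  refine ⟨S, fun a => f (G.B.t0 + (a : ℕ) / (D.J1 + 1 : ℕ))
    + s * ((n * m : ℕ) * Real.log ((D.k0 : ℝ) ^ 2)), s0,
    fun a => ?_, fun a a' => ?_, fun y => ?_, ?_, fun _ _ => trivial⟩
  · have a1 := h.adm a a.2
    have b1 := zs _ _ _ _ (h.geo.sum _ (hT.ids.c0 _ _ a1)) fun w => nr2 w _ a1.mem
    have b2 := (abs_add_le _ _).trans ((add_le_add b1 (hT.cl x hx a a.2)).trans_eq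
      (mul_add_one D.εb _).symm)
    refine le_trans (le_of_eq ?_) (fin _ _ _ S S0 _ _ _ _ _ (lip _ (lg a a.2).1).2.1 (lp a a.2)
      b2 s0 s1 hS0 (by positivity) h.eb.2.1 (by positivity) jj)
    refine congrArg abs ?_
    simp only [Dat.sys, exT, (lg a a.2).2, BC.va, Dat.t]
    ring
  · rw [add_sub_add_right_eq_sub]
    refine ((lip _ (mem a)).2.2 _ (mem a')).trans
      (mul_le_of_le_one_right s0 (abs_le.2 ⟨?_, ?_⟩)) <;>
      linarith [(mem a).1, (mem a).2, (mem a').1, (mem a').2]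
  · refine (var D.sys.mc _ (y - s * ((n * m : ℕ) * Real.log ((D.k0 : ℝ) ^ 2))) mc one
      fun a => ⟨le_rfl, lft a⟩).1.trans_eq (congrArg (D.Λ * ·) (sum_congr rfl fun a _ => ?_))
    ring
  · have o1 := or1 f ⟨P1, q1, fun t ht => ev t ▸ (lip t ht).1⟩
    have σ0 : (0 : ℝ) ≤ 1 / (D.HH.card : ℝ) := by positivity
    change |1 / (D.HH.card : ℝ) * ∑ a : D.HH, (f (G.B.t0 + (D.cell a : ℕ) / (D.J1 + 1 : ℕ))
      + s * ((n * m : ℕ) * Real.log ((D.k0 : ℝ) ^ 2))) * dq D W τ f0 a|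
      ≤ D.η * S * (1 / (D.HH.card : ℝ) * ∑ a : D.HH, |dq D W τ f0 a|)
    rw [sum_coe_sort D.HH fun a => (f (G.B.t0 + (D.cell a : ℕ) / (D.J1 + 1 : ℕ))
      + s * ((n * m : ℕ) * Real.log ((D.k0 : ℝ) ^ 2))) * dq D W τ f0 a,
      sum_coe_sort D.HH fun a => |dq D W τ f0 a|, abs_mul, abs_of_nonneg σ0,
      mul_left_comm (D.η * S)]
    refine mul_le_mul_of_nonneg_left ?_ σ0
    have e : ∑ a ∈ D.HH, (f (G.B.t0 + (D.cell a : ℕ) / (D.J1 + 1 : ℕ))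
        + s * ((n * m : ℕ) * Real.log ((D.k0 : ℝ) ^ 2))) * dq D W τ f0 a
        = -∑ a ∈ D.HH, (f (D.t a) - f (G.B.t0 + (D.cell a : ℕ) / (D.J1 + 1 : ℕ)))
          * dq D W τ f0 a := by
      simp only [add_mul, sub_mul, sum_add_distrib, sum_sub_distrib, mul_assoc, ← mul_sum, o1,
        or2]
      ring
    rw [e, abs_neg, mul_sum]
    refine (abs_sum_le_sum_abs _ _).trans (sum_le_sum fun a ha => ?_)
    rw [abs_mul]
    refine mul_le_mul_of_nonneg_right ((lp a ha).trans ?_) (abs_nonneg _)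
    rw [mul_comm]
    exact mul_le_mul_of_nonneg_right (by linarith [h.eb.2.1]) s0

open Classical in
theorem eXLs : OfXLsT := by
  intro hls hbas n r m _ G D W τ f hT
  have hR := hT.raw
  obtain ⟨hY, -, -, hL, hN, -, h80, hpw, -, -, hwz, -, -⟩ := hbas n r m G D hR
  have hν : ∀ z ∈ G.P.pts D.Y (D.Y ^ 2), 0 < G.P.nu D.Y z ∧ (0 : ℝ) < z.p := fun z hz =>
    ⟨(hpw.pt z hz).2.2.2.2.1, by have := (hpw.pt z hz).2.2.1; linarith⟩
  have hK := hpw.one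
  have hc := GSXLs.core (G.P.pts D.Y (D.Y ^ 2)) D.P1 (HH0 G.B.t0 D.W D.k0) D.HH ((D.k0 : ℤ) ^ 2)
    (G.P.nu D.Y) D.Gd (fun a => ∑ z ∈ D.Z a, G.P.nu D.Y z) (dq D W τ f)
    (20 * G.P.K ^ 2 * Lc D.W D.k0 / D.Y) (Lc D.W D.k0) D.ed hR.hh.1 hR.p1.1 hν
    (by positivity) hL.le (hls _ _ _ _ _ _ _ hpw hR.sc hY).2.2 (fun a ha => (hR.zm a ha).1)
    hR.ed.1 h80 hT.prj.2.2.1 hR.p1.2.2 (fun a ha => (hR.zm a ha).2) hR.shg
  obtain ⟨n1, n2, -, -, -, n6, n7, n8, -⟩ := hR.num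
  have hn := GSXLs.nums G.P.K (Lc D.W D.k0) D.HH.card D.Y D.Λ D.Λ1 D.Ym D.θ D.ed D.J1 n1 n2 n6 n7
    hK n8 hY hN hR.hh.2 hR.win hR.ed.1 h80 (Nat.cast_nonneg _) hR.ed.2
  have hQ : 0 ≤ ∑ a ∈ D.HH, dq D W τ f a ^ 2 := sum_nonneg fun a _ => sq_nonneg _
  have hc2 := hc.trans (mul_le_mul_of_nonneg_right hn hQ)
  have e2 : ∑ h : D.HH, (exT D W τ f).dp h ^ 2 = ∑ a ∈ D.HH, dq D W τ f a ^ 2 :=
    sum_coe_sort D.HH fun a => dq D W τ f a ^ 2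
  have e1 : ∀ z ∈ D.P1,
      (D.sys.σ * ∑ h, D.sys.wz h z * (exT D W τ f).dp h) ^ 2 / (D.sys.n0 z * z.p)
      = (1 / (D.HH.card : ℝ)) ^ 2 * (G.P.nu D.Y z / z.p * (∑ a ∈ D.HH,
        (if On a ((D.k0 : ℤ) ^ 2) z ∧ D.Gd a z.p then z.p / ∑ z ∈ D.Z a, G.P.nu D.Y z else 0)
          * dq D W τ f a) ^ 2) := by
    intro z hz
    obtain ⟨h1, h2⟩ := hν z (hR.p1.1 hz)
    have e3 : ∑ h, D.sys.wz h z * (exT D W τ f).dp h = G.P.nu D.Y z * ∑ a ∈ D.HH,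
        (if On a ((D.k0 : ℤ) ^ 2) z ∧ D.Gd a z.p then z.p / ∑ z ∈ D.Z a, G.P.nu D.Y z else 0)
          * dq D W τ f a := by
      rw [mul_sum, ← sum_coe_sort D.HH]
      refine sum_congr rfl fun h _ => ?_
      rw [hwz h z hz]
      change _ * dq D W τ f h = _
      split_ifs
      · ring
      · simp
    rw [e3]
    change (1 / (D.HH.card : ℝ) * _) ^ 2 / (G.P.nu D.Y z * z.p) = _
    field_simp
  unfold XLs
  rw [e2]
  change ∑ z ∈ D.P1, _ ≤ D.θ ^ 2 * (1 / (D.HH.card : ℝ) * _)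
  rw [sum_congr rfl e1, ← mul_sum]
  refine (mul_le_mul_of_nonneg_left hc2 (sq_nonneg _)).trans (le_of_eq ?_)
  field_simp

theorem eRig : OfRigT := by
  rintro ⟨A, hA⟩ hB hSy hId hAr hLs
  refine ⟨A + 2, fun n r m _ G D W τ f hT h1 h2 => ?_⟩
  have R := hT.raw
  have hS := hSy n r m G D R
  obtain ⟨x1, x2, x3⟩ := hId n r m G D W τ f hT
  obtain ⟨-, -, -, -, hc, -⟩ := hB n r m G D R
  have hh := EXs.half R
  obtain ⟨hΛ, -, hθ, -, hη, -⟩ := R.num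
  have hM : 1 ≤ D.M := hS.num.2.2.1
  have hP : 1 ≤ D.Λ ^ A := one_le_pow₀ (by linarith)
  have hle : D.Λ ^ A ≤ D.Λ ^ (A + 2) := pow_le_pow_right₀ (by linarith) (by omega)
  have hX : (exT D W τ f).Ok D.sys :=
    ⟨fun h => ⟨Or.inr ⟨rfl, rfl⟩, rfl⟩, x1, x2, x3,
      (sum_coe_sort D.HH (dq D W τ f)).trans hT.prj.2.2.1, hAr n r m G D W τ f hT,
      hLs n r m G D W τ f hT⟩
  obtain ⟨k1, -⟩ := hA D.sys _ hS hX ((mul_le_mul_of_nonneg_left hle hη.le).trans h1)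
    ((mul_le_mul_of_nonneg_left hle (show 0 ≤ D.θ * D.M ^ 3 by positivity)).trans h2)
  have hC : 0 ≤ C1 D W + 1 := by linarith [EXs.c1_nonneg D W]
  refine GSRig.num (P := D.Λ ^ A) (e := D.sys.σ * ∑ h, (exT D W τ f).ce h ^ 2) (r := r + 1)
    hΛ hη hP hC (by linarith) (by rw [← pow_add]; exact h1) ?_ ?_
  · refine le_of_eq_of_le ?_ k1
    rw [← sum_coe_sort D.HH fun a => dq D W τ f a ^ 2, div_eq_inv_mul, ← one_div]
    rfl
  · have s1 : ∑ h, (exT D W τ f).ce h ^ 2 ≤ ∑ a ∈ D.HH,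
        (2 * (r + 1) * (∑ w, W.c a D.k0 w ^ 2 + 1) + 2 * D.Λ ^ 2 * (C1 D W + 1)) := by
      rw [← sum_coe_sort D.HH]
      exact sum_le_sum fun h _ => EXs.sq_le _ _ _ hC
    rw [sum_add_distrib, ← mul_sum, sum_const, nsmul_eq_mul, EXs.c1_sum D W hc] at s1
    change 1 / (D.HH.card : ℝ) * _ ≤ _
    rw [one_div, inv_mul_le_iff₀ hc]
    linarith

theorem eCls : OfClsT := by
  intro hB AF hR n r m _ G D hD W s v τ Λr hI hv h1 h2 hq Λ0 hΛ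
  choose f0 f hf using hv
  obtain ⟨-, -, -, -, c0, -, -, -, -, hc, -, -, hm⟩ := hB n r m G D hD
  have Λ1 : 0 < D.Λ := by linarith [hD.num.1]
  have e : ∀ F : ℤ → ℝ, ∑ h : D.HH, 1 / (D.HH.card : ℝ) * F h = (∑ a ∈ D.HH, F a) / D.HH.card :=
    fun F => by rw [← mul_sum, sum_coe_sort D.HH F]; ring
  have key := hq D.HH (fun _ => 1 / (D.HH.card : ℝ)) (fun h => D.t h) (fun h => W.c h D.k0) f
    (fun h => ⟨by positivity, (hD.adm h h.2).mem, hI.c0 _ _ (hD.adm h h.2)⟩)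
    (by simp [c0.ne']) (fun a => by
      have e1 := e fun b => ind (cellOf G.B.t0 D.k0 (D.J1 + 1) b = a)
      refine le_of_eq_of_le e1 ?_
      by_cases c : a < D.J1 + 1
      · refine le_of_eq_of_le ?_ (hm ⟨a, c⟩).2
        change _ = ((D.HH.filter fun b => D.cell b = ⟨a, c⟩).card : ℝ) / D.HH.card
        congr 1
        rw [card_filter, Nat.cast_sum]
        refine sum_congr rfl fun b hb => ?_
        rw [← hc b hb]
        simp [ind, Fin.ext_iff]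
      · rw [sum_eq_zero, zero_div]
        · have := hD.num.2.2.2.2.2.1
          positivity
        · intro b hb
          rw [← hc b hb, ind, if_neg]
          have := (D.cell b).2
          omega) (fun k => (hf k).prj.1)
  have k2 : ∀ k, ∑ h : D.HH, 1 / (D.HH.card : ℝ) * (∑ w, W.c h D.k0 w *
      Real.log ‖G.B.ev (vP (v k)) w (D.t h)‖ + τ k (D.t h) - f k (D.t h)) ^ 2
      ≤ (C1 D W + 1) / 2 / D.Λ := fun k => by
    have q := hR n r m G (D.re (v k) (f0 k)) W (τ k) (f k) (hf k) h1 h2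
    rw [EXs.c1_re] at q
    rw [le_div_iff₀' Λ1]
    exact le_of_eq_of_le
      (congrArg (D.Λ * ·) (e fun a => dq (D.re (v k) (f0 k)) W (τ k) (f k) a ^ 2)) q
  have k3 := (sum_le_card_nsmul univ _ _ fun k _ => k2 k)
  have k4 : 1 + C1 D W ≤ Λr * (s * ((C1 D W + 1) / 2 / D.Λ)) := by
    refine le_of_eq_of_le (congrArg _ (e fun a => ∑ w, W.c a D.k0 w ^ 2).symm) (key.trans ?_)
    simpa using mul_le_mul_of_nonneg_left k3 Λ0.le
  have p := EXs.c1_nonneg D W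
  have k5 : Λr * s * ((C1 D W + 1) / 2 / D.Λ) ≤ D.Λ * ((C1 D W + 1) / 2 / D.Λ) :=
    mul_le_mul_of_nonneg_right hΛ (by positivity)
  rw [mul_div_cancel₀ _ Λ1.ne'] at k5
  linarith

end Pool.Agent.MP_f3836a_nt.GV.T
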