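import Pool.Agent.MP_f3836a_nt.GV.GCore
import Pool.Agent.MP_f3836a_nt.GV.GCMain
import Pool.Agent.MP_f3836a_nt.RG.ETop
import Pool.Agent.MP_f3836a_nt.RG.EXs

/-! The twisted core assembled. -/

set_option autoImplicit false

namespace Pool.Agent.MP_f3836a_nt.GV.T

theorem sysS : SysS := fun n r m _ G D h =>
  sOk VE.rSc bas n r m G D h (sEq eqS pcA bas n r m G D h) (sLk VE.rSc lkS bas n r m G D h)
    (sLn api ptG (rZer rTb rSpl rFy) bas n r m G D h) (sR1 lkS bas n r m G D h)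
    (sR2 lkS bas n r m G D h) (sAr nrm VE.rCel bas n r m G D h) (sId api bas n r m G D h).1
    (sSt bas n r m G D h)

theorem rigT : ∃ AF, RigT AF := eRig F.fMain bas sysS (eXId api bas)
  (eXAr api nrm rN0 VE.rCel bas) (eXLs lsvG bas)

theorem topT : TopT :=
  eTop (xDel ptG VE.rSc VE.rCel lsvG (rMass rFy) goodG VE.rNorm (rDelA VE.rFix) VE.rDelB) xH
    (xFam VE.rFuU (VE.rFuL VE.rFuU) ptG
      (rSh api (rEm rTb) rN0 (rCg rTb (rRng rTb) (rPw rTb))))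
    rBox rPrj (rPw rTb) rHtG VE.rSc VE.rMert

theorem coreT : CoreT :=
  eCore rigT topT (eCls bas)
    (xMainC C.cMain VE.BC.bMain (rBH api (rRng rTb) (rEm rTb) ptG VE.rSc rHtG) VE.rNorm VE.rFuU)
    (rCv VE.rSc (rSig VE.rCnt VE.rSc) goodG) VE.xLv rW rScl (rPw rTb) (rSp rTb)
    (VE.rEta VE.rCnt VE.rSc lkS (VE.rPrec VE.rMert) (VE.rMom VE.rCnt)) VE.BC.arS
    (rArG VE.BC.rArD VE.BC.rArL) rPrj

end Pool.Agent.MP_f3836a_nt.GV.T
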