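import Pool.Agent.MP_f3836a_nt.RG.SpecP
import Pool.Agent.MP_f3836a_nt.GP.TBt
import Pool.Agent.MP_f3836a_nt.GP.GDu

/-! Part P: tame symbols, duality and functionals on the group of symbols. -/

set_option autoImplicit false

namespace Pool.Agent.MP_f3836a_nt.RG

open IsLocalRing PK VE.W VE.Z GP

namespace PDual

variable {F : Type} [Field F]

theorem nz_cons {s : F × F} {l : List (F × F)} (h : NZ (s :: l)) :
    (s.1 ≠ 0 ∧ s.2 ≠ 0) ∧ NZ l :=
  ⟨h s List.mem_cons_self, fun t ht => h t (List.mem_cons_of_mem _ ht)⟩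

theorem nz_append {l l' : List (F × F)} (h : NZ l) (h' : NZ l') : NZ (l ++ l') :=
  fun s hs => (List.mem_append.1 hs).elim (h s) (h' s)

theorem nz_swap {l : List (F × F)} (h : NZ l) : NZ (l.map Prod.swap) := by
  intro s hs
  obtain ⟨t, ht, rfl⟩ := List.mem_map.1 hs
  exact (h t ht).symm

theorem sl_swap {ρ : F → F → ℝ} (h : Sy ρ) {l : List (F × F)} (hl : NZ l) :
    sl ρ (l.map Prod.swap) = -sl ρ l := by
  induction l with
  | nil => simp [sl]
  | cons s l ih =>
    obtain ⟨a, b⟩ := nz_cons hl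
    have := ih b
    simp only [sl, List.map_cons, List.sum_cons, Prod.fst_swap, Prod.snd_swap] at this ⊢
    rw [this, h.swap _ _ a.1 a.2]
    ring

/-- the principal units -/
def pu (O : Subring F) : Subgroup Fˣ := Subgroup.closure {u | Nu O ((u : F) - 1)}

theorem nu_of_pu {O : Subring F} [IsLocalRing O] {u : Fˣ} (h : u ∈ pu O) :
    Nu O ((u : F) - 1) := by
  induction h using Subgroup.closure_induction with
  | mem x hx => exact hx
  | one => simpa using nu_zero
  | mul x y _ _ hx hy =>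
    convert (hx.mul (ut_of_nu ut_one hy).2.1).add hy using 1
    push_cast
    ring
  | inv x _ hx =>
    convert (hx.mul (ut_of_nu ut_one hx).2.2).neg using 1
    have := x.ne_zero
    push_cast
    field_simp
    ring

/-- the units modulo principal units -/
def Qu (O : Subring F) : Type := Additive (Fˣ ⧸ pu O)

noncomputable instance (O : Subring F) : AddCommGroup (Qu O) :=
  inferInstanceAs (AddCommGroup (Additive (Fˣ ⧸ pu O)))

/-- the projection -/
noncomputable def qm (O : Subring F) : Additive Fˣ →+ Qu O :=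
  MonoidHom.toAdditive (QuotientGroup.mk' (pu O))

theorem qm_zero {O : Subring F} (u : Fˣ) : qm O (Additive.ofMul u) = 0 ↔ u ∈ pu O :=
  QuotientGroup.eq_one_iff u

open Classical in
/-- the class modulo principal units -/
noncomputable def cl (O : Subring F) (u : F) : Qu O :=
  if h : u = 0 then 0 else qm O (Additive.ofMul (Units.mk0 u h))

theorem cl_mul (O : Subring F) {u u' : F} (h : u ≠ 0) (h' : u' ≠ 0) :
    cl O (u * u') = cl O u + cl O u' := by
  simp only [cl, dif_neg h, dif_neg h', dif_neg (mul_ne_zero h h'), Units.mk0_mul, map_add,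
    ofMul_mul]

theorem cl_zero {O : Subring F} {u : F} (h : Nu O (u - 1)) : cl O u = 0 := by
  unfold cl
  split_ifs with h0
  · rfl
  · exact (qm_zero _).2 (Subgroup.subset_closure h)

theorem nu_of_cl {O : Subring F} [IsLocalRing O] {u : F} (h0 : u ≠ 0) (h : cl O u = 0) :
    Nu O (u - 1) := by
  rw [cl, dif_neg h0] at h
  exact nu_of_pu ((qm_zero _).1 h)

theorem cl_cg {O : Subring F} {u u' : F} (a : Ut O u) (b : Ut O u') (c : Nu O (u - u')) :
    cl O u = cl O u' := by
  have h1 : cl O (u / u') = 0 := cl_zero (by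
    convert c.mul b.2.2 using 1
    have := b.1
    field_simp)
  have h2 := cl_mul O (div_ne_zero a.1 b.1) b.1
  rwa [div_mul_cancel₀ _ b.1, h1, zero_add] at h2

theorem ext_graph {B : Type} [AddCommGroup B] (G : AddSubgroup (B × ℝ))
    (h : ∀ r, (0, r) ∈ G → r = 0) : ∃ L : B →+ ℝ, ∀ z ∈ G, L z.1 = z.2 := by
  obtain ⟨L, hL⟩ := (Module.Baer.of_divisible ℝ).extension_property_addMonoidHom
    ((AddMonoidHom.fst B ℝ).comp G.subtype) ((injective_iff_map_eq_zero _).2 fun z hz => by
      have h1 : z.1.1 = 0 := hz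
      have h2 := h z.1.2 (h1 ▸ z.2)
      exact Subtype.ext (Prod.ext h1 h2)) ((AddMonoidHom.snd B ℝ).comp G.subtype)
  exact ⟨L, fun z hz => DFunLike.congr_fun hL ⟨z, hz⟩⟩

end PDual

open PDual

theorem pTSy : OfTSy := by
  intro hN F _ V hV
  have := (dvA hV).loc
  refine ⟨fun lam h => ⟨⟨fun f f' g f0 f0' g0 => ?_, fun f g f0 g0 => ?_, fun f f0 f1 => ?_⟩,
    fun l hl => ?_⟩, fun u hu => ⟨fun t lam h => h.tor hu t, fun H => ?_⟩⟩
  · rw [VE.T.TTame.emul (dvA hV).dv f0 f0' g0]
    exact h.mul _ _ (tame_ut hV f0 g0) (tame_ut hV f0' g0)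
  · rw [TBt.swap f0 g0]
    exact h.inv (tame_ut hV g0 f0)
  · have u := tame_ut hV f0 (sub_ne_zero.2 f1.symm)
    exact h.nu u (((dvA hV).res _ _ (dvA hV).dv _ u.2.1 _ V.one_mem).1
      ((VE.T.TTame.stein (dvA hV).dv f0 f1).trans EDVA.res_one.symm))
  · induction l with
    | nil => simpa [bdE, sl] using h.one
    | cons s l ih =>
      obtain ⟨a, b⟩ := nz_cons hl
      have e := h.mul _ _ (tame_ut hV a.1 a.2) ((dvA hV).bd l b).1
      rw [ih b] at e
      simpa [bdE, sl] using e
  · obtain ⟨n, hn, e⟩ := (hN (ResidueField V) 0 0 (resR V (residue V) u) (GDu.res_ne V hu)).1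
      fun v hv => H (fun a => v (resR V (residue V) a))
        ⟨fun a b ha hb => by
          rw [EDVA.rmul ha.2.1 hb.2.1, hv _ _ (GDu.res_ne V ha) (GDu.res_ne V hb)],
        fun a b ha hb c => by rw [(GDu.res_eq V ha.2.1 hb.2.1).2 c]⟩
    exact ⟨n, hn, (GDu.res_one_iff V (V.pow_mem hu.2.1 n)).1 ((GDu.res_pow V hu.2.1 n).trans e)⟩

theorem pDual : OfDual := by
  intro _ F _ M VV ρ hF hV hρ H
  classical
  have hd : ∀ O, Pl O ∨ O ∈ VV → Dvr O := fun O h => h.elim (·.1) fun h => (hV.dv O h).1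
  let T : List (F × F) → ∀ O : Subring F, Qu O := fun l O =>
    if Pl O ∨ O ∈ VV then cl O (bdE l O) else 0
  have ut : ∀ l, NZ l → ∀ O, Pl O ∨ O ∈ VV → Ut O (bdE l O) := fun l hl O h =>
    ((dvA (hd O h)).bd l hl).1
  let G : AddSubgroup ((∀ O : Subring F, Qu O) × ℝ) :=
    { carrier := {z | ∃ l, NZ l ∧ z = (T l, sl ρ l)}
      zero_mem' := ⟨[], by simp [NZ], Prod.ext (funext fun O => by
        have : cl O (bdE [] O) = 0 := cl_zero (by simpa [bdE] using nu_zero)
        simp [T, this]) (by simp [sl])⟩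
      add_mem' := by
        rintro _ _ ⟨l, hl, rfl⟩ ⟨l', hl', rfl⟩
        refine ⟨l ++ l', nz_append hl hl', Prod.ext (funext fun O => ?_) (by simp [sl])⟩
        by_cases h : Pl O ∨ O ∈ VV
        · have e : bdE (l ++ l') O = bdE l O * bdE l' O := by simp [bdE]
          simp only [T, Prod.fst_add, Pi.add_apply, if_pos h, e,
            cl_mul O (ut l hl O h).1 (ut l' hl' O h).1]
        · simp [T, h]
      neg_mem' := by
        rintro _ ⟨l, hl, rfl⟩
        refine ⟨l.map Prod.swap, nz_swap hl, Prod.ext (funext fun O => ?_) (sl_swap hρ hl).symm⟩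
        by_cases h : Pl O ∨ O ∈ VV
        · have e := cl_zero ((dvA (hd O h)).bd l hl).2.1
          rw [cl_mul O (ut l hl O h).1 (ut _ (nz_swap hl) O h).1] at e
          simp only [T, Prod.fst_neg, Pi.neg_apply, if_pos h]
          exact neg_eq_of_add_eq_zero_right e
        · simp [T, h] }
  obtain ⟨L, hL⟩ := ext_graph G (by
    intro r hr
    obtain ⟨l, hl, e⟩ : ∃ l, NZ l ∧ (0, r) = (T l, sl ρ l) := hr
    obtain ⟨e1, e2⟩ := Prod.ext_iff.1 e
    refine Eq.trans e2 (H l ⟨hl, fun O h => ?_⟩)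
    have := (dvA (hd O h)).loc
    have e3 : cl O (bdE l O) = 0 := by simpa [T, h] using (congrFun e1 O).symm
    exact (nu_of_cl (ut l hl O h).1 e3).tor)
  refine ⟨fun O u => L (Pi.single O (cl O u)), hV, fun O _ => ⟨fun u u' a b => ?_,
    fun u u' a b c => by rw [cl_cg a b c]⟩, fun f g f0 g0 => ?_⟩
  · rw [cl_mul O a.1 b.1, Pi.single_add, map_add]
  · have k := hL _ ⟨[(f, g)], by simp [NZ, f0, g0], rfl⟩
    have fin := ((hF.fin f).union (hF.fin g)).union hV.fin
    have z : ∀ O, O ∉ fin.toFinset → T [(f, g)] O = 0 := fun O h => by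
      simp only [Set.Finite.mem_toFinset, Set.mem_union, Set.mem_ofPred_eq, not_or, not_and,
        not_not] at h
      by_cases c : Pl O
      · have : cl O (bdE [(f, g)] O) = 0 := cl_zero (by
          simpa [bdE, tameE, h.1.1 c, h.1.2 c] using nu_zero)
        simp [T, this]
      · simp [T, c, h.2]
    have e1 : ∑ᶠ (O) (_ : Pl O ∨ O ∈ VV), L (Pi.single O (cl O (tameE O f g))) =
        ∑ᶠ O, L (Pi.single O (T [(f, g)] O)) := finsum_congr fun O => by
      rw [finsum_eq_if]
      by_cases h : Pl O ∨ O ∈ VV <;> simp [T, h, bdE]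
    have e2 : ∑ O ∈ fin.toFinset, Pi.single O (T [(f, g)] O) = T [(f, g)] := funext fun O => by
      rw [Finset.sum_apply, Finset.sum_pi_single]
      split_ifs with h
      exacts [rfl, (z O h).symm]
    rw [e1, finsum_eq_sum_of_support_subset (s := fin.toFinset) _ fun O h => by_contra fun e =>
      h (by simp [z O e]), ← map_sum, e2]
    simpa [sl] using k

theorem pK2L : K2L := fun F _ β h =>
  ⟨(H23.liftK2 (fun a b : Fˣ => β a b) (fun a a' b => h.mul _ _ _ a.ne_zero a'.ne_zero b.ne_zero)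
    (fun a b b' => by
      have := h.mul _ _ _ b.ne_zero b'.ne_zero a.ne_zero
      rw [h.swap _ _ a.ne_zero (b * b').ne_zero, h.swap _ _ a.ne_zero b.ne_zero,
        h.swap _ _ a.ne_zero b'.ne_zero, Units.val_mul, this]
      ring)
    fun a b e => by
      rw [eq_sub_of_add_eq' e]
      exact h.st _ a.ne_zero fun e1 => b.ne_zero (by rw [e1] at e; simp at e)).toAddMonoidHom,
    fun _ => rfl⟩

end Pool.Agent.MP_f3836a_nt.RG
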