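import Pool.Agent.MP_f3836a_nt.RG.SpecP
import Pool.Agent.MP_f3836a_nt.GP.TKer
import Pool.Agent.MP_f3836a_nt.GP.TNm

/-! Part P: a Galois extension of the constants with two rational places. -/

set_option autoImplicit false

namespace Pool.Agent.MP_f3836a_nt.RG

open Polynomial NumberField PK VE.Z GP IntermediateField

namespace PExt

theorem nrm {k K F E : Type} [Field k] [Field K] [Field F] [Field E] [Algebra k K] [Algebra k F]
    [Algebra k E] [Algebra K E] [Algebra F E] [IsScalarTower k K E] [IsScalarTower k F E]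
    (p : k[X]) [IsSplittingField k K p]
    (h : Algebra.adjoin F (Set.range (algebraMap K E)) = ⊤) : Normal F E := by
  classical
  have : IsSplittingField F E (p.map (algebraMap k F)) := by
    refine ⟨?_, ?_⟩
    · rw [Polynomial.map_map, ← IsScalarTower.algebraMap_eq, IsScalarTower.algebraMap_eq k K E,
        ← Polynomial.map_map]
      exact (IsSplittingField.splits K p).map _
    · have rs : (p.map (algebraMap k F)).rootSet E = p.rootSet E := by
        rw [rootSet_def, rootSet_def, aroots_map]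
      rw [rs, eq_top_iff, ← h, Algebra.adjoin_le_iff]
      rintro _ ⟨x, rfl⟩
      have e := IsSplittingField.adjoin_rootSet_eq_range K p (IsScalarTower.toAlgHom k K E)
      have m : algebraMap K E x ∈ Algebra.adjoin k (p.rootSet E) := e ▸ ⟨x, rfl⟩
      exact (Algebra.adjoin_le (S := (Algebra.adjoin F (p.rootSet E)).restrictScalars k)
        Algebra.subset_adjoin) m
  exact Normal.of_isSplittingField (p.map (algebraMap k F))

end PExt

theorem pExt : OfExt := by
  intro hF hI hN hB hS F _ _ G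
  have I := hI F G
  obtain ⟨t, ht, -⟩ := id G
  obtain ⟨O, o, n1⟩ := I.ex t ht
  obtain ⟨O2, o2, n2⟩ := I.ex t⁻¹ fun a => ht
    ((IsFractionRing.isAlgebraic_iff ℤ ℚ F).2
      (IsAlgebraic.inv_iff.1 ((IsFractionRing.isAlgebraic_iff ℤ ℚ F).1 a)))
  have ne : O ≠ O2 := fun e => ((dvA o.1).val t).elim n1 (e ▸ n2)
  let k := algebraicClosure ℚ F
  have al : ∀ z : F, IsAlgebraic ℤ z ↔ z ∈ k := fun z =>
    (IsFractionRing.isAlgebraic_iff ℤ ℚ F).trans mem_algebraicClosure_iff.symm
  have := (dvA o.1).loc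
  let e := GP.emb k O fun c => TNm.cmem o ((al _).2 c.2)
  let := (e.comp (algebraMap ℚ k)).toAlgebra
  have := I.fd O o
  have : NumberField k :=
    { to_finiteDimensional := FiniteDimensional.of_injective e.toRatAlgHom.toLinearMap e.injective }
  have hC : Cl k F :=
    ⟨fun c => (IsFractionRing.isAlgebraic_iff ℤ ℚ k).2 (Algebra.IsAlgebraic.isAlgebraic c),
      fun z hz => ⟨⟨z, (al z).1 hz⟩, rfl⟩⟩
  obtain ⟨q, q0, hq⟩ := TKer.ex_sp (hN k F hC.al I) o
  obtain ⟨q2, q20, hq2⟩ := TKer.ex_sp (hN k F hC.al I) o2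
  let p : k[X] := (X ^ 2 + C 1) * (q * q2)
  have p0 : p ≠ 0 := mul_ne_zero (X_pow_add_C_ne_zero two_pos _) (mul_ne_zero q0 q20)
  have sp : ∀ r, r ∣ p → (r.map (algebraMap k p.SplittingField)).Splits := fun r h =>
    (SplittingField.splits p).of_dvd (Polynomial.map_ne_zero p0) (Polynomial.map_dvd _ h)
  have := NumberField.of_module_finite k p.SplittingField
  obtain ⟨i, hi⟩ := (sp _ (dvd_mul_right _ _)).exists_eval_eq_zero (by
    rw [degree_map, degree_X_pow_add_C two_pos]; simp)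
  obtain ⟨F', _, _, _, _, _, _, _, b1, b2, hC'⟩ := hB k p.SplittingField F hC
  have := charZero_of_injective_algebraMap (algebraMap F F').injective
  have G' := ((hF F).2.1 G).2 F' ‹_›
  obtain ⟨⟨O', o'⟩, r, -⟩ := hS k F F' hC.al I (hI F' G') _ O b1 b2 o
    (hq _ (sp _ ((dvd_mul_right q q2).mul_left _)))
  obtain ⟨⟨O2', o2'⟩, r2, -⟩ := hS k F F' hC.al I (hI F' G') _ O2 b1 b2 o2
    (hq2 _ (sp _ ((dvd_mul_left q2 q).mul_left _)))
  have := PExt.nrm p b2
  exact ⟨p.SplittingField, F', _, ‹_›, _, ‹_›, ‹_›, ‹_›, O', O2', ‹_›, ⟨⟩, G', hC',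
    ⟨i, eq_neg_of_add_eq_zero_left (by simpa using hi)⟩, (r O' o').1, (r2 O2' o2').1,
    fun e => ne (o'.2.symm.trans (e ▸ o2'.2))⟩

end Pool.Agent.MP_f3836a_nt.RG
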