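import Pool.Agent.MP_f3836a_nt.RG.SpecP
import Pool.Agent.MP_f3836a_nt.GP.GMainG
import Pool.Agent.MP_f3836a_nt.GP.GFinal

/-! Part P: from function fields to rings and to schemes. -/

set_option autoImplicit false

namespace Pool.Agent.MP_f3836a_nt.RG

open IsLocalRing AlgebraicGeometry CategoryTheory PK VE.A VE.T VE.W VE.Z GP

namespace PFin

theorem sl_rep {F : Type} (β : F → F → ℝ) (l : List (F × F)) (J : ℕ) :
    sl β (List.replicate J l).flatten = J * sl β l := by
  induction J with
  | zero => simp [sl]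
  | succ J ih =>
    unfold sl at ih ⊢
    rw [List.replicate_succ, List.flatten_cons, List.map_append, List.sum_append, ih]
    push_cast
    ring

theorem ev_inj {Y : Scheme.{0}} [IsIntegral Y] {η : Y} (g : ∀ z, η ⤳ z) (z : Y) :
    Function.Injective (PS.ev (g z)) := by
  obtain rfl : η = genericPoint Y := ((g _).antisymm (genericPoint_specializes η)).eq
  have ri : Function.Injective (residue Y.functionField) := RingHom.injective _
  exact ri.comp (IsFractionRing.injective (Y.presheaf.stalk z) Y.functionField)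

theorem ex_units {F : Type} [Field F] (l : List (F × F)) (h : NZ l) :
    ∃ l' : List (Fˣ × Fˣ), l = l'.map fun a => ((a.1 : F), (a.2 : F)) := by
  induction l with
  | nil => exact ⟨[], rfl⟩
  | cons a l ih =>
    obtain ⟨l', rfl⟩ := ih fun b hb => h b (List.mem_cons_of_mem _ hb)
    obtain ⟨a1, a2⟩ := h a List.mem_cons_self
    exact ⟨(Units.mk0 _ a1, Units.mk0 _ a2) :: l', rfl⟩

end PFin

open PFin GMainG ZMainY in
theorem pMainX : OfMainX := by
  intro hF hS hG hM K ι Pt _ _ _ _ ξ B O κ _ r ff D n ω ind reg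
  have G := (geoY zDv rgS ff.2.1 ff.2.2 D).1
  have S := hS K ι Pt ξ B O κ r ff.2.1 ff.2.2 D G
  have dr : ∀ C, Order.height C = 1 → Dvr (O C) := fun C h => ⟨(G.dv C h).dvr, (G.dv C h).frac⟩
  obtain ⟨M, M0, hg⟩ := S.good
  obtain ⟨l, ul, ins⟩ := hM K M _ n ω ((hF K).1 ff)
    ⟨M0, S.fin_vv M0, fun V h => ⟨S.dv V h.1, h.2⟩⟩ ind fun k V hV => by
      obtain ⟨C, h, rfl⟩ := S.hor V hV
      refine reg k C h (charZero_of_inj_zero fun m hm => ?_)
      by_contra m0
      have u : IsUnit (m : O C) := (ut_iff _).1 (by simpa using ho_ut hV.2 m0)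
      exact (D.ker C m).1 (by rw [map_natCast, hm]) u
  have ex : ∀ i, ∃ J : ℕ, 0 < J ∧ ∀ C, Order.height C = 1 →
      resR (O C) (r C) (bdE (l i) (O C)) ^ J = 1 := fun i =>
    expo (fun C => resR (O C) (r C) (bdE (l i) (O C))) (fun C => Order.height C = 1)
      (((l i).finite_toSet.biUnion fun s _ => (G.fin s.1).union (G.fin s.2)).subset fun C hC => by
        by_contra e
        simp only [Set.mem_union, Set.mem_iUnion, Set.mem_ofPred_eq, not_or, not_exists, not_and,
          not_not] at e
        exact hC.2 (by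
          rw [(dvA (dr C hC.1)).one _ fun s hs => ⟨(e s hs).1 hC.1, (e s hs).2 hC.1⟩,
            EDVA.res_one]))
      fun C h => by
        obtain ⟨j, j0, e⟩ := hG K _ _ M S M0 hg _ (S.cy_bd (ul i).1)
          (fun V hV => (ul i).2 V (hV.2.imp (fun k => S.pl.2 ⟨hV.1, k⟩) fun k => ⟨hV.1, k⟩)) _
          ⟨C, h, rfl⟩
        have b := ((dvA (dr C h)).bd _ (ul i).1).1.2.1
        refine ⟨j, j0, ?_⟩
        rw [← res_pow b,
          ((dvA (dr C h)).res _ _ (G.dv C h) _ ((O C).pow_mem b j) _ (O C).one_mem).2 e,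
          EDVA.res_one]
  choose J J0 hJ using ex
  refine ⟨fun i => (List.replicate (J i) (l i)).flatten, fun i s hs => ?_, fun m hm => ?_,
    fun i C h => ?_⟩
  · obtain ⟨l', a, b⟩ := List.mem_flatten.1 hs
    exact (ul i).1 s (List.eq_of_mem_replicate a ▸ b)
  · have := ins (fun i => m i * J i) fun β hβ => (Finset.sum_congr rfl fun i _ => by
      rw [sl_rep]
      push_cast
      ring).trans (hm β hβ)
    funext i
    exact (mul_eq_zero.1 (congrFun this i)).resolve_right (Nat.cast_ne_zero.2 (J0 i).ne')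
  · rw [prod_rep, ← ((dvA (dr C h)).bd _ (ul i).1).2.2 _ _ (G.dv C h)]
    exact hJ i C h

open PFin in
theorem pFinal : OfFinal := by
  intro hD hK hM N Y ι hι _ reg dim η g c0 n ω li hω
  classical
  have inj := ev_inj g
  choose r hr using fun z => SComp.exists_rs (g z) _ rfl
  obtain ⟨ξ, B, D⟩ := GFinal.dcy ι reg g inj r hr
  have F := hD _ _ Y ξ B _ _ r D
    ((Order.krullDim_eq_of_orderIso (irreducibleSetEquivPoints (α := Y))).symm.trans dim)
  obtain ⟨geo, -⟩ := geoY zDv rgS F.2.1 F.2.2 D
  obtain ⟨l, nz, ins, hl⟩ := hM _ _ Y ξ B _ _ r F D n ω (fun m hm => funext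
    (Fintype.linearIndependent_iff.1 li m (by
      rw [← hm]
      refine Finset.sum_congr rfl fun k _ => ?_
      rw [Int.cast_smul_eq_zsmul]))) hω
  choose u hu using fun i => ex_units (l i) (nz i)
  refine ⟨u, Fintype.linearIndependent_iff.2 fun m hm => congrFun (ins m fun β hβ => ?_),
    fun i C hC => ?_⟩
  · obtain ⟨L, hL⟩ := hK _ β hβ
    have := congrArg L hm
    rw [map_sum, map_zero] at this
    refine (Finset.sum_congr rfl fun i _ => ?_).trans this
    rw [map_zsmul, zsmul_eq_mul, map_list_sum, hu i, sl, List.map_map, List.map_map]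
    exact congrArg _ (congrArg _ (List.map_congr_left fun a _ => (hL a).symm))
  · rw [← hl i C hC, hu i, List.map_map]
    exact congrArg List.prod (List.map_congr_left fun s _ => (dif_pos (g C)).trans
      (sb_bdry (PS.ev (g C)) (r C) (fun a => hr C a _) (geo.dv C hC) s.1.ne_zero s.2.ne_zero))

end Pool.Agent.MP_f3836a_nt.RG
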