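import Pool.Agent.MP_f3836a_nt.RG.SpecP

/-! Invariant symbols and the transfer. -/

set_option autoImplicit false

namespace Pool.Agent.MP_f3836a_nt.RG

open PK VE.W VE.Z GP Function

namespace PGd0

section
variable {F : Type} [Field F]

theorem mul' {A : Type} [AddCommGroup A] {β : F → F → A} (h : Sy β) {f g g' : F} (hf : f ≠ 0)
    (hg : g ≠ 0) (hg' : g' ≠ 0) : β f (g * g') = β f g + β f g' := by
  rw [h.swap f _ hf (mul_ne_zero hg hg'), h.mul g g' f hg hg' hf, h.swap f g hf hg,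
    h.swap f g' hf hg']
  abel

theorem self {β : F → F → ℚ} (h : Sy β) {f : F} (hf : f ≠ 0) : β f f = 0 := by
  have := h.swap f f hf hf
  linarith

theorem hs {β : F → F → ℚ} (h : Sy β) {f g : F} (hf : f ≠ 0) (hg : g ≠ 0) (hs : f + g ≠ 0) :
    β f g = β f (f + g) + β (f + g) g := by
  have hu : f / (f + g) ≠ 0 := div_ne_zero hf hs
  have e : 1 - f / (f + g) = g / (f + g) := by field_simp; ring
  have hv : g / (f + g) ≠ 0 := div_ne_zero hg hs
  have h1 : f / (f + g) ≠ 1 := fun h1 => hv (by rw [← e, h1, sub_self])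
  have a0 := h.st _ hu h1
  rw [e] at a0
  have a1 := h.mul _ _ g hu hs hg
  have a2 := h.mul _ _ (f + g) hu hs hs
  have a3 := mul' h hu hv hs
  rw [div_mul_cancel₀ _ hs] at a1 a2 a3
  have a4 := self h hs
  linarith

theorem toSt {β : F → F → ℚ} (h : Sy β) : BT.St fun a : Fin 2 → F => β (a 0) (a 1) where
  mul a i x y ha hx hy := by
    fin_cases i
    · simpa using h.mul x y (a 1) hx hy (ha 1)
    · simpa using mul' h (ha 0) hx hy
  rep a i j hij ha e := by
    have : a 1 = a 0 := by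
      fin_cases i <;> fin_cases j <;> first | exact absurd rfl hij | exact e | exact e.symm
    rw [this]
    exact self h (ha 0)
  hs a i j f g hij ha hf hg hfg := by
    fin_cases i <;> fin_cases j
    · exact absurd rfl hij
    · simpa using hs h hf hg hfg
    · have := hs h hg hf (by rwa [add_comm])
      rw [add_comm g f, add_comm] at this
      simpa using this
    · exact absurd rfl hij

omit [Field F] in
theorem up0 (f g x : F) : update ![f, g] 0 x = ![x, g] := by
  funext i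
  fin_cases i <;> simp

omit [Field F] in
theorem up1 (f g x : F) : update ![f, g] 1 x = ![f, x] := by
  funext i
  fin_cases i <;> simp

theorem nz2 {f g : F} (hf : f ≠ 0) (hg : g ≠ 0) : BT.Nz ![f, g] := fun i => by
  fin_cases i
  exacts [hf, hg]

theorem ofSt {φ : (Fin 2 → F) → ℚ} (h : BT.St φ) : Sy fun f g => φ ![f, g] := by
  have m0 : ∀ f f' g : F, f ≠ 0 → f' ≠ 0 → g ≠ 0 → φ ![f * f', g] = φ ![f, g] + φ ![f', g] :=
    fun f f' g hf hf' hg => by
      have := h.mul ![f, g] 0 f f' (nz2 hf hg) hf hf'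
      rwa [up0, up0, up0] at this
  have m1 : ∀ f g g' : F, f ≠ 0 → g ≠ 0 → g' ≠ 0 → φ ![f, g * g'] = φ ![f, g] + φ ![f, g'] :=
    fun f g g' hf hg hg' => by
      have := h.mul ![f, g] 1 g g' (nz2 hf hg) hg hg'
      rwa [up1, up1, up1] at this
  have r : ∀ f : F, f ≠ 0 → φ ![f, f] = 0 := fun f hf =>
    h.rep ![f, f] 0 1 (by decide) (nz2 hf hf) rfl
  refine ⟨m0, fun f g hf hg => ?_, fun f hf hf1 => ?_⟩
  · have a := r _ (mul_ne_zero hf hg)
    rw [m0 f g _ hf hg (mul_ne_zero hf hg), m1 f f g hf hf hg, m1 g f g hg hf hg, r f hf,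
      r g hg] at a
    linarith
  · have hg : 1 - f ≠ 0 := sub_ne_zero.2 hf1.symm
    have a := h.hs ![f, 1 - f] 0 1 f (1 - f) (by decide) (nz2 hf hg) hf hg (by simp)
    simp only [up0, up1, add_sub_cancel] at a
    have b := m1 f 1 1 hf one_ne_zero one_ne_zero
    have c := m0 1 1 (1 - f) one_ne_zero one_ne_zero hg
    rw [mul_one] at b c
    linarith

theorem comp {A E : Type} [AddCommGroup A] [Field E] {β : E → E → A} (h : Sy β) (φ : F →+* E) :
    Sy fun f g => β (φ f) (φ g) where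
  mul f f' g hf hf' hg := by
    rw [map_mul]
    exact h.mul _ _ _ ((map_ne_zero φ).2 hf) ((map_ne_zero φ).2 hf') ((map_ne_zero φ).2 hg)
  swap f g hf hg := h.swap _ _ ((map_ne_zero φ).2 hf) ((map_ne_zero φ).2 hg)
  st f hf hf1 := by
    rw [map_sub, map_one]
    exact h.st _ ((map_ne_zero φ).2 hf) fun e => hf1 (φ.injective (by rw [e, map_one]))

end

section
variable {F E : Type} [Field F] [Field E] (φ : F →+* E)

/-- a function of the symbol which is the value on a list from the small field -/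
def T (h : (E → E → ℝ) → ℝ) : Prop :=
  ∃ l : List (F × F), NZ l ∧ ∀ β : E → E → ℝ, Sy β → h β = sl β (mp φ l)

variable {φ}

theorem T.congr {h h' : (E → E → ℝ) → ℝ} (t : T φ h) (e : ∀ β, Sy β → h' β = h β) : T φ h' := by
  obtain ⟨l, hl, t⟩ := t
  exact ⟨l, hl, fun β hβ => (e β hβ).trans (t β hβ)⟩

theorem T.zero : T φ fun _ => 0 := ⟨[], fun _ hs => by simp at hs, fun _ _ => by simp [sl, mp]⟩

theorem T.add {h h' : (E → E → ℝ) → ℝ} (t : T φ h) (t' : T φ h') : T φ fun β => h β + h' β := by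
  obtain ⟨l, hl, t⟩ := t
  obtain ⟨l', hl', t'⟩ := t'
  refine ⟨l ++ l', fun s hs => (List.mem_append.1 hs).elim (hl s) (hl' s), fun β hβ => ?_⟩
  beta_reduce
  rw [t β hβ, t' β hβ]
  simp [sl, mp]

theorem sl_swap {β : E → E → ℝ} (hβ : Sy β) : ∀ l : List (F × F), NZ l →
    -sl β (mp φ l) = sl β (mp φ (l.map Prod.swap))
  | [], _ => by simp [sl, mp]
  | s :: l, hl => by
    have ih := sl_swap hβ l fun t ht => hl t (List.mem_cons_of_mem _ ht)
    have hs := hl s List.mem_cons_self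
    have e := hβ.swap (φ s.1) (φ s.2) ((map_ne_zero φ).2 hs.1) ((map_ne_zero φ).2 hs.2)
    simp only [sl, mp, List.map_cons, List.sum_cons, Prod.map_fst, Prod.map_snd, Prod.fst_swap,
      Prod.snd_swap] at ih ⊢
    linarith

theorem T.neg {h : (E → E → ℝ) → ℝ} (t : T φ h) : T φ fun β => -h β := by
  obtain ⟨l, hl, t⟩ := t
  refine ⟨l.map Prod.swap, fun s hs => ?_, fun β hβ => by
    beta_reduce
    rw [t β hβ, sl_swap hβ l hl]⟩
  obtain ⟨s', hs', rfl⟩ := List.mem_map.1 hs
  exact (hl s' hs').symm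

theorem T.nat {h : (E → E → ℝ) → ℝ} (t : T φ h) : ∀ n : ℕ, T φ fun β => n * h β
  | 0 => T.zero.congr fun _ _ => by simp
  | n + 1 => ((T.nat t n).add t).congr fun _ _ => by push_cast; ring

theorem T.int {h : (E → E → ℝ) → ℝ} (t : T φ h) (n : ℤ) : T φ fun β => n * h β := by
  obtain ⟨m, rfl | rfl⟩ := n.eq_nat_or_neg
  · exact (t.nat m).congr fun _ _ => by simp
  · exact (t.nat m).neg.congr fun _ _ => by simp

variable (φ)

/-- relations and pairs from the small field -/
def Gn (w : (E × E) →₀ ℚ) : Prop :=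
  (∃ f f' g, f ≠ 0 ∧ f' ≠ 0 ∧ g ≠ 0 ∧ w = Finsupp.single (f * f', g) 1 -
    Finsupp.single (f, g) 1 - Finsupp.single (f', g) 1) ∨
  (∃ f g, f ≠ 0 ∧ g ≠ 0 ∧ w = Finsupp.single (f, g) 1 + Finsupp.single (g, f) 1) ∨
  (∃ f, f ≠ 0 ∧ f ≠ 1 ∧ w = Finsupp.single (f, 1 - f) 1) ∨
  ∃ a b, a ≠ 0 ∧ b ≠ 0 ∧ w = Finsupp.single (φ a, φ b) 1

/-- evaluation of a formal sum -/
noncomputable def ev (β : E → E → ℝ) : ((E × E) →₀ ℚ) →ₗ[ℚ] ℝ :=
  Finsupp.linearCombination ℚ fun p => β p.1 p.2

omit [Field E] in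
theorem ev_single (β : E → E → ℝ) (f g : E) : ev β (Finsupp.single (f, g) 1) = β f g := by
  simp [ev]

theorem span (w : (E × E) →₀ ℚ) (hw : w ∈ Submodule.span ℚ {w | Gn φ w}) :
    ∃ m : ℕ, 0 < m ∧ T φ fun β => m * ev β w := by
  induction hw using Submodule.span_induction with
  | mem w hw =>
    refine ⟨1, one_pos, ?_⟩
    rcases hw with ⟨f, f', g, hf, hf', hg, rfl⟩ | ⟨f, g, hf, hg, rfl⟩ | ⟨f, hf, hf1, rfl⟩ |
      ⟨a, b, ha, hb, rfl⟩
    · refine T.zero.congr fun β hβ => ?_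
      rw [map_sub, map_sub, ev_single, ev_single, ev_single, hβ.mul f f' g hf hf' hg]
      ring
    · refine T.zero.congr fun β hβ => ?_
      rw [map_add, ev_single, ev_single, hβ.swap f g hf hg]
      ring
    · refine T.zero.congr fun β hβ => ?_
      rw [ev_single, hβ.st f hf hf1, mul_zero]
    · refine ⟨[(a, b)], fun s hs => ?_, fun β _ => ?_⟩
      · rw [List.mem_singleton.1 hs]
        exact ⟨ha, hb⟩
      · simp [ev_single, sl, mp]
  | zero => exact ⟨1, one_pos, T.zero.congr fun β _ => by simp⟩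
  | add w w' _ _ h h' =>
    obtain ⟨m, hm, t⟩ := h
    obtain ⟨m', hm', t'⟩ := h'
    refine ⟨m * m', Nat.mul_pos hm hm', ((t.nat m').add (t'.nat m)).congr fun β _ => ?_⟩
    rw [map_add]
    push_cast
    ring
  | smul q w _ h =>
    obtain ⟨m, hm, t⟩ := h
    refine ⟨m * q.den, Nat.mul_pos hm q.pos, (t.int q.num).congr fun β _ => ?_⟩
    have e : (q : ℝ) * q.den = q.num := by exact_mod_cast q.mul_den_eq_num
    rw [map_smul, Rat.smul_def, ← e]
    push_cast
    ring

end

theorem lsum {E A G : Type} [AddCommGroup A] [Fintype G] (c : G → E × E → A) :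
    ∀ l : List (E × E), ∑ σ, (l.map (c σ)).sum = (l.map fun s => ∑ σ, c σ s).sum
  | [] => by simp
  | s :: l => by simp [Finset.sum_add_distrib, lsum c l]

end PGd0

open PGd0

theorem pGD0 : OfGD0 := by
  intro hT hM hA hB F E _ _ _ _ _ β hβ hinv h0 f g hf hg
  let Ω := AlgebraicClosure E
  have : Algebra.IsAlgebraic F Ω := Algebra.IsAlgebraic.trans F E Ω
  obtain ⟨φ, hφ, hr⟩ := hT (Fin 2) E Ω _ (toSt hβ)
  have hS := ofSt hφ
  have hr' : ∀ a b : E, a ≠ 0 → b ≠ 0 → φ ![algebraMap E Ω a, algebraMap E Ω b] = β a b :=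
    fun a b ha hb => by
      have := hr ![a, b] (nz2 ha hb)
      rw [show algebraMap E Ω ∘ ![a, b] = ![algebraMap E Ω a, algebraMap E Ω b] by
        funext i; fin_cases i <;> rfl] at this
      exact this
  obtain ⟨M, hM⟩ := hM (Ω ≃ₐ[F] Ω)
  have ad : ∀ f g : Ω, Adm fun σ : Ω ≃ₐ[F] Ω => φ ![σ f, σ g] := fun f g =>
    hA F Ω {f, g} _ (Set.toFinite _) fun σ τ h => by
      rw [h f (by simp), h g (by simp)]
  have hc : ∀ σ : Ω ≃ₐ[F] Ω, Sy fun f g => φ ![σ f, σ g] := fun σ =>
    comp hS (σ : Ω →+* Ω)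
  have key := hB F Ω (fun f g => M fun σ => φ ![σ f, σ g])
    (fun f f' g hf hf' hg => by
      rw [← hM.add _ _ (ad f g) (ad f' g)]
      congr 1
      funext σ
      exact (hc σ).mul f f' g hf hf' hg)
    (fun f g hf hg => by
      rw [← neg_one_mul, ← hM.smul _ _ (ad g f)]
      congr 1
      funext σ
      rw [neg_one_mul]
      exact (hc σ).swap f g hf hg)
    (fun f hf hf1 => by
      rw [← hM.const 0]
      congr 1
      funext σ
      exact (hc σ).st f hf hf1)
    (fun τ f g _ _ => hM.right _ τ (ad f g))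
    (fun a b ha hb => by
      rw [← hM.const 0]
      congr 1
      funext σ
      rw [σ.commutes, σ.commutes, IsScalarTower.algebraMap_apply F E Ω,
        IsScalarTower.algebraMap_apply F E Ω b,
        hr' _ _ ((map_ne_zero _).2 ha) ((map_ne_zero _).2 hb), h0 a b ha hb])
    (algebraMap E Ω f) (algebraMap E Ω g) ((map_ne_zero _).2 hf) ((map_ne_zero _).2 hg)
  rw [← key, ← hM.const (β f g)]
  congr 1
  funext σ
  rw [← AlgEquiv.restrictNormal_commutes σ E f, ← AlgEquiv.restrictNormal_commutes σ E g,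
    hr' _ _ ((map_ne_zero _).2 hf) ((map_ne_zero _).2 hg), hinv _ f g hf hg]

theorem pDesc : OfDesc := by
  intro hG F E _ _ _ _ _ l' hl'
  let c : (E ≃ₐ[F] E) → E × E → (E × E) →₀ ℚ := fun σ s => Finsupp.single (σ s.1, σ s.2) 1
  have hz : ∑ σ, (l'.map (c σ)).sum ∈ Submodule.span ℚ {w | Gn (algebraMap F E) w} := by
    by_contra hn
    obtain ⟨b, hb, hN⟩ := Submodule.exists_dual_map_eq_bot_of_notMem hn inferInstance
    have hk : ∀ w, Gn (algebraMap F E) w → b w = 0 := fun w hw => by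
      have : b w ∈ (Submodule.span ℚ {w | Gn (algebraMap F E) w}).map b :=
        Submodule.mem_map_of_mem (Submodule.subset_span hw)
      rwa [hN, Submodule.mem_bot] at this
    have hS : Sy fun f g : E => b (Finsupp.single (f, g) 1) := by
      refine ⟨fun f f' g hf hf' hg => ?_, fun f g hf hg => ?_, fun f hf hf1 => ?_⟩
      · have := hk _ (Or.inl ⟨f, f', g, hf, hf', hg, rfl⟩)
        rw [map_sub, map_sub] at this
        linarith
      · have := hk _ (Or.inr (Or.inl ⟨f, g, hf, hg, rfl⟩))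
        rw [map_add] at this
        linarith
      · exact hk _ (Or.inr (Or.inr (Or.inl ⟨f, hf, hf1, rfl⟩)))
    have hc : ∀ σ : E ≃ₐ[F] E, Sy fun f g => b (c σ (f, g)) := fun σ => comp hS (σ : E →+* E)
    have key := hG F E (fun f g => ∑ σ : E ≃ₐ[F] E, b (c σ (f, g)))
      ⟨fun f f' g hf hf' hg => by
        rw [← Finset.sum_add_distrib]
        exact Finset.sum_congr rfl fun σ _ => (hc σ).mul f f' g hf hf' hg,
      fun f g hf hg => by
        rw [← Finset.sum_neg_distrib]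
        exact Finset.sum_congr rfl fun σ _ => (hc σ).swap f g hf hg,
      fun f hf hf1 => Finset.sum_eq_zero fun σ _ => (hc σ).st f hf hf1⟩
      (fun τ f g _ _ => Equiv.sum_comp (Equiv.mulRight τ) fun σ => b (c σ (f, g)))
      (fun a a' ha ha' => Finset.sum_eq_zero fun σ _ => by
        refine hk _ (Or.inr (Or.inr (Or.inr ⟨a, a', ha, ha', ?_⟩)))
        simp only [c, AlgEquiv.commutes])
    refine hb ?_
    rw [lsum, map_list_sum, List.map_map]
    refine List.sum_eq_zero fun x hx => ?_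
    obtain ⟨s, hs, rfl⟩ := List.mem_map.1 hx
    rw [comp_apply, map_sum]
    exact key s.1 s.2 (hl' s hs).1 (hl' s hs).2
  obtain ⟨m, hm, l, hl, t⟩ := span _ _ hz
  refine ⟨m, l, hm, hl, fun β hβ => ?_⟩
  rw [← t β hβ]
  beta_reduce
  rw [map_sum]
  congr 1
  refine Finset.sum_congr rfl fun σ _ => ?_
  rw [map_list_sum, List.map_map, sl, mp, List.map_map]
  congr 1
  refine List.map_congr_left fun s _ => ?_
  exact (ev_single β _ _).symm

end Pool.Agent.MP_f3836a_nt.RG
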