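import Pool.Agent.MP_f3836a_nt.RG.SpecP
import Pool.Agent.MP_f3836a_nt.H23.BW

/-! The regulator of a closed chain is a symbol; integration by parts. -/

set_option autoImplicit false

namespace Pool.Agent.MP_f3836a_nt.RG

namespace PP1

variable {F : Type} [Field F] {p : Pa F}

theorem ne (p : Pa F) (θ : ℝ) {f : F} (hf : f ≠ 0) : p.e θ f ≠ 0 := (map_ne_zero _).2 hf

theorem ce (p : Pa F) (f : F) : Continuous fun θ => p.e θ f := (p.c1 f).continuous

theorem clog (p : Pa F) {f : F} (hf : f ≠ 0) : Continuous fun θ => Real.log ‖p.e θ f‖ :=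
  (ce p f).norm.log fun θ => norm_ne_zero_iff.2 (ne p θ hf)

theorem cq (h : PaA p) {f : F} (hf : f ≠ 0) : Continuous fun θ => p.d θ f / p.e θ f :=
  (h.cd f).div (ce p f) fun θ => ne p θ hf

theorem cint (h : PaA p) {f g : F} (hf : f ≠ 0) (hg : g ≠ 0) : Continuous fun θ =>
    Real.log ‖p.e θ f‖ * (p.d θ g / p.e θ g).im - Real.log ‖p.e θ g‖ * (p.d θ f / p.e θ f).im :=
  ((clog p hf).mul (Complex.continuous_im.comp (cq h hg))).sub
    ((clog p hg).mul (Complex.continuous_im.comp (cq h hf)))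

theorem rg_mul (h : PaA p) {f f' g : F} (hf : f ≠ 0) (hf' : f' ≠ 0) (hg : g ≠ 0) :
    p.rg (f * f') g = p.rg f g + p.rg f' g := by
  rw [Pa.rg, Pa.rg, Pa.rg, ← intervalIntegral.integral_add ((cint h hf hg).intervalIntegrable _ _)
    ((cint h hf' hg).intervalIntegrable _ _)]
  congr 1
  funext θ
  have a := ne p θ hf
  have b := ne p θ hf'
  have e : p.d θ (f * f') / p.e θ (f * f') = p.d θ f / p.e θ f + p.d θ f' / p.e θ f' := by
    rw [h.mul, map_mul]
    field_simp
    ring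
  rw [e, map_mul, norm_mul, Real.log_mul (norm_ne_zero_iff.2 a) (norm_ne_zero_iff.2 b),
    Complex.add_im]
  ring

theorem rg_swap (p : Pa F) (f g : F) : p.rg f g = -p.rg g f := by
  rw [Pa.rg, Pa.rg, ← intervalIntegral.integral_neg]
  congr 1
  funext θ
  ring

theorem d_one_sub (h : PaA p) (θ : ℝ) (f : F) : p.d θ (1 - f) = -p.d θ f := by
  have h1 := h.add θ (1 - f) f
  rw [sub_add_cancel, h.alg θ 1 isAlgebraic_one] at h1
  exact eq_neg_of_add_eq_zero_left h1.symm

theorem rg_st (h : PaA p) {D : ℂ → ℝ} (hD : ∀ z : ℂ, z ≠ 0 → z ≠ 1 → H23.Prim D z) {f : F}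
    (h0 : f ≠ 0) (h1 : f ≠ 1) : p.rg f (1 - f) = D (p.e 1 f) - D (p.e 0 f) := by
  have h2 : 1 - f ≠ 0 := sub_ne_zero.2 h1.symm
  refine intervalIntegral.integral_eq_sub_of_hasDerivAt (f := fun θ => D (p.e θ f))
    (fun θ _ => ?_) ((cint h h0 h2).intervalIntegrable _ _)
  have h3 : p.e θ f ≠ 1 := fun e => ne p θ h2 (by rw [map_sub, map_one, e, sub_self])
  refine (hD _ (ne p θ h0) h3 _ _ θ (h.der f θ) rfl).congr_deriv ?_
  rw [H23.eta, d_one_sub h, map_sub, map_one]

theorem rg_parts (h : PaA p) {G k : F} (hk : k ≠ 0)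
    (hG : ∀ θ ∈ Set.Icc (0 : ℝ) 1, p.e θ G ∈ Complex.slitPlane) :
    p.rg G k = (∫ θ in (0 : ℝ)..1, Complex.log (p.e θ G) * (p.d θ k / p.e θ k)).im -
      (Real.log ‖p.e 1 k‖ * (Complex.log (p.e 1 G)).im -
        Real.log ‖p.e 0 k‖ * (Complex.log (p.e 0 G)).im) := by
  have hG0 : G ≠ 0 := fun e => Complex.slitPlane_ne_zero (hG 0 ⟨le_rfl, zero_le_one⟩)
    (by rw [e, map_zero])
  have hu : Set.uIcc (0 : ℝ) 1 = Set.Icc 0 1 := Set.uIcc_of_le zero_le_one
  have hc : ContinuousOn (fun θ => Complex.log (p.e θ G) * (p.d θ k / p.e θ k))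
      (Set.uIcc (0 : ℝ) 1) :=
    ((ce p G).continuousOn.clog fun θ hθ => hG θ (hu ▸ hθ)).mul (cq h hk).continuousOn
  have hi := hc.intervalIntegrable (μ := MeasureTheory.volume)
  have hi' := (Complex.continuous_im.comp_continuousOn hc).intervalIntegrable
    (μ := MeasureTheory.volume)
  have hr := (cint h hG0 hk).intervalIntegrable (μ := MeasureTheory.volume) 0 1
  have e1 : (∫ θ in (0 : ℝ)..1, Complex.log (p.e θ G) * (p.d θ k / p.e θ k)).im =
      ∫ θ in (0 : ℝ)..1, (Complex.log (p.e θ G) * (p.d θ k / p.e θ k)).im :=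
    (Complex.imCLM.intervalIntegral_comp_comm hi).symm
  have e2 := intervalIntegral.integral_eq_sub_of_hasDerivAt
    (f := fun θ => Real.log ‖p.e θ k‖ * (Complex.log (p.e θ G)).im) (fun θ hθ => ?_) (hi'.sub hr)
  · rw [intervalIntegral.integral_sub hi' hr] at e2
    rw [e1, Pa.rg, ← e2]
    exact (sub_sub_cancel _ _).symm
  · refine ((H23.hasDerivAt_log_norm (h.der k θ) (ne p θ hk)).mul
      (H23.hasDerivAt_im ((h.der G θ).clog_real (hG θ (hu ▸ hθ))))).congr_deriv ?_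
    simp only [Function.comp_apply, Complex.mul_im, Complex.log_re]
    ring

end PP1

open PP1

theorem pP1 : OfP1 := by
  intro hW F _ γ hγ
  have hA := (hW F).1
  refine ⟨fun f f' g hf hf' hg => ?_, fun f g _ _ => ?_, fun f h0 h1 => ?_⟩
  · simp only [RR, Finsupp.sum, ← Finset.sum_add_distrib]
    exact Finset.sum_congr rfl fun p _ => by rw [rg_mul (hA p) hf hf' hg, mul_add]
  · simp only [RR, Finsupp.sum, ← Finset.sum_neg_distrib]
    exact Finset.sum_congr rfl fun p _ => by rw [rg_swap p f g, mul_neg]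
  · obtain ⟨D, hD⟩ := H23.exists_prim
    rw [← hγ fun e => D (e f)]
    exact Finset.sum_congr rfl fun p _ => congrArg (γ p * ·) (rg_st (hA p) hD h0 h1)

theorem pP2 : OfP2 := by
  intro hW F _ γ G k hγ hk hG
  have hA := (hW F).1
  have h := hγ fun e => Real.log ‖e k‖ * (Complex.log (e G)).im
  refine Eq.trans ?_ ((congrArg (_ - ·) h).trans (sub_zero _))
  simp only [RR, Finsupp.sum, ← Finset.sum_sub_distrib]
  exact Finset.sum_congr rfl fun p hp => by rw [rg_parts (hA p) hk (hG p hp), mul_sub]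

end Pool.Agent.MP_f3836a_nt.RG
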