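import Pool.Agent.MP_f3836a_nt.RG.SpecP
import Pool.Agent.MP_f3836a_nt.VE.ZExA
import Pool.Agent.MP_f3836a_nt.VE.ZDv

/-! Part P: lists with torsion boundary, and differentials, in a finite extension. -/

set_option autoImplicit false

namespace Pool.Agent.MP_f3836a_nt.RG

open PK VE.W VE.Z GP VE.Z.ZExA

namespace PUDn

variable {K L : Type} [Field K] [Field L]

theorem ho_iff (i : K →+* L) (V : Subring L) : Ho (V.comap i) ↔ Ho V := by
  simp only [Ho, Subring.mem_comap, map_inv₀, map_natCast]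

theorem ex (φ : K →+* L) (hφ : φ.Finite) {V : Subring L} (hV : Dvr V) :
    Dvr (V.comap φ) ∧ ∃ e : ℕ, 0 < e ∧
      ∀ z : K, z ≠ 0 → ordR V (φ z) = e * ordR (V.comap φ) z := by
  let _ := φ.toAlgebra
  have : FiniteDimensional K L := hφ
  exact zExA zDv K L V hV

theorem pl (φ : K →+* L) (hφ : φ.Finite) {V : Subring L} (hV : Pl V) : Pl (V.comap φ) :=
  ⟨(ex φ hφ hV.1).1, (ho_iff φ V).2 hV.2⟩

theorem nz_mp (φ : K →+* L) {l : List (K × K)} (h : NZ l) : NZ (mp φ l) := by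
  intro s hs
  obtain ⟨t, ht, rfl⟩ := List.mem_map.1 hs
  exact ⟨(map_ne_zero φ).2 (h t ht).1, (map_ne_zero φ).2 (h t ht).2⟩

theorem sq_sign (n : ℤ) : ((-1 : L) ^ n) ^ 2 = 1 := by
  rw [← zpow_natCast, ← zpow_mul, mul_comm, zpow_mul]
  simp

theorem tame_sq (φ : K →+* L) {V : Subring L} {U : Subring K} {e : ℕ}
    (h : ∀ z : K, z ≠ 0 → ordR V (φ z) = e * ordR U z) {f g : K} (hf : f ≠ 0) (hg : g ≠ 0) :
    tameE V (φ f) (φ g) ^ 2 = (φ (tameE U f g) ^ 2) ^ e := by
  unfold tameE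
  rw [h f hf, h g hg]
  generalize ordR U f = a
  generalize ordR U g = b
  rw [map_div₀, map_mul, map_zpow₀, map_zpow₀, map_zpow₀, map_neg, map_one, mul_div_assoc,
    mul_div_assoc, mul_pow, mul_pow, sq_sign, sq_sign, one_mul, one_mul, pow_right_comm,
    mul_comm (e : ℤ) a, mul_comm (e : ℤ) b, zpow_mul, zpow_mul, zpow_natCast, zpow_natCast,
    ← div_pow]

theorem bd_sq (φ : K →+* L) {V : Subring L} {U : Subring K} {e : ℕ}
    (h : ∀ z : K, z ≠ 0 → ordR V (φ z) = e * ordR U z) (l : List (K × K)) (hl : NZ l) :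
    bdE (mp φ l) V ^ 2 = (φ (bdE l U) ^ 2) ^ e := by
  induction l with
  | nil => simp [bdE, mp]
  | cons s l ih =>
    have h1 := hl s List.mem_cons_self
    have h2 := ih fun t ht => hl t (List.mem_cons_of_mem _ ht)
    have e1 : bdE (mp φ (s :: l)) V = tameE V (φ s.1) (φ s.2) * bdE (mp φ l) V := by
      simp [bdE, mp]
    have e2 : bdE (s :: l) U = tameE U s.1 s.2 * bdE l U := by simp [bdE]
    rw [e1, e2, mul_pow, h2, tame_sq φ h h1.1 h1.2, map_mul, mul_pow, mul_pow]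

theorem tor_iff (φ : K →+* L) (hφ : φ.Finite) {V : Subring L} (hV : Dvr V) {l : List (K × K)}
    (hl : NZ l) : Tor V (bdE (mp φ l) V) ↔ Tor (V.comap φ) (bdE l (V.comap φ)) := by
  obtain ⟨-, e, he, h⟩ := ex φ hφ hV
  have k := bd_sq φ h l hl
  rw [tor_comap]
  refine ⟨fun t => ?_, fun t => ?_⟩
  · exact ((k ▸ t.pow 2).of_pow he).of_pow two_pos
  · exact (k.symm ▸ (t.pow 2).pow e : Tor V (bdE (mp φ l) V ^ 2)).of_pow two_pos

theorem up_inj (F E : Type) [Field F] [Field E] [CharZero F] [Algebra F E]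
    [FiniteDimensional F E] : Function.Injective (KaehlerDifferential.map ℤ ℤ F E) := by
  have := Algebra.FormallyEtale.of_isSeparable F E
  intro x y h
  apply Module.Flat.tensorProduct_mk_injective F (Om F) E
  apply (KaehlerDifferential.tensorKaehlerEquivOfFormallyEtale ℤ F E).injective
  simpa using h

end PUDn

open PUDn

theorem pUDn : OfUDn := by
  intro hF F E _ _ _ _ _ M VV hV
  have fin : (algebraMap F E).Finite := RingHom.finite_algebraMap.2 inferInstance
  refine ⟨{V' | ∃ V ∈ VV, Ab V V'}, ⟨hV.ne, ?_, ?_⟩, fun σ l' h => ?_, fun l hl h => ⟨hl, ?_⟩⟩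
  · refine (hV.fin.biUnion fun V h => hF F E V (hV.dv V h).1).subset ?_
    rintro V' ⟨V, h1, h2⟩
    exact Set.mem_biUnion h1 h2
  · rintro V' ⟨V, h1, h2, rfl⟩
    refine ⟨h2, ?_⟩
    have := (nu_comap _ _ _).1 (hV.dv _ h1).2
    rwa [map_natCast] at this
  · have fs : (σ : E →+* E).Finite := RingHom.Finite.of_surjective _ σ.surjective
    refine ⟨nz_mp (σ : E →+* E) h.1, fun V' k => ?_⟩
    have d : Dvr V' := k.elim (fun k => k.1) fun ⟨_, _, k⟩ => k.1
    refine (tor_iff (σ : E →+* E) fs d h.1).2 (h.2 _ (k.imp (pl _ fs) ?_))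
    rintro ⟨V, h1, h2, rfl⟩
    refine ⟨_, h1, (ex _ fs d).1, Subring.ext fun z => ?_⟩
    simp [Subring.mem_comap]
  · intro V k
    obtain ⟨V', d, rfl⟩ :=
      ((zExB zDv).1 F E).2 V (k.elim (fun k => k.1) fun k => (hV.dv V k).1)
    exact (tor_iff _ fin d hl).1
      (h.2 V' (k.imp (fun k => ⟨d, (ho_iff _ _).1 k.2⟩) fun k => ⟨_, k, d, rfl⟩))

theorem pUp : OfUp := by
  intro _ _ _ F E _ _ _ _ _ _ _
  have fin : (algebraMap F E).Finite := RingHom.finite_algebraMap.2 inferInstance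
  refine ⟨fun ω h V hV => ?_, fun D ω h n e => h n (up_inj F E ?_)⟩
  · have k := h _ (pl _ fin hV)
    clear h
    unfold RegAt at k ⊢
    unfold up
    induction k using AddSubgroup.closure_induction with
    | mem w hw =>
      obtain ⟨a, ha, b, hb, rfl⟩ := hw
      refine AddSubgroup.subset_closure ⟨_, ha, _, hb, ?_⟩
      rw [map_smul, KaehlerDifferential.map_D, algebraMap_smul]
    | zero => rw [map_zero]; exact zero_mem _
    | add x y _ _ hx hy => rw [map_add]; exact add_mem hx hy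
    | neg x _ hx => rw [map_neg]; exact neg_mem hx
  · rw [map_zero, map_sum, ← e]
    refine Finset.sum_congr rfl fun k _ => ?_
    rw [map_smul, ← algebraMap_smul E, map_intCast]
    rfl

end Pool.Agent.MP_f3836a_nt.RG
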