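import Pool.Agent.MP_f3836a_nt.RG.SpecP

/-! Elementary facts on paths of embeddings and on chains. -/

set_option autoImplicit false

namespace Pool.Agent.MP_f3836a_nt.RG

namespace PWs

variable {F : Type} [Field F]

theorem om_ind {P : Om F → Prop} (h0 : P 0) (ha : ∀ x y, P x → P y → P (x + y))
    (hd : ∀ u a : F, P (u • dd a)) (ω : Om F) : P ω := by
  have h : ∀ ω ∈ Submodule.span F (Set.range (KaehlerDifferential.D ℤ F)), ∀ u : F, P (u • ω) := by
    intro ω hω
    induction hω using Submodule.span_induction with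
    | mem x hx => obtain ⟨a, rfl⟩ := hx; exact fun u => hd u a
    | zero => intro u; rwa [smul_zero]
    | add x y _ _ hx hy => intro u; rw [smul_add]; exact ha _ _ (hx u) (hy u)
    | smul c x _ hx => intro u; rw [smul_smul]; exact hx _
  have := h ω (by rw [KaehlerDifferential.span_range_derivation]; trivial) 1
  rwa [one_smul] at this

section path

variable (p : Pa F)

theorem der (f : F) (θ : ℝ) : HasDerivAt (fun θ => p.e θ f) (p.d θ f) θ :=
  ((p.c1 f).differentiable one_ne_zero θ).hasDerivAt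

theorem cd (f : F) : Continuous fun θ => p.d θ f := (p.c1 f).continuous_deriv le_rfl

theorem add (θ : ℝ) (f g : F) : p.d θ (f + g) = p.d θ f + p.d θ g := by
  have h := (der p f θ).fun_add (der p g θ)
  simp only [← map_add] at h
  exact (der p _ θ).unique h

theorem mul (θ : ℝ) (f g : F) : p.d θ (f * g) = p.e θ f * p.d θ g + p.e θ g * p.d θ f := by
  have h := (der p f θ).fun_mul (der p g θ)
  simp only [← map_mul] at h
  rw [(der p _ θ).unique h]; ring

theorem alg (θ : ℝ) (c : F) (hc : IsAlgebraic ℤ c) : p.d θ c = 0 := by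
  obtain ⟨P, hP, h0⟩ := hc
  have hm : Set.MapsTo (fun θ => p.e θ c) Set.univ (P.rootSet ℂ) := fun t _ => by
    rw [Polynomial.mem_rootSet_of_ne hP]
    have := Polynomial.aeval_algHom_apply (p.e t).toIntAlgHom c P
    rw [h0, map_zero] at this
    exact this
  have hk : (fun t => p.e t c) = fun _ => p.e θ c := funext fun t =>
    isPreconnected_univ.constant_of_mapsTo (P.rootSet_finite ℂ).isDiscrete
      (p.c1 c).continuous.continuousOn hm trivial trivial
  rw [Pa.d, hk, deriv_const]

theorem ex (θ : ℝ) : ∃ L : Om F →+ ℂ, ∀ u a : F, L (u • dd a) = p.e θ u * p.d θ a := by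
  let _ : Algebra F ℂ := (p.e θ).toAlgebra
  let D : Derivation ℤ F ℂ :=
    Derivation.mk' (AddMonoidHom.mk' (p.d θ) (add p θ)).toIntLinearMap (mul p θ)
  refine ⟨D.liftKaehlerDifferential.toAddMonoidHom, fun u a => ?_⟩
  change D.liftKaehlerDifferential (u • dd a) = _
  rw [map_smul, Derivation.liftKaehlerDifferential_comp_D]
  rfl

theorem wd (θ : ℝ) (u a : F) : p.w θ (u • dd a) = p.e θ u * p.d θ a := by
  rw [Pa.w, dif_pos (ex p θ)]
  exact (ex p θ).choose_spec u a

theorem ws (θ : ℝ) (u : F) (ω : Om F) : p.w θ (u • ω) = p.e θ u * p.w θ ω := by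
  induction ω using om_ind with
  | h0 => rw [smul_zero, map_zero, mul_zero]
  | ha x y hx hy => rw [smul_add, map_add, map_add, hx, hy, mul_add]
  | hd v a => rw [smul_smul, wd, wd, map_mul, mul_assoc]

theorem cw (ω : Om F) : Continuous fun θ => p.w θ ω := by
  induction ω using om_ind with
  | h0 => simp only [map_zero]; exact continuous_const
  | ha x y hx hy => simp only [map_add]; exact hx.add hy
  | hd v a => simp only [wd]; exact (p.c1 v).continuous.mul (cd p a)

theorem pa (ω ω' : Om F) : p.pe (ω + ω') = p.pe ω + p.pe ω' := by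
  simp only [Pa.pe, map_add]
  exact intervalIntegral.integral_add ((cw p ω).intervalIntegrable _ _)
    ((cw p ω').intervalIntegrable _ _)

theorem pz (n : ℤ) (ω : Om F) : p.pe ((n : F) • ω) = n * p.pe ω := by
  simp only [Pa.pe, ws, map_intCast]
  exact intervalIntegral.integral_const_mul _ _

theorem w_cm {E : Type} [Field E] [Algebra E F] (θ : ℝ) (ω : Om E) :
    (p.cm (algebraMap E F)).w θ ω = p.w θ (up F ω) := by
  induction ω using om_ind with
  | h0 => simp only [up, map_zero]
  | ha x y hx hy => simp only [up, map_add] at hx hy ⊢; rw [hx, hy]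
  | hd v a =>
    rw [wd, up, map_smul, KaehlerDifferential.map_D, ← algebraMap_smul F v, wd]
    rfl

theorem paA : PaA p :=
  ⟨der p, cd p, add p, mul p, alg p, wd p, ws p, cw p, pa p, pz p⟩

end path

theorem s_add (γ γ' : Ch F) (t : Pa F → ℝ) :
    ((γ + γ').sum fun p a => a * t p) = (γ.sum fun p a => a * t p) + γ'.sum fun p a => a * t p :=
  Finsupp.sum_add_index' (fun _ => zero_mul _) fun _ _ _ => add_mul _ _ _

theorem s_smul (c : ℝ) (γ : Ch F) (t : Pa F → ℝ) :
    ((c • γ).sum fun p a => a * t p) = c * γ.sum fun p a => a * t p := by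
  rw [Finsupp.sum_smul_index fun _ => zero_mul _, Finsupp.mul_sum]
  simp only [mul_assoc]

theorem s_dn {E : Type} [Field E] (φ : E →+* F) (γ : Ch F) (t : Pa E → ℝ) :
    ((dn φ γ).sum fun p a => a * t p) = γ.sum fun p a => a * t (p.cm φ) :=
  Finsupp.sum_mapDomain_index (fun _ => zero_mul _) fun _ _ _ => add_mul _ _ _

theorem chA : ChA F where
  ia γ ω ω' := by
    simp only [IP, pa, Complex.add_im, mul_add, Finsupp.sum_add]
  iz γ n ω := by
    simp only [IP, pz, Finsupp.mul_sum]
    refine Finsupp.sum_congr fun p _ => ?_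
    rw [← Complex.ofReal_intCast, Complex.im_ofReal_mul]; ring
  ai γ γ' ω := s_add γ γ' _
  si c γ ω := s_smul c γ _
  ar γ γ' f g := s_add γ γ' _
  sr c γ f g := s_smul c γ _
  ac γ γ' h h' Φ := by rw [s_add, h Φ, h' Φ, add_zero]
  sc c γ h Φ := by rw [s_smul, h Φ, mul_zero]
  dc E _ φ γ h Φ := (s_dn φ γ _).trans (h fun e => Φ (e.comp φ))
  dr E _ φ γ f g := s_dn φ γ _
  dd E E' _ _ φ φ' γ := Finsupp.mapDomain_comp.symm
  di E _ _ γ ω := by
    refine (s_dn _ γ _).trans ?_
    simp only [IP, Pa.pe, w_cm]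

end PWs

theorem pWS : WS := fun _ _ => ⟨PWs.paA, PWs.chA⟩

end Pool.Agent.MP_f3836a_nt.RG
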