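import Pool.Agent.MP_f3836a_nt.BT.ABas
import Pool.Agent.MP_f3836a_nt.BT.AWg
import Pool.Agent.MP_f3836a_nt.BT.AMa
import Pool.Agent.MP_f3836a_nt.BT.ARec
import Pool.Agent.MP_f3836a_nt.BT.ATr
import Pool.Agent.MP_f3836a_nt.PK.EBT
import Pool.Agent.MP_f3836a_nt.PK.EMean
import Pool.Agent.MP_f3836a_nt.GP.GCrt
import Pool.Agent.MP_f3836a_nt.GP.GDim
import Pool.Agent.MP_f3836a_nt.GP.GDu
import Pool.Agent.MP_f3836a_nt.GP.GF2
import Pool.Agent.MP_f3836a_nt.GP.GSec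
import Pool.Agent.MP_f3836a_nt.GP.GSf
import Pool.Agent.MP_f3836a_nt.GP.GVal
import Pool.Agent.MP_f3836a_nt.GP.GdA
import Pool.Agent.MP_f3836a_nt.GP.TAp
import Pool.Agent.MP_f3836a_nt.GP.TBc
import Pool.Agent.MP_f3836a_nt.GP.TEf
import Pool.Agent.MP_f3836a_nt.GP.TFf
import Pool.Agent.MP_f3836a_nt.GP.TFin
import Pool.Agent.MP_f3836a_nt.GP.TNb
import Pool.Agent.MP_f3836a_nt.GP.TNx
import Pool.Agent.MP_f3836a_nt.GP.TSpl
import Pool.Agent.MP_f3836a_nt.RG.PBs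
import Pool.Agent.MP_f3836a_nt.RG.PDual
import Pool.Agent.MP_f3836a_nt.RG.PExt
import Pool.Agent.MP_f3836a_nt.RG.PFin
import Pool.Agent.MP_f3836a_nt.RG.PGd0
import Pool.Agent.MP_f3836a_nt.RG.PP1
import Pool.Agent.MP_f3836a_nt.RG.PUDn
import Pool.Agent.MP_f3836a_nt.RG.PWs

/-! Part P assembled. -/

set_option autoImplicit false

namespace Pool.Agent.MP_f3836a_nt.RG

open GP

theorem trB : BT.RTr := BT.rTr BT.rBas (BT.rStep (BT.rMa BT.rBas)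
  (BT.rRec (BT.rWg BT.rBas) BT.rVS (BT.rMa BT.rBas) (BT.rMb BT.rBas)))

theorem p1 : P1 := pP1 pWS

theorem p2 : P2 := pP2 pWS

theorem tSy : TSy := pTSy gNu

theorem upS : UP := pUp tFf tFin (tNx tNb)

theorem mainR_of (hB : BP) (hA : AP) : MainR :=
  pMainR pWS p1 (pExt tFf tFin tNb tBc (tSpl tNb tFe (tEf tNb))) upS
    (pBS tFin pWS p1 (pDual tSy) (pDesc (pGD0 trB PK.rMean PK.rAdm PK.rBT)) tSy (pUDn tFe) upS hB)
    hA

theorem finalR_of (hB : BP) (hA : AP) : FinalR :=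
  pFinal gDim pK2L (pMainX tFf (gSf gVal gCrt gF2 (gGd gdA gdB)) (gGv (gSec gVal)) (mainR_of hB hA))

end Pool.Agent.MP_f3836a_nt.RG
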