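import Pool.Agent.MP_f3836a_nt.RG.SpecE
import Pool.Agent.MP_f3836a_nt.GV.RSepB

/-! Part E: twisted archimedean rigidity from the abstract statement. -/

set_option autoImplicit false

namespace Pool.Agent.MP_f3836a_nt.GV.T

open Polynomial Finset Filter Topology VE GV.R
open scoped Matrix

namespace EArH

/-- one more coordinate without a condition -/
def Qs {r : ℕ} (Q : Matrix (Fin r) (Fin r) ℝ) : Matrix (Fin (r + 1)) (Fin (r + 1)) ℝ :=
  Matrix.of fun i j => Fin.cases 0 (fun i => Fin.cases 0 (fun j => Q i j) j) i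

theorem qs_iff {r : ℕ} (Q : Matrix (Fin r) (Fin r) ℝ) (c : Fin (r + 1) → ℝ) :
    Qs Q *ᵥ c = 0 ↔ (Q *ᵥ fun w => c w.succ) = 0 := by
  simp [funext_iff, Fin.forall_fin_succ, Qs, Matrix.mulVec, dotProduct, Fin.sum_univ_succ]

/-- the extended family of functions -/
noncomputable def ls {a b : ℝ} {r : ℕ} {V : Type} (τ : V → CI a b) (l : V → Fin r → CI a b) :
    Option V → Fin (r + 1) → CI a b
  | none => Fin.cons 1 fun _ => 0
  | some v => Fin.cons (τ v) (l v)

/-- the extended family of spaces -/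
noncomputable def Fs {a b : ℝ} {V : Type} (F : V → Submodule ℝ (CI a b)) :
    Option V → Submodule ℝ (CI a b)
  | none => Submodule.span ℝ {1}
  | some v => F v

theorem sep {a b : ℝ} {r : ℕ} {V : Type} {𝒜 : Subalgebra ℝ (CI a b)}
    {Q : Matrix (Fin r) (Fin r) ℝ} {τ : V → CI a b} {l : V → Fin r → CI a b}
    {F : V → Submodule ℝ (CI a b)} (h : Sep 𝒜 Q l F) (hτ : ∀ v, τ v ∈ 𝒜)
    (hr : ∀ (κ : ℝ) (c : Fin r → CI a b), (∀ w, c w ∈ 𝒜) → (∀ t, (Q *ᵥ fun w => c w t) = 0) →
      (∀ v, κ • τ v + ∑ w, c w * l v w ∈ F v) → κ = 0 ∧ c = 0) :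
    Sep 𝒜 (Qs Q) (ls τ l) (Fs F) := by
  refine ⟨?_, ?_, ?_, fun t c k => ?_, fun c hc hq k => ?_⟩
  · rintro (_ | v) w
    · exact Fin.cases 𝒜.one_mem (fun _ => 𝒜.zero_mem) w
    · exact Fin.cases (hτ v) (h.ml v) w
  · rintro (_ | v) g hg
    · obtain ⟨κ, rfl⟩ := Submodule.mem_span_singleton.1 hg
      exact 𝒜.smul_mem 𝒜.one_mem κ
    · exact h.mF v g hg
  · rintro (_ | v)
    · exact FiniteDimensional.span_singleton ℝ _
    · exact h.fd v
  · have h0 : c 0 = 0 := by simpa [ls, Fin.sum_univ_succ] using k none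
    have h1 := h.inj t (fun w => c w.succ) fun v => by
      simpa [ls, Fin.sum_univ_succ, h0] using k (some v)
    exact funext fun w => Fin.cases h0 (fun w => congrFun h1 w) w
  · obtain ⟨κ, h0⟩ := Submodule.mem_span_singleton.1 (k none)
    simp only [ls, Fin.sum_univ_succ, Fin.cons_zero, Fin.cons_succ, mul_one, mul_zero,
      sum_const_zero, add_zero] at h0
    obtain ⟨h1, h2⟩ := hr κ (fun w => c w.succ) (fun w => hc _)
      (fun t => (qs_iff Q _).1 (hq t)) fun v => by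
        have := k (some v)
        simp only [ls, Fin.sum_univ_succ, Fin.cons_zero, Fin.cons_succ, ← h0, smul_mul_assoc,
          one_mul] at this
        exact this
    refine funext fun w => Fin.cases ?_ (fun w => congrFun h2 w) w
    rw [← h0, h1, zero_smul]
    rfl

variable {ι : Type} [Fintype ι] {n r m : ℕ} [NeZero n] {T : Tb n} {B : Br n r} {t1 : ℤ}
  {L : Lp ι n} {R : ℝ}

theorem ana (A : L.Api R) (hB : B.Ok T t1) (hR : (B.t0 : ℝ) + 2 ≤ -R)
    (hT : T.Ok) (hm : 2 ≤ m) : ∃ ε1 : ℝ, 0 < ε1 ∧ ∀ v : Ix T.e m → ℝ, (∀ j, |v j - oneX j| ≤ ε1) →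
      AnalyticOnNhd ℝ (L.tv m v) B.I := by
  obtain ⟨C, hC, h⟩ := A.sz T.e m
  refine ⟨1 / (2 * C), by positivity, fun v hv t ht => ?_⟩
  have h1 : Ct fun j θ => Complex.log (L.ev (vP v) j θ) := fun j =>
    (A.cr _ j).clog fun θ hθ => by
      have e : v = fun i => oneX i + 1 * (v i - oneX i) := funext fun i => by ring
      have k := h (fun i => v i - oneX i) _ (by positivity) hv j θ hθ
      rw [e, A.lin, A.one _ _ hT.e0 hm]
      refine Complex.mem_slitPlane_of_norm_lt_one ?_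
      rw [Complex.ofReal_one, one_mul]
      refine k.trans_lt ?_
      rw [mul_one_div, div_lt_one (by positivity)]
      linarith
  have h2 : R < ‖(t : ℂ)‖ := by
    rw [Complex.norm_real, Real.norm_eq_abs]
    have := ht.2
    have := hB.rho.2
    exact lt_abs.2 (.inr (by linarith))
  have h3 := ((A.hol _ h1).analyticOnNhd (isOpen_lt continuous_const continuous_norm) _
    h2).restrictScalars (𝕜 := ℝ)
  exact ((Complex.imCLM.analyticAt _).comp
    (h3.comp_of_eq (Complex.ofRealCLM.analyticAt t) rfl)).neg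

theorem shape (hB : B.Ok T t1) (h : ∀ i, T.e i + 3 ≤ m) {ε0 : ℝ} (h0 : 0 < ε0)
    (x : Ix T.e m → ℝ) : ∀ᶠ e : ℝ in 𝓝 0, ∃ v : Sh T B m ε0, (v.1 = fun j => oneX j + e * x j) ∧
      ∀ w, ∀ t ∈ B.I, B.ev (vP v.1) w t = 1 + e * B.ev (vP x) w t := by
  have k : ∀ {a c : ℝ}, 0 < c → ∀ᶠ e : ℝ in 𝓝 0, |e| * a < c := fun {a c} hc =>
    (continuous_abs.mul continuous_const).continuousAt.eventually_lt continuousAt_const
      (by simpa using hc)
  filter_upwards [eventually_all.2 fun j => k (a := |x j|) h0, RSepB.shape hB h h0 x]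
    with e h1 ⟨u, hu⟩
  have k1 : ∀ w, ∀ t ∈ B.I, B.ev (vP fun j => oneX j + e * x j) w t = 1 + e * B.ev (vP x) w t :=
    fun w t ht => by
      have a := RSepB.ev_const (B := B) h (fun i => if (i : ℕ) = 0 then 1 else 0) w t
      have b : emb (B.Y w t) (fun i => if (i : ℕ) = 0 then 1 else 0) = 1 := by
        rw [emb, sum_eq_single 0 (fun j _ hj => by simp [hj]) fun k => absurd (mem_univ _) k]
        simp [((hB.em t ht).hom w).1]
      rw [← b, ← a]
      simp only [RSepB.ev_eq, oneX, mul_sum, ← sum_add_distrib, ← ite_and, and_comm]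
      refine sum_congr rfl fun i _ => sum_congr rfl fun j _ => ?_
      push_cast
      ring
  refine ⟨⟨fun j => oneX j + e * x j, fun j => ?_, fun w t ht => ?_⟩, rfl, k1⟩
  · rw [add_sub_cancel_left, abs_mul]
    exact (h1 j).le
  · rw [k1 w t ht, ← hu w t ht]
    exact u.2.2 w t ht

end EArH

open EArH in
theorem eArH : OfArH := by
  intro hLp hO hA hF hAb hD hS h1 h2 h3 ι _ n r _ T t1 B L R hn hT hB hL hR ι' cls hC hN
  have A := hLp ι n L R hL
  refine ⟨univ.sup T.e + 3, fun m hm ε0 hε => ?_⟩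
  have hm3 : ∀ i, T.e i + 3 ≤ m := fun i =>
    (Nat.add_le_add_right (le_sup (mem_univ i)) 3).trans hm
  obtain ⟨ε2, hε2, han⟩ := ana (m := m) A hB hR hT (by omega)
  have hε1 : 0 < min ε0 ε2 := lt_min hε hε2
  obtain ⟨l, F, hd⟩ := hD n r T t1 B m (min ε0 ε2) (by omega) hB
  have ha : ∀ v : Sh T B m (min ε0 ε2), AnalyticOnNhd ℝ (L.tv m v.1) B.I := fun v =>
    han v.1 fun j => (v.2.1 j).trans (min_le_right _ _)
  let τ : Sh T B m (min ε0 ε2) → CI B.t0 (B.t0 + B.ρ) := fun v =>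
    ⟨fun t => L.tv m v.1 t, (ha v).continuousOn.domRestrict⟩
  have hs0 := hS n r T t1 B ι' cls m _ l F hn hT hB (hO n r B R ι' cls hB.rho.1 hC) hm3 hε1 hd
  have hs1 := sep (τ := τ) hs0 (fun v => ⟨_, ha v, fun _ => rfl⟩) fun κ c hc hq h => by
    choose C a e using hc
    have q1 : Trq t1 B L C κ := h1 ι n r T t1 B L R hn hT hB hL hR m (n * m) C κ hm3 a fun x => by
      filter_upwards [shape hB hm3 hε1 x] with s ⟨v, hv0, hv⟩
      obtain ⟨P, hP, k⟩ := hd.der v _ (h v)
      refine ⟨P, hP, fun t ht => ?_⟩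
      rw [← hv0, ← k (fun u => ∑ w, C w u * Real.log ‖1 + s * B.ev (vP x) w u‖ + κ * L.tv m v.1 u)
        (fun u => ?_) t ht
        ((DifferentiableAt.fun_sum fun w _ => (a w t ht).differentiableAt.mul ?_).add
          ((ha v t ht).differentiableAt.const_mul κ))]
      · simp only [hv _ t ht]
      · simp only [ContinuousMap.add_apply, ContinuousMap.smul_apply, ContinuousMap.sum_apply,
          ContinuousMap.mul_apply, e, hd.val, hv _ _ u.2, smul_eq_mul]
        exact add_comm _ _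
      · have := hv w t ht ▸ v.2.2 w t ht
        exact ((((RSepB.ana hB x w t ht).differentiableAt.const_mul _).const_add 1).norm ℝ
          this).log (norm_ne_zero_iff.2 this)
    have q2 := h2 ι n r T t1 B L R hn hT hB hL hR ι' cls C κ hC (fun w => (a w).continuousOn)
      (fun t ht => by simpa only [e] using hq ⟨t, ht⟩) q1
    refine ⟨h3 ι n r T t1 B L R hn hT hB hL hR κ hN fun i => (q1 i).imp fun Q k t ht => ?_,
      funext fun w => ContinuousMap.ext fun t => (e w t).trans (q2 w t t.2)⟩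
    simpa only [q2 _ t ht] using k t ht
  obtain ⟨s, v, hs⟩ := hF _ _ _ _ _ _ _ _ hs1
  refine ⟨s, fun k => (v k).elim oneX fun u => u.1, fun k j => ?_, fun D => ?_⟩
  · beta_reduce
    cases v k with
    | none => simpa using hε.le
    | some u => exact (u.2.1 j).trans (min_le_left _ _)
  obtain ⟨J0, Λ, hΛ, h⟩ := hAb _ _ _ _ _ _ _ _ (hA _ _) hs D
  refine ⟨J0, Λ, hΛ, fun J hJ H _ σ t c f h4 h5 h6 h7 => ?_⟩
  have key : ∀ k, ∃ g ∈ Fs F (v k), ∀ h, (∑ w, (Fin.cons 1 (c h) : Fin (r + 1) → ℝ) w *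
      ls τ l (v k) w ⟨t h, (h4 h).2.1⟩ - g ⟨t h, (h4 h).2.1⟩) ^ 2 ≤
      (∑ w, c h w * Real.log ‖B.ev (vP ((v k).elim oneX fun u => u.1)) w (t h)‖ +
        L.tv m ((v k).elim oneX fun u => u.1) (t h) - f k (t h)) ^ 2 := fun k => by
    have h8 := h7 k
    beta_reduce at h8
    revert h8
    cases v k with
    | none =>
      refine fun _ => ⟨1, Submodule.mem_span_singleton_self _, fun h => ?_⟩
      simp [ls, Fin.sum_univ_succ, sq_nonneg]
    | some u =>
      intro h8
      obtain ⟨g, hg, e⟩ := hd.nc u (f k) h8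
      refine ⟨g, hg, fun h => le_of_eq ?_⟩
      simp only [ls, Fin.sum_univ_succ, Fin.cons_zero, Fin.cons_succ, hd.val, e, one_mul,
        Option.elim]
      rw [add_comm]
      rfl
  choose g h8 h9 using key
  have := h J hJ H σ (fun h => ⟨t h, (h4 h).2.1⟩) (fun h => Fin.cons 1 (c h)) g
    ⟨fun h => (h4 h).1, h5, h6⟩ (fun h => (qs_iff _ _).2 (funext fun w => by
      simpa [Qm, Matrix.mulVec, dotProduct, sum_filter] using (h4 h).2.2 (cls w))) h8
  refine le_trans (le_of_eq ?_) (this.trans (mul_le_mul_of_nonneg_left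
    (sum_le_sum fun k _ => sum_le_sum fun h _ =>
      mul_le_mul_of_nonneg_left (h9 k h) (h4 h).1) hΛ.le))
  simp only [Fin.sum_univ_succ, Fin.cons_zero, Fin.cons_succ, one_pow, mul_add, mul_one,
    sum_add_distrib, h5]

end Pool.Agent.MP_f3836a_nt.GV.T
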