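import Pool.Agent.MP_f3836a_nt.RG.SpecE
import Pool.Agent.MP_f3836a_nt.GV.RBr

/-! The rank of a model, and the branches near infinity. -/

set_option autoImplicit false

namespace Pool.Agent.MP_f3836a_nt.GV.T

open Polynomial Finset Filter Topology NumberField VE
open scoped ComplexConjugate

theorem eCnt : OfCnt := by
  intro hA hY hO K 𝒜 _ _ _ _ _ S μ n _ T y N r h
  have : NeZero N := ⟨by have := h.nx; omega⟩
  let _ : Algebra (𝓞 K)[X] 𝒜 := (aeval (algebraMap ℤ[X] 𝒜 X)).toRingHom.toAlgebra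
  have : IsScalarTower (𝓞 K) (𝓞 K)[X] 𝒜 :=
    IsScalarTower.of_algebraMap_eq fun a => (aeval_C _ a).symm
  have ex : algebraMap ℤ[X] 𝒜 X = algebraMap (𝓞 K)[X] 𝒜 X := (aeval_X _).symm
  obtain ⟨d, η, -⟩ := hA.get h.fm (ex ▸ h.mo)
  obtain ⟨⟨s, ω, -, hs⟩, -⟩ := hO K
  obtain ⟨y', -⟩ := hY _ 𝒜 (s + 1) N _ ω η finProdFinEquiv.symm ex
  have e := Fintype.card_congr (y.indexEquiv y')
  rw [Fintype.card_fin, Fintype.card_fin, hs, mul_comm] at e
  exact e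

namespace EBrH

/-- the radius which belongs to the abscissa `t` -/
noncomputable def rr (N : ℕ) (t : ℝ) : ℝ := Real.exp (-Real.log (-t) / N)

variable {N : ℕ}

theorem rr_pos (t : ℝ) : 0 < rr N t := Real.exp_pos _

theorem rr_pow (hN : N ≠ 0) {t : ℝ} (ht : t < 0) : rr N t ^ N = (-t)⁻¹ := by
  rw [rr, ← Real.exp_nat_mul, mul_div_cancel₀ _ (Nat.cast_ne_zero.2 hN), Real.exp_neg,
    Real.exp_log (neg_pos.2 ht)]

theorem rr_lt (hN : N ≠ 0) {s t : ℝ} (h : s < t) (ht : t < 0) : rr N s < rr N t :=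
  Real.exp_lt_exp.2 (div_lt_div_of_pos_right
    (neg_lt_neg (Real.log_lt_log (neg_pos.2 ht) (neg_lt_neg h))) (by positivity))

theorem rr_le (hN : N ≠ 0) {s t : ℝ} (h : s ≤ t) (ht : t < 0) : rr N s ≤ rr N t :=
  h.eq_or_lt.elim (fun e => by rw [e]) fun e => (rr_lt hN e ht).le

theorem rr_ana {t : ℝ} (ht : t < 0) : AnalyticAt ℝ (rr N) t := by
  have h1 : AnalyticAt ℝ (fun s : ℝ => Real.log (-s)) t :=
    (analyticAt_id.neg : AnalyticAt ℝ (fun s : ℝ => -s) t).log (neg_pos.2 ht)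
  exact (h1.neg.div_const (c := (N : ℝ))).rexp

theorem rr_small (hN : N ≠ 0) {δ t : ℝ} (hδ : 0 < δ) (ht : t < -(δ ^ N)⁻¹) : rr N t < δ := by
  have h0 : 0 < (δ ^ N)⁻¹ := by positivity
  refine lt_of_pow_lt_pow_left₀ N hδ.le ?_
  rw [rr_pow hN (by linarith)]
  exact inv_lt_of_inv_lt₀ (by positivity) (by linarith)

theorem pow_ray (hN : N ≠ 0) {ζ : ℂ} (hζ : ζ ^ N = -1) {t : ℝ} (ht : t < 0) :
    ((ζ * rr N t) ^ N)⁻¹ = t := by
  rw [mul_pow, hζ, ← Complex.ofReal_pow, rr_pow hN ht]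
  simp

theorem mem_ray (hN : N ≠ 0) {ζ : ℂ} (hζ : ζ ^ N = -1) {ρ δ : ℝ} (h0 : 0 < ρ) (h1 : ρ < δ) :
    ζ * ρ ∈ pD δ := by
  have e : ‖ζ‖ = 1 := by
    have := congrArg norm hζ
    rw [norm_pow, norm_neg, norm_one] at this
    exact (pow_eq_one_iff_of_nonneg (norm_nonneg _) hN).1 this
  refine ⟨mul_ne_zero (fun h => by simp [h] at e) (Complex.ofReal_ne_zero.2 h0.ne'), ?_⟩
  rwa [norm_mul, e, one_mul, Complex.norm_real, Real.norm_of_nonneg h0.le]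

theorem pD_open (δ : ℝ) : IsOpen (pD δ) :=
  isOpen_ne.inter (isOpen_lt continuous_norm continuous_const)

theorem pD_mono {δ δ' : ℝ} (h : δ ≤ δ') : pD δ ⊆ pD δ' := fun _ hs => ⟨hs.1, hs.2.trans_le h⟩

theorem roots (hN : Odd N) : ∃ ζ : Fin N → ℂ, ζ.Injective ∧ (∀ j, ζ j ^ N = -1) ∧
    ∀ z : ℂ, z ^ N = -1 → ∃ j, ζ j = z := by
  have : NeZero N := ⟨hN.pos.ne'⟩
  have h := Complex.isPrimitiveRoot_exp N hN.pos.ne'
  refine ⟨fun j => -Complex.exp (2 * Real.pi * Complex.I / N) ^ (j : ℕ), fun i j e =>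
    Fin.ext (h.pow_inj i.2 j.2 (neg_injective e)), fun j => ?_, fun z hz => ?_⟩
  · rw [hN.neg_pow, ← pow_mul, Nat.mul_comm, pow_mul, h.pow_eq_one, one_pow]
  · obtain ⟨j, hj, e⟩ := h.eq_pow_of_pow_eq_one (ξ := -z) (by rw [hN.neg_pow, hz, neg_neg])
    exact ⟨⟨j, hj⟩, by simp only [e, neg_neg]⟩

theorem far {R δ : ℝ} (hN : N ≠ 0) (h1 : δ ≤ 1) (h2 : δ * (|R| + 1) ≤ 1) {s : ℂ}
    (hs : s ∈ pD δ) : R < ‖(s ^ N)⁻¹‖ := by
  have s0 : 0 < ‖s‖ := norm_pos_iff.2 hs.1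
  have e1 : ‖s‖ ^ N ≤ ‖s‖ := pow_le_of_le_one s0.le (hs.2.le.trans h1) hN
  have e2 : 0 < ‖s‖ ^ N := by positivity
  rw [norm_inv, norm_pow, inv_eq_one_div, lt_div_iff₀ e2]
  nlinarith [le_abs_self R, abs_nonneg R, hs.2]

/-- distinct homomorphisms in the right number give independent columns -/
theorem cols {𝒜 κ : Type} [CommRing 𝒜] [Fintype κ] {n : ℕ} (hκ : Fintype.card κ = n)
    {ψ : κ → 𝒜 →+* ℂ} (hψ : ψ.Injective) (y : Fin n → 𝒜) (c : 𝒜 → Fin n → ℂ)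
    (hc : ∀ x g, ψ x g = ∑ i, c g i * ψ x (y i)) (β : Fin n → ℂ)
    (hβ : ∀ x, ∑ i, β i * ψ x (y i) = 0) : β = 0 := by
  have l1 := (linearIndependent_monoidHom 𝒜 ℂ).comp (fun x => (ψ x : 𝒜 →* ℂ))
    fun x x' e => hψ (RingHom.coe_monoidHom_injective e)
  have l2 : LinearIndependent ℂ fun x i => ψ x (y i) := by
    refine Fintype.linearIndependent_iff.2 fun a ha => Fintype.linearIndependent_iff.1 l1 a ?_
    funext g
    have e : ∀ i, ∑ x, a x * ψ x (y i) = 0 := fun i => by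
      simpa [Finset.sum_apply] using congrFun ha i
    have e2 : ∑ x, a x * ψ x g = ∑ i, c g i * ∑ x, a x * ψ x (y i) := by
      simp only [mul_sum]
      rw [sum_comm]
      refine sum_congr rfl fun x _ => ?_
      rw [hc x g, mul_sum]
      exact sum_congr rfl fun i _ => mul_left_comm _ _ _
    simpa [Finset.sum_apply, e] using e2
  have l3 := l2.span_eq_top_of_card_eq_finrank' (by simp [hκ])
  funext i
  obtain ⟨a, ha⟩ := (Submodule.mem_span_range_iff_exists_fun ℂ).1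
    (l3 ▸ Submodule.mem_top : (Pi.single i 1 : Fin n → ℂ) ∈ _)
  have e : ∀ j, ∑ x, a x * ψ x (y j) = (Pi.single i 1 : Fin n → ℂ) j := fun j => by
    simpa [Finset.sum_apply] using congrFun ha j
  have e2 : ∑ j, β j * ∑ x, a x * ψ x (y j) = ∑ x, a x * ∑ j, β j * ψ x (y j) := by
    simp only [mul_sum]
    rw [sum_comm]
    exact sum_congr rfl fun x _ => sum_congr rfl fun j _ => mul_left_comm _ _ _
  simpa [e, hβ, Pi.single_apply] using e2

theorem totally {K : Type} [Field K] (h : ∃ i : K, i ^ 2 = -1) : IsTotallyComplex K := by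
  obtain ⟨i, hi⟩ := h
  refine ⟨fun v => InfinitePlace.not_isReal_iff_isComplex.1 fun hv => ?_⟩
  have := congrArg (InfinitePlace.embedding_of_isReal hv) hi
  rw [map_pow, map_neg, map_one] at this
  nlinarith [sq_nonneg (InfinitePlace.embedding_of_isReal hv i)]

end EBrH

open EBrH in
theorem eBrH : OfBrH := by
  intro hMd hCn hCH hRay K 𝒜 _ _ _ _ _ S μ n _ T y N r t1 R h hN hi
  have N0 : N ≠ 0 := hN.pos.ne'
  have := totally hi
  obtain ⟨-, -, -, -, -, -, -, hev⟩ := hMd K 𝒜 S μ n T y N r h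
  have hc : Fintype.card (Fin r) = Fintype.card (InfinitePlace K × Fin N) := by
    have e1 : n = N * Module.finrank ℚ K := hCn K 𝒜 S μ n T y N r h
    have e2 := h.two
    rw [IsTotallyComplex.finrank] at e1
    rw [Fintype.card_prod, Fintype.card_fin, Fintype.card_fin,
      InfinitePlace.card_eq_nrRealPlaces_add_nrComplexPlaces,
      IsTotallyComplex.nrRealPlaces_eq_zero, zero_add]
    nlinarith
  let ε := Fintype.equivOfCardEq hc
  obtain ⟨ζ, z1, z2, z3⟩ := roots hN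
  choose δ φ d0 d1 d2 d3 using fun v : InfinitePlace K =>
    hCH (𝓞 K) 𝒜 S μ N _ (v.embedding.comp (algebraMap (𝓞 K) K)) h.fm h.mo h.nx
  obtain ⟨δ0, ⟨⟨e1, e2⟩, e3⟩, e0⟩ : ∃ δ0 : ℝ,
      (((∀ v, δ0 ≤ δ v) ∧ δ0 ≤ 1) ∧ δ0 ≤ (|R| + 1)⁻¹) ∧ δ0 ∈ Set.Ioi 0 :=
    ((((eventually_all.2 fun v => eventually_le_nhds (d0 v)).and
      (eventually_le_nhds one_pos)).and (eventually_le_nhds (by positivity))).filter_mono
      (nhdsWithin_le_nhds (s := Set.Ioi 0)) |>.and self_mem_nhdsWithin).exists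
  have e4 : δ0 * (|R| + 1) ≤ 1 := by
    rwa [inv_eq_one_div, le_div_iff₀ (by positivity)] at e3
  have e5 : 0 < (δ0 ^ N)⁻¹ := inv_pos.2 (pow_pos e0 N)
  obtain ⟨t0, a1, a2, a3⟩ : ∃ t0 : ℤ, t0 + 1 + 2 * n ≤ t1 ∧ (t0 : ℝ) + 2 ≤ -R ∧
      (t0 : ℝ) + 1 < -(δ0 ^ N)⁻¹ := by
    refine ⟨min (t1 - 1 - 2 * n) ⌊min (-R) (-(δ0 ^ N)⁻¹) - 2⌋, ?_, ?_, ?_⟩
    · linarith [min_le_left (t1 - 1 - 2 * n) ⌊min (-R) (-(δ0 ^ N)⁻¹) - 2⌋]
    all_goals
      have b1 : ((min (t1 - 1 - 2 * n) ⌊min (-R) (-(δ0 ^ N)⁻¹) - 2⌋ : ℤ) : ℝ) ≤ _ :=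
        (Int.cast_le.2 (min_le_right _ _)).trans (Int.floor_le _)
      linarith [min_le_left (-R) (-(δ0 ^ N)⁻¹), min_le_right (-R) (-(δ0 ^ N)⁻¹)]
  let I : Set ℝ := Set.Icc (t0 : ℝ) (t0 + 1)
  have i0 : ∀ t ∈ I, t < 0 := fun t ht => by linarith [ht.2]
  have i1 : ∀ t ∈ I, ∀ j, ζ j * rr N t ∈ pD δ0 := fun t ht j =>
    mem_ray N0 (z2 j) (rr_pos t) (rr_small N0 e0 (ht.2.trans_lt a3))
  let ψ : Fin r → ℝ → 𝒜 →+* ℂ := fun w t => φ (ε w).1 (ζ (ε w).2 * rr N t)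
  have p1 : ∀ w, ∀ t ∈ I, ψ w t (algebraMap ℤ[X] 𝒜 X) = t := fun w t ht =>
    (d1 _ _ (pD_mono (e1 _) (i1 t ht _))).1.trans (pow_ray N0 (z2 _) (i0 t ht))
  have p2 : ∀ w, ∀ t ∈ I, ∀ a : 𝓞 K, ψ w t (algebraMap (𝓞 K) 𝒜 a) = (ε w).1.embedding a :=
    fun w t ht a => (d1 _ _ (pD_mono (e1 _) (i1 t ht _))).2 a
  refine ⟨⟨t0, 1, fun w t i => ψ w t (y i)⟩, fun w => (ε w).1.embedding,
    ⟨⟨one_pos, le_rfl⟩, a1, fun t ht => ?_, fun w i t ht => ?_⟩, a2, fun w t ht a => ?_, ?_⟩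
  · let χ : Fin r ⊕ Fin r → 𝒜 →+* ℂ :=
      Sum.elim (fun w => ψ w t) fun w => (starRingEnd ℂ).comp (ψ w t)
    have c1 : ∀ x, χ x (algebraMap ℤ[X] 𝒜 X) = t := by
      rintro (w | w)
      · exact p1 w t ht
      · exact (congrArg conj (p1 w t ht)).trans (Complex.conj_ofReal t)
    have c2 : ∀ w w', ψ w t = ψ w' t → w = w' := fun w w' e => by
      have f1 : (ε w).1 = (ε w').1 := InfinitePlace.embedding_injective K
        (IsFractionRing.ringHom_ext (A := 𝓞 K) fun a => by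
          exact (p2 w t ht a).symm.trans (e ▸ p2 w' t ht a))
      have f2 := d3 (ε w).1 (pD_mono (e1 _) (i1 t ht (ε w).2))
        (pD_mono (e1 _) (i1 t ht (ε w').2)) (e.trans (by simp only [ψ, f1]))
      exact ε.injective (Prod.ext f1 (z1 (mul_right_cancel₀
        (Complex.ofReal_ne_zero.2 (rr_pos t).ne') f2)))
    have c3 : ∀ w w', ψ w t ≠ (starRingEnd ℂ).comp (ψ w' t) := fun w w' e => by
      have f1 : (ε w).1.embedding = ComplexEmbedding.conjugate (ε w').1.embedding :=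
        IsFractionRing.ringHom_ext (A := 𝓞 K) fun a =>
          (p2 w t ht a).symm.trans ((RingHom.congr_fun e _).trans (congrArg conj (p2 w' t ht a)))
      have f2 : (ε w).1 = (ε w').1 := by simpa using congrArg InfinitePlace.mk f1
      rw [f2] at f1
      exact IsTotallyComplex.complexEmbedding_not_isReal _ (ComplexEmbedding.isReal_iff.2 f1.symm)
    have c4 : χ.Injective := by
      rintro (w | w) (w' | w') e
      · exact congrArg _ (c2 _ _ e)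
      · exact absurd e (c3 _ _)
      · exact absurd e.symm (c3 _ _)
      · exact congrArg _ (c2 _ _ (RingHom.ext fun g =>
          (starRingEnd ℂ).injective (RingHom.congr_fun e g)))
    refine GV.R.RBr.em h.two (fun w => ?_) fun β hβ => cols (by simp [h.two, two_mul]) c4 y
      (fun g i => aeval (t : ℂ) (y.repr g i)) (fun x g => c1 x ▸ (hev ℂ (χ x)).2.1 g) β ?_
    · have f1 := (hev ℂ (ψ w t)).1
      rw [p1 w t ht] at f1
      have f2 : (fun i => (T.fib t i).map Complex.ofReal) = T.fib (t : ℂ) :=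
        funext fun i => Matrix.ext fun l j => (aeval_algebraMap_apply ℂ t (T.M i l j)).symm
      exact f2 ▸ f1
    · rintro (w | w)
      exacts [hβ (.inl w), hβ (.inr w)]
  · have f1 := ((d2 (ε w).1 (y i)).analyticAt ((pD_open _).mem_nhds
      (pD_mono (e1 _) (i1 t ht (ε w).2)))).restrictScalars (𝕜 := ℝ)
    have f2 : AnalyticAt ℝ (fun s : ℝ => ζ (ε w).2 * (rr N s : ℂ)) t :=
      analyticAt_const.mul ((Complex.ofRealCLM.analyticAt _).comp (rr_ana (i0 t ht)))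
    exact AnalyticAt.comp (f := fun s : ℝ => ζ (ε w).2 * (rr N s : ℂ)) f1 f2
  · refine Eq.trans ?_ (p2 w t ht a)
    rw [(hev ℂ (ψ w t)).2.1, p1 w t ht]
    unfold Br.ev emb
    exact sum_congr rfl fun i _ => congrArg (· * ψ w t (y i))
      (aeval_algebraMap_apply ℂ t (y.repr (algebraMap (𝓞 K) 𝒜 a) i)).symm
  · intro Γ γ hΓ hγ w w' hw t ht
    have f1 : (ε w).1 = (ε w').1 := by simpa using hw
    let H : ℂ → ℂ := fun s => ∑ i, Γ i (s ^ N)⁻¹ * φ (ε w).1 s (y i)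
    have g1 : DifferentiableOn ℂ H (pD δ0) := DifferentiableOn.fun_sum fun i _ =>
      ((hΓ i).comp ((differentiableOn_id.pow N).inv fun s hs => pow_ne_zero _ hs.1)
        fun s hs => far N0 e2 e4 hs).mul ((d2 _ _).mono (pD_mono (e1 _)))
    have g2 : ∀ u, (ε u).1 = (ε w).1 → ∀ s ∈ I, H (ζ (ε u).2 * rr N s) = γ u s :=
      fun u hu s hs => by
        rw [← hγ u s hs]
        simp only [H, ψ, pow_ray N0 (z2 _) (i0 s hs), hu]
    have l0 : (t0 : ℝ) + 1 < 0 := by linarith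
    have g3 := hRay H δ0 (rr N t0) (rr N (t0 + 1)) N hN (rr_pos _) (rr_lt N0 (lt_add_one _) l0)
      (rr_small N0 e0 a3) g1 (fun z hz ρ hρ => by
        obtain ⟨j, rfl⟩ := z3 z hz
        obtain ⟨s, hs, rfl⟩ := intermediate_value_Icc (lt_add_one (t0 : ℝ)).le
          (fun s hs => (rr_ana (i0 s hs)).continuousAt.continuousWithinAt) hρ
        have := g2 (ε.symm ((ε w).1, j)) (by simp) s hs
        rw [Equiv.apply_symm_apply] at this
        rw [this, Complex.ofReal_im]) _ _ (z2 (ε w).2) (z2 (ε w').2) (rr N t)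
      ⟨rr_le N0 ht.1 (i0 t ht), rr_le N0 ht.2 l0⟩
    rw [g2 w rfl t ht, g2 w' f1.symm t ht] at g3
    exact Complex.ofReal_injective g3

end Pool.Agent.MP_f3836a_nt.GV.T
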