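import Pool.Agent.MP_f3836a_nt.RG.SpecE
import Pool.Agent.MP_f3836a_nt.GV.RBr
import Pool.Agent.MP_f3836a_nt.GV.GMFm

/-! Analytic branches over a complex parameter and the chart at infinity. -/

set_option autoImplicit false

namespace Pool.Agent.MP_f3836a_nt.GV.T

open Polynomial Finset Filter Topology
open scoped Matrix ContDiff

namespace EChs

/-- a simple normalised eigenvector moves analytically -/
theorem brn {n : ℕ} (Θ : Matrix (Fin n) (Fin n) ℂ[X]) (c s0 : Fin n → ℂ) (t0 : ℂ)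
    (h0 : s0 ᵥ* Θ.map (eval t0) = (∑ i, c i * s0 i) • s0)
    (h1 : ∀ v : Fin n → ℂ, v ᵥ* Θ.map (eval t0) =
      (∑ i, c i * v i) • s0 + (∑ i, c i * s0 i) • v → v = 0) :
    ∃ Y : ℂ → Fin n → ℂ, Y t0 = s0 ∧ AnalyticAt ℂ Y t0 ∧
      ∀ᶠ t in 𝓝 t0, Y t ᵥ* Θ.map (eval t) = (∑ i, c i * Y t i) • Y t := by
  let f : ℂ × (Fin n → ℂ) → Fin n → ℂ := fun p =>
    p.2 ᵥ* Θ.map (eval p.1) - (∑ i, c i * p.2 i) • p.2
  have hf : ContDiffAt ℂ ω f (t0, s0) := by
    refine ContDiff.contDiffAt (ContDiff.sub (contDiff_pi.2 fun j => ?_) (by fun_prop))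
    simp only [Matrix.vecMul, dotProduct, Matrix.map_apply]
    exact ContDiff.sum fun i _ => ContDiff.mul (by fun_prop)
      ((contDiff_aeval (𝕜 := ℂ) (Θ i j) ω).comp contDiff_fst)
  let A : (Fin n → ℂ) →L[ℂ] Fin n → ℂ :=
    LinearMap.toContinuousLinearMap (Θ.map (eval t0)).vecMulLinear
  let l : (Fin n → ℂ) →L[ℂ] ℂ := ∑ i, c i • ContinuousLinearMap.proj i
  have hl : ∀ v, l v = ∑ i, c i * v i := fun v => by simp [l]
  have d1 := A.hasFDerivAt.sub (l.hasFDerivAt.smul (hasFDerivAt_id s0))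
  have d2 := (hf.differentiableAt (by simp)).hasFDerivAt.comp s0
    (hasFDerivAt_prodMk_right t0 s0)
  have e := d2.unique (d1.congr_of_eventuallyEq (.of_forall fun v => by simp [f, A, hl]))
  have hi : Function.Injective (fderiv ℂ f (t0, s0) ∘L .inr ℂ ℂ (Fin n → ℂ)).toLinearMap := by
    rw [e, injective_iff_map_eq_zero]
    intro v hv
    refine h1 v (sub_eq_zero.1 ?_)
    simpa [A, hl, add_comm] using hv
  have hI : (fderiv ℂ f (t0, s0) ∘L .inr ℂ ℂ (Fin n → ℂ)).IsInvertible :=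
    ⟨(LinearEquiv.ofInjectiveEndo _ hi).toContinuousLinearEquiv, rfl⟩
  refine ⟨fun t => hf.implicitFunction (by simp) hI t, hf.implicitFunction_apply_self _ hI,
    (hf.contDiffAt_implicitFunction (by simp) hI).analyticAt, ?_⟩
  filter_upwards [hf.eventually_apply_implicitFunction (by simp) hI] with t ht
  exact sub_eq_zero.1 (ht.trans (sub_eq_zero.2 h0))

theorem surj {n : ℕ} {P : Fin n → Fin n → ℂ} (h : Bs P) (z : Fin n → ℂ) :
    ∃ c : Fin n → ℂ, ∀ k, ∑ i, c i * P k i = z k := by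
  have hi : Function.Injective (Matrix.of P).mulVecLin := (injective_iff_map_eq_zero _).2
    fun β e => h β fun k => by
      simpa [Matrix.mulVec, dotProduct, mul_comm] using congrFun e k
  obtain ⟨c, e⟩ := LinearMap.injective_iff_surjective.1 hi z
  exact ⟨c, fun k => by simpa [Matrix.mulVec, dotProduct, mul_comm] using congrFun e k⟩

end EChs

theorem eBrc : BRC := by
  intro n _ M s0 P hP hB
  obtain ⟨c, hc⟩ := EChs.surj hB fun k => ((k + 1 : ℕ) : ℂ)
  have hκ : Fintype.card (Fin n) = n := Fintype.card_fin n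
  have l1 : Function.Injective fun k => ∑ i, c i * P k i := fun x y e => by
    simp only [hc, Nat.cast_inj] at e
    exact Fin.ext (by omega)
  have l2 : ∀ k, ∑ i, c i * P k i ≠ 0 := fun k => by
    rw [hc]; exact Nat.cast_ne_zero.2 (by omega)
  have hΘ : ∀ t : ℂ, (Mx M fun i => C (c i)).map (eval t) = Mx (tA M t) c := fun t => by
    refine (Mx_map (evalRingHom t) _ _).trans ?_
    congr 1
    ext i
    exact eval_C
  have key := fun k => EChs.brn _ c (P k) s0 ((hΘ s0).symm ▸ (hP k).vecMul c) fun v hv => by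
    rw [hΘ] at hv
    obtain ⟨a, rfl⟩ := R.RBr.eig hκ hB (fun x => (hP x).vecMul c) l1 (x := k) hv
    have e : (∑ i, c i * (a • P k) i) = (∑ i, c i * P k i) * a := by
      simp [mul_sum, mul_left_comm, mul_comm]
    rw [Matrix.smul_vecMul, (hP k).vecMul, smul_comm, e, mul_smul] at hv
    exact (smul_eq_zero.1 (right_eq_add.1 hv)).resolve_left (l2 k)
  choose Y y0 y1 y2 using key
  refine ⟨Y, fun k => ⟨y0 k, y1 k⟩, ?_⟩
  obtain rfl : P = fun k => Y k s0 := funext fun k => (y0 k).symm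
  have ct : ∀ x i, ContinuousAt (fun t => Y x t i) s0 := fun x i =>
    continuousAt_pi.1 (y1 x).continuousAt i
  have ce : ∀ x, ContinuousAt (fun t => ∑ i, c i * Y x t i) s0 := fun x =>
    tendsto_finsetSum _ fun i _ => (ct x i).const_mul _
  filter_upwards [eventually_all.2 y2, eventually_all.2 fun x => (ce x).eventually_ne (l2 x),
    eventually_all.2 fun x => eventually_all.2 fun y => eventually_imp_distrib_left.2
      fun e : x ≠ y => ((ce x).sub (ce y)).eventually_ne (sub_ne_zero.2 (l1.ne e)),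
    (continuousAt_pi.2 fun i => continuousAt_pi.2 fun x => ct x i).eventually
      (R.RBr.cols.1 hB).eventually] with t a1 a3 a4 a5
  rw [hΘ] at a1
  have b5 : Bs fun k => Y k t := R.RBr.cols.2 a5
  have b4 : Function.Injective fun k => ∑ i, c i * Y k t i := fun x y e =>
    by_contra fun e' => a4 x y e' (sub_eq_zero.2 e)
  refine ⟨b5, fun rng => ?_⟩
  have one : ∀ k, Y k t 0 = 1 := fun k => by
    refine mul_left_cancel₀ (a3 k) ((congrFun (a1 k) 0).symm.trans ?_)
    simp [Matrix.vecMul, dotProduct, Mx, Matrix.sum_apply, rng.col0, mul_comm]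
  refine ⟨fun k => hm_of_eig rng (one k) fun i => R.RBr.eig hκ b5 a1 b4 (x := k) (b := 0) ?_,
    fun u hu => ?_⟩
  · rw [Matrix.vecMul_vecMul, rng.comm_Mx, ← Matrix.vecMul_vecMul, a1, Matrix.smul_vecMul,
      zero_smul, zero_add]
  · have hv := hu.vecMul c
    obtain ⟨k, hk⟩ : ∃ k, ∑ i, c i * Y k t i = ∑ i, c i * u i := by
      by_contra! hne
      generalize ∑ i, c i * u i = lam at hv hne
      obtain ⟨a, rfl⟩ := eig_span hκ b5 u
      have h1 := Fintype.linearIndependent_iff.1 (R.RBr.li hκ b5)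
        (fun y => a y * (∑ i, c i * Y y t i) - lam * a y) (by
          simp only [Matrix.sum_vecMul, Matrix.smul_vecMul, a1, smul_sum] at hv
          simp [sub_smul, mul_smul, hv])
      have h2 : ∀ y, a y = 0 := fun y => by
        have := h1 y
        rw [mul_comm, ← sub_mul, mul_eq_zero, sub_eq_zero] at this
        exact this.resolve_left (hne y)
      simpa [h2] using hu.1
    obtain ⟨a, e⟩ := R.RBr.eig hκ b5 a1 b4 (x := k) (v := u) (b := 0)
      (by rw [zero_smul, zero_add, hv, hk])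
    have e0 := congrFun e 0
    rw [hu.1, Pi.smul_apply, one, smul_eq_mul, mul_one] at e0
    exact ⟨k, by rw [e, ← e0, one_smul]⟩

namespace EChs

/-- rescaling of the basis -/
theorem rng_scale {n : ℕ} [NeZero n] {T T' : Tab ℂ n} (h : Rng T) {w : Fin n → ℂ}
    (hw : ∀ i, w i ≠ 0) (h0 : w 0 = 1) (e : ∀ i l j, w l * T' i l j = w i * w j * T i l j) :
    Rng T' := by
  obtain ⟨A, _, _, y, y0, hM⟩ := h
  refine ⟨A, inferInstance, inferInstance, y.unitsSMul fun i => Units.mk0 (w i) (hw i),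
    by rw [Module.Basis.unitsSMul_apply, Units.smul_def, Units.val_mk0, h0, y0, one_smul],
    fun i => ?_⟩
  ext l j
  refine mul_left_cancel₀ (hw l) ?_
  rw [e, hM]
  simp only [Algebra.leftMulMatrix_eq_repr_mul, Module.Basis.repr_unitsSMul,
    Module.Basis.unitsSMul_apply, Units.smul_def, smul_mul_smul_comm, map_smul, Finsupp.smul_apply,
    smul_eq_mul, Units.val_mk0, Units.val_inv_eq_inv_val]
  rw [mul_left_comm (w l), mul_inv_cancel_left₀ (hw l)]

theorem hm_scale {n : ℕ} [NeZero n] {T T' : Tab ℂ n} {w Y : Fin n → ℂ} (h : Hm T' Y)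
    (hw : ∀ i, w i ≠ 0) (h0 : w 0 = 1) (e : ∀ i l j, w l * T' i l j = w i * w j * T i l j) :
    Hm T fun i => (w i)⁻¹ * Y i := by
  refine ⟨by simp [h0, h.1], fun i j => ?_⟩
  rw [mul_mul_mul_comm, h.2, mul_sum]
  refine sum_congr rfl fun l _ => ?_
  have := e i l j
  have h1 := hw i
  have h2 := hw j
  have h3 := hw l
  field_simp
  linear_combination Y l * this

variable {A 𝒜 : Type} [CommRing A] [CommRing 𝒜] [Algebra A 𝒜] [Algebra A[X] 𝒜]
  {S : AddSubmonoid ℕ} {μ : Module.Basis S A 𝒜} {N : ℕ} [NeZero N] {d : Fin N → ℕ}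
  {η : Module.Basis (Fin N) A[X] 𝒜}

/-- the rescaled table -/
noncomputable def tb (d : Fin N → ℕ) (η : Module.Basis (Fin N) A[X] 𝒜) (σ : A →+* ℂ) :
    Tab ℂ[X] N := fun i => Matrix.of fun l j => ∑ k ∈ (η.repr (η i * η j) l).support,
      C (σ ((η.repr (η i * η j) l).coeff k)) * X ^ (d i + d j - (N * k + d l))

theorem le (hμ : FM μ) (h : M.Ap μ d η) {i j l : Fin N} {k : ℕ}
    (hk : k ∈ (η.repr (η i * η j) l).support) : N * k + d l ≤ d i + d j := by
  by_contra hn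
  exact mem_support_iff.1 hk ((h.lo ⊥ (d i + d j + 1) _).1
    ((M.mFm _ _ _ _ hμ).mul _ _ _ _ (h.mo i) (h.mo j)).2 l k (by omega))

theorem tb_ne (hμ : FM μ) (h : M.Ap μ d η) (σ : A →+* ℂ) {s : ℂ} (hs : s ≠ 0) (i l j : Fin N) :
    s ^ d l * tA (tb d η σ) s i l j = s ^ d i * s ^ d j *
      (Algebra.leftMulMatrix η (η i)).map (eval₂RingHom σ (s ^ N)⁻¹) l j := by
  simp only [tA, tb, Matrix.map_apply, Matrix.of_apply, Algebra.leftMulMatrix_eq_repr_mul,
    coe_eval₂RingHom, eval₂_eq_sum, Polynomial.sum, eval_finsetSum, eval_mul, eval_C, eval_pow,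
    eval_X, mul_sum]
  refine sum_congr rfl fun k hk => ?_
  have e : s ^ d i * s ^ d j = s ^ (d i + d j - (N * k + d l)) * (s ^ N) ^ k * s ^ d l := by
    rw [← pow_mul, ← pow_add, ← pow_add, ← pow_add]
    congr 1
    have := le hμ h hk
    omega
  rw [e, inv_pow]
  field_simp

theorem tb_zero (hμ : FM μ) (h : M.Ap μ d η) (σ : A →+* ℂ) (i l j : Fin N) :
    tA (tb d η σ) 0 i l j = if l = i + j then 1 else 0 := by
  have hm := (M.mFm _ _ _ _ hμ).mul _ _ _ _ (h.mo i) (h.mo j)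
  have md : ∀ k l, N * k + d l = d i + d j → l = i + j := fun k l e => by
    refine Fin.ext ?_
    rw [Fin.val_add, ← h.md i, ← h.md j, ← Nat.add_mod, ← e, Nat.mul_add_mod, h.md]
  simp only [tA, tb, Matrix.map_apply, Matrix.of_apply, eval_finsetSum, eval_mul, eval_C, eval_pow,
    eval_X]
  split_ifs with hl
  · obtain ⟨⟨hS, e1⟩, e2⟩ := hm
    obtain ⟨l', k, e⟩ := (h.mem _).1 hS
    obtain rfl : l' = l := (md k l' e.symm).trans hl.symm
    have e3 : (η.repr (η i * η j) l').coeff k = 1 := by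
      rw [← h.top l' k _ (e ▸ hS) (e ▸ e2), ← e1]
      congr 2
      exact e.symm
    rw [sum_eq_single k]
    · rw [e3, e]; simp
    · intro k' hk' hne
      have := le hμ h hk'
      have h2 : N * k' ≠ N * k := fun e' => hne (Nat.eq_of_mul_eq_mul_left (NeZero.pos N) e')
      rw [zero_pow (by omega), mul_zero]
    · intro hk
      rw [← e3, notMem_support_iff.1 hk] at *
      simp
  · refine sum_eq_zero fun k hk => ?_
    have := le hμ h hk
    have h2 : N * k + d l ≠ d i + d j := fun e => hl (md k l e)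
    rw [zero_pow (by omega), mul_zero]

theorem core (hB : BRC) (hμ : FM μ) (h : M.Ap μ d η) (σ : A →+* ℂ) (hN : 2 ≤ N) :
    ∃ (δ : ℝ) (φ : ℂ → 𝒜 →+* ℂ), 0 < δ ∧
      (∀ s ∈ pD δ, ∀ p, φ s (algebraMap A[X] 𝒜 p) = eval₂ σ (s ^ N)⁻¹ p) ∧
      (∀ u, DifferentiableOn ℂ (fun s => φ s u) (pD δ)) ∧ Set.InjOn φ (pD δ) := by
  have hζ := Complex.isPrimitiveRoot_exp N (NeZero.ne N)
  generalize Complex.exp _ = ζ at hζ
  obtain ⟨Y, y1, y2⟩ := hB N (tb d η σ) 0 (fun k j => (ζ ^ (j : ℕ)) ^ (k : ℕ))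
    (fun k => ⟨by simp, fun i j => by
      simp only [tb_zero hμ h, ite_mul, one_mul, zero_mul, sum_ite_eq', mem_univ, if_true]
      rw [← mul_pow, ← pow_add, Fin.val_add, ← pow_eq_pow_mod _ hζ.pow_eq_one]⟩)
    (fun β hβ => Matrix.eq_zero_of_forall_pow_sum_mul_pow_eq_zero
      (fun i j e => Fin.ext (hζ.pow_inj i.2 j.2 e)) hβ)
  have y0 : Y 0 0 1 = 1 := by rw [(y1 0).1]; simp
  have c1 : Tendsto (fun s => Y 0 s 1) (𝓝 0) (𝓝 1) := by
    have := (continuousAt_pi.1 (y1 0).2.continuousAt 1).tendsto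
    rwa [y0] at this
  obtain ⟨g, hg⟩ : ∃ g : ℂ → ℂ, ∀ᶠ a in 𝓝 (1 : ℂ), g (a ^ N) = a :=
    ⟨_, (hasStrictDerivAt_pow N (1 : ℂ)).eventually_left_inverse (by simp [NeZero.ne N])⟩
  obtain ⟨δ, δ0, hδ⟩ := Metric.eventually_nhds_iff.1 (y2.and ((y1 0).2.eventually_analyticAt.and
    ((c1.eventually hg).and (c1.eventually_ne one_ne_zero))))
  simp only [dist_zero_right] at hδ
  have H : ∀ s ∈ pD δ, ∃ Ψ : 𝒜 →+* ℂ, ∀ a, Ψ a =
      ∑ i, eval₂RingHom σ (s ^ N)⁻¹ (η.repr a i) * ((s ^ d i)⁻¹ * Y 0 s i) := fun s hs => by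
    have hw : ∀ i, s ^ d i ≠ 0 := fun i => pow_ne_zero _ hs.1
    have h0 : s ^ d 0 = 1 := by rw [h.d0, pow_zero]
    have r0 : Rng fun i => Algebra.leftMulMatrix η (η i) :=
      ⟨𝒜, inferInstance, inferInstance, η, h.one, fun _ => rfl⟩
    exact exists_hom η h.one _ (hm_scale (((hδ hs.2).1.2 (rng_scale (r0.map _) hw h0
      (tb_ne hμ h σ hs.1))).1 0) hw h0 (tb_ne hμ h σ hs.1))
  have : Nonempty (𝒜 →+* ℂ) := by
    obtain ⟨Ψ, -⟩ := H ((δ / 2 : ℝ) : ℂ) ⟨Complex.ofReal_ne_zero.2 (by positivity), by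
      rw [Complex.norm_real, Real.norm_eq_abs, abs_of_pos (by positivity)]; linarith⟩
    exact ⟨Ψ⟩
  choose! φ hφ using H
  have hη : ∀ s ∈ pD δ, ∀ p j, φ s (p • η j) = eval₂ σ (s ^ N)⁻¹ p * ((s ^ d j)⁻¹ * Y 0 s j) :=
    fun s hs p j => by
      rw [hφ s hs, sum_eq_single j]
      · simp
      · intro i _ hi
        simp [hi]
      · simp
  have h1 : ∀ s ∈ pD δ, ∀ p, φ s (algebraMap A[X] 𝒜 p) = eval₂ σ (s ^ N)⁻¹ p := fun s hs p => by
    have e := hη s hs 1 0
    rw [h.one, one_smul, map_one, eval₂_one, one_mul] at e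
    rw [Algebra.algebraMap_eq_smul_one, ← h.one, hη s hs, ← e, mul_one]
  refine ⟨δ, φ, δ0, h1, fun u => ?_, fun s hs s' hs' e => ?_⟩
  · refine DifferentiableOn.congr (fun s hs => DifferentiableAt.differentiableWithinAt ?_)
      fun s hs => hφ s hs u
    have hd : ∀ k : ℕ, DifferentiableAt ℂ (fun z : ℂ => (z ^ k)⁻¹) s := fun k =>
      (differentiableAt_pow k).inv (pow_ne_zero _ hs.1)
    refine DifferentiableAt.fun_sum fun i _ => DifferentiableAt.mul ?_ ((hd _).mul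
      (differentiableAt_pi.1 (hδ hs.2).2.1.differentiableAt i))
    simp only [coe_eval₂RingHom, eval₂_eq_eval_map]
    exact DifferentiableAt.comp (g := fun z => eval z _) s (Polynomial.differentiableAt _) (hd N)
  · have e1 : s ^ N = s' ^ N := by
      have a := h1 s hs X
      rw [e, h1 s' hs', eval₂_X, eval₂_X] at a
      exact (inv_injective a).symm
    have e2 := hη s hs 1 1
    rw [e, hη s' hs', eval₂_one, eval₂_one, one_mul, one_mul] at e2
    have e3 : ∀ z : ℂ, (z ^ d 1) ^ N = (z ^ N) ^ d 1 := fun z => by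
      rw [← pow_mul, ← pow_mul, mul_comm]
    have e4 : Y 0 s' 1 ^ N = Y 0 s 1 ^ N := by
      have a := congrArg (· ^ N) e2
      simp only [mul_pow, inv_pow, e3, e1] at a
      exact mul_left_cancel₀ (inv_ne_zero (pow_ne_zero _ (pow_ne_zero _ hs'.1))) a
    have e5 : Y 0 s' 1 = Y 0 s 1 := by rw [← (hδ hs'.2).2.2.1, e4, (hδ hs.2).2.2.1]
    rw [e5] at e2
    have e6 := inv_injective (mul_right_cancel₀ (hδ hs.2).2.2.2 e2)
    have e7 : d 1 = N * (d 1 / N) + 1 := by
      have a := h.md 1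
      rw [Fin.val_one', Nat.mod_eq_of_lt (show 1 < N by omega)] at a
      rw [← a, Nat.div_add_mod]
    rw [e7, pow_succ, pow_succ, pow_mul, pow_mul, e1] at e6
    exact (mul_left_cancel₀ (pow_ne_zero _ (pow_ne_zero _ hs'.1)) e6).symm

end EChs

theorem eChs : OfCHS := by
  intro hA hB A 𝒜 _ _ _ S μ N x σ hμ hx hN
  have : NeZero N := ⟨by omega⟩
  let _ : Algebra A[X] 𝒜 := (aeval x : A[X] →ₐ[A] 𝒜).toRingHom.toAlgebra
  have e : ∀ p, algebraMap A[X] 𝒜 p = aeval x p := fun _ => rfl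
  have : IsScalarTower A A[X] 𝒜 := .of_algebraMap_eq fun a => by rw [e, AlgHom.commutes]
  obtain ⟨d, η, h⟩ := hA.get hμ (N := N) (by rw [e, aeval_X]; exact hx)
  obtain ⟨δ, φ, h0, h1, h2, h3⟩ := EChs.core hB hμ h σ hN
  refine ⟨δ, φ, h0, fun s hs => ⟨?_, fun a => ?_⟩, h2, h3⟩
  · simpa [e] using h1 s hs X
  · simpa [e] using h1 s hs (C a)

end Pool.Agent.MP_f3836a_nt.GV.T
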