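import Pool.Agent.MP_f3836a_nt.RG.SpecE

/-! Integrals along arcs and the closeness of the twist to its limit. -/

set_option autoImplicit false

namespace Pool.Agent.MP_f3836a_nt.GV.T

open Polynomial Finset Filter Topology MeasureTheory

namespace ELp

variable {ι : Type} [Fintype ι] {n : ℕ} [NeZero n] {L : Lp ι n} {R : ℝ}

theorem ctbd {f : ι → ℝ → ℂ} (hf : Ct f) :
    ∃ M : ℝ, 0 ≤ M ∧ ∀ j, ∀ θ ∈ Set.Icc (0 : ℝ) 1, ‖f j θ‖ ≤ M := by
  choose M hM using fun j => isCompact_Icc.exists_bound_of_continuousOn (hf j)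
  refine ⟨∑ j, |M j|, sum_nonneg fun j _ => abs_nonneg _, fun j θ hθ => ?_⟩
  exact ((hM j θ hθ).trans (le_abs_self _)).trans
    (single_le_sum (f := fun j => |M j|) (fun j _ => abs_nonneg _) (mem_univ j))

omit [Fintype ι] in
theorem ig (hL : L.Ok R) {f : ι → ℝ → ℂ} (hf : Ct f) (j : ι) :
    IntervalIntegrable (fun θ => f j θ * L.dx j θ) volume 0 1 :=
  ((hf j).mul (hL.cd j).continuousOn).intervalIntegrable_of_Icc zero_le_one

theorem add (hL : L.Ok R) (f g : ι → ℝ → ℂ) (hf : Ct f) (hg : Ct g) :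
    L.I (fun j θ => f j θ + g j θ) = L.I f + L.I g := by
  unfold Lp.I
  rw [← sum_add_distrib]
  refine sum_congr rfl fun j _ => ?_
  rw [← mul_add, ← intervalIntegral.integral_add (ig hL hf j) (ig hL hg j)]
  simp only [add_mul]

omit [NeZero n] in
theorem smul (c : ℂ) (f : ι → ℝ → ℂ) : L.I (fun j θ => c * f j θ) = c * L.I f := by
  unfold Lp.I
  rw [mul_sum]
  refine sum_congr rfl fun j _ => ?_
  simp only [mul_assoc, intervalIntegral.integral_const_mul]
  ring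

omit [NeZero n] in
theorem cg (f g : ι → ℝ → ℂ) (h : ∀ j, ∀ θ ∈ Set.Icc (0 : ℝ) 1, f j θ = g j θ) :
    L.I f = L.I g := by
  unfold Lp.I
  refine sum_congr rfl fun j _ => ?_
  congr 1
  refine intervalIntegral.integral_congr fun θ hθ => ?_
  rw [Set.uIcc_of_le zero_le_one] at hθ
  simp only [h j θ hθ]

omit [Fintype ι] in
theorem far (hL : L.Ok R) (τ : ℂ) (j : ι) {θ : ℝ} (hθ : θ ∈ Set.Icc (0 : ℝ) 1) :
    ‖τ‖ - R ≤ ‖L.x j θ - τ‖ := by
  have h1 := hL.bd j θ hθ
  have h2 := norm_sub_norm_le τ (L.x j θ)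
  rw [norm_sub_rev] at h2
  linarith

omit [Fintype ι] in
theorem ne (hL : L.Ok R) {τ : ℂ} (hτ : R < ‖τ‖) (j : ι) {θ : ℝ} (hθ : θ ∈ Set.Icc (0 : ℝ) 1) :
    L.x j θ - τ ≠ 0 := norm_pos_iff.1 (lt_of_lt_of_le (sub_pos.2 hτ) (far hL τ j hθ))

omit [Fintype ι] in
theorem ctd (hL : L.Ok R) {f : ι → ℝ → ℂ} (hf : Ct f) {τ : ℂ} (hτ : R < ‖τ‖) :
    Ct fun j θ => f j θ / (L.x j θ - τ) := fun j =>
  (hf j).div ((hL.cx j).sub continuous_const).continuousOn fun _ hθ => ne hL hτ j hθ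

theorem Ibd (hL : L.Ok R) : ∃ C : ℝ, 0 ≤ C ∧ ∀ (f : ι → ℝ → ℂ) (ε : ℝ), 0 ≤ ε →
    (∀ j, ∀ θ ∈ Set.Icc (0 : ℝ) 1, ‖f j θ‖ ≤ ε) → ‖L.I f‖ ≤ C * ε := by
  obtain ⟨M, hM0, hM⟩ := ctbd (f := L.dx) fun j => (hL.cd j).continuousOn
  refine ⟨∑ j, |L.a j| * M, sum_nonneg fun j _ => by positivity, fun f ε hε hf => ?_⟩
  unfold Lp.I
  rw [sum_mul]
  refine (norm_sum_le _ _).trans (sum_le_sum fun j _ => ?_)
  rw [norm_mul, Complex.norm_real, Real.norm_eq_abs, mul_assoc]
  refine mul_le_mul_of_nonneg_left ?_ (abs_nonneg _)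
  have := intervalIntegral.norm_integral_le_of_norm_le_const (a := 0) (b := 1) (C := ε * M)
    (f := fun θ => f j θ * L.dx j θ) fun θ hθ => by
      rw [Set.uIoc_of_le zero_le_one] at hθ
      have hθ' := Set.Ioc_subset_Icc_self hθ
      rw [norm_mul]
      exact mul_le_mul (hf j θ hθ') (hM j θ hθ') (norm_nonneg _) hε
  simpa [mul_comm] using this

theorem hasD (hL : L.Ok R) {f : ι → ℝ → ℂ} (hf : Ct f) {τ : ℂ} (hτ : R < ‖τ‖) :
    HasDerivAt (L.Φ f) (L.I fun j θ => f j θ / (L.x j θ - τ) / (L.x j θ - τ)) τ := by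
  unfold Lp.Φ Lp.I
  refine HasDerivAt.fun_sum fun j _ => HasDerivAt.const_mul _ ?_
  set δ := (‖τ‖ - R) / 2 with hδ
  have hδ0 : 0 < δ := by rw [hδ]; linarith
  have hb : ∀ s ∈ Metric.ball τ δ, R + δ ≤ ‖s‖ := fun s hs => by
    have h1 := norm_sub_norm_le τ s
    rw [Metric.mem_ball, dist_comm, dist_eq_norm] at hs
    linarith
  have hb' : ∀ s ∈ Metric.ball τ δ, R < ‖s‖ := fun s hs => by linarith [hb s hs]
  have hU : Set.uIoc (0 : ℝ) 1 ⊆ Set.Icc 0 1 := by
    rw [Set.uIoc_of_le zero_le_one]; exact Set.Ioc_subset_Icc_self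
  refine (intervalIntegral.hasDerivAt_integral_of_dominated_loc_of_deriv_le (μ := volume)
    (F := fun s θ => f j θ / (L.x j θ - s) * L.dx j θ)
    (F' := fun s θ => f j θ / (L.x j θ - s) / (L.x j θ - s) * L.dx j θ)
    (bound := fun θ => ‖f j θ‖ / δ / δ * ‖L.dx j θ‖)
    (Metric.ball_mem_nhds τ hδ0) ?_ (ig hL (ctd hL hf hτ) j) ?_ ?_ ?_ ?_).2
  · filter_upwards [Metric.ball_mem_nhds τ hδ0] with s hs
    exact (intervalIntegrable_iff.1 (ig hL (ctd hL hf (hb' s hs)) j)).aestronglyMeasurable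
  · exact (intervalIntegrable_iff.1 (ig hL (ctd hL (ctd hL hf hτ) hτ) j)).aestronglyMeasurable
  · refine Eventually.of_forall fun θ hθ s hs => ?_
    have h1 : δ ≤ ‖L.x j θ - s‖ := by linarith [far hL s j (hU hθ), hb s hs]
    rw [norm_mul, norm_div, norm_div]
    gcongr
  · exact ((((hf j).norm.div_const δ).div_const δ).mul
      (hL.cd j).norm.continuousOn).intervalIntegrable_of_Icc zero_le_one
  · refine Eventually.of_forall fun θ hθ s hs => ?_
    have h1 := ne hL (hb' s hs) j (hU hθ)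
    have h2 := ((hasDerivAt_const s (f j θ)).fun_div ((hasDerivAt_id' s).const_sub (L.x j θ))
      h1).mul_const (L.dx j θ)
    have h3 : f j θ / (L.x j θ - s) / (L.x j θ - s) =
        (0 * (L.x j θ - s) - f j θ * -1) / (L.x j θ - s) ^ 2 := by
      field_simp
      ring
    rw [h3]
    exact h2

omit [Fintype ι] [NeZero n] in
theorem ev_vP {S : Type} [CommRing S] [Algebra S ℂ] {e : Fin n → ℕ} {m : ℕ} (v : Ix e m → S)
    (j : ι) (θ : ℝ) : L.ev (vP v) j θ =
      ∑ p : Ix e m, algebraMap S ℂ (v p) * (L.x j θ ^ (p.2 : ℕ) * L.Y j θ p.1) := by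
  unfold Lp.ev vP
  rw [Fintype.sum_sigma]
  refine sum_congr rfl fun i _ => ?_
  rw [map_sum, sum_mul]
  refine sum_congr rfl fun k _ => ?_
  rw [aeval_monomial, mul_assoc]

omit [Fintype ι] in
theorem ctev (hL : L.Ok R) {S : Type} [CommRing S] [Algebra S ℂ] (A : Fin n → S[X]) :
    Ct (L.ev A) := fun j => by
  unfold Lp.ev
  exact (continuous_finsetSum _ fun i _ =>
    (((A i).continuous_aeval).comp (hL.cx j)).mul (hL.cy j i)).continuousOn

theorem api (hL : L.Ok R) : L.Api R where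
  add := add hL
  smul := smul
  cg := cg
  padd f g τ hf hg hτ := by
    unfold Lp.Φ
    rw [← add hL _ _ (ctd hL hf hτ) (ctd hL hg hτ)]
    simp only [add_div]
  psmul c f τ := by
    unfold Lp.Φ
    rw [← smul]
    simp only [mul_div_assoc]
  hol f hf τ hτ := (hasD hL hf hτ).differentiableAt.differentiableWithinAt
  mul f τ hf hτ := by
    unfold Lp.Φ
    rw [← smul, ← add hL _ (fun j θ => τ * (f j θ / (L.x j θ - τ))) hf
      fun j => continuousOn_const.mul (ctd hL hf hτ j)]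
    refine cg _ _ fun j θ hθ => ?_
    have := ne hL hτ j hθ
    field_simp
    ring
  bd := by
    obtain ⟨C, hC, h⟩ := Ibd hL
    refine ⟨C + 1, by linarith, fun f ε τ hf hb hε hτ => ?_⟩
    have h1 : ∀ g : ι → ℝ → ℂ, (∀ j, ∀ θ ∈ Set.Icc (0 : ℝ) 1, ‖g j θ‖ ≤ ε) →
        ∀ j, ∀ θ ∈ Set.Icc (0 : ℝ) 1, ‖g j θ / (L.x j θ - τ)‖ ≤ ε := fun g hg j θ hθ => by
      rw [norm_div]
      exact (div_le_self (norm_nonneg _) (by linarith [far hL τ j hθ])).trans (hg j θ hθ)
    rw [(hasD hL hf (by linarith)).deriv]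
    have h2 := h _ ε hε (h1 f hb)
    have h3 := h _ ε hε (h1 _ (h1 f hb))
    exact ⟨h2.trans (by linarith), h3.trans (by linarith)⟩
  lim f hf := by
    obtain ⟨C, hC, h⟩ := Ibd hL
    obtain ⟨M, hM0, hM⟩ := ctbd hf
    have h1 : Tendsto (fun t : ℝ => -t - R) atBot atTop :=
      tendsto_atTop_add_const_right _ (-R) tendsto_neg_atBot_atTop
    have h2 : Tendsto (fun t : ℝ => C * (M / (-t - R))) atBot (𝓝 0) := by
      simpa using (tendsto_const_nhds (x := M).div_atTop h1).const_mul C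
    refine squeeze_zero_norm' ?_ h2
    filter_upwards [h1.eventually_gt_atTop 0] with t ht
    refine h _ _ (by positivity) fun j θ hθ => ?_
    have h3 := far hL (t : ℂ) j hθ
    rw [Complex.norm_real, Real.norm_eq_abs] at h3
    have h4 : -t - R ≤ ‖L.x j θ - t‖ := by linarith [neg_le_abs t]
    rw [norm_div]
    have := hM j θ hθ
    gcongr
  cz := ctev hL
  cr := ctev hL
  lin e m u v c j θ := by
    simp only [ev_vP, mul_sum, ← sum_add_distrib, map_add, map_mul]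
    refine sum_congr rfl fun p _ => ?_
    simp only [Complex.coe_algebraMap]
    ring
  one e m he hm j θ := by
    have h0 : 0 < m - max (e 0) 1 := by rw [he]; omega
    rw [ev_vP, sum_eq_single (⟨0, ⟨0, h0⟩⟩ : Ix e m)]
    · simp [oneX, hL.one]
    · rintro ⟨i, k⟩ _ hp
      have : ¬((i : ℕ) = 0 ∧ (k : ℕ) = 0) := by
        rintro ⟨h1, h2⟩
        obtain rfl : i = 0 := Fin.ext (by simpa using h1)
        obtain rfl : k = ⟨0, h0⟩ := Fin.ext h2
        exact hp rfl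
      simp only [oneX, if_neg this, map_zero, zero_mul]
    · intro h; exact absurd (mem_univ _) h
  int e m v j θ := by
    simp only [ev_vP]
    refine sum_congr rfl fun p _ => ?_
    simp
  sz e m := by
    choose M hM0 hM using fun p : Ix e m => ctbd
      (f := fun j θ => L.x j θ ^ (p.2 : ℕ) * L.Y j θ p.1)
      fun j => (((hL.cx j).pow _).mul (hL.cy j _)).continuousOn
    have h0 : 0 ≤ ∑ p, M p := sum_nonneg fun p _ => hM0 p
    refine ⟨∑ p, M p + 1, by linarith, fun v ε hε hv j θ hθ => ?_⟩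
    rw [ev_vP, add_mul, sum_mul]
    refine (norm_sum_le _ _).trans (le_add_of_le_of_nonneg (sum_le_sum fun p _ => ?_) (by linarith))
    rw [norm_mul, mul_comm (M p), Complex.coe_algebraMap, Complex.norm_real, Real.norm_eq_abs]
    exact mul_le_mul (hv p) (hM p j θ hθ) (norm_nonneg _) hε

theorem loglip {u w : ℂ} (hu : ‖u - 1‖ ≤ 1 / 2) (hw : ‖w - 1‖ ≤ 1 / 2) :
    ‖Complex.log w - Complex.log u‖ ≤ 2 * ‖w - u‖ := by
  have hs : ∀ z ∈ Metric.closedBall (1 : ℂ) (1 / 2), z ∈ Complex.slitPlane := fun z hz =>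
    Complex.ball_one_subset_slitPlane (Metric.closedBall_subset_ball (by norm_num) hz)
  refine (convex_closedBall (1 : ℂ) (1 / 2)).norm_image_sub_le_of_norm_hasDerivWithin_le
    (f' := fun z => z⁻¹) (fun z hz => (Complex.hasDerivAt_log (hs z hz)).hasDerivWithinAt)
    (fun z hz => ?_) (mem_closedBall_iff_norm.2 hu) (mem_closedBall_iff_norm.2 hw)
  have h1 := mem_closedBall_iff_norm'.1 hz
  have h2 := norm_sub_norm_le (1 : ℂ) z
  rw [norm_one] at h2
  rw [norm_inv]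
  exact inv_le_of_inv_le₀ (by norm_num) (by linarith)

theorem slit {u : ℂ} (hu : ‖u - 1‖ ≤ 1 / 2) : u ∈ Complex.slitPlane :=
  Complex.ball_one_subset_slitPlane (mem_ball_iff_norm.2 (by linarith))

end ELp

theorem eLp : LpS := fun _ _ _ _ _ _ hL => ELp.api hL

theorem eClL : OfClL := by
  intro hLp ι _ n r _ G L R tw hG hL ht0 ht1 hT m hm
  have A := hLp ι n L R hL
  obtain ⟨C, hC, hbd⟩ := A.bd
  obtain ⟨Cs, hCs, hsz⟩ := A.sz G.T.e m
  have hI : ∀ t ∈ G.B.I, R + 1 ≤ ‖(t : ℂ)‖ := fun t ht => by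
    rw [Complex.norm_real, Real.norm_eq_abs]
    linarith [neg_le_abs t, ht.2, hG.br.rho.2]
  refine ⟨1 / (8 * (C + 1)) / Cs, by positivity, fun vs hvs As => ?_⟩
  have hu : ∀ j, ∀ θ ∈ Set.Icc (0 : ℝ) 1, ‖L.ev (vP vs) j θ - 1‖ ≤ 1 / (8 * (C + 1)) := by
    intro j θ hθ
    have h1 := A.lin G.T.e m oneX (fun i => vs i - oneX i) 1 j θ
    simp only [one_mul, add_sub_cancel, Complex.ofReal_one] at h1
    rw [h1, A.one _ _ hG.tb.e0 hm, add_sub_cancel_left]
    refine (hsz _ _ (by positivity) hvs j θ hθ).trans_eq ?_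
    field_simp
  have h8 : 1 / (8 * (C + 1)) ≤ 1 / 8 := by gcongr; linarith
  have hu2 : ∀ j, ∀ θ ∈ Set.Icc (0 : ℝ) 1, ‖L.ev (vP vs) j θ - 1‖ ≤ 1 / 2 := fun j θ hθ => by
    linarith [hu j θ hθ]
  have cu : Ct fun j θ => Complex.log (L.ev (vP vs) j θ) := fun j =>
    (A.cr _ j).clog fun θ hθ => ELp.slit (hu2 j θ hθ)
  refine ⟨fun t ht => ?_, fun ε hε => ?_⟩
  · unfold Lp.tv
    rw [abs_neg]
    refine (Complex.abs_im_le_norm _).trans ((hbd _ (2 * (1 / (8 * (C + 1)))) _ cu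
      (fun j θ hθ => ?_) (by positivity) (hI t ht)).1.trans ?_)
    · have := ELp.loglip (u := 1) (by simp) (hu2 j θ hθ)
      rw [Complex.log_one, sub_zero] at this
      linarith [hu j θ hθ]
    · rw [show C * (2 * (1 / (8 * (C + 1)))) = C / (C + 1) * (1 / 4) by field_simp; norm_num]
      have : C / (C + 1) ≤ 1 := (div_le_one (by linarith)).2 (by linarith)
      linarith
  · obtain ⟨M, hM0, hM⟩ := ELp.ctbd (A.cz As)
    obtain ⟨η, hη0, hη1, hη2⟩ : ∃ η : ℝ, 0 < η ∧ η ≤ 1 / 8 ∧ C * (2 * η) ≤ ε := by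
      refine ⟨min (1 / 8) (ε / (2 * C)), by positivity, min_le_left _ _, ?_⟩
      calc C * (2 * min (1 / 8) (ε / (2 * C))) ≤ C * (2 * (ε / (2 * C))) := by
            gcongr; exact min_le_right _ _
        _ = ε := by field_simp
    refine ⟨(M + 2 * Cs) / η, fun W' k H H1 a x hW hH1 hH hx hadm => ?_⟩
    have hH1' : (1 : ℝ) ≤ H1 := by exact_mod_cast hH1
    have hW' : (1 : ℝ) ≤ W' := by exact_mod_cast hW
    have hH0 : (0 : ℝ) < H := lt_of_lt_of_le (by positivity) hH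
    have hHn : 0 < H := by exact_mod_cast hH0
    have ht1' : R + 1 ≤ ‖((G.t1 : ℤ) : ℂ)‖ := by
      rw [Complex.norm_intCast]; exact ht1.trans (le_abs_self _)
    have hw : ∀ i, |(x i : ℝ) - H * vs i| ≤ 2 * H1 := fun i => by
      have h1 := Fintype.mem_piFinset.1 hx i
      rw [mem_Ico] at h1
      have h2 : ((⌊(H : ℝ) * vs i⌋ : ℤ) : ℝ) ≤ x i := by exact_mod_cast h1.1
      have h3 : (x i : ℝ) < ((⌊(H : ℝ) * vs i⌋ : ℤ) : ℝ) + H1 := by exact_mod_cast h1.2
      have h4 := Int.floor_le ((H : ℝ) * vs i)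
      have h5 := Int.lt_floor_add_one ((H : ℝ) * vs i)
      rw [abs_le]
      constructor <;> linarith
    set B : Fin n → ℤ[X] := fun i => As i + Polynomial.C (W' : ℤ) * (X - Polynomial.C G.t1) * vP x i
      with hB
    have hg : ∀ j, ∀ θ ∈ Set.Icc (0 : ℝ) 1,
        ‖L.ev B j θ / ((W' * H : ℕ) * (L.x j θ - G.t1)) - L.ev (vP vs) j θ‖ ≤ η := by
      intro j θ hθ
      have e1 : L.ev B j θ = L.ev As j θ + W' * (L.x j θ - G.t1) * L.ev (vP x) j θ := by
        simp only [hB, Lp.ev, map_add, map_mul, map_sub, aeval_X, aeval_C, mul_sum,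
          ← sum_add_distrib]
        refine sum_congr rfl fun i _ => ?_
        simp only [eq_intCast, Int.cast_natCast]
        ring
      have e2 := A.lin G.T.e m (fun i => (x i : ℝ) - H * vs i) vs H j θ
      simp only [sub_add_cancel] at e2
      have hf : 1 ≤ ‖L.x j θ - G.t1‖ := by linarith [ELp.far hL (G.t1 : ℂ) j hθ]
      have hne : L.x j θ - G.t1 ≠ 0 := norm_pos_iff.1 (by linarith)
      have hWc : (W' : ℂ) ≠ 0 := by exact_mod_cast hW.ne'
      have hHc : (H : ℂ) ≠ 0 := by exact_mod_cast hHn.ne'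
      have e3 : L.ev B j θ / ((W' * H : ℕ) * (L.x j θ - G.t1)) - L.ev (vP vs) j θ =
          (L.ev As j θ / (W' * (L.x j θ - G.t1)) +
            L.ev (vP fun i => (x i : ℝ) - H * vs i) j θ) / H := by
        rw [e1, A.int, e2]
        push_cast
        field_simp
        ring
      have b1 : ‖L.ev As j θ / (W' * (L.x j θ - G.t1))‖ ≤ M * H1 := by
        rw [norm_div, norm_mul, Complex.norm_natCast]
        refine (div_le_self (norm_nonneg _) (one_le_mul_of_one_le_of_one_le hW' hf)).trans ?_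
        exact (hM j θ hθ).trans (le_mul_of_one_le_right hM0 hH1')
      have b2 := hsz _ _ (by positivity) hw j θ hθ
      rw [e3, norm_div, Complex.norm_natCast, div_le_iff₀ hH0]
      refine (norm_add_le _ _).trans ?_
      rw [div_mul_eq_mul_div, div_le_iff₀ hη0] at hH
      linarith
    have hg2 : ∀ j, ∀ θ ∈ Set.Icc (0 : ℝ) 1,
        ‖L.ev B j θ / ((W' * H : ℕ) * (L.x j θ - G.t1)) - 1‖ ≤ 1 / 2 := fun j θ hθ => by
      have := norm_sub_le_norm_sub_add_norm_sub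
        (L.ev B j θ / ((W' * H : ℕ) * (L.x j θ - G.t1))) (L.ev (vP vs) j θ) 1
      linarith [hg j θ hθ, hu j θ hθ]
    have cg : Ct fun j θ => Complex.log (L.ev B j θ / ((W' * H : ℕ) * (L.x j θ - G.t1))) := by
      intro j
      refine ContinuousOn.clog ?_ fun θ hθ => ELp.slit (hg2 j θ hθ)
      refine (A.cz B j).div (continuous_const.mul ((hL.cx j).sub continuous_const)).continuousOn
        fun θ hθ => mul_ne_zero (by exact_mod_cast (Nat.mul_pos hW hHn).ne') ?_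
      exact ELp.ne hL (by linarith) j hθ
    have cd : Ct fun j θ => Complex.log (L.ev B j θ / ((W' * H : ℕ) * (L.x j θ - G.t1))) -
        Complex.log (L.ev (vP vs) j θ) := fun j => (cg j).sub (cu j)
    have hτ := hI _ hadm.mem
    have e4 := A.padd _ _ _ cd cu (show R < ‖(((a : ℝ) / (k : ℝ) ^ 2 : ℝ) : ℂ)‖ by linarith)
    simp only [sub_add_cancel] at e4
    rw [hT B a k (W' * H) hadm (Nat.mul_pos hW hHn) fun j θ hθ => ELp.slit (hg2 j θ hθ), e4]
    unfold Lp.tv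
    rw [Complex.add_im, neg_add, sub_neg_eq_add, neg_add_cancel_right, abs_neg]
    refine (Complex.abs_im_le_norm _).trans
      ((hbd _ (2 * η) _ cd (fun j θ hθ => ?_) (by positivity) hτ).1.trans hη2)
    linarith [ELp.loglip (hu2 j θ hθ) (hg2 j θ hθ), hg j θ hθ]

end Pool.Agent.MP_f3836a_nt.GV.T
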