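import Pool.Agent.MP_f3836a_nt.RG.SpecE
import Pool.Agent.MP_f3836a_nt.GV.RRig
import Pool.Agent.MP_f3836a_nt.GV.RRig2

/-! The first order term of the twisted relation, and rationality of the traces. -/

set_option autoImplicit false

namespace Pool.Agent.MP_f3836a_nt.GV.T

open Polynomial Finset Filter Topology

namespace ERigA

theorem lim_log (z : ℂ) :
    Tendsto (fun e : ℝ => Real.log ‖1 + e * z‖ / e) (𝓝[≠] 0) (𝓝 z.re) := by
  have h0 : HasDerivAt (fun e : ℝ => 1 + (e : ℂ) * z) z 0 := by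
    simpa using ((hasDerivAt_id' (0 : ℝ)).ofReal_comp.mul_const z).const_add 1
  have h1 := h0.clog_real (by simp)
  have h2 := Complex.reCLM.hasFDerivAt.comp_hasDerivAt (0 : ℝ) h1
  have h3 : HasDerivAt (fun e : ℝ => Real.log ‖1 + e * z‖) z.re 0 := by
    simpa using h2.congr_of_eventuallyEq (.of_forall fun τ => (Complex.log_re _).symm)
  refine (hasDerivAt_iff_tendsto_slope_zero.1 h3).congr fun e => ?_
  simp [div_eq_inv_mul]

variable {ι : Type} [Fintype ι] {n : ℕ} [NeZero n] {L : Lp ι n} {R : ℝ}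

theorem der_im (A : L.Api R) {f : ι → ℝ → ℂ} (hf : Ct f) {t : ℝ} (ht : R < ‖(t : ℂ)‖) :
    HasDerivAt (fun s : ℝ => (L.Φ f s).im) (deriv (L.Φ f) t).im t := by
  have ho : IsOpen {τ : ℂ | R < ‖τ‖} := isOpen_lt continuous_const continuous_norm
  have h := ((A.hol f hf).differentiableAt (ho.mem_nhds ht)).hasDerivAt.comp_ofReal
  exact Complex.imCLM.hasFDerivAt.comp_hasDerivAt t h

omit [Fintype ι] in
theorem ct_log {z : ι → ℝ → ℂ} (hz : Ct z) {M e : ℝ}
    (hM : ∀ j, ∀ θ ∈ Set.Icc (0 : ℝ) 1, ‖z j θ‖ ≤ M) (he : |e| * M ≤ 1 / 2) :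
    Ct fun j θ => Complex.log (1 + e * z j θ) := fun j =>
  ContinuousOn.clog (continuousOn_const.add (continuousOn_const.mul (hz j))) fun θ hθ =>
    Complex.mem_slitPlane_of_norm_lt_one (by
      rw [norm_mul, Complex.norm_real, Real.norm_eq_abs]
      linarith [mul_le_mul_of_nonneg_left (hM j θ hθ) (abs_nonneg e)])

theorem small (M : ℝ) : ∀ᶠ e : ℝ in 𝓝 0, |e| * M ≤ 1 / 2 := by
  have c : ContinuousAt (fun e : ℝ => |e| * M) 0 := by fun_prop
  exact c.eventually (Iic_mem_nhds (by simp))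

theorem lim_der (A : L.Api R) {z : ι → ℝ → ℂ} (hz : Ct z) {M : ℝ}
    (hM : ∀ j, ∀ θ ∈ Set.Icc (0 : ℝ) 1, ‖z j θ‖ ≤ M) {t : ℝ} (ht : R + 1 ≤ ‖(t : ℂ)‖) :
    Tendsto (fun e : ℝ => (deriv (L.Φ fun j θ => Complex.log (1 + e * z j θ)) t).im / e) (𝓝[≠] 0)
      (𝓝 (deriv (L.Φ z) t).im) := by
  obtain ⟨C, hC, hb⟩ := A.bd
  have ho : IsOpen {τ : ℂ | R < ‖τ‖} := isOpen_lt continuous_const continuous_norm
  have hn : {τ : ℂ | R < ‖τ‖} ∈ 𝓝 (t : ℂ) := ho.mem_nhds (show R < _ by linarith)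
  rw [tendsto_iff_dist_tendsto_zero]
  have h0 : Tendsto (fun e : ℝ => C * M ^ 2 * |e|) (𝓝[≠] 0) (𝓝 0) := by
    have c : Continuous fun e : ℝ => C * M ^ 2 * |e| := by fun_prop
    simpa using (c.tendsto 0).mono_left nhdsWithin_le_nhds
  refine squeeze_zero' (.of_forall fun _ => dist_nonneg) ?_ h0
  filter_upwards [self_mem_nhdsWithin, nhdsWithin_le_nhds (small M)] with e e0 he
  have e0 : e ≠ 0 := e0
  have hl := ct_log hz hM he
  have hz' : Ct fun j θ => (-e : ℂ) * z j θ := fun j => continuousOn_const.mul (hz j)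
  have h1 := (hb (fun j θ => Complex.log (1 + e * z j θ) + (-e : ℂ) * z j θ) ((|e| * M) ^ 2) t
    (fun j => (hl j).add (hz' j)) (fun j θ hθ => by
      have a1 : ‖(e : ℂ) * z j θ‖ ≤ |e| * M := by
        rw [norm_mul, Complex.norm_real, Real.norm_eq_abs]
        exact mul_le_mul_of_nonneg_left (hM j θ hθ) (abs_nonneg e)
      have a2 := Complex.norm_log_one_add_sub_self_le (z := e * z j θ) (by linarith)
      have a3 : (1 - ‖(e : ℂ) * z j θ‖)⁻¹ ≤ 2 := by
        rw [inv_le_comm₀ (by linarith) (by norm_num)]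
        linarith
      have a4 : ‖(e : ℂ) * z j θ‖ ^ 2 ≤ (|e| * M) ^ 2 := pow_le_pow_left₀ (norm_nonneg _) a1 2
      have a5 := mul_le_mul_of_nonneg_left a3 (sq_nonneg ‖(e : ℂ) * z j θ‖)
      rw [neg_mul, ← sub_eq_add_neg]
      linarith) (sq_nonneg _) ht).2
  have h2 : deriv (L.Φ fun j θ => Complex.log (1 + e * z j θ) + (-e : ℂ) * z j θ) t =
      deriv (L.Φ fun j θ => Complex.log (1 + e * z j θ)) t + (-e : ℂ) * deriv (L.Φ z) t := by
    refine HasDerivAt.deriv (HasDerivAt.congr_of_eventuallyEq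
      ((((A.hol _ hl).differentiableAt hn).hasDerivAt).fun_add
        (((A.hol _ hz).differentiableAt hn).hasDerivAt.const_mul (-e : ℂ))) ?_)
    filter_upwards [hn] with τ hτ
    rw [A.padd _ _ τ hl hz' hτ, A.psmul]
  have h3 := (Complex.abs_im_le_norm _).trans h1
  rw [h2, ← Complex.ofReal_neg, Complex.add_im, Complex.im_ofReal_mul] at h3
  have ha : 0 < |e| := abs_pos.2 e0
  rw [Real.dist_eq, div_sub' e0, abs_div, div_le_iff₀ ha]
  rw [neg_mul, ← sub_eq_add_neg] at h3
  exact h3.trans (le_of_eq (by ring))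

end ERigA

open ERigA

theorem eRigA : RigA := by
  classical
  intro r d a b g c z τ τ0 hab hz hτ hR
  obtain ⟨s, hs, hd⟩ := (Set.Icc_infinite hab).exists_subset_card_eq d
  let F : ℝ → ℝ → ℝ := fun t e => g t * (∏ w, ‖1 + e * z w t‖ ^ 2) *
    deriv (fun s => ∑ w, c w s * Real.log ‖1 + e * z w s‖ + τ e s) t
  let l : ℝ → ℝ := fun t => g t * deriv (fun s => ∑ w, c w s * (z w s).re + τ0 s) t
  have hc : ∀ t ∈ Set.Icc a b, Tendsto (fun e => F t e / e) (𝓝[≠] 0) (𝓝 (l t)) := by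
    intro t ht
    have h0 : l t = g t * (∏ w, ‖1 + ((0 : ℝ) : ℂ) * z w t‖ ^ 2) *
        (∑ w, (deriv (c w) t * (z w t).re +
          c w t * (deriv (z w) t / (1 + ((0 : ℝ) : ℂ) * z w t)).re) + deriv τ0 t) := by
      have h1 : ∀ w, HasDerivAt (fun s => (z w s).re) (deriv (z w) t).re t := fun w =>
        Complex.reCLM.hasFDerivAt.comp_hasDerivAt t (hz w t ht).2.hasDerivAt
      simp only [l]
      rw [((HasDerivAt.fun_sum fun w _ => (hz w t ht).1.hasDerivAt.fun_mul (h1 w)).fun_add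
        (hτ t ht).1.hasDerivAt).deriv]
      simp
    have h1 : ContinuousAt (fun e : ℝ => g t * ∏ w, ‖1 + e * z w t‖ ^ 2) 0 := by fun_prop
    have h2 : ∀ w, ContinuousAt (fun e : ℝ => (deriv (z w) t / (1 + e * z w t)).re) 0 := fun w =>
      Complex.continuous_re.continuousAt.comp (continuousAt_const.div (by fun_prop) (by simp))
    rw [h0]
    refine ((h1.tendsto.mono_left nhdsWithin_le_nhds).mul ((tendsto_finsetSum _ fun w _ =>
      ((lim_log (z w t)).const_mul _).add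
        (((h2 w).tendsto.mono_left nhdsWithin_le_nhds).const_mul _)).add (hτ t ht).2.2)).congr' ?_
    filter_upwards [self_mem_nhdsWithin, nhdsWithin_le_nhds (hτ t ht).2.1, nhdsWithin_le_nhds
      (eventually_all.2 fun w => R.RRig2.der (hz w t ht).2)] with e e0 h3 h4
    have e0 : e ≠ 0 := e0
    simp only [F]
    rw [((HasDerivAt.fun_sum fun w _ => (hz w t ht).1.hasDerivAt.fun_mul (h4 w)).fun_add
      h3.hasDerivAt).deriv, mul_div_assoc _ _ e, add_div, Finset.sum_div]
    congr 2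
    refine Finset.sum_congr rfl fun w _ => ?_
    field_simp
  refine ⟨Lagrange.interpolate s id l, fun t ht => ?_⟩
  rw [Lagrange.interpolate_apply, eval_finsetSum]
  simp only [eval_mul, eval_C]
  refine tendsto_nhds_unique_of_eventuallyEq (hc t ht)
    (tendsto_finsetSum _ fun j hj => (hc j (hs hj)).mul_const _) ?_
  filter_upwards [nhdsWithin_le_nhds hR] with e ⟨P, h2, h3⟩
  simp only [F]
  rw [h3 t ht, Lagrange.eq_interpolate (s := s) (v := id) (f := P) (Set.injOn_id _)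
    (degree_le_natDegree.trans_lt (by exact_mod_cast hd ▸ h2)), Lagrange.interpolate_apply,
    eval_finsetSum, Finset.sum_div]
  refine Finset.sum_congr rfl fun j hj => ?_
  rw [eval_mul, eval_C, id, h3 j (hs hj), mul_div_right_comm]

theorem eRigB1 : OfRigB1 := by
  classical
  intro hL hA ι _ n r _ T t1 B L R hn hT hB hO hR m d c κ hm hc hrel i
  have A := hL ι n L R hO
  have hab : (B.t0 : ℝ) < B.t0 + B.ρ := lt_add_of_pos_right _ hB.rho.1
  have hI : ∀ t ∈ B.I, R + 1 ≤ ‖(t : ℂ)‖ := fun t ht => by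
    rw [Complex.norm_real, Real.norm_eq_abs]
    linarith [neg_le_abs t, ht.2, hB.rho.2]
  have hY : ∀ w i, ∀ t ∈ B.I, DifferentiableAt ℝ (fun t => B.Y w t i) t :=
    fun w i t ht => (hB.ana w i t ht).differentiableAt
  have k : ∀ x : Ix T.e m → ℝ, ∃ P : ℝ[X], ∀ t ∈ B.I, (t - t1) ^ n * deriv (fun s =>
      ∑ w, c w s * (B.ev (vP x) w s).re + -(κ * (L.Φ (L.ev (vP x)) s).im)) t = P.eval t := by
    intro x
    obtain ⟨C, -, hC⟩ := A.sz T.e m
    have hM := hC x ‖x‖ (norm_nonneg _) fun j => norm_le_pi_norm x j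
    have htv : ∀ e : ℝ, (fun s => κ * L.tv m (fun j => oneX j + e * x j) s) = fun s : ℝ =>
        -(κ * (L.Φ (fun j θ => Complex.log (1 + e * L.ev (vP x) j θ)) s).im) := fun e => by
      funext s
      simp only [Lp.tv, A.lin, A.one T.e m hT.e0 (by have := hm 0; omega), mul_neg]
    refine hA r d _ _ _ c (B.ev (vP x)) _ _ hab (fun w t ht => ⟨(hc w t ht).differentiableAt, ?_⟩)
      (fun t ht => ?_) (hrel x)
    · change DifferentiableAt ℝ (fun s : ℝ => ∑ i, ((aeval s (vP x i) : ℝ) : ℂ) * B.Y w s i) t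
      refine DifferentiableAt.fun_sum fun i _ => DifferentiableAt.fun_mul ?_ (hY w i t ht)
      exact (Polynomial.differentiableAt_aeval (vP x i)).hasDerivAt.ofReal_comp.differentiableAt
    · have ht' : R < ‖(t : ℂ)‖ := by linarith [hI t ht]
      have h0 := ((der_im A (A.cr (vP x)) ht').const_mul κ).fun_neg
      have h1 : ∀ᶠ e : ℝ in 𝓝 0, HasDerivAt (fun s => κ * L.tv m (fun j => oneX j + e * x j) s)
          (-(κ * (deriv (L.Φ fun j θ => Complex.log (1 + e * L.ev (vP x) j θ)) t).im)) t := by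
        filter_upwards [small (C * ‖x‖)] with e he
        rw [htv]
        exact ((der_im A (ct_log (A.cr (vP x)) hM he) ht').const_mul κ).fun_neg
      refine ⟨h0.differentiableAt, h1.mono fun e h => h.differentiableAt, ?_⟩
      rw [h0.deriv]
      refine ((lim_der A (A.cr (vP x)) hM (hI t ht)).const_mul κ).neg.congr' ?_
      filter_upwards [nhdsWithin_le_nhds h1] with e h
      rw [h.deriv, neg_div, mul_div_assoc]
  have hv : ∀ p : ℝ[X], p.natDegree ≤ 1 → ∃ x : Ix T.e m → ℝ,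
      (∀ w s, B.ev (vP x) w s = (aeval s p : ℝ) * B.Y w s i) ∧
      ∀ j θ, L.ev (vP x) j θ = aeval (L.x j θ) p * L.Y j θ i := by
    intro p hp
    have h1 : vP (fun j : Ix T.e m => (Pi.single (M := fun _ => ℝ[X]) i p j.1).coeff j.2) =
        Pi.single (M := fun _ => ℝ[X]) i p := funext fun i' => GV.R.RRig.vP_coeff _ i' (by
      have := hm i'
      have : (Pi.single (M := fun _ => ℝ[X]) i p i').natDegree ≤ 1 := by
        rw [Pi.single_apply]
        split_ifs
        · exact hp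
        · simp
      omega)
    refine ⟨fun j => (Pi.single (M := fun _ => ℝ[X]) i p j.1).coeff j.2, fun w s => ?_,
      fun j θ => ?_⟩
    · rw [h1, Br.ev, emb, sum_eq_single i (fun i' _ hi => by simp [hi]) (by simp)]
      simp
    · rw [h1, Lp.ev, sum_eq_single i (fun i' _ hi => by simp [hi]) (by simp)]
      simp
  obtain ⟨x0, a0, b0⟩ := hv 1 (by simp)
  obtain ⟨x1, a1, b1⟩ := hv X (by simp)
  obtain ⟨P0, hP0⟩ := k x0
  obtain ⟨P1, hP1⟩ := k x1
  have cY : Ct fun j θ => L.Y j θ i := fun j => (hO.cy j i).continuousOn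
  have e0 : L.ev (vP x0) = fun j θ => L.Y j θ i := funext₂ fun j θ => by simp [b0]
  have e1 : L.ev (vP x1) = fun j θ => L.x j θ * L.Y j θ i := funext₂ fun j θ => by simp [b1]
  simp only [a0, e0, map_one, Complex.ofReal_one, one_mul] at hP0
  simp only [a1, e1, aeval_X] at hP1
  refine ⟨P1 - X * P0, fun t ht => ?_⟩
  have ht' : R < ‖(t : ℂ)‖ := by linarith [hI t ht]
  have hE : DifferentiableAt ℝ (fun s : ℝ => ∑ w, c w s * (B.Y w s i).re +
      -(κ * (L.Φ (fun j θ => L.Y j θ i) s).im)) t :=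
    (DifferentiableAt.fun_sum fun w _ => (hc w t ht).differentiableAt.mul
      (Complex.reCLM.differentiableAt.comp t (hY w i t ht))).add
      ((der_im A cY ht').const_mul κ).fun_neg.differentiableAt
  have h2 := (((hasDerivAt_id' t).fun_mul hE.hasDerivAt).add_const
    (-(κ * (L.I fun j θ => L.Y j θ i).im))).congr_of_eventuallyEq
    (f₁ := fun s : ℝ => ∑ w, c w s * ((s : ℂ) * B.Y w s i).re +
      -(κ * (L.Φ (fun j θ => L.x j θ * L.Y j θ i) s).im)) (by
      have c1 : ContinuousAt (fun s : ℝ => ‖(s : ℂ)‖) t := by fun_prop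
      filter_upwards [c1.eventually (Ioi_mem_nhds ht')] with s hs
      rw [A.mul _ _ cY hs, Complex.add_im, Complex.im_ofReal_mul, mul_add s, Finset.mul_sum]
      simp only [Complex.re_ofReal_mul, mul_left_comm s]
      ring)
  rw [eval_sub, eval_mul, eval_X, ← hP0 t ht, ← hP1 t ht, h2.deriv]
  ring

end Pool.Agent.MP_f3836a_nt.GV.T
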