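import Pool.Agent.MP_f3836a_nt.RG.SpecG

/-! The twisted engine and the vanishing of periods. -/

set_option autoImplicit false

namespace Pool.Agent.MP_f3836a_nt.GV.A.U

open Polynomial NumberField IsDedekindDomain VE VE.A GV.T RG

namespace GEng

/-- from a basis to all elements -/
theorem span {𝒜 : Type} [CommRing 𝒜] [Algebra ℤ[X] 𝒜] {n : ℕ} (y : Module.Basis (Fin n) ℤ[X] 𝒜)
    (Φ : 𝒜 →+ ℝ) (h : 𝒜) (hz : ∀ i k, Φ (algebraMap ℤ[X] 𝒜 X ^ k * h * y i) = 0) (u : 𝒜) :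
    Φ (h * u) = 0 := by
  have key : ∀ i (q : ℤ[X]), Φ (h * (q • y i)) = 0 := fun i q => by
    induction q using Polynomial.induction_on' with
    | add p q hp hq => rw [add_smul, mul_add, map_add, hp, hq, add_zero]
    | monomial k c =>
      have e : h * (monomial k c • y i) = c • (algebraMap ℤ[X] 𝒜 X ^ k * h * y i) := by
        rw [← C_mul_X_pow_eq_monomial, Algebra.smul_def, map_mul, map_pow, eq_intCast,
          map_intCast, zsmul_eq_mul]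
        ring
      rw [e, map_zsmul, hz, smul_zero]
  rw [← y.sum_repr u, Finset.mul_sum, map_sum]
  exact Finset.sum_eq_zero fun i _ => key i _

theorem mon {𝒜 : Type} [CommRing 𝒜] [Algebra ℤ[X] 𝒜] {n : ℕ} [NeZero n]
    (y : Module.Basis (Fin n) ℤ[X] 𝒜) (y0 : y 0 = 1) (T : Tb n) (t : ℤ) :
    T.Mon 1 (y.repr (algebraMap ℤ[X] 𝒜 (X - C (t - 1)))) := by
  have e : y.repr (algebraMap ℤ[X] 𝒜 (X - C (t - 1))) = Finsupp.single 0 (X - C (t - 1)) := by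
    rw [Algebra.algebraMap_eq_smul_one, ← y0, map_smul, y.repr_self, Finsupp.smul_single,
      smul_eq_mul, mul_one]
  rw [e]
  refine ⟨?_, ?_, fun i hi d _ => ?_⟩
  · rw [Finsupp.single_eq_same]; exact monic_X_sub_C _
  · rw [Finsupp.single_eq_same]; exact natDegree_X_sub_C _
  · rw [Finsupp.single_eq_of_ne hi, coeff_zero]

end GEng

open GEng in
theorem gEng : OfEngT := by
  intro hW hMd hGe hTau hId hCl hAr hCore K F 𝒜 _ _ _ _ _ _ j S μ N W x ι κ _ _ D γ fm mo hN deg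
    hi hW0 cl ok
  obtain ⟨_, rfl⟩ : ∃ _ : Algebra ℤ[X] 𝒜, x = algebraMap ℤ[X] 𝒜 X :=
    ⟨(aeval x).toRingHom.toAlgebra, (aeval_X x).symm⟩
  obtain ⟨R, hR⟩ := hTau F 𝒜 j γ cl
  let Φ : 𝒜 →+ ℝ := AddMonoidHom.mk' (fun u => IP γ (j u • dd (j (algebraMap ℤ[X] 𝒜 X))))
    fun u v => by rw [map_add, add_smul, (hW F).2.ia]
  have key : ∀ t : ℤ, R + 1 ≤ t → ∃ n : ℕ, ∀ u : 𝒜,
      Φ ((algebraMap ℤ[X] 𝒜 X - t) ^ n * u) = 0 := by
    intro t ht
    obtain ⟨n, r, _, y, G, σ, gx, rfl, rfl, h0, cst⟩ :=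
      hGe K 𝒜 S μ N W t R fm mo hN deg hi hW0
    obtain ⟨-, -, -, nrm, -, -, -, md⟩ := hMd K 𝒜 S μ n G.T y G.Nx r gx.md
    obtain ⟨lok, hI, hG⟩ := hR n y gx.md.y0
    obtain ⟨hc, hT⟩ := hG r G gx.ok.br.rho.2 h0 ht
    obtain ⟨Wt, idt, tw⟩ := hId K 𝒜 S μ n r y G σ ι κ D _ gx ok fun a k ad c c0 =>
      hc a k ad _ ((md F j).2.2 inferInstance c c0)
        (map_isIntegral_int (j.comp (algebraMap (𝓞 K) 𝒜))
          (Algebra.IsIntegral.isIntegral c)).isAlgebraic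
    have tw' : Wt.tw = fun A a k => -RR γ (j (y.equivFun.symm A)) (j (sm 𝒜 a k)) :=
      funext fun A => funext fun a => funext fun k => tw A a k
    refine ⟨n, span y Φ _ fun i k => ?_⟩
    by_contra hne
    have nd : (lp γ (j (algebraMap ℤ[X] 𝒜 X)) fun i => j (y i)).ND G.t1 := by
      refine ⟨i, k, fun e => hne (((hI _).symm.trans ?_).trans e)⟩
      simp only [lp, map_mul, map_pow, map_sub, map_intCast]
    refine hCore n r G gx.ok ?_ 2 1 _ Nat.prime_two le_rfl (mon y gx.md.y0 G.T G.t1) ?_ Wt _ idt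
      (tw' ▸ hCl _ n r G _ R _ gx.ok lok h0 ht hT)
      (gx.c0 ▸ hAr _ n r G.T G.t1 G.B _ R gx.ok.two gx.ok.tb gx.ok.br lok h0 _ _ cst nd)
    · rw [gx.c0]
      intro v
      simp
    · intro l hl hd
      rw [nrm, Algebra.norm_algebraMap_of_basis y] at hd
      have e : eval G.t1 ((X - C (G.t1 - 1)) ^ Fintype.card (Fin n)) = 1 := by simp
      rw [e] at hd
      exact absurd (Int.natCast_dvd_natCast.1 hd) hl.not_dvd_one
  obtain ⟨n, hn⟩ := key (⌈R⌉ + 1) (by push_cast; linarith [Int.le_ceil R])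
  obtain ⟨n', hn'⟩ := key (⌈R⌉ + 1 + 1) (by push_cast; linarith [Int.le_ceil R])
  have co : IsCoprime (algebraMap ℤ[X] 𝒜 X - ((⌈R⌉ + 1 : ℤ) : 𝒜))
      (algebraMap ℤ[X] 𝒜 X - ((⌈R⌉ + 1 + 1 : ℤ) : 𝒜)) := ⟨1, -1, by push_cast; ring⟩
  obtain ⟨a, b, hab⟩ := (co.pow : IsCoprime (_ ^ n) (_ ^ n'))
  intro u
  have e : u = (algebraMap ℤ[X] 𝒜 X - ((⌈R⌉ + 1 : ℤ) : 𝒜)) ^ n * (a * u) +
      (algebraMap ℤ[X] 𝒜 X - ((⌈R⌉ + 1 + 1 : ℤ) : 𝒜)) ^ n' * (b * u) := by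
    linear_combination (-u) * hab
  change Φ u = 0
  rw [e, map_add, hn, hn', add_zero]

theorem gBP : OfBP := by
  intro hW hFm hX hPv hE hLG K F _ _ _ _ _ O O' two M VV lam γ cl kt ω hω
  obtain ⟨𝒜, S, μ, x, N, h1, h2, h3, -, h5, h6, h7, h8⟩ :=
    hX K F O O' VV M 0 two.fg two.cl two.rat two.rat' two.ne kt.fin kt.dv kt.ne
  have hx : Fx O O' 𝒜 μ x N := ⟨two.rat, two.rat', two.ne, h1, h2, h3.pos, h5, h7, h8⟩
  obtain ⟨ι, κ, _, _, D, ok⟩ := hPv K F O O' 𝒜 S μ x N two.fg hx M VV lam (RR γ) kt h6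
  have fa := hFm (𝓞 K) 𝒜 S μ h1
  obtain ⟨c, hc⟩ := h1.cof
  have key : ∀ u a : 𝒜, IP γ ((u : F) • dd (a : F)) = 0 := by
    intro u a
    obtain ⟨d, hd⟩ := fa.bdd a
    obtain ⟨p, hp, pp⟩ := Nat.exists_infinite_primes (d + c + 2 * Module.finrank ℚ K + 1)
    have m1 : Mo μ p (μ ⟨p, hc p (by omega)⟩) := fa.bas ⟨p, hc p (by omega)⟩
    have m2 := fa.add p _ a m1 fun e he => hd e (by omega)
    have e1 := hE K F 𝒜 𝒜.val.toRingHom S μ p M _ ι κ D γ h1 m1 pp (by omega) two.i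
      (Nat.pos_of_ne_zero kt.ne) cl ok u
    have e2 := hE K F 𝒜 𝒜.val.toRingHom S μ p M _ ι κ D γ h1 m2 pp (by omega) two.i
      (Nat.pos_of_ne_zero kt.ne) cl ok u
    rw [map_add, dd, map_add, smul_add, (hW F).2.ia, e1, zero_add] at e2
    exact e2
  obtain ⟨n, n0, hn⟩ := hLG K F O O' 𝒜 S μ x N two.fg hx ω hω
  have hle : AddSubgroup.closure {w | ∃ u a : 𝒜, w = (u : F) • dd (a : F)} ≤
      (AddMonoidHom.mk' (IP γ) ((hW F).2.ia γ)).ker := by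
    rw [AddSubgroup.closure_le]
    rintro _ ⟨u, a, rfl⟩
    exact key u a
  have h0 : IP γ ((n : F) • ω) = 0 := hle hn
  have hz := (hW F).2.iz γ n ω
  rw [Int.cast_natCast, h0, Int.cast_natCast] at hz
  exact (mul_eq_zero.1 hz.symm).resolve_left (Nat.cast_ne_zero.2 n0)

end Pool.Agent.MP_f3836a_nt.GV.A.U
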