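import Pool.Agent.MP_f3836a_nt.RG.SpecG
import Pool.Agent.MP_f3836a_nt.GV.AHsG
import Pool.Agent.MP_f3836a_nt.GV.AId

/-! Part G: small curves, big curves, the twisted identities and the data of the core. -/

set_option autoImplicit false

namespace Pool.Agent.MP_f3836a_nt.GV.A.U

open Polynomial NumberField IsDedekindDomain VE VE.A GV.T RG

open AHsG in
theorem gHs : OfHsT := by
  intro hT hF hM hB hR hE hK hD K 𝒜 _ _ _ _ _ S μ n r _ y G σ ι κ _ _ D ρ gx ok hρ a k adm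
  classical
  obtain ⟨dom, -, -, -, -, mo, -, ev⟩ := hM K 𝒜 S μ n G.T y G.Nx r gx.md
  have fld := adm.fld
  have mem := adm.mem
  have k0 : (k : ℤ) ^ 2 ≠ 0 := pow_ne_zero 2 (Nat.cast_ne_zero.2 adm.pos.ne')
  have kp : ∀ p : ℕ, p.Prime → ¬p ∣ k → ¬(p : ℤ) ∣ (k : ℤ) ^ 2 := fun p hp h e =>
    h (hp.dvd_of_dvd_pow (by exact_mod_cast e))
  have ht : (a : ℝ) / (k : ℝ) ^ 2 = (((a : ℚ) / ((k : ℤ) ^ 2 : ℤ) : ℚ) : ℝ) := by simp
  rw [ht] at mem ⊢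
  have hr := hρ a k adm
  obtain ⟨h, hh⟩ : ∃ h : 𝒜, h = sm 𝒜 a k := ⟨_, rfl⟩
  rw [← hh] at hr ⊢
  unfold sm at hh
  have sp : Ideal.span {h, (G.W0 : 𝒜)} = ⊤ := by
    obtain ⟨c, e⟩ := adm.w0.2
    obtain ⟨d, ed⟩ := adm.w0.1
    have e' : (a : 𝒜) - 1 = G.W0 * c := by exact_mod_cast congrArg (Int.cast : ℤ → 𝒜) e
    have ed' : (k : 𝒜) = G.W0 * d := by exact_mod_cast congrArg (Nat.cast : ℕ → 𝒜) ed
    rw [Ideal.eq_top_iff_one,
      show (1 : 𝒜) = (k * d * algebraMap ℤ[X] 𝒜 X - c) * G.W0 - h by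
        rw [hh]; push_cast
        linear_combination -e' + (k : 𝒜) * algebraMap ℤ[X] 𝒜 X * ed']
    exact sub_mem (Ideal.mul_mem_left _ _ (Ideal.subset_span (by simp)))
      (Ideal.subset_span (by simp))
  generalize (k : ℤ) ^ 2 = b at fld mem k0 kp hh ⊢
  have h0 : h ≠ 0 := fun e => by
    have := y.algebraMap_injective (a₁ := C b * X - C a) (a₂ := 0) (by simpa [hh] using e)
    have := congrArg (coeff · 1) this
    simp only [coeff_sub, coeff_C_mul_X, coeff_C_succ, if_true, sub_zero, coeff_zero] at this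
    exact k0 this
  by_cases hz : ∀ v, D.ev v h ≠ 0
  · refine ⟨fun _ => 0, 0, by simp, by simp [gx.c0, Cz], fun m g T hg _ _ _ => ?_⟩
    rw [ok.sym g h (mo m g hg).1 h0 (fun v _ => hz v) sp, ok.L_zero h0 hz]
    simp
  obtain ⟨v, hv⟩ : ∃ v, D.ev v h = 0 := by simpa using hz
  have fb := fun v hv => hB K 𝒜 S μ n G.T y G.Nx r gx.md (κ v) (D.ev v) a b (ok.sur v) k0 fld
    (hh ▸ hv : D.ev v (b * algebraMap ℤ[X] 𝒜 X - a) = 0)
  obtain ⟨z0, z, -, -, m0, m1, f1, f2⟩ := fb v hv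
  have uq : ∀ v', D.ev v' h = 0 → v' = v := fun v' hv' => by
    by_contra ne
    obtain ⟨u, u1, u2⟩ := ok.sep v' v ne
    obtain ⟨z', -, -, -, -, -, f, -⟩ := fb v' hv'
    exact u2 (by simp [f1 u, ind z' ((f u).symm.trans u1)])
  obtain ⟨l, al, hl⟩ : ∃ l : κ v → ℝ, GP.Adr l ∧ ∀ u, D.L h u = l (D.ev v u) :=
    ⟨fun w => D.ord v h * D.lam v w, fun u u' h1 h2 => by simp only [ok.add v u u' h1 h2, mul_add],
      fun u => finsum_eq_single _ v fun v' ne => by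
        simp [(ok.ord0 v' h h0).2 fun e => ne (uq v' e)]⟩
  have l0 : ∀ s : 𝓞 K, s ≠ 0 → l (D.ev v (algebraMap _ 𝒜 s)) = 0 := fun s hs => by
    have n0 := fun v => (ev (κ v) (D.ev v)).2.2 inferInstance s hs
    have n1 : algebraMap _ 𝒜 s ≠ 0 := fun e => n0 v (by rw [e, map_zero])
    have q := ok.sym _ h n1 h0 (fun v e => absurd e (n0 v)) sp
    rw [ok.L_zero n1 n0, hr s hs, sub_zero, hl] at q
    exact q.symm
  obtain ⟨τ, c, φ, t1, c0, hφ⟩ := hE n r (κ v) G.T _ z0 _ l gx.ok.two m0 (gx.ok.br.em _ mem) al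
  have t2 : ∀ w u, τ w (D.ev v u) = G.B.ev (y.repr u) w (((a : ℚ) / b : ℚ) : ℝ) := fun w u => by
    rw [f1 u, map_sum]
    refine Finset.sum_congr rfl fun i _ => ?_
    rw [map_mul, map_ratCast, t1]
    exact congrArg (· * _) ((Complex.ofReal_ratCast _).symm.trans (congrArg _
      (aeval_algebraMap_apply ℝ ((a : ℚ) / b) (y.repr u i)).symm))
  have a2 := adr al τ c
  have l1 : ∀ N : ℤ, N ≠ 0 → l N - ∑ w, c w * Real.log ‖τ w N‖ = 0 := fun N hN => by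
    have := l0 N (Int.cast_ne_zero.2 hN)
    simp only [map_intCast] at this ⊢
    rw [this, ← Finset.sum_mul, c0]
    simp
  obtain ⟨ψ, H1, H2⟩ := hK n (κ v) (G.T.Mh a b) z
    (fun u => l u - ∑ w, c w * Real.log ‖τ w u‖) φ m1 hφ
  have rp := fun w => hR n G.T G.P G.t1 a b w gx.ok.tb gx.ok.alg
  refine ⟨fun w => ψ w.p fun i => b ^ G.T.e i * G.P.sv w i, c, fun p t hp h1 h2 => ?_, ?_,
    fun m g T hg nd hw e => ?_⟩
  · obtain ⟨p1, -, p2, -⟩ := gx.ok.alg.bas p t hp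
    have cd := (hF _ p p2).1.trans gx.ok.alg.two.symm
    obtain ⟨y0, hy⟩ := Finset.card_pos.1 (cd ▸ NeZero.pos n)
    rw [← H2 p _ _ p1 cd (fun y hy => (rp ⟨p, t, y⟩ ⟨hp, hy⟩ h1 (kp p p1 h2)).1)
      (rp ⟨p, t, y0⟩ ⟨hp, hy⟩ h1 (kp p p1 h2)).2.2]
    simpa using l1 p (Nat.cast_ne_zero.2 p1.ne_zero)
  · rw [gx.c0]
    refine hD K r σ c c0 fun u => ?_
    obtain ⟨U, u1, u2, u3⟩ := unit ((D.ev v).comp (algebraMap (𝓞 K) 𝒜)) u
    have := hφ U u2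
    simp only [u1, u3, RingHom.comp_apply, l0 _ u.ne_zero, t2, gx.con _ _ mem, mul_zero,
      finsum_zero, zero_sub, neg_eq_zero] at this
    exact this
  · have mn := (gx.md.mon m g).1 hg
    have pr := fun w hw' => (gx.ok.alg.bas _ _ (hw w hw').1.1).1
    have rq := fun w hw' => rp w (hw w hw').1 (hw w hw').2.1 (kp _ (pr w hw') (hw w hw').2.2.2)
    have e' := e.trans ((hT n G.T a b gx.ok.tb).2.2.2 k0 m _ mn).symm
    have H := H1 (fun w i => b ^ G.T.e i * G.P.sv w i) _ T (fun w hw' => ⟨pr w hw', (rq w hw').1⟩)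
      ⟨nd, fun w hw' => (rq w hw').2.1 m _ mn (hw w hw').2.2.1, e'⟩
    have g0 : D.ev v g ≠ 0 := fun e0 => by
      have h1 : G.T.val m (y.repr g) a b = 0 := funext fun i => by
        exact_mod_cast ind z (c := fun i => G.T.val m (y.repr g) a b i)
          (by simpa [e0] using f2 m g hg) i
      rw [h1] at e'
      obtain ⟨w, w1, w2⟩ := Multiset.mem_map.1 (Multiset.prod_eq_zero_iff.1
        (show nT T = 0 by simpa [Nm, Mx] using e'))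
      exact (pr w w1).ne_zero w2
    have H' := a2 _ _ (Int.cast_ne_zero.2 (pow_ne_zero m k0)) g0
    beta_reduce at H H'
    rw [l1 _ (pow_ne_zero m k0), Int.cast_pow, ← f2 m g hg, H] at H'
    rw [ok.sym g h (mo m g hg).1 h0 (fun v' e1 e2 => g0 (uq v' e2 ▸ e1)) sp, hl, H']
    simp [t2]

theorem gGs : OfGsT := by
  intro hG hN hM K 𝒜 _ _ _ _ _ S μ n r _ y G σ ι κ _ _ D ρ gx ok _ m g hm
  obtain ⟨-, -, ha, -, -, hmo, -⟩ := hM K 𝒜 S μ n G.T y G.Nx r gx.md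
  obtain ⟨hg, hn⟩ := hmo m g hm
  obtain ⟨w, hw⟩ := (hN ℤ[X] 𝒜 (Fin n) y).2.1 g
  set x := algebraMap ℤ[X] 𝒜 X
  have key : ∀ v : ι, ∃ Φ c, D.ev v g = 0 → Dec (Algebra.norm ℤ[X] g) (n * m)
      (fun a b => D.lam v (D.ev v (b * x - a))) (fun p => D.lam v (D.ev v p)) Φ c := fun v => by
    by_cases hv : D.ev v g = 0
    · obtain ⟨Φ, c, h⟩ := hG (κ v) (D.lam v) (D.ev v x) _ _ (ok.add v) hn.monic hn.natDegree_eq
        ((aeval_algHom_apply (D.ev v).toIntAlgHom x _).trans (by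
          rw [← ha, hw, map_mul, RingHom.toIntAlgHom_apply, hv, zero_mul]))
      exact ⟨Φ, c, fun _ => by simpa only [map_sub, map_mul, map_intCast, map_natCast] using h⟩
    · exact ⟨0, 0, fun h => absurd h hv⟩
  choose Φ c h using key
  have h' : ∀ v ∈ (ok.fin g hg).toFinset, _ := fun v hv => h v (by simpa using hv)
  refine ⟨fun p a b => ∑ v ∈ (ok.fin g hg).toFinset, (D.ord v g : ℝ) * Φ v p a b,
    fun θ => ∑ v ∈ (ok.fin g hg).toFinset, (D.ord v g : ℝ) * c v θ, ?_,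
    fun a b hb hab => ?_, fun p a b a' b' hs => ?_, fun t0 p σ hp hs => ?_⟩
  · rw [Finset.sum_comm]
    exact Finset.sum_eq_zero fun v hv => by rw [← Finset.mul_sum, (h' v hv).sum, mul_zero]
  · rw [ok.L_eq hg, Finset.sum_comm]
    unfold ug
    simp only [Finset.sum_mul]
    rw [Finset.sum_comm (s := rts _), ← Finset.sum_add_distrib]
    refine Finset.sum_congr rfl fun v hv => ?_
    have := (h' v hv).val a b hb hab
    simp only [ug] at this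
    rw [this, mul_add, Finset.mul_sum, Finset.mul_sum]
    simp only [mul_assoc]
  · exact Finset.sum_congr rfl fun v hv => by rw [(h' v hv).sim p a b a' b' hs]
  · rw [ok.L_eq hg, Finset.mul_sum]
    exact Finset.sum_congr rfl fun v hv => by rw [(h' v hv).slo t0 p σ hp hs]; ring

theorem gId : OfIdU := by
  intro Phi Mds Gs Hs K 𝒜 _ _ _ _ _ S μ n r _ y G σ ι κ _ _ D ρ hG hD hρ
  have nrm := (Mds K 𝒜 S μ n G.T y G.Nx r hG.md).2.2.2.1
  have hψ : ∀ (a : ℤ) (k : ℕ), ∃ (ψ : Pt → ℝ) (c : Fin r → ℝ), G.Adm a k → _ := fun a k => by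
    by_cases h : G.Adm a k
    · obtain ⟨ψ, c, h'⟩ := Hs K 𝒜 S μ n r y G σ ι κ D ρ hG hD hρ a k h
      exact ⟨ψ, c, fun _ => h'⟩
    · exact ⟨0, 0, fun h' => absurd h' h⟩
  have hφ : ∀ g : 𝒜, ∃ (φ : Pt → ℝ) (c : ℂ → ℝ), ∀ m, Mo μ (G.Nx * m) g →
      (∃ Φ, Dec (Algebra.norm ℤ[X] g) (n * m) (fun a b => D.L g (b * algebraMap ℤ[X] 𝒜 X - a))
        (fun p => D.L g p) Φ c) ∧
      ∀ (a b : ℤ) (T : Multiset Pt), 0 < b → Nd T →
        (∀ z ∈ T, z.p.Prime ∧ On a b z ∧ ¬(z.p : ℤ) ∣ b) →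
        (nT T : ℤ) = hv (Algebra.norm ℤ[X] g) (n * m) a b →
        D.L g (b * algebraMap ℤ[X] 𝒜 X - a) =
          (T.map φ).sum + ug (Algebra.norm ℤ[X] g) c ((a : ℝ) / b) := fun g => by
    by_cases h : ∃ m, Mo μ (G.Nx * m) g
    · obtain ⟨m, hm⟩ := h
      obtain ⟨Φ, c, h1⟩ := Gs K 𝒜 S μ n r y G σ ι κ D ρ hG hD hρ m g hm
      obtain ⟨φ, h2, -⟩ := Phi _ _ _ _ Φ c h1
      refine ⟨φ, c, fun m' hm' => ?_⟩
      obtain rfl : m = m' := ((hG.md.mon m g).1 hm).2.1.symm.trans ((hG.md.mon m' g).1 hm').2.1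
      exact ⟨⟨Φ, h1⟩, h2⟩
    · exact ⟨0, 0, fun m hm => absurd ⟨m, hm⟩ h⟩
  choose ψ c hψ using hψ
  choose φ cθ hφ using hφ
  have e : ∀ g : 𝒜, y.equivFun.symm (y.repr g) = g := y.equivFun.symm_apply_apply
  refine ⟨⟨ψ, c, fun A => φ (y.equivFun.symm A), fun A => cθ (y.equivFun.symm A),
      fun A a k => -ρ (y.equivFun.symm A) (sm 𝒜 a k)⟩,
    ⟨fun a k p τ h1 h2 => (hψ a k h2).1 p τ h1, fun a k h => (hψ a k h).2.1, fun m A h => ?_,
      fun m A a k T h hk hN hT hn => ?_⟩, fun _ _ _ => rfl⟩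
  · obtain ⟨g, rfl⟩ : ∃ g, A = y.repr g := ⟨_, (y.equivFun.apply_symm_apply A).symm⟩
    obtain ⟨Φ, h1⟩ := (hφ g m ((hG.md.mon m g).2 h)).1
    dsimp only
    rw [nrm, e]
    exact h1.sum
  · obtain ⟨g, rfl⟩ : ∃ g, A = y.repr g := ⟨_, (y.equivFun.apply_symm_apply A).symm⟩
    have hm := (hG.md.mon m g).2 h
    have q1 := (hψ a k hk).2.2 m g T hm hN hT hn
    have pr : ∀ z ∈ T, z.p.Prime := fun z hz => (hG.ok.alg.bas z.p z.t (hT z hz).1.1).1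
    have k0 := hk.pos
    rw [nrm] at hn
    have q2 := (hφ g m hm).2 a ((k : ℤ) ^ 2) T (by positivity) hN (fun z hz => ⟨pr z hz,
      (hT z hz).2.1, fun h => (hT z hz).2.2.2 (Int.natCast_dvd_natCast.1
        ((Nat.prime_iff_prime_int.1 (pr z hz)).dvd_of_dvd_pow h))⟩) hn
    dsimp only
    rw [nrm, e, ← sub_eq_add_neg, ← q1]
    unfold sm
    rw [q2, Int.cast_pow, Int.cast_natCast]

theorem gGe : OfGeT := by
  intro Tab Pts Brh Cst Ar Mds K 𝒜 _ _ _ _ _ S μ N W t1 R h1 h2 h3 h4 h5 hW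
  obtain ⟨n, r, hn, T, y, hM⟩ := Tab K 𝒜 S μ N h1 h2 h3 h4 h5
  obtain ⟨P, hP, hP'⟩ := Pts n r T t1 hM.two hM.ok (Mds K 𝒜 S μ n T y N r hM).2.2.2.2.2.2.1
  have od : Odd N := h3.odd_of_ne_two (by
    have := Module.finrank_pos (R := ℚ) (M := K)
    omega)
  obtain ⟨B, σ, hB, hR, s1, s2⟩ := Brh K 𝒜 S μ n T y N r t1 R hM od h5
  exact ⟨n, r, hn, y, ⟨T, P, B, t1, W, N, Cz fun w => InfinitePlace.mk (σ w)⟩, σ,
    ⟨hM, ⟨hM.two, hM.ok, hP, hP', hB, hW, hM.nx, hM.fld, fun _ => AId.cz_sum,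
      Ar n r T t1 B _ _ hM.two hM.ok hB (Cst n r B R _ _ hB.rho.1 s2)⟩, rfl, s1⟩,
    rfl, rfl, hR, s2⟩

end Pool.Agent.MP_f3836a_nt.GV.A.U
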