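import Pool.Agent.MP_f3836a_nt.RG.SpecG
import Pool.Agent.MP_f3836a_nt.GV.APv

/-! Part G, rows `PvT` and `LG`: the twisted pairing on places and regular differentials. -/

set_option autoImplicit false

namespace Pool.Agent.MP_f3836a_nt.GV.A.U

open Polynomial NumberField IsDedekindDomain VE VE.A GV.T RG PK VE.Z GP IsLocalRing

open APv in
theorem gPv : OfPvT := by
  intro hFin hNb hVal hW hPg hPh K F _ _ _ _ _ O O' 𝒜 S μ x N hF hx M VV lam ρ hK hV
  classical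
  have hI := hFin F hF
  have hN := hNb K F (al K) hI
  have G := hPg K F O O' 𝒜 S μ x N hF hx
  have H := hPh K F O O' 𝒜 S μ x N hF hx
  let ι := {P : Subring F // Pl P ∧ P ≠ O'}
  have loc : ∀ v : ι, IsLocalRing v.1 := fun v => (dvA v.2.1.1).loc
  have mem : ∀ (v : ι) (a : 𝒜), (a : F) ∈ v.1 := fun v a =>
    (hx.mem a).2 ⟨1, one_ne_zero, by simp⟩ v.1 v.2.1 v.2.2
  have hμ := adr hN (hK.fn O' (.inl hx.rat'.1)) hx.rat'.1
  set μ0 : K → ℝ := fun c => lam O' (algebraMap K F c)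
  let l2 : Subring F → F → ℝ := fun P u => lam P u - μ0 (nmK K P u)
  have f2 : ∀ P, Pl P → Fn P (l2 P) := fun P hP => (hK.fn P (.inl hP)).sub (fn hN hμ hP)
  choose l' a' e' using fun v : ι => res (f2 v.1 v.2.1)
  let D : Pv 𝒜 ι fun v => ResidueField v.1 :=
    ⟨fun v => (residue v.1).comp (𝒜.val.toRingHom.codRestrict v.1 (mem v)),
      fun v g => (ordR v.1 (g : F)).toNat, l'⟩
  have nu : ∀ v (a : 𝒜), D.ev v a = 0 ↔ Nu v.1 a := fun v a =>
    (TNb.nu_res (O := v.1) ⟨a, mem v a⟩).symm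
  have ut : ∀ v (a : 𝒜), D.ev v a ≠ 0 ↔ Ut v.1 a := fun v a => by
    rw [Ne, nu, nu_iff_not (mem v a), not_not]
  have val : ∀ (v : ι) (a : 𝒜), Ut v.1 a → D.lam v (D.ev v a) = l2 v.1 a := fun v a h =>
    e' v ⟨a, mem v a⟩ h
  have ne : ∀ {g : 𝒜}, g ≠ 0 → (g : F) ≠ 0 := fun h e => h (Subtype.ext e)
  have o0 : ∀ v g, g ≠ 0 → (D.ord v g = 0 ↔ D.ev v g ≠ 0) := fun v g hg => by
    have := ((dvA v.2.1.1).mem _ (ne hg)).1 (mem v g)
    rw [ut, (dvA v.2.1.1).ut, and_iff_right (ne hg)]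
    exact Int.toNat_eq_zero.trans ⟨fun h => h.antisymm this, Eq.le⟩
  have Leq : ∀ (g u : 𝒜) (T : Finset (Subring F)), g ≠ 0 → (∀ v, D.ev v g = 0 → D.ev v u ≠ 0) →
      (∀ P ∈ T, Pl P) → (∀ P, Pl P → ordR P (g : F) ≠ 0 → P ∈ T) →
      D.L g u = ∑ P ∈ T.erase O', ((ordR P (g : F)).toNat : ℝ) * l2 P u := by
    intro g u T hg h t1 t2
    rw [← finsum_cond_eq_sum_of_cond_iff (p := fun P => Pl P ∧ P ≠ O') _ fun {P} k =>
      ⟨fun a => Finset.mem_erase.2 ⟨a.2, t2 P a.1 fun e => k (by simp [e])⟩,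
        fun a => ⟨t1 P (Finset.mem_of_mem_erase a), Finset.ne_of_mem_erase a⟩⟩,
      ← finsum_subtype_eq_finsum_cond]
    refine finsum_congr fun v => ?_
    by_cases k : D.ev v g = 0
    · rw [val v u ((ut v u).1 (h v k))]
    · have : (ordR v.1 (g : F)).toNat = 0 := (o0 v g hg).2 k
      rw [this, (o0 v g hg).2 k, Nat.cast_zero, zero_mul, zero_mul]
  refine ⟨ι, _, inferInstance, fun v => ?_, D, ⟨fun g hg => ?_, o0, a',
    fun v z => ?_, fun v v' h => ?_, fun g u hg hu h ht => ?_⟩⟩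
  · have : CharZero (ResidueField v.1) :=
      charZero_of_injective_ringHom (GP.emb K v.1 (hN.mem _ v.2.1)).injective
    exact { to_finiteDimensional := hI.fd v.1 v.2.1 }
  · refine ((hI.fin g).preimage Subtype.val_injective.injOn).subset fun v hv => ⟨v.2.1, ?_⟩
    exact ((((dvA v.2.1.1).nu _).1 ((nu v g).1 hv)).resolve_left (ne hg)).ne'
  · obtain ⟨z, rfl⟩ := residue_surjective z
    obtain ⟨a, n, hn, e⟩ := G.sur v.1 v.2.1 v.2.2 z z.2
    refine ⟨a, n, hn, ?_⟩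
    rw [← map_natCast (residue v.1), ← map_mul]
    exact (TNb.nu_sub (mem v a) (n * z : v.1).2).1 e
  · obtain ⟨u, a, b⟩ := G.sep v.1 v'.1 v.2.1 v.2.2 v'.2.1 v'.2.2 fun e => h (Subtype.ext e)
    exact ⟨u, (nu v u).2 a, (ut v' u).2 b⟩
  · let T := ((hI.fin g).union (hI.fin u)).toFinset
    have t1 : ∀ P ∈ T, Pl P := fun P k => ((Set.Finite.mem_toFinset _).1 k).elim (·.1) (·.1)
    have t2 : ∀ P, Pl P → ordR P (g : F) ≠ 0 → P ∈ T := fun P a b =>
      (Set.Finite.mem_toFinset _).2 (.inl ⟨a, b⟩)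
    have t3 : ∀ P, Pl P → ordR P (u : F) ≠ 0 → P ∈ T := fun P a b =>
      (Set.Finite.mem_toFinset _).2 (.inr ⟨a, b⟩)
    have t4 : ∀ P (l : F → ℝ), Pl P → Fn P l → l (tameE P g u) ≠ 0 → P ∈ T := fun P l a b c =>
      by_contra fun k => c (by
        rw [tame_l (by_contra fun e => k (t2 P a e)), (by_contra fun e => k (t3 P a e) :
          ordR P (u : F) = 0), zpow_zero, b.one])
    have vv : ∀ V ∈ VV, lam V (tameE V g u) = 0 := fun V k => by
      obtain ⟨d, m⟩ := hK.dv V k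
      have := (dvA d).loc
      have i := H.int V d (hV V k)
      have uu : Ut V u := (nu_or (i u).1).resolve_left fun e => by
        obtain ⟨a, c, e1⟩ := Ideal.mem_span_pair.1 ((Ideal.eq_top_iff_one _).1 ht)
        have e2 : (1 : F) = a * u + c * M := by exact_mod_cast congrArg Subtype.val e1.symm
        exact (e2 ▸ (e.mul (i a).1).add (m.mul (i c).1)).not ut_one
      obtain ⟨p, hp, e⟩ := ex_nu fun ho => m.not (ho_ut ho hK.ne)
      rw [tame_r (((dvA d).ut _).1 uu).2, (hK.fn V (.inr k)).zpow uu,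
        (hK.fn V (.inr k)).tor uu ((hVal F V d).2.2.2 p u hp e uu (i u).2), mul_zero]
    have b1 := hK.bd g u (ne hg) (ne hu)
    have b2 := hW K F hF μ0 g u hμ (ne hg) (ne hu)
    rw [finsum_cond_eq_sum_of_cond_iff (t := T) _ fun {P} k => ⟨fun a => a.elim
      (fun a => t4 P _ a (hK.fn P (.inl a)) k) fun a => absurd (vv P a) k, fun a => .inl (t1 P a)⟩]
      at b1
    rw [GP.bt, finsum_cond_eq_sum_of_cond_iff (t := T) _ fun {P} k =>
      ⟨fun a => t4 P _ a (fn hN hμ a) k, t1 P⟩] at b2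
    have b3 : ∑ P ∈ T, l2 P (tameE P g u) = ρ g u := by
      rw [Finset.sum_sub_distrib, b1, b2, sub_zero]
    have b4 : l2 O' (tameE O' g u) = 0 := by
      have k := tame_ut hx.rat'.1.1 (ne hg) (ne hu)
      exact sub_eq_zero.2 ((hK.fn O' (.inl hx.rat'.1)).cg _ _ k
        ((hN.con O' hx.rat'.1).2 _ (hN.ne O' _ hx.rat'.1 k)).1 ((hN.rat O' hx.rat').2 _ k))
    rw [← Finset.sum_erase (f := fun P => l2 P (tameE P g u)) (a := O') _ b4] at b3
    rw [Leq g u T hg h t1 t2, Leq u g T hu (fun v a b => h v b a) t1 t3, eq_comm,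
      sub_eq_iff_eq_add, ← sub_eq_iff_eq_add', ← Finset.sum_sub_distrib, ← b3]
    refine Finset.sum_congr rfl fun P k => ?_
    let v : ι := ⟨P, t1 P (Finset.mem_of_mem_erase k), Finset.ne_of_mem_erase k⟩
    exact (tm (f2 P v.2.1) v.2.1.1 (mem v g) (mem v u) (ne hg) (ne hu)
      fun e => (ut v u).1 (h v ((nu v g).2 e))).symm

namespace GLG

variable {F : Type} [Field F] {R P : Subring F} {r : F} {w : Om F}

/-- the functions which are regular away from `O'` -/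
def RoS (O' : Subring F) : Subring F where
  carrier := {z | M.Ro O' z}
  mul_mem' := fun a b P h k => P.mul_mem (a P h k) (b P h k)
  one_mem' := fun P _ _ => P.one_mem
  add_mem' := fun a b P h k => P.add_mem (a P h k) (b P h k)
  zero_mem' := fun P _ _ => P.zero_mem
  neg_mem' := fun a P h k => P.neg_mem (a P h k)

theorem gen {a b : F} (ha : a ∈ R) (hb : b ∈ R) : RegAt R (a • dd b) :=
  AddSubgroup.subset_closure ⟨a, ha, b, hb, rfl⟩

theorem add {w' : Om F} (h : RegAt R w) (h' : RegAt R w') : RegAt R (w + w') :=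
  AddSubgroup.add_mem _ h h'

theorem sub {w' : Om F} (h : RegAt R w) (h' : RegAt R w') : RegAt R (w - w') :=
  AddSubgroup.sub_mem _ h h'

theorem smul (hr : r ∈ R) (h : RegAt R w) : RegAt R (r • w) := by
  induction h using AddSubgroup.closure_induction with
  | mem w h =>
    obtain ⟨a, ha, b, hb, rfl⟩ := h
    rw [smul_smul]
    exact gen (R.mul_mem hr ha) hb
  | zero => rw [smul_zero]; exact AddSubgroup.zero_mem _
  | add w w' _ _ h h' => rw [smul_add]; exact add h h'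
  | neg w _ h => rw [smul_neg]; exact AddSubgroup.neg_mem _ h

theorem all (Φ : Subring F → F → Prop) (T : Finset (Subring F))
    (h1 : ∀ Q ∈ T, ∀ c r, r ∈ R → Φ Q c → Φ Q (r * c))
    (h2 : ∀ Q ∈ T, ∃ c ∈ R, Ut P c ∧ Φ Q c) : ∃ c ∈ R, Ut P c ∧ ∀ Q ∈ T, Φ Q c := by
  classical
  induction T using Finset.induction_on with
  | empty => exact ⟨1, R.one_mem, ut_one, by simp⟩
  | insert Q T _ ih =>
    obtain ⟨c, hc, uc, k⟩ := ih (fun Q' h => h1 Q' (Finset.mem_insert_of_mem h))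
      fun Q' h => h2 Q' (Finset.mem_insert_of_mem h)
    obtain ⟨d, hd, ud, k'⟩ := h2 Q (Finset.mem_insert_self _ _)
    refine ⟨c * d, R.mul_mem hc hd, uc.mul ud, fun Q' h => ?_⟩
    rcases Finset.mem_insert.1 h with rfl | h'
    · exact h1 _ h d c hc k'
    · rw [mul_comm]
      exact h1 _ h c d hd (k Q' h')

theorem pw {Q : Subring F} (hQ : Dvr Q) {u : F} (hu : Nu Q u) (u0 : u ≠ 0) (z : F) :
    ∃ k : ℕ, u ^ k * z ∈ Q := by
  rcases eq_or_ne z 0 with rfl | z0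
  · exact ⟨0, by simp⟩
  · refine ⟨(ordR Q z).natAbs, ((dvA hQ).mem _ (mul_ne_zero (pow_ne_zero _ u0) z0)).2 ?_⟩
    have h1 := (((dvA hQ).nu u).1 hu).resolve_left u0
    rw [(dvA hQ).mul _ _ (pow_ne_zero _ u0) z0, ← zpow_natCast, (dvA hQ).zpow _ _ u0,
      Int.natCast_natAbs]
    nlinarith [neg_abs_le (ordR Q z), abs_nonneg (ordR Q z)]

theorem loc (h : ∀ z ∈ P, ∃ c ∈ R, Ut P c ∧ c * z ∈ R) (hw : RegAt P w) :
    ∃ c ∈ R, Ut P c ∧ RegAt R (c • w) := by
  induction hw using AddSubgroup.closure_induction with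
  | mem w hw =>
    obtain ⟨a, ha, b, hb, rfl⟩ := hw
    obtain ⟨c, hc, uc, ka⟩ := h a ha
    obtain ⟨d, hd, ud, kb⟩ := h b hb
    refine ⟨c * (d * d), R.mul_mem hc (R.mul_mem hd hd), uc.mul (ud.mul ud), ?_⟩
    have e : (c * (d * d)) • a • KaehlerDifferential.D ℤ F b =
        (c * a) • (d • dd (d * b) - (d * b) • dd d) := by
      rw [dd, Derivation.leibniz]
      module
    rw [e]
    exact smul ka (sub (gen hd kb) (gen kb hd))
  | zero => exact ⟨1, R.one_mem, ut_one, by rw [smul_zero]; exact AddSubgroup.zero_mem _⟩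
  | add w w' _ _ k k' =>
    obtain ⟨c, hc, uc, kc⟩ := k
    obtain ⟨d, hd, ud, kd⟩ := k'
    refine ⟨c * d, R.mul_mem hc hd, uc.mul ud, ?_⟩
    have e : (c * d) • (w + w') = d • c • w + c • d • w' := by module
    rw [e]
    exact add (smul hd kc) (smul hc kd)
  | neg w _ k =>
    obtain ⟨c, hc, uc, kc⟩ := k
    exact ⟨c, hc, uc, by rw [smul_neg]; exact AddSubgroup.neg_mem _ kc⟩

theorem clr {A : Type} (j : A → F) (h : ∀ z ∈ R, ∃ n : ℕ, n ≠ 0 ∧ ∃ a, j a = n * z)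
    (hw : RegAt R w) : ∃ n : ℕ, n ≠ 0 ∧
      (n : F) • w ∈ AddSubgroup.closure {w | ∃ u a : A, w = j u • dd (j a)} := by
  induction hw using AddSubgroup.closure_induction with
  | mem w hw =>
    obtain ⟨a, ha, b, hb, rfl⟩ := hw
    obtain ⟨n, hn, u, eu⟩ := h a ha
    obtain ⟨m, hm, v, ev⟩ := h b hb
    refine ⟨n * m, mul_ne_zero hn hm, AddSubgroup.subset_closure ⟨u, v, ?_⟩⟩
    rw [eu, ev, dd, Derivation.leibniz, Derivation.map_natCast, Nat.cast_mul]
    module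
  | zero => exact ⟨1, one_ne_zero, by rw [smul_zero]; exact AddSubgroup.zero_mem _⟩
  | add w w' _ _ k k' =>
    obtain ⟨n, hn, kn⟩ := k
    obtain ⟨m, hm, km⟩ := k'
    refine ⟨n * m, mul_ne_zero hn hm, ?_⟩
    have e : ((n * m : ℕ) : F) • (w + w') = m • (n : F) • w + n • (m : F) • w' := by
      rw [Nat.cast_mul]
      module
    rw [e]
    exact AddSubgroup.add_mem _ (nsmul_mem kn m) (nsmul_mem km n)
  | neg w _ k =>
    obtain ⟨n, hn, kn⟩ := k
    exact ⟨n, hn, by rw [smul_neg]; exact AddSubgroup.neg_mem _ kn⟩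

end GLG

open APv GLG in
theorem gLG : OfLG := by
  intro hFin hNb hPg hC K F _ _ _ _ _ O O' 𝒜 S μ x N hF hx ω hω
  classical
  have hI := hFin F hF
  have hN := hNb K F (al K) hI
  have G := hPg K F O O' 𝒜 S μ x N hF hx
  have sep : ∀ P Q, Pl P → P ≠ O' → Pl Q → Q ≠ O' → Q ≠ P →
      ∃ u ∈ RoS O', Ut P u ∧ Nu Q u := fun P Q a b c d e => by
    obtain ⟨u, h1, h2⟩ := G.sep Q P c d a b e
    exact ⟨u, (hx.mem u).2 ⟨1, one_ne_zero, by simp⟩, h2, h1⟩
  have den : ∀ P, Pl P → P ≠ O' → ∀ z ∈ P, ∃ c ∈ RoS O', Ut P c ∧ c * z ∈ RoS O' := by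
    intro P a b z hz
    have fin : {Q : Subring F | Pl Q ∧ Q ≠ O' ∧ z ∉ Q}.Finite := (hI.fin z).subset fun Q k =>
      ⟨k.1, fun e => k.2.2 (((dvA k.1.1).mem z fun e' => k.2.2 (e' ▸ Q.zero_mem)).2 e.ge)⟩
    obtain ⟨c, hc, uc, k⟩ := all (R := RoS O') (P := P) (fun Q c => c * z ∈ Q) fin.toFinset
      (fun Q hQ c r hr k => by
        have hQ' := (Set.Finite.mem_toFinset _).1 hQ
        rw [mul_assoc]
        exact Q.mul_mem (hr Q hQ'.1 hQ'.2.1) k)
      fun Q hQ => by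
        have hQ' := (Set.Finite.mem_toFinset _).1 hQ
        obtain ⟨u, hu, u1, u2⟩ := sep P Q a b hQ'.1 hQ'.2.1 fun e => hQ'.2.2 (e ▸ hz)
        obtain ⟨k, hk⟩ := pw hQ'.1.1 u2 u1.1 z
        exact ⟨u ^ k, pow_mem hu k, u1.pow k, hk⟩
    refine ⟨c, hc, uc, fun Q h1 h2 => ?_⟩
    by_cases e : z ∈ Q
    · exact Q.mul_mem (hc Q h1 h2) e
    · exact k Q ((Set.Finite.mem_toFinset _).2 ⟨h1, h2, e⟩)
  have one : ∀ P, Pl P → P ≠ O' → ∃ c ∈ RoS O', Ut P c ∧ RegAt (RoS O') (c • ω) :=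
    fun P a b => loc (den P a b) (hω P a)
  have many : ∀ T : Finset (Subring F), (∀ P ∈ T, Pl P ∧ P ≠ O') →
      ∃ c ∈ RoS O', RegAt (RoS O') (c • ω) ∧ ∀ P ∈ T, Ut P c := by
    intro T
    induction T using Finset.induction_on with
    | empty => exact fun _ =>
        ⟨0, Subring.zero_mem _, by rw [zero_smul]; exact AddSubgroup.zero_mem _, by simp⟩
    | insert P T hP ih =>
      intro h
      have hT := fun Q k => h Q (Finset.mem_insert_of_mem k)
      obtain ⟨a, b⟩ := h P (Finset.mem_insert_self _ _)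
      obtain ⟨c, hc, rc, k⟩ := ih hT
      rcases nu_or (hc P a b) with e | e
      · obtain ⟨d, hd, ud, rd⟩ := one P a b
        obtain ⟨u, hu, uu, ku⟩ := all (R := RoS O') (P := P) (fun Q c => Nu Q c) T
          (fun Q hQ c r hr k => k.mul (hr Q (hT Q hQ).1 (hT Q hQ).2))
          fun Q hQ => sep P Q a b (hT Q hQ).1 (hT Q hQ).2 fun e => hP (e ▸ hQ)
        refine ⟨c + d * u, add_mem hc (mul_mem hd hu), ?_, fun Q hQ => ?_⟩
        · rw [add_smul, mul_comm, mul_smul]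
          exact add rc (smul hu rd)
        · have := (dvA (h Q hQ).1.1).loc
          rcases Finset.mem_insert.1 hQ with rfl | hQ'
          · rw [add_comm]
            exact (ud.mul uu).add e
          · exact (k Q hQ').add ((ku Q hQ').mul (hd Q (hT Q hQ').1 (hT Q hQ').2))
      · exact ⟨c, hc, rc, fun Q hQ => (Finset.mem_insert.1 hQ).elim (fun e' => e' ▸ e) (k Q)⟩
  obtain ⟨q, hq, uq, rq⟩ := one O hx.rat.1 hx.ne
  have fin : {Q : Subring F | Pl Q ∧ Q ≠ O' ∧ Nu Q q}.Finite := (hI.fin q).subset fun Q k =>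
    ⟨k.1, ((((dvA k.1.1).nu q).1 k.2.2).resolve_left uq.1).ne'⟩
  obtain ⟨w, hw, rw', uw⟩ := many (insert O fin.toFinset) fun P hP => by
    rcases Finset.mem_insert.1 hP with rfl | h
    · exact ⟨hx.rat.1, hx.ne⟩
    · have := (Set.Finite.mem_toFinset _).1 h
      exact ⟨this.1, this.2.1⟩
  have w0 : w ≠ 0 := (uw O (Finset.mem_insert_self _ _)).1
  obtain ⟨p, p0, hp⟩ := hC K F O' q w⁻¹ hI hN hq fun P a b c =>
    (uw P (Finset.mem_insert_of_mem ((Set.Finite.mem_toFinset _).2 ⟨a, b, c⟩))).2.2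
  have hd : aeval q p.divX ∈ RoS O' := by
    rw [aeval_eq_sum_range]
    exact sum_mem fun i _ => zsmul_mem (pow_mem hq i) _
  have e1 : ((p.coeff 0 : ℤ) : F) = aeval q p * w⁻¹ * w - aeval q p.divX * q := by
    have := congrArg (aeval q) (divX_mul_X_add p)
    rw [map_add, map_mul, aeval_X, aeval_C, eq_intCast] at this
    rw [inv_mul_cancel_right₀ w0, ← this, add_sub_cancel_left]
  have r1 : RegAt (RoS O') (((p.coeff 0 : ℤ) : F) • ω) := by
    rw [e1, sub_smul, mul_smul _ w, mul_smul _ q]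
    exact sub (smul hp rw') (smul hd rq)
  obtain ⟨n, n0, hn⟩ := clr (fun a : 𝒜 => (a : F)) (fun z hz => by
    obtain ⟨n, n0, hn⟩ := (hx.mem z).1 hz
    exact ⟨n, n0, ⟨_, hn⟩, rfl⟩) (smul (intCast_mem (RoS O') (p.coeff 0)) r1)
  have a0 : (p.coeff 0).natAbs ≠ 0 := Int.natAbs_ne_zero.2 p0
  refine ⟨n * ((p.coeff 0).natAbs * (p.coeff 0).natAbs), mul_ne_zero n0 (mul_ne_zero a0 a0), ?_⟩
  have e2 : (((p.coeff 0).natAbs * (p.coeff 0).natAbs : ℕ) : F) =
      ((p.coeff 0 : ℤ) : F) * ((p.coeff 0 : ℤ) : F) := by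
    rw [← Int.cast_mul, ← Int.natAbs_mul_self, Int.cast_natCast]
  rw [Nat.cast_mul, e2, mul_smul, mul_smul]
  exact hn

end Pool.Agent.MP_f3836a_nt.GV.A.U
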