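import Pool.Agent.MP_f3836a_nt.RG.SpecG

/-! The twist of a closed chain. -/

set_option autoImplicit false

namespace Pool.Agent.MP_f3836a_nt.GV.A.U

open Polynomial NumberField IsDedekindDomain VE VE.A GV.T RG

namespace GTau

variable {F : Type} [Field F]

theorem bound (γ : Ch F) (x : F) :
    ∃ R : ℝ, 0 ≤ R ∧ ∀ p ∈ γ.support, ∀ θ ∈ Set.Icc (0 : ℝ) 1, ‖p.e θ x‖ ≤ R := by
  have h : ∀ p : Pa F, ∃ R : ℝ, ∀ θ ∈ Set.Icc (0 : ℝ) 1, ‖p.e θ x‖ ≤ R := fun p =>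
    isCompact_Icc.exists_bound_of_continuousOn (p.c1 x).continuous.continuousOn
  choose R hR using h
  refine ⟨∑ p ∈ γ.support, |R p|, Finset.sum_nonneg fun _ _ => abs_nonneg _, fun p hp θ hθ => ?_⟩
  exact (hR p θ hθ).trans ((le_abs_self _).trans
    (Finset.single_le_sum (f := fun p => |R p|) (fun _ _ => abs_nonneg _) hp))

theorem I_im {n : ℕ} (γ : Ch F) (x : F) (y : Fin n → F) (f : Pa F → ℝ → ℂ) :
    ((lp γ x y).I fun p θ => f p.1 θ).im =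
      γ.sum fun p a => a * (∫ θ in (0 : ℝ)..1, f p θ * p.d θ x).im := by
  simp only [Lp.I, lp, Complex.im_sum, Complex.im_ofReal_mul]
  exact Finset.sum_coe_sort γ.support fun p => γ p * (∫ θ in (0 : ℝ)..1, f p θ * p.d θ x).im

theorem ev_eq {𝒜 : Type} [CommRing 𝒜] [Algebra ℤ[X] 𝒜] (φ : 𝒜 →+* ℂ) {n : ℕ}
    (y : Module.Basis (Fin n) ℤ[X] 𝒜) (A : Fin n → ℤ[X]) :
    ∑ i, aeval (φ (algebraMap ℤ[X] 𝒜 X)) (A i) * φ (y i) = φ (y.equivFun.symm A) := by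
  have h : ((aeval (φ (algebraMap ℤ[X] 𝒜 X)) : ℤ[X] →ₐ[ℤ] ℂ) : ℤ[X] →+* ℂ) =
      φ.comp (algebraMap ℤ[X] 𝒜) := by
    refine Polynomial.ringHom_ext' (RingHom.ext_int _ _) ?_
    simp
  rw [Module.Basis.equivFun_symm_apply, map_sum]
  refine Finset.sum_congr rfl fun i _ => ?_
  rw [Algebra.smul_def, map_mul]
  congr 1
  exact RingHom.congr_fun h (A i)

theorem d_rat [CharZero F] (p : Pa F) (θ : ℝ) (q : ℚ) : p.d θ (q : F) = 0 := by
  simp only [Pa.d, map_ratCast, deriv_const]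

theorem ne_zero_of {γ : Ch F} (hγ : γ ≠ 0) {G : F}
    (h : ∀ p ∈ γ.support, ∀ θ ∈ Set.Icc (0 : ℝ) 1, p.e θ G ∈ Complex.slitPlane) : G ≠ 0 := by
  obtain ⟨p, hp⟩ := Finsupp.support_nonempty_iff.2 hγ
  intro h0
  have := h p hp 0 ⟨le_rfl, zero_le_one⟩
  rw [h0, map_zero] at this
  exact Complex.zero_notMem_slitPlane this

theorem const_right (h2 : P2) {γ : Ch F} (hc : Cld γ) {G c : F} (hc0 : c ≠ 0)
    (hd : ∀ (p : Pa F) θ, p.d θ c = 0)
    (h : ∀ p ∈ γ.support, ∀ θ ∈ Set.Icc (0 : ℝ) 1, p.e θ G ∈ Complex.slitPlane) :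
    RR γ G c = 0 := by
  rw [h2 F γ G c hc hc0 h]
  simp [hd, Finsupp.sum]

theorem const_left (h1 : P1) (h2 : P2) {γ : Ch F} (hc : Cld γ) {G c : F} (hc0 : c ≠ 0)
    (hd : ∀ (p : Pa F) θ, p.d θ c = 0)
    (h : ∀ p ∈ γ.support, ∀ θ ∈ Set.Icc (0 : ℝ) 1, p.e θ G ∈ Complex.slitPlane) :
    RR γ c G = 0 := by
  rcases eq_or_ne γ 0 with rfl | hγ
  · simp [RR]
  · rw [(h1 F γ hc).swap c G hc0 (ne_zero_of hγ h), const_right h2 hc hc0 hd h, neg_zero]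

theorem re_ge {z : ℂ} {R : ℝ} (h : ‖z‖ ≤ R) : -R ≤ z.re ∧ z.re ≤ R :=
  abs_le.1 ((Complex.abs_re_le_norm z).trans h)

/-- the small curve has positive real part along the chain -/
theorem slit_h [CharZero F] {γ : Ch F} {x : F} {R : ℝ}
    (hR : ∀ p ∈ γ.support, ∀ θ ∈ Set.Icc (0 : ℝ) 1, ‖p.e θ x‖ ≤ R) {κ t : ℚ} (hκ : 0 < κ)
    (ht : (t : ℝ) + 1 ≤ -R) :
    ∀ p ∈ γ.support, ∀ θ ∈ Set.Icc (0 : ℝ) 1, p.e θ (κ * (x - t)) ∈ Complex.slitPlane := by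
  intro p hp θ hθ
  have h := re_ge (hR p hp θ hθ)
  have hκ' : (0 : ℝ) < κ := by exact_mod_cast hκ
  left
  rw [map_mul, map_sub, map_ratCast, map_ratCast, ← Complex.ofReal_ratCast,
    ← Complex.ofReal_ratCast, Complex.re_ofReal_mul, Complex.sub_re, Complex.ofReal_re]
  exact mul_pos hκ' (by linarith [h.1])

theorem core [CharZero F] (hW : RG.WS) (h1 : P1) (h2 : P2) {γ : Ch F} (hc : Cld γ) {x g : F}
    {R : ℝ} (hR0 : 0 ≤ R) (hR : ∀ p ∈ γ.support, ∀ θ ∈ Set.Icc (0 : ℝ) 1, ‖p.e θ x‖ ≤ R)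
    {κ t t1 Hs : ℚ} (hκ : 0 < κ) (ht : (t : ℝ) + 1 ≤ -R) (ht1 : R + 1 ≤ t1) (hH : 0 < Hs)
    (hG : ∀ p ∈ γ.support, ∀ θ ∈ Set.Icc (0 : ℝ) 1,
      p.e θ (g / (Hs * (x - t1))) ∈ Complex.slitPlane) :
    RR γ g (κ * (x - t)) = γ.sum fun p a => a * (∫ θ in (0 : ℝ)..1,
      Complex.log (p.e θ (g / (Hs * (x - t1)))) / (p.e θ x - t) * p.d θ x).im := by
  rcases eq_or_ne γ 0 with rfl | hγ
  · simp [RR]
  have S := h1 F γ hc
  have hh := slit_h hR hκ ht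
  have hh0 := ne_zero_of hγ hh
  have hG0 := ne_zero_of hγ hG
  have hlt : (0 : ℚ) < t1 - t := by
    have : (0 : ℝ) < t1 - t := by linarith
    exact_mod_cast this
  have hlt' : ((t1 : F) - t) ≠ 0 := by exact_mod_cast hlt.ne'
  have hκ' : (κ : F) ≠ 0 := by exact_mod_cast hκ.ne'
  have hH' : (Hs : F) ≠ 0 := by exact_mod_cast hH.ne'
  have hA : ∀ p ∈ γ.support, ∀ θ ∈ Set.Icc (0 : ℝ) 1,
      p.e θ ((t1 - x) / (t1 - t)) ∈ Complex.slitPlane := by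
    intro p hp θ hθ
    have h := re_ge (hR p hp θ hθ)
    have hlt2 : (0 : ℝ) < t1 - t := by linarith
    left
    rw [map_div₀, map_sub, map_sub, map_ratCast, map_ratCast, ← Complex.ofReal_ratCast,
      ← Complex.ofReal_ratCast, ← Complex.ofReal_sub, Complex.div_ofReal_re, Complex.sub_re,
      Complex.ofReal_re]
    exact div_pos (by linarith [h.2]) hlt2
  have hA0 := ne_zero_of hγ hA
  have hx1 : (t1 : F) - x ≠ 0 := fun h => hA0 (by rw [h, zero_div])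
  have hx1' : x - (t1 : F) ≠ 0 := fun h => hx1 (by linear_combination -h)
  have hxt : x - (t : F) ≠ 0 := fun h => hh0 (by rw [h, mul_zero])
  have hc1 : ((-Hs * (t1 - t) : ℚ) : F) ≠ 0 := by
    push_cast
    exact mul_ne_zero (neg_ne_zero.2 hH') hlt'
  have hc2 : ((κ * (t1 - t) : ℚ) : F) ≠ 0 := by
    push_cast
    exact mul_ne_zero hκ' hlt'
  have e1 : g = g / (Hs * (x - t1)) * ((-Hs * (t1 - t) : ℚ) : F) * ((t1 - x) / (t1 - t)) := by
    push_cast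
    field_simp
    ring
  have e2 : (κ : F) * (x - t) = ((κ * (t1 - t) : ℚ) : F) * (1 - (t1 - x) / (t1 - t)) := by
    push_cast
    field_simp
    ring
  have hB0 : 1 - ((t1 : F) - x) / (t1 - t) ≠ 0 := fun h => hh0 (by rw [e2, h, mul_zero])
  have hA1 : ((t1 : F) - x) / (t1 - t) ≠ 1 := fun h => hB0 (by rw [h, sub_self])
  have r1 : RR γ ((t1 - x) / (t1 - t)) (κ * (x - t)) = 0 := by
    rw [S.swap _ _ hA0 hh0, e2, S.mul _ _ _ hc2 hB0 hA0,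
      const_left h1 h2 hc hc2 (fun p θ => d_rat p θ _) hA, S.swap _ _ hB0 hA0, S.st _ hA0 hA1]
    simp
  have r2 : RR γ g (κ * (x - t)) = RR γ (g / (Hs * (x - t1))) (κ * (x - t)) := by
    conv_lhs => rw [e1]
    rw [S.mul _ _ _ (mul_ne_zero hG0 hc1) hA0 hh0, S.mul _ _ _ hG0 hc1 hh0, r1,
      const_left h1 h2 hc hc1 (fun p θ => d_rat p θ _) hh, add_zero, add_zero]
  rw [r2, h2 F γ _ _ hc hh0 hG]
  refine Finsupp.sum_congr fun p _ => ?_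
  congr 3
  funext θ
  have hd : p.d θ (κ * (x - t)) = κ * p.d θ x := by
    have := ((((hW F).1 p).der x θ).sub_const (t : ℂ)).const_mul (κ : ℂ)
    rw [← this.deriv, Pa.d]
    simp only [map_mul, map_sub, map_ratCast]
  have hκ2 : (κ : ℂ) ≠ 0 := by exact_mod_cast hκ.ne'
  rw [hd, map_mul, map_sub, map_ratCast, map_ratCast, mul_div_mul_left _ _ hκ2]
  ring

theorem sm_eq [CharZero F] {𝒜 : Type} [CommRing 𝒜] [Algebra ℤ[X] 𝒜] (j : 𝒜 →+* F) (a : ℤ)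
    {k : ℕ} (hk : 0 < k) : j (sm 𝒜 a k) = (((k : ℚ) ^ 2 : ℚ) : F) *
      (j (algebraMap ℤ[X] 𝒜 X) - (((a : ℚ) / (k : ℚ) ^ 2 : ℚ) : F)) := by
  have : (k : F) ≠ 0 := by exact_mod_cast hk.ne'
  simp only [sm, map_sub, map_mul, map_intCast]
  push_cast
  field_simp

end GTau

theorem gTau : OfTauT := by
  intro hW h1 h2 F 𝒜 _ _ _ _ j γ hc
  obtain ⟨R, hR0, hR⟩ := GTau.bound γ (j (algebraMap ℤ[X] 𝒜 X))
  refine ⟨R, fun n _ y hy => ⟨⟨fun p => (p.1.c1 _).continuous, fun p => ((hW F).1 p.1).cd _,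
    fun p i => (p.1.c1 _).continuous, fun p => hR p.1 p.2, fun p θ => ?_, hR0⟩, fun u => ?_,
    fun r G hρ ht0 ht1 => ?_⟩⟩
  · simp only [lp, hy, map_one]
  · rw [GTau.I_im γ _ _ fun p θ => p.e θ (j u)]
    simp only [IP, Pa.pe, ((hW F).1 _).wd]
  · have hadm : ∀ a k, G.Adm a k → (0 : ℚ) < (k : ℚ) ^ 2 ∧
        (((a : ℚ) / (k : ℚ) ^ 2 : ℚ) : ℝ) + 1 ≤ -R := by
      intro a k h
      have hk := h.pos
      have := h.mem.2
      refine ⟨by positivity, ?_⟩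
      push_cast
      linarith
    refine ⟨fun a k h c hc0 hca => ?_, fun A a k Hs h hH hs => ?_⟩
    · rw [GTau.sm_eq j a h.pos]
      exact GTau.const_left h1 h2 hc hc0 (fun p θ => ((hW F).1 p).alg θ c hca)
        (GTau.slit_h hR (hadm a k h).1 (hadm a k h).2)
    · have hev : ∀ (p : γ.support) θ,
          (lp γ (j (algebraMap ℤ[X] 𝒜 X)) fun i => j (y i)).ev A p θ /
            (Hs * ((lp γ (j (algebraMap ℤ[X] 𝒜 X)) fun i => j (y i)).x p θ - G.t1)) =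
          p.1.e θ (j (y.equivFun.symm A) / (((Hs : ℚ) : F) *
            (j (algebraMap ℤ[X] 𝒜 X) - ((G.t1 : ℚ) : F)))) := by
        intro p θ
        have := GTau.ev_eq ((p.1.e θ).comp j) y A
        simp only [RingHom.comp_apply] at this
        simp only [Lp.ev, lp, this, map_div₀, map_mul, map_sub, Rat.cast_natCast,
          Rat.cast_intCast, map_natCast, map_intCast]
      simp only [hev] at hs ⊢
      rw [GTau.sm_eq j a h.pos, GTau.core hW h1 h2 hc hR0 hR (hadm a k h).1 (hadm a k h).2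
        (t1 := G.t1) (Hs := Hs) (by exact_mod_cast ht1) (by exact_mod_cast hH)
        fun p hp θ hθ => hs ⟨p, hp⟩ θ hθ, ← GTau.I_im γ _ fun i => j (y i)]
      simp only [Lp.Φ, lp]
      push_cast
      rfl

end Pool.Agent.MP_f3836a_nt.GV.A.U
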