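import Pool.Agent.MP_f3836a_nt.GV.ACr
import Pool.Agent.MP_f3836a_nt.GV.AEmb
import Pool.Agent.MP_f3836a_nt.GV.AFb
import Pool.Agent.MP_f3836a_nt.GV.AMd
import Pool.Agent.MP_f3836a_nt.GV.ANc
import Pool.Agent.MP_f3836a_nt.GV.AOd
import Pool.Agent.MP_f3836a_nt.GV.APg
import Pool.Agent.MP_f3836a_nt.GV.APh
import Pool.Agent.MP_f3836a_nt.GV.APr
import Pool.Agent.MP_f3836a_nt.GV.ARed
import Pool.Agent.MP_f3836a_nt.GV.GMAll
import Pool.Agent.MP_f3836a_nt.GV.PMain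
import Pool.Agent.MP_f3836a_nt.GV.RAll
import Pool.Agent.MP_f3836a_nt.GP.TBt
import Pool.Agent.MP_f3836a_nt.GP.TP0
import Pool.Agent.MP_f3836a_nt.GP.TWeil
import Pool.Agent.MP_f3836a_nt.VE.AGsa
import Pool.Agent.MP_f3836a_nt.VE.AGsk
import Pool.Agent.MP_f3836a_nt.VE.ANfa
import Pool.Agent.MP_f3836a_nt.VE.ANfb
import Pool.Agent.MP_f3836a_nt.VE.WGs
import Pool.Agent.MP_f3836a_nt.RG.AllE
import Pool.Agent.MP_f3836a_nt.RG.AllP
import Pool.Agent.MP_f3836a_nt.RG.ABch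
import Pool.Agent.MP_f3836a_nt.RG.ADv
import Pool.Agent.MP_f3836a_nt.RG.AGlb
import Pool.Agent.MP_f3836a_nt.RG.ALoc
import Pool.Agent.MP_f3836a_nt.RG.AMax
import Pool.Agent.MP_f3836a_nt.RG.AOne
import Pool.Agent.MP_f3836a_nt.RG.AVal
import Pool.Agent.MP_f3836a_nt.RG.EArH
import Pool.Agent.MP_f3836a_nt.RG.EBrH
import Pool.Agent.MP_f3836a_nt.RG.EChs
import Pool.Agent.MP_f3836a_nt.RG.ELp
import Pool.Agent.MP_f3836a_nt.RG.ERigA
import Pool.Agent.MP_f3836a_nt.RG.ERigC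
import Pool.Agent.MP_f3836a_nt.RG.GEng
import Pool.Agent.MP_f3836a_nt.RG.GHs
import Pool.Agent.MP_f3836a_nt.RG.GPv
import Pool.Agent.MP_f3836a_nt.RG.GTau

/-! The final theorem. -/

set_option autoImplicit false

namespace Pool.Agent.MP_f3836a_nt.GV.A.U

open VE VE.A GV.T

theorem mdU : MdS := aMd fmS

theorem pgU : PgS := aPg GP.tFf GP.tFin GP.tNb apeS

theorem phU : PhS := aPh GP.tFin GP.tNb fmS apeS (aRed fmS) pgU

open GP in
theorem weilU : WeilS := tWeil tFf tFin (tBt tNb) (tCmp tNb tFe (tEf tNb) (tNx tNb))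
  (tP1 tNb (tBt tNb) (tP0 tNb))

open R in
theorem arH : ArH := eArH eLp cCstO sAn sFin (sAbs sQu) (sDat sPrim)
  (sSepB (sRig (sRig1 (sRig0 (sLi liC))) rig2 rig3)) (eRigB1 eLp eRigA) (cRigB2 eLp) (cRigB3 eLp)

theorem brH : BrH := eBrH mdU (eCnt apbS M.mTy M.mOm) (eChs apbS eBrc) cRay

theorem idU : IdU := gId W.wPhi mdU (gGs (aGsk aNfa aNfb aGsa) aNc mdU)
  (gHs rTb rFy mdU (aFb rTb rSpl mdU) (aRp rTb) (aEmb aNfa aNfb) (aHsK aOd aPr) aDir)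

theorem engT : EngT := gEng RG.pWS mdU (gGe tabS (ptsX modP) brH cCstO R.arX mdU)
  (gTau RG.pWS RG.p1 RG.p2) idU (eClL eLp) arH coreT

theorem bP : RG.BP := gBP RG.pWS fmS fmX (gPv GP.tFin GP.tNb GP.gVal weilU pgU phU)
  engT (gLG GP.tFin GP.tNb pgU M.mClr)

open GP in
theorem aP : RG.AP :=
  have sp : SPAN := aSpan tFf
  have ex : EXF := aExf tFf tFin tNb (M.mFr tAp M.mClr)
  aAP fmX aOne (aVal0 tFin tNb sp (aDvs tFin sp (aBdd tFf tFin sp)) aRad ex)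
    (aVal1 tFin (aInt tFf tFin) aBnd ex) aTrs ex (aLoc aTrs (aSeg RG.pWS))
    (aBch fmS apeS M.mSep R.sHoms eBrc) (aIrr fmS apeS aNc) aTrc' (aGlb (aMax aMaxI aMaxD))

theorem finalR : RG.FinalR := RG.finalR_of bP aP

end Pool.Agent.MP_f3836a_nt.GV.A.U
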