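import Pool.Agent.MP_f3836a_nt.H23.Defs
import Pool.Agent.MP_f3836a_nt.PK.DefsT

set_option autoImplicit false

namespace Pool.Agent.MP_f3836a_nt.RG

open scoped TensorProduct

/-- The class in `K₂(F)` of the symbol of a pair of units. -/
noncomputable def sym {F : Type} [Field F] (a : Fˣ × Fˣ) : H23.K2 F :=
  Submodule.Quotient.mk (p := H23.steinberg F) (Additive.ofMul a.1 ⊗ₜ[ℤ] Additive.ofMul a.2)

/-- The differential `ω` is a sum of terms `a db` with `a, b` in the subring `O`. -/
def RegAt {F : Type} [Field F] (O : Subring F) (ω : KaehlerDifferential ℤ F) : Prop :=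
  ω ∈ AddSubgroup.closure {w | ∃ a ∈ O, ∃ b ∈ O, w = a • KaehlerDifferential.D ℤ F b}

end Pool.Agent.MP_f3836a_nt.RG
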