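import Pool.Agent.MP_f3836a_nt.RG.SpecE
import Pool.Agent.MP_f3836a_nt.GV.RRig3

/-! Twisted rigidity: the end of the argument, and functions which are real on rays. -/

set_option autoImplicit false

namespace Pool.Agent.MP_f3836a_nt.GV.T

open Polynomial Finset Filter Topology VE
open scoped Matrix ComplexConjugate

namespace ERigB

/-- the identity theorem from a segment on a line through the origin -/
theorem idt {U : Set ℂ} (hU : IsOpen U) (hc : IsPreconnected U) {f g : ℂ → ℂ}
    (hf : DifferentiableOn ℂ f U) (hg : DifferentiableOn ℂ g U) {u : ℂ} (hu : u ≠ 0) {a b : ℝ}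
    (hab : a < b) (ha : u * a ∈ U) (h : ∀ ρ ∈ Set.Icc a b, f (u * ρ) = g (u * ρ)) :
    Set.EqOn f g U := by
  refine (hf.analyticOnNhd hU).eqOn_of_preconnected_of_frequently_eq (hg.analyticOnNhd hU) hc ha ?_
  have t : Tendsto (fun ρ : ℝ => u * ρ) (𝓝[>] a) (𝓝[≠] (u * a)) := by
    refine tendsto_nhdsWithin_iff.2 ⟨?_, ?_⟩
    · exact ((continuous_const.mul Complex.continuous_ofReal).tendsto a).mono_left
        nhdsWithin_le_nhds
    · filter_upwards [self_mem_nhdsWithin] with ρ hρ e
      exact (ne_of_gt hρ) (Complex.ofReal_injective (mul_left_cancel₀ hu e))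
  refine t.frequently (Eventually.frequently ?_)
  filter_upwards [Icc_mem_nhdsGT hab] with ρ hρ using h ρ hρ

/-- the reflected function -/
theorem refl {U : Set ℂ} (hU : IsOpen U) (hs : ∀ z ∈ U, conj z ∈ U) {f : ℂ → ℂ}
    (hf : DifferentiableOn ℂ f U) : DifferentiableOn ℂ (fun z => conj (f (conj z))) U :=
  fun z hz => by
    have := (hf.differentiableAt (hU.mem_nhds (hs z hz))).conj_conj
    rw [Complex.conj_conj] at this
    exact this.differentiableWithinAt

/-- the holomorphic function with the values `im (f t)` at real points -/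
noncomputable def imH (f : ℂ → ℂ) (z : ℂ) : ℂ := (f z - conj (f (conj z))) / (2 * Complex.I)

theorem imH_real (f : ℂ → ℂ) (t : ℝ) : imH f t = ((f t).im : ℝ) := by
  rw [imH, Complex.conj_ofReal, Complex.im_eq_sub_conj]

theorem imH_diff {R : ℝ} {f : ℂ → ℂ} (hf : DifferentiableOn ℂ f {τ | R < ‖τ‖}) :
    DifferentiableOn ℂ (imH f) {τ | R < ‖τ‖} :=
  (hf.sub (refl (isOpen_lt continuous_const continuous_norm) (fun z hz => by simpa using hz)
    hf)).div_const _

theorem aev (P : ℝ[X]) (t : ℝ) : aeval (t : ℂ) P = (P.eval t : ℝ) := by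
  rw [← coe_aeval_eq_eval]
  exact aeval_algebraMap_apply ℂ t P

theorem pD_open (δ : ℝ) : IsOpen (pD δ) :=
  isOpen_ne.inter (isOpen_lt continuous_norm continuous_const)

theorem pD_conn {δ : ℝ} (h : 0 < δ) : IsPreconnected (pD δ) := by
  have e : pD δ = Complex.exp '' {z | z.re < Real.log δ} := by
    ext s
    constructor
    · rintro ⟨h0, h1⟩
      exact ⟨Complex.log s, by
        rw [Set.mem_ofPred_eq, Complex.log_re]
        exact Real.log_lt_log (norm_pos_iff.2 h0) h1, Complex.exp_log h0⟩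
    · rintro ⟨z, hz, rfl⟩
      refine ⟨Complex.exp_ne_zero z, ?_⟩
      rw [Complex.norm_exp, ← Real.exp_log h]
      exact Real.exp_lt_exp.2 hz
  rw [e]
  exact (convex_halfSpace_re_lt _).isPreconnected.image _ Complex.continuous_exp.continuousOn

theorem pD_mul {δ : ℝ} {u s : ℂ} (hu : ‖u‖ = 1) (hs : s ∈ pD δ) : u * s ∈ pD δ :=
  ⟨mul_ne_zero (fun e => by simp [e] at hu) hs.1, by rw [norm_mul, hu, one_mul]; exact hs.2⟩

theorem poly_zero {P : ℝ[X]} {g : ℝ → ℝ} {R : ℝ} (h : ∀ t, t < R → g t = P.eval t)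
    (hg : Tendsto g atBot (𝓝 0)) (t : ℝ) : P.eval t = 0 := by
  have h1 : Tendsto (fun x => eval x (P.comp (-X))) atTop (𝓝 0) := by
    refine (hg.comp tendsto_neg_atTop_atBot).congr' ?_
    filter_upwards [eventually_gt_atTop (-R)] with x hx
    simp [h (-x) (by linarith), eval_comp]
  have h2 := leadingCoeff_eq_zero.1 ((Polynomial.tendsto_nhds_iff _).1 h1).1
  simpa [eval_comp] using congrArg (eval (-t)) h2

end ERigB

open ERigB

theorem eCstO : CstO := by
  intro n r B R ι cls hρ h Γ D γ hD hΓ w w' hw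
  have h1 := h (fun i τ => aeval τ (Γ i)) (fun w t => D.eval t * γ w)
    (fun i => (Γ i).differentiable_aeval.differentiableOn) (fun w t ht => by
      rw [← hΓ w t ht, Br.ev, emb]
      exact sum_congr rfl fun i _ => by rw [aev, coe_aeval_eq_eval]) w w' hw
  obtain ⟨t, ht, h0⟩ := (Set.Icc_infinite (lt_add_of_pos_right (B.t0 : ℝ) hρ)).exists_notMem_finite
    (finite_setOfPred_isRoot hD)
  exact mul_left_cancel₀ h0 (h1 t ht)

theorem eRay : RAY := by
  intro H δ a b N hN ha hab hb hH hr ζ ζ' hζ hζ' ρ hρ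
  have hN0 : N ≠ 0 := hN.pos.ne'
  have nm : ∀ u : ℂ, u ^ N = -1 → ‖u‖ = 1 := fun u hu =>
    (pow_eq_one_iff_of_nonneg (norm_nonneg u) hN0).1 (by rw [← norm_pow, hu]; simp)
  have mem : ∀ s ∈ Set.Icc a b, (s : ℂ) ∈ pD δ := fun s hs =>
    ⟨Complex.ofReal_ne_zero.2 (by linarith [hs.1]), by
      rw [Complex.norm_real, Real.norm_of_nonneg (by linarith [hs.1])]; linarith [hs.2]⟩
  have key : ∀ u : ℂ, u ^ N = -1 →
      Set.EqOn (fun z => conj (H (conj z))) (fun z => H (u ^ 2 * z)) (pD δ) := fun u hu => by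
    have h1 := nm u hu
    have h2 : ‖conj u‖ = 1 := by rw [Complex.norm_conj, h1]
    have h3 : u * conj u = 1 := by
      rw [Complex.mul_conj, Complex.normSq_eq_norm_sq, h1]; simp
    refine idt (pD_open δ) (pD_conn (by linarith))
      (refl (pD_open δ) (fun z hz => ⟨by simpa using hz.1, by simpa using hz.2⟩) hH)
      (hH.comp (f := fun z => u ^ 2 * z) (by fun_prop) fun z hz =>
        pD_mul (by rw [norm_pow, h1, one_pow]) hz)
      (u := conj u) (fun e => by simp [e] at h2) hab
      (pD_mul h2 (mem a (Set.left_mem_Icc.2 hab.le))) fun s hs => ?_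
    rw [map_mul, Complex.conj_conj, Complex.conj_ofReal,
      show u ^ 2 * (conj u * s) = u * s by rw [← mul_assoc, sq, mul_assoc u, h3, mul_one]]
    exact Complex.conj_eq_iff_im.2 (hr u hu s hs)
  have z0 : ζ ≠ 0 := fun e => by simpa [e] using nm ζ hζ
  obtain ⟨k, hk⟩ := hN
  have e1 : (ζ' / ζ) ^ N = 1 := by rw [div_pow, hζ, hζ']; simp
  have e2 : (ζ * (ζ' / ζ) ^ (k + 1)) ^ N = -1 := by
    rw [mul_pow, ← pow_mul, mul_comm (k + 1), pow_mul, e1, hζ]; simp
  have e3 : (ζ * (ζ' / ζ) ^ (k + 1)) ^ 2 = ζ * ζ' := by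
    rw [mul_pow, ← pow_mul, show (k + 1) * 2 = N + 1 by omega, pow_succ _ N, e1]
    field_simp
  have hs : ζ⁻¹ * ρ ∈ pD δ := pD_mul (by rw [norm_inv, nm ζ hζ, inv_one]) (mem ρ hρ)
  have e4 := (key ζ hζ hs).symm.trans (key _ e2 hs)
  simp only [e3] at e4
  rwa [show ζ ^ 2 * (ζ⁻¹ * ρ) = ζ * ρ by field_simp,
    show ζ * ζ' * (ζ⁻¹ * ρ) = ζ' * ρ by field_simp] at e4

theorem eRigB3 : OfRigB3 := by
  intro hL ι _ n r _ T t1 B L R hn hT hB hO hR κ hND hq
  have A := hL ι n L R hO
  obtain ⟨i, k, hk⟩ := hND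
  obtain ⟨Q, hQ⟩ := hq i
  have nt : ∀ t : ℝ, t < -R → R < ‖(t : ℂ)‖ := fun t ht => by
    rw [Complex.norm_real, Real.norm_eq_abs]
    linarith [neg_le_abs t]
  have cx := hO.cx
  have cy := fun j => hO.cy j i
  have ct : ∀ k m : ℕ, Ct fun j θ => L.x j θ ^ k * (L.x j θ - t1) ^ m * L.Y j θ i :=
    fun k m j => Continuous.continuousOn (by fun_prop)
  have c0 : Ct fun j θ => L.Y j θ i := fun j => (cy j).continuousOn
  have h1 : ∀ t : ℝ, t < -R →
      κ * ((t - t1) ^ n * (L.Φ (fun j θ => L.Y j θ i) t).im) = (-Q).eval t := fun t ht => by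
    have hs : {z : ℂ | z.re < -R} ⊆ {τ | R < ‖τ‖} := fun z (hz : z.re < -R) => by
      have := Complex.abs_re_le_norm z
      have := neg_le_abs z.re
      rw [Set.mem_ofPred_eq]
      linarith
    have := idt (isOpen_lt Complex.continuous_re continuous_const)
      (convex_halfSpace_re_lt (-R)).isPreconnected
      (f := fun z => κ * ((z - t1) ^ n * imH (L.Φ fun j θ => L.Y j θ i) z))
      (g := fun z => aeval z (-Q))
      ((DifferentiableOn.mul (by fun_prop) ((imH_diff (A.hol _ c0)).mono hs)).const_mul _)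
      (-Q).differentiable_aeval.differentiableOn one_ne_zero
      (lt_add_of_pos_right (B.t0 : ℝ) hB.rho.1)
      (by rw [one_mul, Set.mem_ofPred_eq, Complex.ofReal_re]; linarith)
      (fun s hs => by
        simp only [one_mul, imH_real, aev, eval_neg, ← hQ s hs]
        simp only [zero_mul, sum_const_zero]
        push_cast
        ring) (x := (t : ℂ)) ht
    simp only [imH_real, aev] at this
    exact_mod_cast this
  have h2 : ∀ m : ℕ, ∃ P : ℝ[X], ∀ t : ℝ, t < -R →
      (L.Φ (fun j θ => L.x j θ ^ 0 * (L.x j θ - t1) ^ m * L.Y j θ i) t).im =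
        (t - t1) ^ m * (L.Φ (fun j θ => L.Y j θ i) t).im + P.eval t := fun m => by
    induction m with
    | zero => exact ⟨0, fun t _ => by simp⟩
    | succ m ih =>
      obtain ⟨P, hP⟩ := ih
      refine ⟨C (L.I fun j θ => L.x j θ ^ 0 * (L.x j θ - t1) ^ m * L.Y j θ i).im +
        (X - C (t1 : ℝ)) * P, fun t ht => ?_⟩
      rw [show (fun j θ => L.x j θ ^ 0 * (L.x j θ - t1) ^ (m + 1) * L.Y j θ i) = fun j θ =>
          L.x j θ * (L.x j θ ^ 0 * (L.x j θ - t1) ^ m * L.Y j θ i) +
          ((-t1 : ℝ) : ℂ) * (L.x j θ ^ 0 * (L.x j θ - t1) ^ m * L.Y j θ i) by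
            funext j θ; push_cast; ring,
        A.padd _ _ _ (fun j => Continuous.continuousOn (by fun_prop))
          (fun j => Continuous.continuousOn (by fun_prop)) (nt t ht),
        A.mul _ _ (ct 0 m) (nt t ht), A.psmul, Complex.add_im, Complex.add_im,
        Complex.im_ofReal_mul, Complex.im_ofReal_mul, hP t ht]
      simp only [eval_add, eval_mul, eval_sub, eval_C, eval_X]
      ring
  have lim : ∀ f, Ct f → Tendsto (fun t : ℝ => κ * (L.Φ f t).im) atBot (𝓝 0) := fun f hf => by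
    simpa using ((Complex.continuous_im.tendsto 0).comp (A.lim f hf)).const_mul κ
  have step : ∀ f, Ct f → (∀ t : ℝ, t < -R → κ * (L.Φ f t).im = 0) → κ * (L.I f).im = 0 ∧
      ∀ t : ℝ, t < -R → κ * (L.Φ (fun j θ => L.x j θ * f j θ) t).im = 0 := fun f hf h0 => by
    have a : ∀ t : ℝ, t < -R → κ * (L.Φ (fun j θ => L.x j θ * f j θ) t).im =
        (C (κ * (L.I f).im)).eval t := fun t ht => by
      rw [A.mul _ _ hf (nt t ht), Complex.add_im, Complex.im_ofReal_mul, eval_C]
      linear_combination t * h0 t ht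
    have b := poly_zero a (lim _ fun j => (cx j).continuousOn.mul (hf j))
    exact ⟨by simpa using b 0, fun t ht => (a t ht).trans (b t)⟩
  have h3 : ∀ k : ℕ, ∀ t : ℝ, t < -R →
      κ * (L.Φ (fun j θ => L.x j θ ^ k * (L.x j θ - t1) ^ n * L.Y j θ i) t).im = 0 := fun k => by
    induction k with
    | zero =>
      obtain ⟨P, hP⟩ := h2 n
      have a : ∀ t : ℝ, t < -R →
          κ * (L.Φ (fun j θ => L.x j θ ^ 0 * (L.x j θ - t1) ^ n * L.Y j θ i) t).im =
            (-Q + C κ * P).eval t := fun t ht => by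
        rw [hP t ht, mul_add, h1 t ht, eval_add, eval_mul, eval_C]
      exact fun t ht => (a t ht).trans (poly_zero a (lim _ (ct 0 n)) t)
    | succ k ih =>
      intro t ht
      rw [← (step _ (ct k n) ih).2 t ht]
      congr 3
      funext j θ
      ring
  exact (mul_eq_zero.1 (step _ (ct k n) (h3 k)).1).resolve_right hk

theorem eRigB2 : OfRigB2 := by
  intro hL ι _ n r _ T t1 B L R hn hT hB hO hR ι' cls c κ hC hc hQ hq
  have A := hL ι n L R hO
  choose P hP using hq
  let φ : ℤ[X] →+* ℝ[X] := mapRingHom (Int.castRingHom ℝ)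
  let G : Matrix (Fin n) (Fin n) ℝ[X] := φ.mapMatrix (Matrix.of fun i j => (T.M i * T.M j).trace)
  have hG : G.det ≠ 0 := by
    rw [← RingHom.map_det]
    exact fun e => hT.sep (map_injective _ (Int.castRingHom ℝ).injective_int
      (e.trans (Polynomial.map_zero _).symm))
  have hD : (X - C (t1 : ℝ)) ^ n * G.det ≠ 0 := mul_ne_zero (pow_ne_zero _ (X_sub_C_ne_zero _)) hG
  have h0 := hC (fun i τ => ∑ l, aeval τ (G.adjugate i l) * (2 * (aeval τ (P l) +
      κ * (τ - t1) ^ n * imH (L.Φ fun j θ => L.Y j θ l) τ)))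
    (fun w t => ((X - C (t1 : ℝ)) ^ n * G.det).eval t * c w t)
    (fun i => DifferentiableOn.fun_sum fun l _ =>
      (G.adjugate i l).differentiable_aeval.differentiableOn.mul
        (((P l).differentiable_aeval.differentiableOn.add (DifferentiableOn.mul (by fun_prop)
          (imH_diff (A.hol _ fun j => (hO.cy j l).continuousOn)))).const_mul _))
    fun w t ht => by
      obtain ⟨β, hβ⟩ := (hB.em t ht).surj hn fun w => c w t
      have h1 : ∀ i j, (evalRingHom t).mapMatrix G i j = (T.fib t i * T.fib t j).trace :=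
        fun i j => by
          rw [T.fib_eq, ← Matrix.map_mul]
          exact (eval_map_algebraMap _ t).trans
            (AddMonoidHom.map_trace (aeval t : ℤ[X] →ₐ[ℤ] ℝ).toRingHom (T.M i * T.M j))
      have h2 : (fun l => 2 * ((P l).eval t +
          κ * (t - t1) ^ n * (L.Φ (fun j θ => L.Y j θ l) t).im)) =
          (t - t1) ^ n • ((evalRingHom t).mapMatrix G *ᵥ β) := funext fun i => by
        have := GV.R.RRig3.gram (hT.rng.map _) (hB.em t ht) hn hβ i
        simp only [Pi.smul_apply, smul_eq_mul, Matrix.mulVec, dotProduct, h1]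
        rw [show ∑ j, (T.fib t i * T.fib t j).trace * β j = _ from this, ← hP i t ht]
        ring
      have h3 : (evalRingHom t).mapMatrix G.adjugate *ᵥ (fun l => 2 * ((P l).eval t +
          κ * (t - t1) ^ n * (L.Φ (fun j θ => L.Y j θ l) t).im)) =
          ((X - C (t1 : ℝ)) ^ n * G.det).eval t • β := by
        rw [RingHom.map_adjugate, h2, Matrix.mulVec_smul, Matrix.mulVec_mulVec,
          Matrix.adjugate_mul, ← RingHom.map_det, Matrix.smul_mulVec, Matrix.one_mulVec, smul_smul]
        simp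
      rw [Complex.ofReal_mul, ← hβ w, emb, mul_sum]
      refine sum_congr rfl fun i _ => ?_
      have h4 := congrArg Complex.ofReal (congrFun h3 i)
      rw [Pi.smul_apply, smul_eq_mul, Complex.ofReal_mul] at h4
      rw [← mul_assoc, ← h4]
      simp only [aev, imH_real, Matrix.mulVec, dotProduct, RingHom.mapMatrix_apply,
        Matrix.map_apply, coe_evalRingHom]
      push_cast
      rfl
  intro w
  have hab : (B.t0 : ℝ) < B.t0 + B.ρ := lt_add_of_pos_right _ hB.rho.1
  refine Set.EqOn.of_subset_closure (g := fun _ => 0)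
    (s := Set.Ioo (B.t0 : ℝ) (B.t0 + B.ρ) ∩ {x | IsRoot ((X - C (t1 : ℝ)) ^ n * G.det) x}ᶜ)
    (fun t ht => ?_) (hc w) continuousOn_const
    (Set.inter_subset_left.trans Set.Ioo_subset_Icc_self) ?_
  · have hI : t ∈ B.I := Set.Ioo_subset_Icc_self ht.1
    have k5 := congrFun (hQ t hI) w
    rw [Matrix.mulVec, dotProduct, sum_congr rfl (g := fun w' => GV.R.Qm cls w w' * c w t)
      fun w' _ => by
        by_cases h : cls w' = cls w
        · rw [mul_left_cancel₀ ht.2 (h0 w' w h t hI)]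
        · simp [GV.R.Qm, h], ← sum_mul] at k5
    refine (mul_eq_zero.1 k5).resolve_left (ne_of_gt (sum_pos' (fun w' _ => ?_)
      ⟨w, mem_univ w, by simp [GV.R.Qm]⟩))
    rw [GV.R.Qm, Matrix.of_apply]
    split_ifs <;> norm_num
  · rw [Br.I, ← closure_Ioo hab.ne]
    exact closure_minimal (((finite_setOfPred_isRoot hD).countable.dense_compl
      ℝ).open_subset_closure_inter isOpen_Ioo) isClosed_closure

end Pool.Agent.MP_f3836a_nt.GV.T
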