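import Pool.Agent.MP_f3836a_nt.RG.SpecE
import Pool.Agent.MP_f3836a_nt.GV.RRig3

/-! Rationality of traces, and functions which are real on rays. -/

set_option autoImplicit false

namespace Pool.Agent.MP_f3836a_nt.GV.T

open Polynomial Finset Filter Topology
open scoped ComplexConjugate Matrix

theorem cCstO : CstO := by
  intro n r B R ι cls hρ h Γ D γ hD hΓ w w' hw
  have hI : (B.I).Infinite := Set.Icc_infinite (lt_add_of_pos_right _ hρ)
  obtain ⟨t, ht, h0⟩ := hI.exists_notMem_finset D.roots.toFinset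
  have := h (fun i τ => aeval τ (Γ i)) (fun w t => D.eval t * γ w)
    (fun i => (Polynomial.differentiable_aeval _).differentiableOn) (fun w t ht => by
      rw [← hΓ w t ht, Br.ev, emb]
      refine sum_congr rfl fun i _ => ?_
      rw [← Complex.coe_algebraMap, aeval_algebraMap_apply]) w w' hw t ht
  exact mul_left_cancel₀ (by simpa [hD] using h0) this

namespace CR

theorem pD_conn {δ : ℝ} (h : 0 < δ) : IsPreconnected (pD δ) := by
  have : pD δ = Complex.exp '' {z | z.re < Real.log δ} := by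
    ext s
    constructor
    · rintro ⟨h1, h2⟩
      refine ⟨Complex.log s, ?_, Complex.exp_log h1⟩
      show (Complex.log s).re < _
      rw [Complex.log_re]
      exact Real.log_lt_log (norm_pos_iff.2 h1) h2
    · rintro ⟨z, hz, rfl⟩
      refine ⟨Complex.exp_ne_zero z, ?_⟩
      rw [Complex.norm_exp]
      exact (Real.lt_log_iff_exp_lt h).1 hz
  rw [this]
  exact (convex_halfSpace_re_lt _).isPreconnected.image _ Complex.continuous_exp.continuousOn

theorem pD_op (δ : ℝ) : IsOpen (pD δ) :=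
  isOpen_ne.inter (isOpen_lt continuous_norm continuous_const)

/-- a segment accumulates -/
theorem freq {P : ℂ → Prop} {ζ : ℂ} (hζ : ζ ≠ 0) {a b : ℝ} (hab : a < b)
    (h : ∀ ρ ∈ Set.Icc a b, P (ζ * ρ)) : ∃ᶠ z in 𝓝[≠] (ζ * a), P z := by
  have t1 : Tendsto (fun ρ : ℝ => ζ * ρ) (𝓝[>] a) (𝓝[≠] (ζ * a)) := by
    refine tendsto_nhdsWithin_iff.2 ⟨?_, ?_⟩
    · exact ((continuous_const.mul Complex.continuous_ofReal).tendsto a).mono_left
        nhdsWithin_le_nhds
    · filter_upwards [self_mem_nhdsWithin] with ρ hρ e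
      exact (ne_of_gt hρ) (by exact_mod_cast mul_left_cancel₀ hζ e)
  refine t1.frequently (Eventually.frequently ?_)
  filter_upwards [Ioo_mem_nhdsGT hab] with ρ hρ using h ρ ⟨hρ.1.le, hρ.2.le⟩

theorem cc {f : ℂ → ℂ} {x : ℂ} (h : DifferentiableAt ℂ f (conj x)) :
    DifferentiableAt ℂ (fun s => conj (f (conj s))) x := differentiableAt_conj_conj_iff.2 h

variable {ι : Type} [Fintype ι] {n : ℕ} [NeZero n] {L : Lp ι n} {R : ℝ}

theorem nrm {t : ℝ} (ht : t < -R) : R < ‖(t : ℂ)‖ := by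
  rw [Complex.norm_real]
  exact (lt_neg.1 ht).trans_le (neg_le_abs t)

omit [Fintype ι] in
theorem ctx (h : L.Ok R) {f : ι → ℝ → ℂ} (hf : Ct f) : Ct fun j θ => L.x j θ * f j θ :=
  fun j => (h.cx j).continuousOn.mul (hf j)

theorem zero (A : L.Api R) {f : ι → ℝ → ℂ} (hf : Ct f) {κ a b : ℝ} (hab : a < b) (hb : b < -R)
    {Q : ℝ[X]} (h : ∀ t ∈ Set.Icc a b, κ * (L.Φ f t).im = Q.eval t) :
    ∀ t < -R, κ * (L.Φ f t).im = 0 := by
  have a1 : AnalyticOnNhd ℝ (fun t : ℝ => κ * (L.Φ f t).im) (Set.Iio (-R)) := fun t ht =>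
    analyticAt_const.mul ((Complex.imCLM.analyticAt _).comp
      ((((A.hol f hf).analyticAt ((isOpen_lt continuous_const continuous_norm).mem_nhds
        (nrm ht))).restrictScalars (𝕜 := ℝ)).comp (Complex.ofRealCLM.analyticAt t)))
  have a2 : AnalyticOnNhd ℝ (fun t : ℝ => Q.eval t) (Set.Iio (-R)) := 
    (AnalyticOnNhd.eval_polynomial Q).mono (Set.subset_univ _)
  have e := a1.eqOn_of_preconnected_of_eventuallyEq a2 isPreconnected_Iio
    (z₀ := (a + b) / 2) (by rw [Set.mem_Iio]; linarith) (by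
      filter_upwards [Icc_mem_nhds (a := a) (b := b) (by linarith) (by linarith)] with t ht
        using h t ht)
  have t1 : Tendsto (fun t : ℝ => Q.eval t) atBot (𝓝 0) := by
    have := ((Complex.continuous_im.tendsto 0).comp (A.lim f hf)).const_mul κ
    simp only [Complex.zero_im, mul_zero] at this
    refine this.congr' ?_
    filter_upwards [eventually_lt_atBot (-R)] with t ht using e ht
  have t2 : Tendsto (fun t : ℝ => (Q.comp (-X)).eval t) atTop (𝓝 0) := by
    simpa [eval_comp, Function.comp_def] using t1.comp tendsto_neg_atTop_atBot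
  have q0 : Q.comp (-X) = 0 := leadingCoeff_eq_zero.1 ((tendsto_nhds_iff _).1 t2).1
  intro t ht
  have := congrArg (eval (-t)) q0
  refine (e ht).trans ?_
  simpa [eval_comp] using this

theorem pw (h : L.Ok R) (A : L.Api R) {f : ι → ℝ → ℂ} (hf : Ct f) (s : ℝ) (m : ℕ) :
    (Ct fun j θ => (L.x j θ - s) ^ m * f j θ) ∧ ∃ q : ℝ[X], ∀ t < -R,
      (L.Φ (fun j θ => (L.x j θ - s) ^ m * f j θ) t).im =
        (t - s) ^ m * (L.Φ f t).im + q.eval t := by
  induction m with
  | zero => exact ⟨by simpa using hf, 0, by simp⟩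
  | succ m ih =>
    obtain ⟨c, q, hq⟩ := ih
    refine ⟨fun j => (((h.cx j).sub continuous_const).pow _).continuousOn.mul (hf j),
      C (L.I fun j θ => (L.x j θ - s) ^ m * f j θ).im + (X - C s) * q, fun t ht => ?_⟩
    have e : (fun j θ => (L.x j θ - s) ^ (m + 1) * f j θ) = fun j θ =>
        L.x j θ * ((L.x j θ - s) ^ m * f j θ) + (-s : ℝ) * ((L.x j θ - s) ^ m * f j θ) := by
      funext j θ
      push_cast
      ring
    rw [e, A.padd _ (fun j θ => (-s : ℝ) * ((L.x j θ - s) ^ m * f j θ)) _ (ctx h c)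
      (fun j => continuousOn_const.mul (c j)) (nrm ht), A.psmul,
      A.mul _ _ c (nrm ht)]
    simp only [Complex.add_im, Complex.im_ofReal_mul, hq t ht, eval_add, eval_mul, eval_sub,
      eval_C, eval_X]
    ring

end CR

open CR in
theorem cRay : RAY := by
  intro H δ a b N hN ha hab hb hH hr
  have N0 : N ≠ 0 := hN.pos.ne'
  have n1 : ∀ ζ : ℂ, ζ ^ N = -1 → ‖ζ‖ = 1 := fun ζ h =>
    (pow_eq_one_iff_of_nonneg (norm_nonneg ζ) N0).1 (by rw [← norm_pow, h]; simp)
  have hm : ∀ c s : ℂ, ‖c‖ = 1 → s ∈ pD δ → c * s ∈ pD δ := fun c s hc hs =>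
    ⟨mul_ne_zero (norm_pos_iff.1 (by rw [hc]; norm_num)) hs.1, by
      rw [norm_mul, hc, one_mul]; exact hs.2⟩
  have hI : ∀ ρ ∈ Set.Icc a b, (ρ : ℂ) ∈ pD δ := fun ρ hρ =>
    ⟨by exact_mod_cast (ha.trans_le hρ.1).ne', by
      rw [Complex.norm_real, Real.norm_of_nonneg (ha.le.trans hρ.1)]; exact hρ.2.trans_lt hb⟩
  have key : ∀ ζ : ℂ, ζ ^ N = -1 → ∀ s ∈ pD δ, conj (H (conj s)) = H (ζ ^ 2 * s) := by
    intro ζ hζ
    have z1 := n1 ζ hζ
    have z2 : ζ * conj ζ = 1 := by rw [Complex.mul_conj, Complex.normSq_eq_norm_sq, z1]; simp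
    have d1 : DifferentiableOn ℂ (fun s => conj (H (conj s))) (pD δ) := fun s hs =>
      (cc (hH.differentiableAt ((pD_op δ).mem_nhds
        ⟨by simpa using hs.1, by simpa using hs.2⟩))).differentiableWithinAt
    have d2 : DifferentiableOn ℂ (fun s => H (ζ ^ 2 * s)) (pD δ) :=
      hH.comp (by fun_prop) fun s hs => hm _ s (by rw [norm_pow, z1]; simp) hs
    refine (d1.analyticOnNhd (pD_op δ)).eqOn_of_preconnected_of_frequently_eq
      (d2.analyticOnNhd (pD_op δ)) (pD_conn ((ha.trans hab).trans hb))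
      (hm (conj ζ) a (by simpa using z1) (hI a ⟨le_rfl, hab.le⟩))
      (freq (by simpa using norm_pos_iff.1 (by rw [z1]; norm_num)) hab fun ρ hρ => ?_)
    have e : ζ ^ 2 * (conj ζ * ρ) = ζ * ρ := by linear_combination ζ * ρ * z2
    simp only [map_mul, Complex.conj_conj, Complex.conj_ofReal, e]
    exact Complex.conj_eq_iff_im.2 (hr ζ hζ ρ hρ)
  intro ζ ζ' hζ hζ' ρ hρ
  obtain ⟨k, rfl⟩ := hN
  have z0 : ζ ≠ 0 := norm_pos_iff.1 (by rw [n1 ζ hζ]; norm_num)
  set η := ζ' / ζ with hη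
  have e1 : η ^ (2 * k + 1) = 1 := by rw [hη, div_pow, hζ, hζ']; simp
  have e2 : (η ^ (k + 1) * ζ) ^ (2 * k + 1) = -1 := by
    rw [mul_pow, ← pow_mul, mul_comm (k + 1), pow_mul, e1, hζ]; simp
  have hs : ζ⁻¹ * ρ ∈ pD δ := hm _ _ (by rw [norm_inv, n1 ζ hζ]; simp) (hI ρ hρ)
  have k1 := (key ζ hζ _ hs).symm.trans (key _ e2 _ hs)
  have e3 : ζ ^ 2 * (ζ⁻¹ * ρ) = ζ * ρ := by field_simp
  have e4 : (η ^ (k + 1) * ζ) ^ 2 * (ζ⁻¹ * ρ) = ζ' * ρ := by
    have : (η ^ (k + 1)) ^ 2 = η := by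
      rw [← pow_mul, show (k + 1) * 2 = 2 * k + 1 + 1 by ring, pow_succ, e1, one_mul]
    rw [mul_pow, this, hη]
    field_simp
  rwa [e3, e4] at k1

open CR in
theorem cRigB3 : OfRigB3 := by
  rintro hL ι _ n r _ T t1 B L R - - hB h hR κ ⟨i, k, hk⟩ hT
  have A := hL ι n L R h
  obtain ⟨Q, hQ⟩ := hT i
  have hab : (B.t0 : ℝ) < B.t0 + B.ρ := lt_add_of_pos_right _ hB.rho.1
  have hb : (B.t0 : ℝ) + B.ρ < -R := by linarith [hB.rho.2]
  obtain ⟨c, q, hq⟩ := pw h A (f := fun j θ => L.Y j θ i) (fun j => (h.cy j i).continuousOn) t1 n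
  set f : ι → ℝ → ℂ := fun j θ => (L.x j θ - (t1 : ℝ)) ^ n * L.Y j θ i with hf
  have ck : ∀ k : ℕ, Ct fun j θ => L.x j θ ^ k * f j θ := fun k j =>
    ((h.cx j).pow k).continuousOn.mul (c j)
  have st : ∀ k : ℕ, ∀ t < -R, (L.Φ (fun j θ => L.x j θ ^ (k + 1) * f j θ) t).im =
      (L.I fun j θ => L.x j θ ^ k * f j θ).im +
        t * (L.Φ (fun j θ => L.x j θ ^ k * f j θ) t).im := fun k t ht => by
    rw [← Complex.im_ofReal_mul, ← Complex.add_im, ← A.mul _ _ (ck k) (nrm ht)]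
    simp only [pow_succ', mul_assoc]
  have z : ∀ k : ℕ, ∀ t < -R, κ * (L.Φ (fun j θ => L.x j θ ^ k * f j θ) t).im = 0 := by
    intro k
    induction k with
    | zero =>
      refine zero A (ck 0) hab hb (Q := C κ * q - Q) fun t ht => ?_
      simp only [pow_zero, one_mul]
      rw [hq t (ht.2.trans_lt hb), eval_sub, eval_mul, eval_C, ← hQ t ht]
      simp
      ring
    | succ k ih =>
      refine zero A (ck _) hab hb (Q := C (κ * (L.I fun j θ => L.x j θ ^ k * f j θ).im))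
        fun t ht => ?_
      rw [st k t (ht.2.trans_lt hb), mul_add, mul_left_comm, ih t (ht.2.trans_lt hb)]
      simp
  have e := z (k + 1) _ hb
  rw [st k _ hb, mul_add, mul_left_comm, z k _ hb, mul_zero, add_zero] at e
  refine (mul_eq_zero.1 e).resolve_right ?_
  simpa [hf, mul_assoc] using hk

open CR in
theorem cRigB2 : OfRigB2 := by
  intro hL ι _ n r _ T t1 B L R hn hT hB h hR ι' cls c κ hC hc hQ hP
  have A := hL ι n L R h
  choose P hP using hP
  have hab : (B.t0 : ℝ) < B.t0 + B.ρ := lt_add_of_pos_right _ hB.rho.1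
  have hb : (B.t0 : ℝ) + B.ρ < -R := by linarith [hB.rho.2]
  let φ : ℤ[X] →+* ℝ[X] := mapRingHom (Int.castRingHom ℝ)
  let G : Matrix (Fin n) (Fin n) ℝ[X] := φ.mapMatrix (Matrix.of fun i j => (T.M i * T.M j).trace)
  have hG : G.det ≠ 0 := by
    rw [← RingHom.map_det]
    exact fun e => hT.sep (map_injective _ (Int.castRingHom ℝ).injective_int
      (e.trans (Polynomial.map_zero _).symm))
  let Φ : Fin n → ℂ → ℂ := fun i => L.Φ fun j θ => L.Y j θ i
  have d0 : ∀ i τ, R < ‖τ‖ → DifferentiableAt ℂ (Φ i) τ := fun i τ hτ =>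
    (A.hol _ fun j => (h.cy j i).continuousOn).differentiableAt
      ((isOpen_lt continuous_const continuous_norm).mem_nhds hτ)
  let D : ℝ[X] := (X - C (t1 : ℝ)) ^ n * G.det
  have hD : D ≠ 0 := mul_ne_zero (pow_ne_zero _ (X_sub_C_ne_zero _)) hG
  have k0 := hC (fun i τ => ∑ j, aeval τ (G.adjugate i j) * (2 * aeval τ (P j) +
      κ * (τ - t1) ^ n * ((Φ j τ - conj (Φ j (conj τ))) * -Complex.I)))
    (fun w t => D.eval t * c w t) (fun i τ hτ => DifferentiableAt.differentiableWithinAt <|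
      DifferentiableAt.fun_sum fun j _ => (Polynomial.differentiable_aeval _ τ).fun_mul
        (((Polynomial.differentiable_aeval _ τ).const_mul _).fun_add
          ((by fun_prop : DifferentiableAt ℂ (fun τ : ℂ => κ * (τ - t1) ^ n) τ).fun_mul
            (((d0 j τ hτ).fun_sub (cc (d0 j _ (by simpa using hτ)))).mul_const _))))
    fun w t ht => ?_
  · have k1 : ∀ w w', cls w = cls w' → ∀ t ∈ B.I, c w t = c w' t := fun w w' e => by
      have hcl : B.I ⊆ closure (B.I \ (D.roots.toFinset : Set ℝ)) := fun t ht => by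
        have := (accPt_iff_frequently_nhdsNE.1 (isPreconnected_Icc.preperfect_of_nontrivial
          ⟨_, Set.left_mem_Icc.2 hab.le, _, Set.right_mem_Icc.2 hab.le, hab.ne⟩ t ht))
        refine ((this.and_eventually ?_).filter_mono nhdsWithin_le_nhds).mem_closure
        filter_upwards [self_mem_nhdsWithin, nhdsWithin_le_nhds
          ((D.roots.toFinset.finite_toSet.sdiff (t := {t})).isClosed.compl_mem_nhds (by simp))]
          with y h1 h2 h3 using h2 ⟨h3, h1⟩
      refine Set.EqOn.of_subset_closure (fun t ht => ?_) (hc w) (hc w') Set.sdiff_subset hcl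
      exact mul_left_cancel₀ (by simpa [hD] using ht.2) (k0 w w' e t ht.1)
    intro w t ht
    have k5 := congrFun (hQ t ht) w
    rw [Matrix.mulVec, dotProduct, sum_congr rfl (g := fun w' => GV.R.Qm cls w w' * c w t)
      fun w' _ => by
        by_cases h : cls w' = cls w
        · rw [k1 w' w h t ht]
        · simp [GV.R.Qm, h], ← sum_mul] at k5
    refine (mul_eq_zero.1 k5).resolve_left (ne_of_gt (sum_pos' (fun w' _ => ?_)
      ⟨w, mem_univ w, by simp [GV.R.Qm]⟩))
    rw [GV.R.Qm, Matrix.of_apply]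
    split_ifs <;> norm_num
  obtain ⟨β, hβ⟩ := (hB.em t ht).surj hn fun w => c w t
  have h1 : ∀ i j, (evalRingHom t).mapMatrix G i j = (T.fib t i * T.fib t j).trace := fun i j => by
    rw [T.fib_eq, ← Matrix.map_mul]
    exact (eval_map_algebraMap _ t).trans
      (AddMonoidHom.map_trace (aeval t : ℤ[X] →ₐ[ℤ] ℝ).toRingHom (T.M i * T.M j))
  let u : Fin n → ℝ := fun j => 2 * (P j).eval t + 2 * κ * (t - t1) ^ n * (Φ j t).im
  have h2 : u = (t - t1) ^ n • ((evalRingHom t).mapMatrix G *ᵥ β) := funext fun i => by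
    have := GV.R.RRig3.gram (hT.rng.map _) (hB.em t ht) hn hβ i
    simp only [Pi.smul_apply, smul_eq_mul, Matrix.mulVec, dotProduct, h1, u]
    rw [show ∑ j, (T.fib t i * T.fib t j).trace * β j = _ from this, ← hP i t ht]
    ring
  have h3 : ((evalRingHom t).mapMatrix G).adjugate *ᵥ u = D.eval t • β := by
    rw [h2, Matrix.mulVec_smul, Matrix.mulVec_mulVec, Matrix.adjugate_mul, ← RingHom.map_det,
      Matrix.smul_mulVec, Matrix.one_mulVec, smul_smul]
    simp [D]
  rw [Complex.ofReal_mul, ← hβ w, emb, mul_sum]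
  refine sum_congr rfl fun i _ => ?_
  have h4 := congrFun h3 i
  rw [← RingHom.map_adjugate, Pi.smul_apply, smul_eq_mul, Matrix.mulVec, dotProduct] at h4
  rw [← mul_assoc, ← Complex.ofReal_mul, ← h4, Complex.ofReal_sum]
  refine congrArg (· * _) (sum_congr rfl fun j _ => ?_)
  have h5 : ∀ p : ℝ[X], aeval (t : ℂ) p = (p.eval t : ℝ) := fun p => by
    rw [← Complex.coe_algebraMap, aeval_algebraMap_apply, coe_aeval_eq_eval]
  rw [h5, h5, Complex.conj_ofReal, Complex.sub_conj]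
  simp only [u, RingHom.mapMatrix_apply, Matrix.map_apply, coe_evalRingHom]
  push_cast
  linear_combination (-2 * (eval t (G.adjugate i j) : ℝ) * κ * ((t : ℂ) - t1) ^ n * (Φ j t).im) *
    Complex.I_mul_I

end Pool.Agent.MP_f3836a_nt.GV.T
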