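import Pool.Agent.MP_f3836a_nt.RG.SpecP
import Pool.Agent.MP_f3836a_nt.GP.Base

/-! Descent of the regulator statement and the top of the proof. -/

set_option autoImplicit false

namespace Pool.Agent.MP_f3836a_nt.RG

open PK VE.W VE.Z GP Finset

namespace PBs

variable {F E ι : Type} [Field F] [Field E]

theorem cld_sum (A : ChA F) (s : Finset ι) (γ : ι → Ch F) (h : ∀ i, Cld (γ i)) :
    Cld (∑ i ∈ s, γ i) :=
  sum_induction _ _ A.ac (fun Φ => Finsupp.sum_zero_index) fun i _ => h i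

theorem rr_sum (A : ChA F) (s : Finset ι) (γ : ι → Ch F) (f g : F) :
    RR (∑ i ∈ s, γ i) f g = ∑ i ∈ s, RR (γ i) f g := by
  induction s using Finset.cons_induction with
  | empty => exact Finsupp.sum_zero_index
  | cons a s ha ih => rw [sum_cons, sum_cons, A.ar, ih]

theorem ip_sum (A : ChA F) (s : Finset ι) (γ : ι → Ch F) (ω : Om F) :
    IP (∑ i ∈ s, γ i) ω = ∑ i ∈ s, IP (γ i) ω := by
  induction s using Finset.cons_induction with
  | empty => exact Finsupp.sum_zero_index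
  | cons a s ha ih => rw [sum_cons, sum_cons, A.ai, ih]

omit [Field F] [Field E] in
theorem sl_mp (β : E → E → ℝ) (φ : F → E) (l : List (F × F)) :
    sl β (mp φ l) = sl (fun f g => β (φ f) (φ g)) l := by
  simp [sl, mp, Function.comp_def]

omit [Field F] in
theorem sl_sum (s : Finset ι) (c : ι → ℝ) (β : ι → F → F → ℝ) (l : List (F × F)) :
    sl (fun f g => ∑ i ∈ s, c i * β i f g) l = ∑ i ∈ s, c i * sl (β i) l := by
  induction l with
  | nil => simp [sl]
  | cons a l ih =>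
    simp only [sl, List.map_cons, List.sum_cons, mul_add, sum_add_distrib] at ih ⊢
    rw [ih]

theorem nz_mp (φ : F →+* E) {l : List (F × F)} (h : NZ l) : NZ (mp φ l) := by
  intro s hs
  obtain ⟨a, ha, rfl⟩ := List.mem_map.1 hs
  exact ⟨(map_ne_zero φ).2 (h a ha).1, (map_ne_zero φ).2 (h a ha).2⟩

theorem sy_cm (φ : F →+* E) {β : E → E → ℝ} (h : Sy β) : Sy fun f g => β (φ f) (φ g) where
  mul f f' g a b c := by
    rw [map_mul, h.mul _ _ _ ((map_ne_zero φ).2 a) ((map_ne_zero φ).2 b) ((map_ne_zero φ).2 c)]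
  swap f g a b := h.swap _ _ ((map_ne_zero φ).2 a) ((map_ne_zero φ).2 b)
  st f a b := by
    rw [map_sub, map_one]
    exact h.st _ ((map_ne_zero φ).2 a) fun e => b (φ.injective (e.trans φ.map_one.symm))

theorem span_top {D : ℕ} (T : Set (Fin D → ℝ))
    (h : ∀ r : Fin D → ℝ, (∀ x ∈ T, ∑ k, r k * x k = 0) → r = 0) : Submodule.span ℝ T = ⊤ := by
  by_contra hne
  obtain ⟨f, hf, hle⟩ := (Submodule.span ℝ T).exists_le_ker_of_lt_top (lt_top_iff_ne_top.2 hne)
  have h1 : ∀ x, f x = ∑ k, f (fun j => if k = j then 1 else 0) * x k := fun x => by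
    rw [LinearMap.pi_apply_eq_sum_univ]
    simp only [smul_eq_mul, mul_comm]
  have h2 := h _ fun x hx => (h1 x).symm.trans (hle (Submodule.subset_span hx))
  refine hf (LinearMap.ext fun x => ?_)
  rw [h1]
  exact sum_eq_zero fun k _ => by rw [congrFun h2 k]; simp

end PBs

open PBs

theorem pBS : OfBS := by
  intro hFin hWS hP1 hDual hDesc hT hU hUp hBP K F E _ _ _ _ _ _ _ _ _ _ O O' M VV γ hF hTwo hV
    hγ h0 ω hω
  obtain ⟨VV', hV', hσ, hdn⟩ := hU F E M VV hV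
  have A := (hWS E).2
  have hc : Cld (∑ σ : E ≃ₐ[F] E, dn (σ : E →+* E) γ) := cld_sum A _ _ fun σ => A.dc E _ γ hγ
  have h1 : ∀ l', Ul VV' l' → sl (RR (∑ σ : E ≃ₐ[F] E, dn (σ : E →+* E) γ)) l' = 0 := by
    intro l' hl'
    obtain ⟨m, l, hm, hl, hβ⟩ := hDesc F E l' hl'.1
    have hn := nz_mp (algebraMap F E) hl
    have h2 : Ul VV' (mp (algebraMap F E) l) := ⟨hn, fun V hV => by
      have hD : Dvr V := hV.elim (fun h => h.1) fun h => (hV'.dv V h).1
      refine ((hT E V hD).2 _ ((dvA hD).bd _ hn).1).2 fun lam hlam => ?_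
      obtain ⟨a, b⟩ := (hT E V hD).1 lam hlam
      rw [b _ hn, ← hβ _ a, sum_eq_zero fun σ _ => ?_, mul_zero]
      have h3 := hσ σ l' hl'
      rw [← b _ h3.1]
      exact hlam.tor ((dvA hD).bd _ h3.1).1 (h3.2 V hV)⟩
    have h3 := (hβ _ (hP1 E γ hγ)).trans (h0 l (hdn l hl h2))
    have h4 : RR (∑ σ : E ≃ₐ[F] E, dn (σ : E →+* E) γ) =
        fun f g => ∑ σ : E ≃ₐ[F] E, 1 * RR γ (σ f) (σ g) := by
      ext f g
      simp only [rr_sum A, A.dr, one_mul, RingHom.coe_coe]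
    rw [h4, sl_sum]
    simp only [one_mul, ← sl_mp]
    exact (mul_eq_zero.1 h3).resolve_left (by exact_mod_cast hm.ne')
  obtain ⟨lam, hK⟩ := hDual E M VV' _ (hFin E hTwo.fg) hV' (hP1 E _ hc) h1
  have h2 := hBP K E O O' hTwo M VV' lam _ hc hK _ ((hUp F E hF).1 ω hω)
  have h3 : ∀ σ : E ≃ₐ[F] E, IP (dn (σ : E →+* E) γ) (up E ω) = IP γ (up E ω) := fun σ => by
    rw [← A.di, A.dd, show (σ : E →+* E).comp (algebraMap F E) = algebraMap F E from
      RingHom.ext σ.commutes, A.di]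
  simp only [ip_sum A, h3, sum_const, nsmul_eq_mul, card_univ] at h2
  exact (mul_eq_zero.1 h2).resolve_left (by exact_mod_cast Fintype.card_ne_zero)

theorem pMainR : OfMainR := by
  intro hWS hP1 hExt hUp hBS hAP F _ _ M VV D ω hF hV hI hR
  obtain ⟨K, E, _, _, _, _, _, _, O, O', _, _, hTwo⟩ := hExt F hF
  have A := (hWS E).2
  let S : Submodule ℝ (Fin D → ℝ) :=
    { carrier := {x | ∃ γ : Ch E, Cld γ ∧ ∀ k, IP γ (up E (ω k)) = x k}
      add_mem' := fun ⟨γ, a, b⟩ ⟨γ', a', b'⟩ =>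
        ⟨γ + γ', A.ac _ _ a a', fun k => by rw [A.ai, b, b', Pi.add_apply]⟩
      zero_mem' := ⟨0, fun Φ => Finsupp.sum_zero_index, fun k => Finsupp.sum_zero_index⟩
      smul_mem' := fun c x ⟨γ, a, b⟩ => ⟨c • γ, A.sc c γ a, fun k => by rw [A.si, b]; rfl⟩ }
  have hS : S = ⊤ := by
    rw [← Submodule.span_eq S]
    exact span_top _ fun r hr => hAP K E O O' hTwo D _ r ((hUp F E hF).2 D ω hI)
      (fun k => (hUp F E hF).1 _ (hR k)) fun γ hγ => hr _ ⟨γ, hγ, fun k => rfl⟩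
  choose γ hγ hδ using fun j : Fin D =>
    show ∃ γ : Ch E, Cld γ ∧ ∀ k, IP γ (up E (ω k)) = (Pi.single j 1 : Fin D → ℝ) k from
      (hS ▸ Submodule.mem_top : Pi.single j 1 ∈ S)
  let T : Set (Fin D → ℝ) :=
    {x | ∃ l, Ul VV l ∧ ∀ j, sl (RR (γ j)) (mp (algebraMap F E) l) = x j}
  have hT : Submodule.span ℝ T = ⊤ := span_top _ fun r hr => funext fun k => by
    have h1 := hBS K F E O O' M VV (∑ j, r j • γ j) hF hTwo hV
      (cld_sum A _ _ fun j => A.sc _ _ (hγ j)) (fun l hl => by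
        rw [show RR (∑ j, r j • γ j) = fun f g => ∑ j, r j * RR (γ j) f g by
          ext f g; simp only [rr_sum A, A.sr], sl_sum]
        exact hr _ ⟨l, hl, fun j => rfl⟩) _ (hR k)
    simpa [ip_sum A, A.si, hδ, Pi.single_apply] using h1
  have h1 := Submodule.exists_fun_fin_finrank_span_eq ℝ T
  rw [hT, finrank_top, Module.finrank_fin_fun] at h1
  obtain ⟨f, hf, -, hli⟩ := h1
  choose l hl he using hf
  refine ⟨l, hl, fun n hn => funext fun i => ?_⟩
  have h2 := Fintype.linearIndependent_iff.1 hli (fun i => (n i : ℝ)) (funext fun j => by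
    simpa [← he, sl_mp] using hn _ (sy_cm (algebraMap F E) (hP1 E _ (hγ j)))) i
  exact_mod_cast h2

end Pool.Agent.MP_f3836a_nt.RG
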