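import Pool.Agent.MP_f3836a_nt.RG.SpecG

/-! Part A: the periods span. -/

set_option autoImplicit false

namespace Pool.Agent.MP_f3836a_nt.GV.A.U

open Polynomial NumberField Filter Topology Metric PK VE.Z GP GV.T RG

/-- a function on paths which kills closed chains is a coboundary -/
def A1 : Prop := ∀ (F : Type) [Field F] (c : Pa F → ℝ),
  (∀ γ : Ch F, Cld γ → (γ.sum fun p a => a * c p) = 0) →
  ∃ U : (F →+* ℂ) → ℝ, ∀ p, c p = U (p.e 1) - U (p.e 0)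

/-! ### valuations -/

/-- the differentials have rank at most one -/
def SPAN : Prop := ∀ (F : Type) [Field F] [CharZero F] (x : F), FG F → Transcendental ℤ x →
  ∀ ω : Om F, ∃ h : F, ω = h • dd x

/-- bounded denominators of derivatives -/
def BDD : Prop := ∀ (F : Type) [Field F] [CharZero F] (P : Subring F) (π : F), FG F → Pl P →
  ordR P π = 1 → dd π ≠ 0 → ∃ c : ℕ, ∀ a ∈ P, ∀ a' : F, dd a = a' • dd π → π ^ c * a' ∈ P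

/-- a regular differential against a logarithmic one -/
def DVS : Prop := ∀ (F : Type) [Field F] [CharZero F] (P : Subring F) (z : F) (ω : Om F), FG F →
  Pl P → z ≠ 0 → ordR P z ≠ 0 → RegAt P ω → ∃ h : F, ω = h • dd z ∧ Nu P (h * z)

/-- integrality -/
def INT : Prop := ∀ (F : Type) [Field F] [CharZero F] (u y : F), FG F → Transcendental ℤ u →
  (∀ P, Pl P → u ∈ P → y ∈ P) → IsIntegral (Algebra.adjoin ℚ {u}) y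

/-- `w` is the value of `z` at the point `ψ` -/
def Vl {𝒜 F : Type} [CommRing 𝒜] [Field F] (j : 𝒜 →+* F) (ψ : 𝒜 →+* ℂ) (z : F) (w : ℂ) : Prop :=
  ∃ t b : 𝒜, ψ t ≠ 0 ∧ j t * z = j b ∧ ψ b = ψ t * w

/-- values of integral elements are bounded -/
def BND : Prop := ∀ (𝒜 F : Type) [CommRing 𝒜] [Field F] [CharZero F] (j : 𝒜 →+* F) (u y : F)
  (ρ : ℝ), Function.Injective j → IsIntegral (Algebra.adjoin ℚ {u}) y →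
  ∃ C : ℝ, ∀ (ψ : 𝒜 →+* ℂ) (v w : ℂ), Vl j ψ u v → Vl j ψ y w → ‖v‖ ≤ ρ → ‖w‖ ≤ C

/-- the radical -/
def RAD : Prop := ∀ q : ℤ[X], q ≠ 0 → ∃ (p : ℤ[X]) (m : ℕ) (c : ℤ),
  (p.map (Int.castRingHom ℂ)).Separable ∧ c ≠ 0 ∧ q ∣ C c * p ^ m

/-- the behaviour at the roots of `p` and at infinity -/
structure Asy {𝒜 : Type} [CommRing 𝒜] (x : 𝒜) (p : ℤ[X]) (a : 𝒜) : Prop where
  fin : ∀ ε : ℝ, 0 < ε → ∃ δ : ℝ, 0 < δ ∧ ∀ ψ : 𝒜 →+* ℂ, ‖aeval (ψ x) p‖ < δ → ‖ψ a‖ ≤ ε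
  inf : ∀ ε : ℝ, 0 < ε → ∃ R : ℝ, ∀ ψ : 𝒜 →+* ℂ, R < ‖ψ x‖ →
    ‖ψ a * ψ x‖ ≤ ε * ‖aeval (ψ x) p‖

/-- the algebraic form -/
def VAL0 : Prop := AllF fun _ F _ _ _ _ _ O' 𝒜 x => ∀ (D : ℕ) (ω : Fin D → Om F) (p0 : ℤ[X]),
  p0 ≠ 0 → (∀ k, Rw (ω k)) → ∃ (p : ℤ[X]) (n : ℕ) (a : Fin D → 𝒜),
    (p.map (Int.castRingHom ℂ)).Separable ∧ 0 < p.natDegree ∧ n ≠ 0 ∧
    (∀ b : ℂ, aeval b p0 = 0 → aeval b p = 0) ∧ ∀ k,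
      ((n : F) * aeval (x : F) p) • ω k = (a k : F) • dd (x : F) ∧
      (∀ P, Pl P → P ≠ O' → Nu P (aeval (x : F) p) → Nu P (a k : F)) ∧
      Nu O' ((a k : F) * x / aeval (x : F) p)

/-- the analytic form -/
def VAL1 : Prop := AllF fun _ F _ _ _ _ _ O' 𝒜 x => ∀ (p : ℤ[X]) (a : 𝒜), 0 < p.natDegree →
  (∀ P, Pl P → P ≠ O' → Nu P (aeval (x : F) p) → Nu P (a : F)) →
  Nu O' ((a : F) * x / aeval (x : F) p) → Asy x p a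

/-! ### points -/

/-- transcendental numbers -/
def TRS : Prop := (∀ t : ℂ, Transcendental ℤ t ↔ Transcendental ℤ t.re ∨ Transcendental ℤ t.im) ∧
  Dense {t : ℝ | Transcendental ℤ t} ∧ Dense {t : ℂ | Transcendental ℤ t}

/-- fractions, and extension of generic points -/
structure Ef {𝒜 F : Type} [CommRing 𝒜] [Field F] (j : 𝒜 →+* F) (x : 𝒜) : Prop where
  fr : ∀ z : F, ∃ b c : 𝒜, j c ≠ 0 ∧ z * j c = j b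
  ex : ∀ ψ : 𝒜 →+* ℂ, Transcendental ℤ (ψ x) → ∃ e : F →+* ℂ, ∀ u, e (j u) = ψ u

def EXF : Prop := AllF fun _ F _ _ _ _ _ _ 𝒜 x =>
  Transcendental ℤ (x : F) ∧ Ef (𝒜.val.toRingHom : 𝒜 →+* F) x

/-- a segment of generic points is a path -/
def SEG : Prop := ∀ (𝒜 F : Type) [CommRing 𝒜] [Field F] (j : 𝒜 →+* F) (x : 𝒜)
  (φ : ℂ → 𝒜 →+* ℂ) (B : Set ℂ) (t t' : ℂ), Ef j x → IsOpen B → segment ℝ t t' ⊆ B →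
  (∀ z ∈ segment ℝ t t', Transcendental ℤ z) → (∀ z ∈ B, φ z x = z) →
  (∀ u, DifferentiableOn ℂ (fun z => φ z u) B) → ∃ p : Pa F,
    (∀ u, p.e 0 (j u) = φ t u) ∧ (∀ u, p.e 1 (j u) = φ t' u) ∧
    ∀ (s a : 𝒜) (ω : Om F) (G : ℂ → ℂ), j s ≠ 0 → j s • ω = j a • dd (j x) →
      (∀ z ∈ B, HasDerivAt G (φ z a / φ z s) z) → p.pe ω = G t' - G t

/-- the potential on a branch -/
def LOC : Prop := ∀ (𝒜 F : Type) [CommRing 𝒜] [Field F] (j : 𝒜 →+* F) (x s : 𝒜) (D : ℕ)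
  (a : Fin D → 𝒜) (ω : Fin D → Om F) (r : Fin D → ℝ) (U : (F →+* ℂ) → ℝ) (φ : ℂ → 𝒜 →+* ℂ)
  (t0 : ℂ) (ρ : ℝ), Ef j x → 0 < ρ → j s ≠ 0 → (∀ k, j s • ω k = j (a k) • dd (j x)) →
  (∀ p : Pa F, ∑ k, r k * (p.pe (ω k)).im = U (p.e 1) - U (p.e 0)) →
  (∀ z ∈ ball t0 ρ, φ z x = z ∧ φ z s ≠ 0) →
  (∀ u, DifferentiableOn ℂ (fun z => φ z u) (ball t0 ρ)) →
  ∃ G : ℂ → ℂ, ∀ z ∈ ball t0 (ρ / 2), HasDerivAt G (∑ k, r k * (φ z (a k) / φ z s)) z ∧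
    (Transcendental ℤ z → ∀ e : F →+* ℂ, (∀ u, e (j u) = φ z u) → U e = (G z).im)

/-- all points over a small disc -/
structure Chart {A 𝒜 : Type} [CommRing A] [CommRing 𝒜] [Algebra A 𝒜] (x : 𝒜) (σ : A →+* ℂ)
    (t0 : ℂ) (ρ : ℝ) {N : ℕ} (φ : Fin N → ℂ → 𝒜 →+* ℂ) : Prop where
  pos : 0 < ρ
  con : ∀ k t a, φ k t (algebraMap A 𝒜 a) = σ a
  ana : ∀ k u, DifferentiableOn ℂ (fun t => φ k t u) (ball t0 ρ)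
  val : ∀ k, ∀ t ∈ ball t0 ρ, φ k t x = t
  all : ∀ t ∈ ball t0 ρ, ∀ ψ : 𝒜 →+* ℂ, ψ x = t → (∀ a, ψ (algebraMap A 𝒜 a) = σ a) →
    ∃ k, ψ = φ k t

def BCH : Prop := ∀ (K 𝒜 : Type) [Field K] [NumberField K] [CommRing 𝒜] [Algebra (𝓞 K) 𝒜]
  (S : AddSubmonoid ℕ) (μ : Module.Basis S (𝓞 K) 𝒜) (N : ℕ) (x : 𝒜), FM μ → Mo μ (N + 1) x →
  ∃ p0 : ℤ[X], p0 ≠ 0 ∧ ∀ (σ : K →+* ℂ) (t0 : ℂ), aeval t0 p0 ≠ 0 →
    ∃ (ρ : ℝ) (φ : Fin (N + 1) → ℂ → 𝒜 →+* ℂ), Chart x (σ.comp (algebraMap (𝓞 K) K)) t0 ρ φ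

/-- irreducibility -/
def IRR : Prop := ∀ (A 𝒜 : Type) [CommRing A] [Nontrivial A] [CommRing 𝒜] [Algebra A 𝒜]
  (S : AddSubmonoid ℕ) (μ : Module.Basis S A 𝒜) (N D : ℕ) (x : 𝒜) (σ : A →+* ℂ) (a : Fin D → 𝒜)
  (r : Fin D → ℂ), FM μ → Mo μ N x → 0 < N →
  {t | ∃ ψ : 𝒜 →+* ℂ, ψ x = t ∧ (∀ c, ψ (algebraMap A 𝒜 c) = σ c) ∧
    ∑ k, r k * ψ (a k) = 0}.Infinite → ∀ d, ∑ k, r k * σ (μ.repr (a k) d) = 0

/-- rational functionals -/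
def TRC : Prop := ∀ (K : Type) [Field K] [NumberField K] (D : ℕ) (c : Fin D → K) (r : Fin D → ℝ),
  (∀ σ : K →+* ℂ, ∑ k, r k * σ (c k) = 0) → ∀ ψ : ℝ →ₗ[ℚ] ℚ, ∑ k, (ψ (r k) : K) * c k = 0

/-! ### the maximum principle -/

/-- the barrier -/
noncomputable def bar (S : Finset ℂ) (a t : ℂ) : ℝ :=
  ∑ b ∈ S, Real.log ‖t - b‖ - (S.card + 1) * Real.log ‖t - a‖

/-- an interior maximum is not strict -/
def MAXI : Prop := ∀ (S : Finset ℂ) (a t0 : ℂ) (G : ℂ → ℂ) (ε : ℝ), t0 ∉ S → t0 ≠ a →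
  AnalyticAt ℂ G t0 → IsLocalMax (fun t => (G t).im + ε * bar S a t) t0 →
  ∀ᶠ t in 𝓝 t0, (G t).im + ε * bar S a t = (G t0).im + ε * bar S a t0

/-- the derivative along a ray -/
def MAXD : Prop := ∀ (S : Finset ℂ) (a t0 v : ℂ) (G : ℂ → ℂ) (ε : ℝ), t0 ∉ S → t0 ≠ a →
  AnalyticAt ℂ G t0 →
  ‖deriv G t0‖ * ‖v‖ < ε * (∑ b ∈ S, (v / (t0 - b)).re - (S.card + 1) * (v / (t0 - a)).re) →
  ∀ᶠ s : ℝ in 𝓝[>] 0, (G t0).im + ε * bar S a t0 < (G (t0 + s * v)).im + ε * bar S a (t0 + s * v)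

def MAXP : Prop := ∀ (S : Finset ℂ) (V E : ℂ → ℝ), ContinuousOn V (S : Set ℂ)ᶜ →
  (∀ t0, t0 ∉ S → ∃ G : ℂ → ℂ, AnalyticAt ℂ G t0 ∧ (G t0).im = V t0 ∧
    (∀ᶠ t in 𝓝 t0, (G t).im ≤ V t) ∧ ‖deriv G t0‖ ≤ E t0) →
  (∀ b ∈ S, Tendsto (fun t => E t * ‖t - b‖) (𝓝[≠] b) (𝓝 0)) →
  Tendsto (fun t => E t * ‖t‖) (Bornology.cobounded ℂ) (𝓝 0) →
  ∀ a t, a ∉ S → t ∉ S → V t ≤ V a

/-- the global argument -/
def GLB : Prop := ∀ (H : Type) (π β : H → ℂ) (U : H → ℝ) (T : Set ℂ) (p : ℂ[X]) (N : ℕ), Dense T →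
  p.Separable → (∀ t0, p.eval t0 ≠ 0 → ∃ (ρ : ℝ) (φ : Fin (N + 1) → ℂ → H)
    (G : Fin (N + 1) → ℂ → ℂ), 0 < ρ ∧ ∀ t ∈ ball t0 ρ, (∀ k, π (φ k t) = t ∧
      HasDerivAt (G k) (β (φ k t)) t ∧ (t ∈ T → U (φ k t) = (G k t).im)) ∧
      ∀ h, π h = t → ∃ k, h = φ k t) →
  (∀ ε : ℝ, 0 < ε → ∃ δ : ℝ, 0 < δ ∧ ∀ h, ‖p.eval (π h)‖ < δ → ‖β h * p.eval (π h)‖ ≤ ε) →
  (∀ ε : ℝ, 0 < ε → ∃ R : ℝ, ∀ h, R < ‖π h‖ → ‖β h * π h‖ ≤ ε) →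
  {t | p.eval t ≠ 0 ∧ ∃ h, π h = t ∧ β h = 0}.Infinite

def OfSpan : Prop := FfS → SPAN
def OfBdd : Prop := FfS → FinS → SPAN → BDD
def OfDvs : Prop := FinS → SPAN → BDD → DVS
def OfInt : Prop := FfS → FinS → INT
def OfVal0 : Prop := FinS → NbS → SPAN → DVS → RAD → EXF → VAL0
def OfVal1 : Prop := FinS → INT → BND → EXF → VAL1
def OfExf : Prop := FfS → FinS → NbS → M.FrS → EXF
def OfSeg : Prop := RG.WS → SEG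
def OfLoc : Prop := TRS → SEG → LOC
def OfBch : Prop := FmS → ApeS → M.SepS → R.SHoms → BRC → BCH
def OfIrr : Prop := FmS → ApeS → NcS → IRR
def OfMax : Prop := MAXI → MAXD → MAXP
def OfGlb : Prop := MAXP → GLB
def OfAP : Prop := FmX → A1 → VAL0 → VAL1 → TRS → EXF → LOC → BCH → IRR → TRC → GLB → AP

end Pool.Agent.MP_f3836a_nt.GV.A.U
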