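import Pool.Agent.MP_f3836a_nt.GV.SpecE2
import Pool.Agent.MP_f3836a_nt.GV.SpecR
import Pool.Agent.MP_f3836a_nt.GV.SpecM2
import Pool.Agent.MP_f3836a_nt.GV.SpecA

/-! Part E: the twisted analytic core, twisted archimedean rigidity, the chart at infinity. -/

set_option autoImplicit false

namespace Pool.Agent.MP_f3836a_nt.GV.T

open Polynomial Finset Filter Topology NumberField VE
open scoped Matrix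

/-! ### the twisted core -/

/-- the functions which enter the identities -/
structure Tw (n r : ℕ) where
  ψ : ℤ → ℕ → Pt → ℝ
  c : ℤ → ℕ → Fin r → ℝ
  φ : (Fin n → ℤ[X]) → Pt → ℝ
  cθ : (Fin n → ℤ[X]) → ℂ → ℝ
  tw : (Fin n → ℤ[X]) → ℤ → ℕ → ℝ

section
variable {n r : ℕ} [NeZero n] (G : Geo n r)

/-- the twisted identities on events -/
structure IdT (W : Tw n r) : Prop where
  fz : ∀ a k p, ∀ τ ∈ G.P.sp p, G.Adm a k → (p : ℤ) ∣ (k : ℤ) ^ 2 * τ - a → ¬p ∣ k →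
    ∑ y ∈ Fy G.P.r p, W.ψ a k ⟨p, τ, y⟩ = 0
  c0 : ∀ a k, G.Adm a k → W.c a k ∈ G.C0
  sum : ∀ m A, G.T.Mon m A → ∑ θ ∈ rts (G.T.N A), W.cθ A θ = 0
  idh : ∀ m A a k (T : Multiset Pt), G.T.Mon m A → G.Adm a k → Nd T →
    (∀ z ∈ T, G.P.Is z ∧ On a ((k : ℤ) ^ 2) z ∧ G.P.Zr A z ∧ ¬z.p ∣ k) →
    (nT T : ℤ) = hv (G.T.N A) (n * m) a ((k : ℤ) ^ 2) →
    (T.map (W.ψ a k)).sum + ∑ w, W.c a k w * Real.log ‖G.B.ev A w ((a : ℝ) / (k : ℝ) ^ 2)‖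
      + W.tw A a k = (T.map (W.φ A)).sum + ug (G.T.N A) (W.cθ A) ((a : ℝ) / (k : ℝ) ^ 2)

/-- the twist is close to its limit `τ` on boxes around the shape -/
def Cls (tw : (Fin n → ℤ[X]) → ℤ → ℕ → ℝ) {m : ℕ} (As : Fin n → ℤ[X]) (vs : Ix G.T.e m → ℝ)
    (τ : ℝ → ℝ) : Prop :=
  (∀ t ∈ G.B.I, |τ t| ≤ 1 / 4) ∧ ∀ ε : ℝ, 0 < ε → ∃ Cx : ℝ,
    ∀ (W' k H H1 : ℕ) (a : ℤ) (x : Ix G.T.e m → ℤ), 0 < W' → 0 < H1 → Cx * H1 ≤ H →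
      x ∈ box (fun j => ⌊(H : ℝ) * vs j⌋) H1 → G.Adm a k →
      |tw (fun i => As i + C (W' : ℤ) * (X - C G.t1) * vP x i) a k - τ ((a : ℝ) / (k : ℝ) ^ 2)| ≤ ε

/-- this holds for all shapes near one -/
def TwF (tw : (Fin n → ℤ[X]) → ℤ → ℕ → ℝ) (τ : ∀ m, (Ix G.T.e m → ℝ) → ℝ → ℝ) : Prop :=
  ∀ m, 2 ≤ m → ∃ ε1 : ℝ, 0 < ε1 ∧ ∀ vs : Ix G.T.e m → ℝ, (∀ j, |vs j - oneX j| ≤ ε1) →
    ∀ As, Cls G tw As vs (τ m vs)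

end

/-- twisted quantitative rigidity -/
def RqT {n r m s : ℕ} (T : Tb n) (B : Br n r) (t1 : ℤ) (C0 : Set (Fin r → ℝ))
    (v : Fin s → Ix T.e m → ℝ) (τ : Fin s → ℝ → ℝ) (J : ℕ) (D Λ : ℝ) : Prop :=
  ∀ (H : Type) [Fintype H] (σ t : H → ℝ) (c : H → Fin r → ℝ) (f : Fin s → ℝ → ℝ),
    (∀ h, 0 ≤ σ h ∧ t h ∈ B.I ∧ c h ∈ C0) → ∑ h, σ h = 1 →
    (∀ a : ℕ, ∑ h, σ h * ind (⌊(J : ℝ) * (t h - B.t0)⌋₊ = a) ≤ D / J) →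
    (∀ k, Nc n m B.t0 t1 (NR T (vP (v k))) (f k)) →
    1 + ∑ h, σ h * ∑ w, c h w ^ 2 ≤ Λ * ∑ k, ∑ h, σ h *
      (∑ w, c h w * Real.log ‖B.ev (vP (v k)) w (t h)‖ + τ k (t h) - f k (t h)) ^ 2

def ARQT {n r : ℕ} (T : Tb n) (B : Br n r) (t1 : ℤ) (C0 : Set (Fin r → ℝ))
    (τ : ∀ m, (Ix T.e m → ℝ) → ℝ → ℝ) : Prop :=
  ∃ m0 : ℕ, ∀ m, m0 ≤ m → ∀ ε0 : ℝ, 0 < ε0 → ∃ (s : ℕ) (v : Fin s → Ix T.e m → ℝ),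
    (∀ k j, |v k j - oneX j| ≤ ε0) ∧ ∀ D : ℝ, ∃ (J0 : ℕ) (Λ : ℝ), 0 < Λ ∧
      ∀ J, J0 ≤ J → RqT T B t1 C0 v (fun k => τ m (v k)) J D Λ

/-- **the twisted core** -/
def CoreT : Prop := ∀ (n r : ℕ) [NeZero n] (G : Geo n r), G.Ok → 0 ∈ G.C0 →
  ∀ (p0 m1 : ℕ) (G1 : Fin n → ℤ[X]), p0.Prime → 1 ≤ m1 → G.T.Mon m1 G1 →
  (∀ l : ℕ, l.Prime → (l : ℤ) ∣ (G.T.N G1).eval G.t1 → l = p0) →
  ∀ (W : Tw n r) (τ : ∀ m, (Ix G.T.e m → ℝ) → ℝ → ℝ), IdT G W → TwF G W.tw τ →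
    ARQT G.T G.B G.t1 G.C0 τ → False

section
variable {n r m : ℕ} {G : Geo n r} (D : Dat G m) (W : Tw n r) (τ f : ℝ → ℝ)

noncomputable def d1 (a : ℤ) : ℝ :=
  ∑ w, W.c a D.k0 w * Real.log ‖G.B.ev (vP D.vs) w (D.t a)‖ + τ (D.t a)

noncomputable def dq (a : ℤ) : ℝ := d1 D W τ a - f (D.t a)

noncomputable def C1 : ℝ := (∑ a ∈ D.HH, ∑ w, W.c a D.k0 w ^ 2) / D.HH.card

variable [NeZero n]

/-- the additional data -/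
noncomputable def exT : F.Ex D.Γ.I D.HH where
  ψ h := W.ψ h D.k0
  φ x := W.φ (D.Γ.gA x)
  uu x h := ug (G.T.N (D.Γ.gA x)) (W.cθ (D.Γ.gA x)) (D.t h) - f (D.t h)
    - (∑ w, W.c h D.k0 w *
      (Real.log ‖G.B.ev (D.Γ.gA x) w (D.t h)‖ - Real.log ‖G.B.ev (vP D.vs) w (D.t h)‖)
      + (W.tw (D.Γ.gA x) h D.k0 - τ (D.t h)))
  dp h := dq D W τ f h
  ce h := (∑ w, |W.c h D.k0 w| + 1) + D.Λ * √(C1 D W + 1)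
  Pg _ := True
  f0 := D.fm 0 (D.k + 2)

structure RawT : Prop where
  raw : D.Raw
  ids : IdT G W
  prj : Nc n m G.B.t0 G.t1 (NR G.T (vP D.vs)) f ∧
    (∀ g, Nc n m G.B.t0 G.t1 (NR G.T (vP D.vs)) g → ∑ a ∈ D.HH, g (D.t a) * dq D W τ f a = 0) ∧
    ∑ a ∈ D.HH, dq D W τ f a = 0 ∧ ∑ a ∈ D.HH, f (D.t a) ^ 2 ≤ ∑ a ∈ D.HH, d1 D W τ a ^ 2
  bd : ∀ a ∈ D.HH, |τ (D.t a)| ≤ 1 / 4
  cl : ∀ x ∈ box D.Γ.lo D.H1, ∀ a ∈ D.HH, |W.tw (D.Γ.gA x) a D.k0 - τ (D.t a)| ≤ D.εb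

end

def AllR (Q : ∀ (n r m : ℕ) [NeZero n] (G : Geo n r), Dat G m → Tw n r → (ℝ → ℝ) → (ℝ → ℝ) →
    Prop) : Prop := ∀ (n r m : ℕ) [NeZero n] (G : Geo n r) (D : Dat G m) (W : Tw n r)
  (τ f : ℝ → ℝ), RawT D W τ f → Q n r m G D W τ f

def XIdT : Prop := AllR fun _ _ _ _ _ D W τ f => XId D.sys (exT D W τ f)
def XArT : Prop := AllR fun _ _ _ _ _ D W τ f => XAr D.sys (exT D W τ f)
def XLsT : Prop := AllR fun _ _ _ _ _ D W τ f => XLs D.sys (exT D W τ f)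
def SysS : Prop := AllD fun _ _ _ _ _ D => D.sys.Ok

def RigT (AF : ℕ) : Prop := AllR fun _ _ _ _ _ D W τ f => D.η * D.Λ ^ AF ≤ 1 →
  D.θ * D.M ^ 3 * D.Λ ^ AF ≤ D.η ^ 2 →
  D.Λ * ((∑ a ∈ D.HH, dq D W τ f a ^ 2) / D.HH.card) ≤ (C1 D W + 1) / 2

/-- the contradiction at one level -/
def ClsT : Prop := ∀ (AF : ℕ), RigT AF → AllD fun n r m _ G D =>
  ∀ (W : Tw n r) (s : ℕ) (v : Fin s → Ix G.T.e m → ℝ) (τ : Fin s → ℝ → ℝ) (Λr : ℝ), IdT G W →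
    (∀ k, ∃ f0 f, RawT (D.re (v k) f0) W (τ k) f) →
    D.η * D.Λ ^ AF ≤ 1 → D.θ * D.M ^ 3 * D.Λ ^ AF ≤ D.η ^ 2 →
    RqT G.T G.B G.t1 G.C0 v τ (D.J1 + 1) (2 * D.Λ1) Λr → 0 < Λr → Λr * s ≤ D.Λ → False

/-- the construction at one level, with a prescribed ratio of the sides -/
def TopT : Prop := ∀ (n r m : ℕ) [NeZero n] (G : Geo n r) (p0 m1 J : ℕ) (G1 : Fin n → ℤ[X])
  (ψ : ℤ → ℕ → Pt → ℝ) (c : ℤ → ℕ → Fin r → ℝ) (φ : (Fin n → ℤ[X]) → Pt → ℝ)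
  (cθ : (Fin n → ℤ[X]) → ℂ → ℝ) (VS : Set (Ix G.T.e m → ℝ)) (AF N M0 M1 a0 k1 kM W κ0 J0 : ℕ)
  (Cb1 Cb Λ3 Λa ε0 di : ℝ) (l : Lv) (Cx : ℝ → ℝ), G.Ok → p0.Prime → p0 ∣ W → G.T.Mon m1 G1 →
  m = N * m1 → (∀ i, G.T.e i + 5 ≤ m) →
  (∀ q : ℕ, q.Prime → (q : ℤ) ∣ (G.T.N G1).eval G.t1 → q = p0) →
  G.Ids ψ c φ cθ → VS.Finite → (∀ vs ∈ VS, Sp G.T G.B vs) →
  CtOk G m AF N M0 M1 a0 k1 kM W κ0 J0 Cb1 Cb Λ3 Λa ε0 di l →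
  ∃ Yl : ℝ, ∀ (k0 : ℕ) (Y Ym : ℝ) (d : ℕ → ℝ) (i : ℕ) (o : ℤ → MO) (H2 : Finset ℤ), Yl ≤ Ym →
    Scl W G.Nx k0 Y Ym → d i = di → d (i + 1) = l.d' → H2 ⊆ HH0 G.B.t0 W k0 →
    Lc W k0 ≤ Λ3 * H2.card →
    (∀ a ∈ H2, G.Adm a k0 ∧ MOk G W k0 Y N M0 M1 a0 (84 * m + 703 + a0) k1 kM Cb1 ε0 d a (o a) ∧
      (o a).i = i) →
    ∃ D : Dat G m, D.W' = p0 ^ J * W ∧ D.As = pwr G.T.M G1 N ∧ D.J1 = l.J1 ∧ D.Λ1 = 2 * Λ3 ∧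
      D.Λ = l.Λ ∧ D.η * D.Λ ^ AF ≤ 1 ∧ D.θ * D.M ^ 3 * D.Λ ^ AF ≤ D.η ^ 2 ∧ 0 < D.εb ∧
      Cx D.εb * D.H1 ≤ D.H ∧ ∀ vs ∈ VS, ∃ f0, (D.re vs f0).Raw

def OfXIdT : Prop := ApiS → BasS → XIdT
def OfXArT : Prop := ApiS → NrmS → N0S → CelS → BasS → XArT
def OfXLsT : Prop := LsvG → BasS → XLsT
def OfRigT : Prop := F.FMain → BasS → SysS → XIdT → XArT → XLsT → ∃ AF, RigT AF
def OfClsT : Prop := BasS → ClsT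
def OfTopT : Prop := XDelS → XHS → XFamS → BoxS → PrjS → PwS → HtG → ScS → MertS → TopT
def OfCoreT : Prop := (∃ AF, RigT AF) → TopT → ClsT → MainC → CvS → LvS → WG → SclG → PwS →
  SpS → EtaS → BC.ArS → ArG → PrjS → CoreT

/-! ### loops -/

/-- weights, the abscissa, its derivative and the values of the basis along finitely many arcs -/
structure Lp (ι : Type) (n : ℕ) where
  a : ι → ℝ
  x : ι → ℝ → ℂ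
  dx : ι → ℝ → ℂ
  Y : ι → ℝ → Fin n → ℂ

/-- continuous on the arcs -/
def Ct {ι : Type} (f : ι → ℝ → ℂ) : Prop := ∀ j, ContinuousOn (f j) (Set.Icc 0 1)

namespace Lp

variable {ι : Type} [Fintype ι] {n : ℕ} (L : Lp ι n)

/-- the integral against `dx` -/
noncomputable def I (f : ι → ℝ → ℂ) : ℂ := ∑ j, (L.a j : ℂ) * ∫ θ in (0 : ℝ)..1, f j θ * L.dx j θ

/-- the transform of Cauchy -/
noncomputable def Φ (f : ι → ℝ → ℂ) (τ : ℂ) : ℂ := L.I fun j θ => f j θ / (L.x j θ - τ)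

/-- the value of a function on the arcs -/
noncomputable def ev {R : Type} [CommRing R] [Algebra R ℂ] (A : Fin n → R[X]) (j : ι) (θ : ℝ) :
    ℂ := ∑ i, aeval (L.x j θ) (A i) * L.Y j θ i

/-- the limit of the twist -/
noncomputable def tv {e : Fin n → ℕ} (m : ℕ) (v : Ix e m → ℝ) (t : ℝ) : ℝ :=
  -(L.Φ (fun j θ => Complex.log (L.ev (vP v) j θ)) t).im

structure Ok [NeZero n] (R : ℝ) : Prop where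
  cx : ∀ j, Continuous (L.x j)
  cd : ∀ j, Continuous (L.dx j)
  cy : ∀ j i, Continuous fun θ => L.Y j θ i
  bd : ∀ j, ∀ θ ∈ Set.Icc (0 : ℝ) 1, ‖L.x j θ‖ ≤ R
  one : ∀ j θ, L.Y j θ 0 = 1
  pos : 0 ≤ R

/-- some period is not real -/
def ND (t1 : ℤ) : Prop :=
  ∃ (i : Fin n) (k : ℕ), (L.I fun j θ => L.x j θ ^ k * (L.x j θ - t1) ^ n * L.Y j θ i).im ≠ 0

/-- elementary facts -/
structure Api [NeZero n] (R : ℝ) : Prop where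
  add : ∀ f g, Ct f → Ct g → L.I (fun j θ => f j θ + g j θ) = L.I f + L.I g
  smul : ∀ (c : ℂ) f, L.I (fun j θ => c * f j θ) = c * L.I f
  cg : ∀ f g : ι → ℝ → ℂ, (∀ j, ∀ θ ∈ Set.Icc (0 : ℝ) 1, f j θ = g j θ) → L.I f = L.I g
  padd : ∀ f g (τ : ℂ), Ct f → Ct g → R < ‖τ‖ →
    L.Φ (fun j θ => f j θ + g j θ) τ = L.Φ f τ + L.Φ g τ
  psmul : ∀ (c : ℂ) f τ, L.Φ (fun j θ => c * f j θ) τ = c * L.Φ f τ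
  hol : ∀ f, Ct f → DifferentiableOn ℂ (L.Φ f) {τ | R < ‖τ‖}
  mul : ∀ f (τ : ℂ), Ct f → R < ‖τ‖ → L.Φ (fun j θ => L.x j θ * f j θ) τ = L.I f + τ * L.Φ f τ
  bd : ∃ C : ℝ, 0 < C ∧ ∀ f (ε : ℝ) (τ : ℂ), Ct f → (∀ j, ∀ θ ∈ Set.Icc (0 : ℝ) 1, ‖f j θ‖ ≤ ε) →
    0 ≤ ε → R + 1 ≤ ‖τ‖ → ‖L.Φ f τ‖ ≤ C * ε ∧ ‖deriv (L.Φ f) τ‖ ≤ C * ε
  lim : ∀ f, Ct f → Tendsto (fun t : ℝ => L.Φ f t) atBot (𝓝 0)
  cz : ∀ A : Fin n → ℤ[X], Ct (L.ev A)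
  cr : ∀ A : Fin n → ℝ[X], Ct (L.ev A)
  lin : ∀ (e : Fin n → ℕ) (m : ℕ) (u v : Ix e m → ℝ) (c : ℝ) j θ,
    L.ev (vP fun i => u i + c * v i) j θ = L.ev (vP u) j θ + c * L.ev (vP v) j θ
  one : ∀ (e : Fin n → ℕ) (m : ℕ), e 0 = 0 → 2 ≤ m → ∀ j θ, L.ev (vP (oneX : Ix e m → ℝ)) j θ = 1
  int : ∀ (e : Fin n → ℕ) (m : ℕ) (v : Ix e m → ℤ) j θ,
    L.ev (vP v) j θ = L.ev (vP fun i => (v i : ℝ)) j θ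
  sz : ∀ (e : Fin n → ℕ) (m : ℕ), ∃ C : ℝ, 0 < C ∧ ∀ (v : Ix e m → ℝ) (ε : ℝ), 0 ≤ ε →
    (∀ i, |v i| ≤ ε) → ∀ j, ∀ θ ∈ Set.Icc (0 : ℝ) 1, ‖L.ev (vP v) j θ‖ ≤ C * ε

end Lp

def LpS : Prop := ∀ (ι : Type) [Fintype ι] (n : ℕ) [NeZero n] (L : Lp ι n) (R : ℝ), L.Ok R → L.Api R

/-- the formula for the twist -/
def TauH {ι : Type} [Fintype ι] {n r : ℕ} [NeZero n] (G : Geo n r) (L : Lp ι n)
    (tw : (Fin n → ℤ[X]) → ℤ → ℕ → ℝ) : Prop :=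
  ∀ (A : Fin n → ℤ[X]) (a : ℤ) (k Hs : ℕ), G.Adm a k → 0 < Hs →
    (∀ j, ∀ θ ∈ Set.Icc (0 : ℝ) 1, L.ev A j θ / (Hs * (L.x j θ - G.t1)) ∈ Complex.slitPlane) →
    tw A a k = -(L.Φ (fun j θ => Complex.log (L.ev A j θ / (Hs * (L.x j θ - G.t1))))
      ((a : ℝ) / (k : ℝ) ^ 2 : ℝ)).im

def ClL : Prop := ∀ (ι : Type) [Fintype ι] (n r : ℕ) [NeZero n] (G : Geo n r) (L : Lp ι n) (R : ℝ)
  (tw : (Fin n → ℤ[X]) → ℤ → ℕ → ℝ), G.Ok → L.Ok R → (G.B.t0 : ℝ) + 2 ≤ -R → R + 1 ≤ G.t1 →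
  TauH G L tw → TwF G tw L.tv

/-! ### twisted rigidity -/

/-- real values on all branches of functions which are holomorphic near infinity -/
def CstH {n r : ℕ} (B : Br n r) (R : ℝ) {ι : Type} (cls : Fin r → ι) : Prop :=
  ∀ (Γ : Fin n → ℂ → ℂ) (γ : Fin r → ℝ → ℝ), (∀ i, DifferentiableOn ℂ (Γ i) {τ | R < ‖τ‖}) →
    (∀ w, ∀ t ∈ B.I, ∑ i, Γ i t * B.Y w t i = γ w t) →
    ∀ w w', cls w = cls w' → ∀ t ∈ B.I, γ w t = γ w' t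

/-- the case of polynomials -/
def CstO : Prop := ∀ (n r : ℕ) (B : Br n r) (R : ℝ) (ι : Type) (cls : Fin r → ι), 0 < B.ρ →
  CstH B R cls → B.Cst cls

/-- the relation along the shapes `1 + e z` -/
def RelT {r : ℕ} (a b : ℝ) (d : ℕ) (g : ℝ → ℝ) (c : Fin r → ℝ → ℝ) (z : Fin r → ℝ → ℂ)
    (τ : ℝ → ℝ → ℝ) : Prop :=
  ∀ᶠ e : ℝ in 𝓝 0, ∃ P : ℝ[X], P.natDegree < d ∧ ∀ t ∈ Set.Icc a b,
    g t * (∏ w, ‖1 + e * z w t‖ ^ 2) *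
      deriv (fun s => ∑ w, c w s * Real.log ‖1 + e * z w s‖ + τ e s) t = P.eval t

/-- the first order term -/
def RigA : Prop := ∀ (r d : ℕ) (a b : ℝ) (g : ℝ → ℝ) (c : Fin r → ℝ → ℝ) (z : Fin r → ℝ → ℂ)
  (τ : ℝ → ℝ → ℝ) (τ0 : ℝ → ℝ), a < b →
  (∀ w, ∀ t ∈ Set.Icc a b, DifferentiableAt ℝ (c w) t ∧ DifferentiableAt ℝ (z w) t) →
  (∀ t ∈ Set.Icc a b, DifferentiableAt ℝ τ0 t ∧ (∀ᶠ e : ℝ in 𝓝 0, DifferentiableAt ℝ (τ e) t) ∧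
    Tendsto (fun e : ℝ => deriv (τ e) t / e) (𝓝[≠] 0) (𝓝 (deriv τ0 t))) → RelT a b d g c z τ →
  ∃ P : ℝ[X], ∀ t ∈ Set.Icc a b,
    g t * deriv (fun s => ∑ w, c w s * (z w s).re + τ0 s) t = P.eval t

/-- the shape of the rows about branches and loops -/
def AllB (Φ : ∀ (ι : Type) [Fintype ι] (n r : ℕ) [NeZero n] (_ : Tb n) (_ : ℤ) (_ : Br n r)
    (_ : Lp ι n) (_ : ℝ), Prop) : Prop :=
  ∀ (ι : Type) [Fintype ι] (n r : ℕ) [NeZero n] (T : Tb n) (t1 : ℤ) (B : Br n r) (L : Lp ι n)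
    (R : ℝ), n = 2 * r → T.Ok → B.Ok T t1 → L.Ok R → (B.t0 : ℝ) + 2 ≤ -R → Φ ι n r T t1 B L R

/-- the traces are rational -/
def Trq {ι : Type} [Fintype ι] {n r : ℕ} (t1 : ℤ) (B : Br n r) (L : Lp ι n) (c : Fin r → ℝ → ℝ)
    (κ : ℝ) : Prop := ∀ i, ∃ Q : ℝ[X], ∀ t ∈ B.I, (t - t1) ^ n *
  (∑ w, c w t * (B.Y w t i).re - κ * (L.Φ (fun j θ => L.Y j θ i) t).im) = Q.eval t

def RigB1 : Prop := AllB fun _ _ n r _ T t1 B L _ => ∀ (m d : ℕ) (c : Fin r → ℝ → ℝ) (κ : ℝ),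
  (∀ i, T.e i + 3 ≤ m) → (∀ w, AnalyticOnNhd ℝ (c w) B.I) →
  (∀ x : Ix T.e m → ℝ, RelT B.t0 (B.t0 + B.ρ) d (fun t => (t - t1) ^ n) c (B.ev (vP x))
    fun e s => κ * L.tv m (fun j => oneX j + e * x j) s) → Trq t1 B L c κ

def RigB2 : Prop := AllB fun _ _ _ r _ _ t1 B L R => ∀ (ι' : Type) (cls : Fin r → ι')
  (c : Fin r → ℝ → ℝ) (κ : ℝ), CstH B R cls → (∀ w, ContinuousOn (c w) B.I) →
  (∀ t ∈ B.I, (GV.R.Qm cls *ᵥ fun w => c w t) = 0) → Trq t1 B L c κ → ∀ w, ∀ t ∈ B.I, c w t = 0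

def RigB3 : Prop := AllB fun _ _ _ _ _ _ t1 B L _ => ∀ κ : ℝ, L.ND t1 →
  Trq t1 B L (fun _ _ => 0) κ → κ = 0

/-- **twisted archimedean rigidity** -/
def ArH : Prop := AllB fun _ _ _ r _ T t1 B L R => ∀ (ι' : Type) (cls : Fin r → ι'),
  CstH B R cls → L.ND t1 → ARQT T B t1 (A.Cz cls) L.tv

def OfClL : Prop := LpS → ClL
def OfRigB1 : Prop := LpS → RigA → RigB1
def OfRigB2 : Prop := LpS → RigB2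
def OfRigB3 : Prop := LpS → RigB3
def OfArH : Prop := LpS → CstO → R.SAn → R.SFin → R.Abs → R.ExDat → R.SepB → RigB1 → RigB2 →
  RigB3 → ArH

/-! ### the chart at infinity -/

/-- the columns are independent -/
def Bs {κ : Type} {n : ℕ} (P : κ → Fin n → ℂ) : Prop :=
  ∀ β : Fin n → ℂ, (∀ k, ∑ i, β i * P k i = 0) → β = 0

/-- the table at a complex parameter -/
noncomputable def tA {n : ℕ} (M : Tab ℂ[X] n) (s : ℂ) : Tab ℂ n := fun i => (M i).map (eval s)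

/-- analytic branches -/
def BRC : Prop := ∀ (n : ℕ) [NeZero n] (M : Tab ℂ[X] n) (s0 : ℂ) (P : Fin n → Fin n → ℂ),
  (∀ k, Hm (tA M s0) (P k)) → Bs P → ∃ Y : Fin n → ℂ → Fin n → ℂ,
    (∀ k, Y k s0 = P k ∧ AnalyticAt ℂ (Y k) s0) ∧ ∀ᶠ s in 𝓝 s0, Bs (fun k => Y k s) ∧
      (Rng (tA M s) → (∀ k, Hm (tA M s) (Y k s)) ∧ ∀ u, Hm (tA M s) u → ∃ k, u = Y k s)

/-- the punctured disc -/
def pD (δ : ℝ) : Set ℂ := {s | s ≠ 0 ∧ ‖s‖ < δ}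

def CHS : Prop := ∀ (A 𝒜 : Type) [CommRing A] [CommRing 𝒜] [Algebra A 𝒜] (S : AddSubmonoid ℕ)
  (μ : Module.Basis S A 𝒜) (N : ℕ) (x : 𝒜) (σ : A →+* ℂ), FM μ → Mo μ N x → 2 ≤ N →
  ∃ (δ : ℝ) (φ : ℂ → 𝒜 →+* ℂ), 0 < δ ∧ (∀ s ∈ pD δ, φ s x = (s ^ N)⁻¹ ∧
    ∀ a, φ s (algebraMap A 𝒜 a) = σ a) ∧ (∀ u, DifferentiableOn ℂ (fun s => φ s u) (pD δ)) ∧
    Set.InjOn φ (pD δ)

/-- real on rays -/
def RAY : Prop := ∀ (H : ℂ → ℂ) (δ a b : ℝ) (N : ℕ), Odd N → 0 < a → a < b → b < δ →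
  DifferentiableOn ℂ H (pD δ) → (∀ ζ : ℂ, ζ ^ N = -1 → ∀ ρ ∈ Set.Icc a b, (H (ζ * ρ)).im = 0) →
  ∀ ζ ζ' : ℂ, ζ ^ N = -1 → ζ' ^ N = -1 → ∀ ρ ∈ Set.Icc a b, H (ζ * ρ) = H (ζ' * ρ)

/-- the rank -/
def CntN : Prop := A.AllM fun K _ _ _ _ _ _ _ _ n _ _ _ N _ => n = N * Module.finrank ℚ K

/-- branches near infinity -/
def BrH : Prop := ∀ (K 𝒜 : Type) [Field K] [NumberField K] [CommRing 𝒜] [Algebra (𝓞 K) 𝒜]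
  [Algebra ℤ[X] 𝒜] (S : AddSubmonoid ℕ) (μ : Module.Basis S (𝓞 K) 𝒜) (n : ℕ) [NeZero n] (T : Tb n)
  (y : Module.Basis (Fin n) ℤ[X] 𝒜) (N r : ℕ) (t1 : ℤ) (R : ℝ), Md μ T y N r → Odd N →
  (∃ i : K, i ^ 2 = -1) → ∃ (B : Br n r) (σ : Fin r → K →+* ℂ), B.Ok T t1 ∧ (B.t0 : ℝ) + 2 ≤ -R ∧
    (∀ w, ∀ t ∈ B.I, ∀ a : 𝓞 K, B.ev (y.repr (algebraMap (𝓞 K) 𝒜 a)) w t = σ w a) ∧
    CstH B R fun w => InfinitePlace.mk (σ w)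

def OfCHS : Prop := M.ApbS → BRC → CHS
def OfCnt : Prop := M.ApbS → M.TyS → M.OmS → CntN
def OfBrH : Prop := A.MdS → CntN → CHS → RAY → BrH

end Pool.Agent.MP_f3836a_nt.GV.T
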