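import Pool.Agent.MP_f3836a_nt.RG.Defs
import Pool.Agent.MP_f3836a_nt.GP.SpecT
import Pool.Agent.MP_f3836a_nt.GP.SpecE
import Pool.Agent.MP_f3836a_nt.BT.SpecA

/-! Part P: paths, chains, the regulator, descent and the top of the proof. -/

set_option autoImplicit false

namespace Pool.Agent.MP_f3836a_nt.RG

open AlgebraicGeometry CategoryTheory PK VE.W VE.Z GP

/-- differentials -/
abbrev Om (F : Type) [Field F] : Type := KaehlerDifferential ℤ F

/-- the differential of an element -/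
noncomputable abbrev dd {F : Type} [Field F] (a : F) : Om F := KaehlerDifferential.D ℤ F a

/-- a path of complex embeddings -/
structure Pa (F : Type) [Field F] where
  e : ℝ → F →+* ℂ
  c1 : ∀ f, ContDiff ℝ 1 fun θ => e θ f

namespace Pa

variable {F : Type} [Field F] (p : Pa F)

/-- the derivative along the path -/
noncomputable def d (θ : ℝ) (f : F) : ℂ := deriv (fun θ => p.e θ f) θ

/-- restriction to a subfield -/
def cm {E : Type} [Field E] (φ : E →+* F) : Pa E := ⟨fun θ => (p.e θ).comp φ, fun f => p.c1 (φ f)⟩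

open Classical in
/-- the value of a differential on the tangent vector -/
noncomputable def w (θ : ℝ) : Om F →+ ℂ :=
  if h : ∃ L : Om F →+ ℂ, ∀ u a : F, L (u • dd a) = p.e θ u * p.d θ a then h.choose else 0

/-- the regulator integral -/
noncomputable def rg (f g : F) : ℝ := ∫ θ in (0 : ℝ)..1,
  (Real.log ‖p.e θ f‖ * (p.d θ g / p.e θ g).im - Real.log ‖p.e θ g‖ * (p.d θ f / p.e θ f).im)

/-- the period -/
noncomputable def pe (ω : Om F) : ℂ := ∫ θ in (0 : ℝ)..1, p.w θ ω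

end Pa

/-- chains -/
abbrev Ch (F : Type) [Field F] : Type := Pa F →₀ ℝ

section
variable {F : Type} [Field F]

/-- a closed chain -/
def Cld (γ : Ch F) : Prop :=
  ∀ Φ : (F →+* ℂ) → ℝ, (γ.sum fun p a => a * (Φ (p.e 1) - Φ (p.e 0))) = 0

noncomputable def RR (γ : Ch F) (f g : F) : ℝ := γ.sum fun p a => a * p.rg f g

/-- the imaginary part of the period -/
noncomputable def IP (γ : Ch F) (ω : Om F) : ℝ := γ.sum fun p a => a * (p.pe ω).im

/-- restriction of a chain -/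
noncomputable def dn {E : Type} [Field E] (φ : E →+* F) (γ : Ch F) : Ch E :=
  γ.mapDomain fun p => p.cm φ

/-- extension of a differential -/
noncomputable def up (E : Type) [Field E] [Algebra F E] (ω : Om F) : Om E :=
  KaehlerDifferential.map ℤ ℤ F E ω

/-- a symbol -/
structure Sy {A : Type} [AddCommGroup A] (β : F → F → A) : Prop where
  mul : ∀ f f' g, f ≠ 0 → f' ≠ 0 → g ≠ 0 → β (f * f') g = β f g + β f' g
  swap : ∀ f g, f ≠ 0 → g ≠ 0 → β f g = -β g f
  st : ∀ f, f ≠ 0 → f ≠ 1 → β f (1 - f) = 0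

/-- the value on a list -/
def sl {A : Type} [AddCommGroup A] (β : F → F → A) (l : List (F × F)) : A :=
  (l.map fun s => β s.1 s.2).sum

/-- the image of a list -/
def mp {E : Type} (φ : F → E) (l : List (F × F)) : List (E × E) := l.map (Prod.map φ φ)

/-- torsion boundary at all places and on `VV` -/
def Ul (VV : Set (Subring F)) (l : List (F × F)) : Prop :=
  NZ l ∧ ∀ V, Pl V ∨ V ∈ VV → Tor V (bdE l V)

structure Vv (M : ℕ) (VV : Set (Subring F)) : Prop where
  ne : M ≠ 0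
  fin : VV.Finite
  dv : ∀ V ∈ VV, Dvr V ∧ Nu V M

/-- regular at all places -/
def Rw (ω : Om F) : Prop := ∀ V, Pl V → RegAt V ω

/-- independent over the integers -/
def Ind {D : ℕ} (ω : Fin D → Om F) : Prop :=
  ∀ n : Fin D → ℤ, ∑ k, (n k : F) • ω k = 0 → n = 0

/-- independent against real symbols -/
def InS {D : ℕ} (l : Fin D → List (F × F)) : Prop :=
  ∀ n : Fin D → ℤ, (∀ β : F → F → ℝ, Sy β → ∑ i, (n i : ℝ) * sl β (l i) = 0) → n = 0

/-- a family whose sum on tame symbols is `ρ` -/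
structure Kt (M : ℕ) (VV : Set (Subring F)) (lam : Subring F → F → ℝ) (ρ : F → F → ℝ) : Prop
    extends Vv M VV where
  fn : ∀ O, Pl O ∨ O ∈ VV → Fn O (lam O)
  bd : ∀ f g, f ≠ 0 → g ≠ 0 → ∑ᶠ (O) (_ : Pl O ∨ O ∈ VV), lam O (tameE O f g) = ρ f g

/-- elementary facts on one path -/
structure PaA (p : Pa F) : Prop where
  der : ∀ f θ, HasDerivAt (fun θ => p.e θ f) (p.d θ f) θ
  cd : ∀ f, Continuous fun θ => p.d θ f
  add : ∀ θ f g, p.d θ (f + g) = p.d θ f + p.d θ g
  mul : ∀ θ f g, p.d θ (f * g) = p.e θ f * p.d θ g + p.e θ g * p.d θ f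
  alg : ∀ θ c, IsAlgebraic ℤ c → p.d θ c = 0
  wd : ∀ θ u a, p.w θ (u • dd a) = p.e θ u * p.d θ a
  ws : ∀ θ (u : F) ω, p.w θ (u • ω) = p.e θ u * p.w θ ω
  cw : ∀ ω, Continuous fun θ => p.w θ ω
  pa : ∀ ω ω', p.pe (ω + ω') = p.pe ω + p.pe ω'
  pz : ∀ (n : ℤ) ω, p.pe ((n : F) • ω) = n * p.pe ω

/-- elementary facts on chains -/
structure ChA (F : Type) [Field F] : Prop where
  ia : ∀ (γ : Ch F) ω ω', IP γ (ω + ω') = IP γ ω + IP γ ω'
  iz : ∀ (γ : Ch F) (n : ℤ) ω, IP γ ((n : F) • ω) = n * IP γ ω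
  ai : ∀ (γ γ' : Ch F) ω, IP (γ + γ') ω = IP γ ω + IP γ' ω
  si : ∀ (c : ℝ) (γ : Ch F) ω, IP (c • γ) ω = c * IP γ ω
  ar : ∀ (γ γ' : Ch F) f g, RR (γ + γ') f g = RR γ f g + RR γ' f g
  sr : ∀ (c : ℝ) (γ : Ch F) f g, RR (c • γ) f g = c * RR γ f g
  ac : ∀ γ γ' : Ch F, Cld γ → Cld γ' → Cld (γ + γ')
  sc : ∀ (c : ℝ) (γ : Ch F), Cld γ → Cld (c • γ)
  dc : ∀ (E : Type) [Field E] (φ : E →+* F) (γ : Ch F), Cld γ → Cld (dn φ γ)
  dr : ∀ (E : Type) [Field E] (φ : E →+* F) (γ : Ch F) f g, RR (dn φ γ) f g = RR γ (φ f) (φ g)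
  dd : ∀ (E E' : Type) [Field E] [Field E'] (φ : E →+* F) (φ' : E' →+* E) (γ : Ch F),
    dn φ' (dn φ γ) = dn (φ.comp φ') γ
  di : ∀ (E : Type) [Field E] [Algebra E F] (γ : Ch F) (ω : Om E),
    IP (dn (algebraMap E F) γ) ω = IP γ (up F ω)

end

def WS : Prop := ∀ (F : Type) [Field F], (∀ p : Pa F, PaA p) ∧ ChA F

/-- the regulator of a closed chain is a symbol -/
def P1 : Prop := ∀ (F : Type) [Field F] (γ : Ch F), Cld γ → Sy (RR γ)

/-- integration by parts -/
def P2 : Prop := ∀ (F : Type) [Field F] (γ : Ch F) (G h : F), Cld γ → h ≠ 0 →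
  (∀ p ∈ γ.support, ∀ θ ∈ Set.Icc (0 : ℝ) 1, p.e θ G ∈ Complex.slitPlane) →
  RR γ G h = γ.sum fun p a =>
    a * (∫ θ in (0 : ℝ)..1, Complex.log (p.e θ G) * (p.d θ h / p.e θ h)).im

/-- duality -/
def DUAL : Prop := ∀ (F : Type) [Field F] (M : ℕ) (VV : Set (Subring F)) (ρ : F → F → ℝ), Fi F →
  Vv M VV → Sy ρ → (∀ l, Ul VV l → sl ρ l = 0) → ∃ lam, Kt M VV lam ρ

/-- an invariant symbol which vanishes on the small field vanishes -/
def GD0 : Prop := ∀ (F E : Type) [Field F] [Field E] [Algebra F E] [FiniteDimensional F E]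
  [IsGalois F E] (β : E → E → ℚ), Sy β →
  (∀ (σ : E ≃ₐ[F] E) f g, f ≠ 0 → g ≠ 0 → β (σ f) (σ g) = β f g) →
  (∀ a b : F, a ≠ 0 → b ≠ 0 → β (algebraMap F E a) (algebraMap F E b) = 0) →
  ∀ f g, f ≠ 0 → g ≠ 0 → β f g = 0

/-- the transfer -/
def DESC : Prop := ∀ (F E : Type) [Field F] [Field E] [Algebra F E] [FiniteDimensional F E]
  [IsGalois F E] (l' : List (E × E)), NZ l' → ∃ (m : ℕ) (l : List (F × F)), 0 < m ∧ NZ l ∧
    ∀ β : E → E → ℝ, Sy β →
      m * ∑ σ : E ≃ₐ[F] E, sl β (mp σ l') = sl β (mp (algebraMap F E) l)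

/-- tame symbols, and the detection of torsion -/
def TSy : Prop := ∀ (F : Type) [Field F] (V : Subring F), Dvr V →
  (∀ lam, Fn V lam → Sy (fun f g => lam (tameE V f g)) ∧
    ∀ l, NZ l → lam (bdE l V) = sl (fun f g => lam (tameE V f g)) l) ∧
  ∀ u, Ut V u → (Tor V u ↔ ∀ lam, Fn V lam → lam u = 0)

/-- lists with torsion boundary in an extension -/
def UDn : Prop := ∀ (F E : Type) [Field F] [Field E] [CharZero F] [Algebra F E]
  [FiniteDimensional F E] (M : ℕ) (VV : Set (Subring F)), Vv M VV →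
  ∃ VV' : Set (Subring E), Vv M VV' ∧ (∀ (σ : E ≃ₐ[F] E) l', Ul VV' l' → Ul VV' (mp σ l')) ∧
    ∀ l, NZ l → Ul VV' (mp (algebraMap F E) l) → Ul VV l

/-- constants with a square root of minus one and two rational places -/
structure Two (K F : Type) [Field K] [Field F] [CharZero F] [Algebra K F] (O O' : Subring F) :
    Prop where
  fg : FG F
  cl : Cl K F
  i : ∃ i : K, i ^ 2 = -1
  rat : Rat K O
  rat' : Rat K O'
  ne : O ≠ O'

def EXT : Prop := ∀ (F : Type) [Field F] [CharZero F], FG F →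
  ∃ (K E : Type) (_ : Field K) (_ : NumberField K) (_ : Field E) (_ : CharZero E) (_ : Algebra K E)
    (_ : Algebra F E) (O O' : Subring E), FiniteDimensional F E ∧ IsGalois F E ∧ Two K E O O'

/-- differentials in a finite extension -/
def UP : Prop := ∀ (F E : Type) [Field F] [Field E] [CharZero F] [CharZero E] [Algebra F E]
  [FiniteDimensional F E], FG F → (∀ ω : Om F, Rw ω → Rw (up E ω)) ∧
    ∀ (D : ℕ) (ω : Fin D → Om F), Ind ω → Ind fun k => up E (ω k)

/-- the shape of the two main statements -/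
def AllT (Φ : ∀ (F : Type) [Field F], Prop) : Prop :=
  ∀ (K F : Type) [Field K] [NumberField K] [Field F] [CharZero F] [Algebra K F] (O O' : Subring F),
    Two K F O O' → Φ F

/-- **the regulator sees all periods** -/
def BP : Prop := AllT fun F _ => ∀ (M : ℕ) (VV : Set (Subring F)) (lam : Subring F → F → ℝ)
  (γ : Ch F), Cld γ → Kt M VV lam (RR γ) → ∀ ω, Rw ω → IP γ ω = 0

/-- **the periods span** -/
def AP : Prop := AllT fun F _ => ∀ (D : ℕ) (ω : Fin D → Om F) (r : Fin D → ℝ), Ind ω →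
  (∀ k, Rw (ω k)) → (∀ γ : Ch F, Cld γ → ∑ k, r k * IP γ (ω k) = 0) → r = 0

/-- the same after descent -/
def BS : Prop := ∀ (K F E : Type) [Field K] [NumberField K] [Field F] [Field E] [CharZero F]
  [CharZero E] [Algebra K E] [Algebra F E] [FiniteDimensional F E] [IsGalois F E]
  (O O' : Subring E) (M : ℕ) (VV : Set (Subring F)) (γ : Ch E), FG F → Two K E O O' → Vv M VV →
  Cld γ → (∀ l, Ul VV l → sl (RR γ) (mp (algebraMap F E) l) = 0) →
  ∀ ω : Om F, Rw ω → IP γ (up E ω) = 0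

/-- the theorem for a function field -/
def MainR : Prop := ∀ (F : Type) [Field F] [CharZero F] (M : ℕ) (VV : Set (Subring F)) (D : ℕ)
  (ω : Fin D → Om F), FG F → Vv M VV → Ind ω → (∀ k, Rw (ω k)) →
  ∃ l : Fin D → List (F × F), (∀ i, Ul VV (l i)) ∧ InS l

/-- the theorem on the level of rings -/
def MainX : Prop := ∀ (K ι Pt : Type) [Field K] [CharZero K] [Fintype ι] [Preorder Pt] (ξ : ι → K)
  (B : ι → Subring K) (O : Pt → Subring K) (κ : Pt → Type) [∀ z, Field (κ z)]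
  (r : ∀ z, O z →+* κ z), FF K → DcY ξ B O r → ∀ (D : ℕ) (ω : Fin D → Om K), Ind ω →
  (∀ k C, Order.height C = 1 → CharZero (κ C) → RegAt (O C) (ω k)) →
  ∃ l : Fin D → List (K × K), (∀ i, NZ (l i)) ∧ InS l ∧ ∀ i C, Order.height C = 1 →
    ((l i).map fun s => tameR (O C) (r C) s.1 s.2).prod = 1

/-- a symbol is a functional on the group -/
def K2L : Prop := ∀ (F : Type) [Field F] (β : F → F → ℝ), Sy β →
  ∃ L : H23.K2 F →+ ℝ, ∀ a : Fˣ × Fˣ, L (sym a) = β a.1 a.2

/-- the theorem for schemes -/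
def FinalR : Prop := ∀ (N : ℕ) (X : Scheme.{0}) (ι : X ⟶ PT.PN N) [IsClosedImmersion ι]
  [IsIntegral X], (∀ z : X, IsRegularLocalRing (X.presheaf.stalk z)) → topologicalKrullDim X = 2 →
  ∀ (η : X) (hη : ∀ z, η ⤳ z), CharZero (X.residueField η) →
  ∀ (D : ℕ) (ω : Fin D → KaehlerDifferential ℤ (X.residueField η)), LinearIndependent ℤ ω →
  (∀ i (C : X), Order.height C = 1 → CharZero (X.residueField C) →
    RegAt (PT.ev (hη C)).range (ω i)) →
  ∃ l : Fin D → List ((X.residueField η)ˣ × (X.residueField η)ˣ),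
    LinearIndependent ℤ (fun i => ((l i).map sym).sum) ∧
    ∀ i (C : X), Order.height C = 1 → ((l i).map fun a => PT.bd η C a.1 a.2).prod = 1

def OfP1 : Prop := WS → P1
def OfP2 : Prop := WS → P2
def OfDual : Prop := TSy → DUAL
def OfGD0 : Prop := BT.RTr → RMean.{0} → RAdm.{0} → RBT.{0} → GD0
def OfDesc : Prop := GD0 → DESC
def OfTSy : Prop := NuS → TSy
def OfUDn : Prop := FeS → UDn
def OfExt : Prop := FfS → FinS → NbS → BcS → SplS → EXT
def OfUp : Prop := FfS → FinS → NxS → UP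
def OfBS : Prop := FinS → WS → P1 → DUAL → DESC → TSy → UDn → UP → BP → BS
def OfMainR : Prop := WS → P1 → EXT → UP → BS → AP → MainR
def OfMainX : Prop := FfS → SfS → GvS → MainR → MainX
def OfFinal : Prop := DimS → K2L → MainX → FinalR

end Pool.Agent.MP_f3836a_nt.RG
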