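import Pool.Agent.MP_f3836a_nt.RG.SpecE
import Pool.Agent.MP_f3836a_nt.RG.SpecP

/-! Part G: from the twisted core to the vanishing of periods. -/

set_option autoImplicit false

namespace Pool.Agent.MP_f3836a_nt.GV.A.U

open Polynomial NumberField IsDedekindDomain VE VE.A GV.T RG

section
variable {𝒜 ι : Type} [CommRing 𝒜] {κ : ι → Type} [∀ v, Field (κ v)]

/-- the pairing is symmetric up to `ρ` -/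
structure OkT (D : Pv 𝒜 ι κ) (W : ℕ) (ρ : 𝒜 → 𝒜 → ℝ) : Prop where
  fin : ∀ g, g ≠ 0 → {v | D.ev v g = 0}.Finite
  ord0 : ∀ v g, g ≠ 0 → (D.ord v g = 0 ↔ D.ev v g ≠ 0)
  add : ∀ v, GP.Adr (D.lam v)
  sur : ∀ v z, ∃ (a : 𝒜) (n : ℕ), n ≠ 0 ∧ D.ev v a = n * z
  sep : ∀ v v', v ≠ v' → ∃ u, D.ev v u = 0 ∧ D.ev v' u ≠ 0
  sym : ∀ g u, g ≠ 0 → u ≠ 0 → (∀ v, D.ev v g = 0 → D.ev v u ≠ 0) →
    Ideal.span {u, (W : 𝒜)} = ⊤ → D.L g u = D.L u g - ρ g u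

variable {D : Pv 𝒜 ι κ} {W : ℕ} {ρ : 𝒜 → 𝒜 → ℝ} {g : 𝒜}

theorem OkT.L_eq (h : OkT D W ρ) (hg : g ≠ 0) (u : 𝒜) :
    D.L g u = ∑ v ∈ (h.fin g hg).toFinset, (D.ord v g : ℝ) * D.lam v (D.ev v u) := by
  refine finsum_eq_sum_of_support_subset _ fun v hv => ?_
  simp only [Set.Finite.coe_toFinset, Set.mem_ofPred_eq]
  by_contra hn
  exact hv (by simp [(h.ord0 v g hg).2 hn])

theorem OkT.L_zero (h : OkT D W ρ) (hg : g ≠ 0) (k : ∀ v, D.ev v g ≠ 0) (u : 𝒜) :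
    D.L g u = 0 := by
  rw [h.L_eq hg]
  exact Finset.sum_eq_zero fun v hv => absurd (by simpa using hv) (k v)

end

section
variable {K 𝒜 : Type} [Field K] [NumberField K] [CommRing 𝒜] [Algebra (𝓞 K) 𝒜] [Algebra ℤ[X] 𝒜]
  {S : AddSubmonoid ℕ} (μ : Module.Basis S (𝓞 K) 𝒜)

/-- the data of the core come from the model -/
structure GxT {n r : ℕ} [NeZero n] (y : Module.Basis (Fin n) ℤ[X] 𝒜) (G : Geo n r)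
    (σ : Fin r → K →+* ℂ) : Prop where
  md : Md μ G.T y G.Nx r
  ok : G.Ok
  c0 : G.C0 = Cz fun w => InfinitePlace.mk (σ w)
  con : ∀ w, ∀ t ∈ G.B.I, ∀ a : 𝓞 K, G.B.ev (y.repr (algebraMap (𝓞 K) 𝒜 a)) w t = σ w a

end

/-- the equation of a small curve -/
noncomputable def sm (𝒜 : Type) [CommRing 𝒜] [Algebra ℤ[X] 𝒜] (a : ℤ) (k : ℕ) : 𝒜 :=
  (((k : ℤ) ^ 2 : ℤ) : 𝒜) * algebraMap ℤ[X] 𝒜 X - a

/-- the shape of the rows about the data of the core -/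
def AllU (Φ : ∀ (K 𝒜 : Type) [Field K] [NumberField K] [CommRing 𝒜] [Algebra (𝓞 K) 𝒜]
    [Algebra ℤ[X] 𝒜] {S : AddSubmonoid ℕ} (_ : Module.Basis S (𝓞 K) 𝒜) {n r : ℕ} [NeZero n]
    (_ : Module.Basis (Fin n) ℤ[X] 𝒜) (_ : Geo n r)
    {ι : Type} {κ : ι → Type} [∀ v, Field (κ v)] (_ : Pv 𝒜 ι κ) (_ : 𝒜 → 𝒜 → ℝ), Prop) : Prop :=
  ∀ (K 𝒜 : Type) [Field K] [NumberField K] [CommRing 𝒜] [Algebra (𝓞 K) 𝒜] [Algebra ℤ[X] 𝒜]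
    (S : AddSubmonoid ℕ) (μ : Module.Basis S (𝓞 K) 𝒜) (n r : ℕ) [NeZero n]
    (y : Module.Basis (Fin n) ℤ[X] 𝒜) (G : Geo n r) (σ : Fin r → K →+* ℂ) (ι : Type) (κ : ι → Type)
    [∀ v, Field (κ v)] [∀ v, NumberField (κ v)] (D : Pv 𝒜 ι κ) (ρ : 𝒜 → 𝒜 → ℝ), GxT μ y G σ →
    OkT D G.W0 ρ →
    (∀ a k, G.Adm a k → ∀ c : 𝓞 K, c ≠ 0 → ρ (algebraMap (𝓞 K) 𝒜 c) (sm 𝒜 a k) = 0) →
    Φ K 𝒜 μ y G D ρ

/-- one small curve -/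
def HsT : Prop := AllU fun _ 𝒜 _ _ _ _ _ _ μ n r _ y G _ _ _ D ρ => ∀ a k, G.Adm a k →
  ∃ (ψ : Pt → ℝ) (c : Fin r → ℝ), (∀ p, ∀ τ ∈ G.P.sp p, (p : ℤ) ∣ (k : ℤ) ^ 2 * τ - a → ¬p ∣ k →
    ∑ y ∈ Fy G.P.r p, ψ ⟨p, τ, y⟩ = 0) ∧ c ∈ G.C0 ∧
  ∀ m g (T : Multiset Pt), Mo μ (G.Nx * m) g → Nd T →
    (∀ z ∈ T, G.P.Is z ∧ On a ((k : ℤ) ^ 2) z ∧ G.P.Zr (y.repr g) z ∧ ¬z.p ∣ k) →
    (nT T : ℤ) = hv (G.T.N (y.repr g)) (n * m) a ((k : ℤ) ^ 2) →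
    D.L g (sm 𝒜 a k) = (T.map ψ).sum +
      ∑ w, c w * Real.log ‖G.B.ev (y.repr g) w ((a : ℝ) / (k : ℝ) ^ 2)‖ - ρ g (sm 𝒜 a k)

/-- one big curve -/
def GsT : Prop := AllU fun _ 𝒜 _ _ _ _ _ _ μ n _ _ _ G _ _ _ D _ => ∀ m g, Mo μ (G.Nx * m) g →
  ∃ Φ c, Dec (Algebra.norm ℤ[X] g) (n * m) (fun a b => D.L g (b * algebraMap ℤ[X] 𝒜 X - a))
    (fun p => D.L g p) Φ c

/-- the twisted identities -/
def IdU : Prop := AllU fun _ 𝒜 _ _ _ _ _ _ _ n r _ y G _ _ _ _ ρ => ∃ W : Tw n r, IdT G W ∧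
  ∀ A a k, W.tw A a k = -ρ (y.equivFun.symm A) (sm 𝒜 a k)

def GeT : Prop := ∀ (K 𝒜 : Type) [Field K] [NumberField K] [CommRing 𝒜] [Algebra (𝓞 K) 𝒜]
  [Algebra ℤ[X] 𝒜] (S : AddSubmonoid ℕ) (μ : Module.Basis S (𝓞 K) 𝒜) (N W : ℕ) (t1 : ℤ) (R : ℝ),
  FM μ → Mo μ N (algebraMap ℤ[X] 𝒜 X) → N.Prime → 2 * Module.finrank ℚ K < N →
  (∃ i : K, i ^ 2 = -1) → 0 < W → ∃ (n r : ℕ) (_ : NeZero n) (y : Module.Basis (Fin n) ℤ[X] 𝒜)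
    (G : Geo n r) (σ : Fin r → K →+* ℂ), GxT μ y G σ ∧ G.W0 = W ∧ G.t1 = t1 ∧
    (G.B.t0 : ℝ) + 2 ≤ -R ∧ CstH G.B R fun w => InfinitePlace.mk (σ w)

/-- the arcs of a chain -/
noncomputable def lp {F : Type} [Field F] {n : ℕ} (γ : Ch F) (x : F) (y : Fin n → F) :
    Lp γ.support n :=
  ⟨fun j => γ j, fun j θ => j.1.e θ x, fun j θ => j.1.d θ x, fun j θ i => j.1.e θ (y i)⟩

/-- the twist of a closed chain -/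
def TauT : Prop := ∀ (F 𝒜 : Type) [Field F] [CharZero F] [CommRing 𝒜] [Algebra ℤ[X] 𝒜]
  (j : 𝒜 →+* F) (γ : Ch F), Cld γ → ∃ R : ℝ, ∀ (n : ℕ) [NeZero n]
    (y : Module.Basis (Fin n) ℤ[X] 𝒜), y 0 = 1 →
    (lp γ (j (algebraMap ℤ[X] 𝒜 X)) fun i => j (y i)).Ok R ∧
    (∀ u : 𝒜, ((lp γ (j (algebraMap ℤ[X] 𝒜 X)) fun i => j (y i)).I fun p θ => p.1.e θ (j u)).im
      = IP γ (j u • dd (j (algebraMap ℤ[X] 𝒜 X)))) ∧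
    ∀ (r : ℕ) (G : Geo n r), G.B.ρ ≤ 1 → (G.B.t0 : ℝ) + 2 ≤ -R → R + 1 ≤ G.t1 →
      (∀ a k, G.Adm a k → ∀ c : F, c ≠ 0 → IsAlgebraic ℤ c → RR γ c (j (sm 𝒜 a k)) = 0) ∧
      TauH G (lp γ (j (algebraMap ℤ[X] 𝒜 X)) fun i => j (y i))
        fun A a k => -RR γ (j (y.equivFun.symm A)) (j (sm 𝒜 a k))

/-- **the twisted engine** -/
def EngT : Prop := ∀ (K F 𝒜 : Type) [Field K] [NumberField K] [Field F] [CharZero F] [CommRing 𝒜]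
  [Algebra (𝓞 K) 𝒜] (j : 𝒜 →+* F) (S : AddSubmonoid ℕ) (μ : Module.Basis S (𝓞 K) 𝒜) (N W : ℕ)
  (x : 𝒜) (ι : Type) (κ : ι → Type) [∀ v, Field (κ v)] [∀ v, NumberField (κ v)] (D : Pv 𝒜 ι κ)
  (γ : Ch F), FM μ → Mo μ N x → N.Prime → 2 * Module.finrank ℚ K < N →
  (∃ i : K, i ^ 2 = -1) → 0 < W → Cld γ → OkT D W (fun g u => RR γ (j g) (j u)) →
  ∀ u : 𝒜, IP γ (j u • dd (j x)) = 0

open GP VE.Z in
def PvT : Prop := AllF fun _ F _ _ _ _ _ _ 𝒜 x => ∀ (M : ℕ) (VV : Set (Subring F))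
  (lam : Subring F → F → ℝ) (ρ : F → F → ℝ), Kt M VV lam ρ → (∀ V ∈ VV, Nu V x) →
  ∃ (ι : Type) (κ : ι → Type) (_ : ∀ v, Field (κ v)) (_ : ∀ v, NumberField (κ v))
    (D : Pv 𝒜 ι κ), OkT D M fun g u => ρ g u

/-- regular differentials come from the model -/
def LG : Prop := AllF fun _ F _ _ _ _ _ _ 𝒜 _ => ∀ ω : Om F, Rw ω → ∃ n : ℕ, n ≠ 0 ∧
  (n : F) • ω ∈ AddSubgroup.closure {w | ∃ u a : 𝒜, w = (u : F) • dd (a : F)}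

def OfHsT : Prop := TbS → FyS → MdS → FbS → RpS → EmbS → HsK → DirS → HsT
def OfGsT : Prop := GskS → NcS → MdS → GsT
def OfIdU : Prop := W.PhiT → MdS → GsT → HsT → IdU
def OfGeT : Prop := TabS → PtsX → BrH → CstO → ARX → MdS → GeT
def OfTauT : Prop := RG.WS → P1 → P2 → TauT
def OfEngT : Prop := RG.WS → MdS → GeT → TauT → IdU → ClL → ArH → CoreT → EngT
def OfPvT : Prop := GP.FinS → GP.NbS → GP.ValS → GP.WeilS → PgS → PhS → PvT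
def OfLG : Prop := GP.FinS → GP.NbS → PgS → M.ClrS → LG
def OfBP : Prop := RG.WS → FmS → FmX → PvT → EngT → LG → BP

end Pool.Agent.MP_f3836a_nt.GV.A.U
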